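import Pool.Agent.N881.GW.M6

/-!
# Elliptic curves over number fields: the criterion
-/

set_option autoImplicit false

namespace Pool.Agent.N881.GW

open MeasureTheory Set Filter Topology NumberField IsDedekindDomain
open Pool.Agent.TH339.MP (nm pr lv FF bb elf av S6 affc lfac)

/-- the contribution of the zeros and poles -/
noncomputable def zp (m : ℂ → ℤ) (A T x τ : ℝ) : ℂ :=
  ∑ᶠ ρ ∈ {ρ : ℂ | m ρ ≠ 0 ∧ 3 / 2 - 2 * A < ρ.re ∧ |ρ.im| ≤ T + 2 * A},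
    (m ρ : ℂ) * (x : ℂ) ^ ((ρ - 3 / 2 - τ * Complex.I) +
      (ρ - 3 / 2 - τ * Complex.I) ^ 2 / (4 * A))

lemma re_shift (w : ℂ) : (w + 3 / 2).re = w.re + 3 / 2 := by simp

lemma im_shift (w : ℂ) : (w + 3 / 2).im = w.im := by simp

lemma re_shift' (w : ℂ) : (w - 3 / 2).re = w.re - 3 / 2 := by simp

lemma im_shift' (w : ℂ) : (w - 3 / 2).im = w.im := by simp

lemma zp_eq (m : ℂ → ℤ) (A T τ : ℝ) {x : ℝ} (hx : 0 < x) :
    zp m A T x τ = ∑ᶠ w ∈ ZS (fun w => m (w + 3 / 2)) A T,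
      ((m (w + 3 / 2) : ℤ) : ℂ) * XX A (Real.log x) (w - τ * Complex.I) := by
  unfold zp
  refine finsum_mem_eq_of_bijOn (fun ρ => ρ - 3 / 2) ⟨?_, ?_, ?_⟩ ?_
  · rintro ρ ⟨h1, h2, h3⟩
    refine ⟨?_, ?_, ?_⟩
    · simpa using h1
    · rw [re_shift']
      linarith
    · rw [im_shift']
      exact h3
  · intro a _ b _ hab
    simpa using hab
  · rintro w ⟨h1, h2, h3⟩
    refine ⟨w + 3 / 2, ⟨h1, ?_, ?_⟩, by simp⟩
    · rw [re_shift]
      linarith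
    · rw [im_shift]
      exact h3
  · intro ρ _
    have hx0 : (x : ℂ) ≠ 0 := by exact_mod_cast hx.ne'
    simp only [sub_add_cancel]
    congr 1
    unfold XX
    rw [Complex.cpow_def_of_ne_zero hx0, Complex.ofReal_log hx.le]

section

variable {K : Type} [Field K] [NumberField K]

open Classical in
/-- the L-series without finitely many factors -/
noncomputable def LSp (W : HeightOneSpectrum (𝓞 K) → WeierstrassCurve (𝓞 K))
    (S : Finset (HeightOneSpectrum (𝓞 K))) (s : ℂ) : ℂ :=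
  ∏' v : HeightOneSpectrum (𝓞 K), if v ∈ S then 1 else elf W v s

/-- the formula -/
def EF (W : HeightOneSpectrum (𝓞 K) → WeierstrassCurve (𝓞 K))
    (S : Finset (HeightOneSpectrum (𝓞 K))) (m : ℂ → ℤ) (A : ℝ) : Prop :=
  ∀ T : ℝ, ∃ C : ℝ, ∀ τ x : ℝ, |τ| ≤ T → 2 ≤ x →
    ‖avg W S A x τ + zp m A T x τ‖ ≤ C * x ^ (-A)

lemma EF_iff (W : HeightOneSpectrum (𝓞 K) → WeierstrassCurve (𝓞 K))
    (S : Finset (HeightOneSpectrum (𝓞 K))) (m : ℂ → ℤ) {A : ℝ} (hA : 0 < A)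
    {β : HeightOneSpectrum (𝓞 K) → Fin 2 → ℂ}
    (hβ : ∀ A x τ : ℝ, 0 < A → 1 < x →
      MM Measure.count (uu (K := K)) (cc β) A (Real.log x) (τ * Complex.I) = avg W S A x τ) :
    EF W S m A ↔ ∀ T : ℝ, ∃ C : ℝ, ∀ τ y : ℝ, |τ| ≤ T → Real.log 2 ≤ y →
      ‖MM Measure.count (uu (K := K)) (cc β) A y (τ * Complex.I) +
        ∑ᶠ w ∈ ZS (fun w => m (w + 3 / 2)) A T,
          ((m (w + 3 / 2) : ℤ) : ℂ) * XX A y (w - τ * Complex.I)‖ ≤ C * Real.exp (-(A * y)) := by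
  unfold EF
  refine forall_congr' fun T => exists_congr fun C => ⟨fun h τ y hτ hy => ?_,
    fun h τ x hτ hx => ?_⟩
  · have h2 : 2 ≤ Real.exp y := by
      rw [← Real.log_le_iff_le_exp (by norm_num)]
      exact hy
    have h1 := h τ (Real.exp y) hτ h2
    rw [zp_eq m A T τ (Real.exp_pos y), ← hβ A (Real.exp y) τ hA (by linarith), Real.log_exp,
      Real.rpow_def_of_pos (Real.exp_pos y), Real.log_exp] at h1
    have e : y * -A = -(A * y) := by ring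
    rwa [e] at h1
  · have hx0 : 0 < x := by linarith
    have h1 := h τ (Real.log x) hτ (Real.log_le_log (by norm_num) hx)
    rw [zp_eq m A T τ hx0, ← hβ A x τ hA (by linarith), Real.rpow_def_of_pos hx0]
    have e : Real.log x * -A = -(A * Real.log x) := by ring
    rwa [e]

/-- **The criterion.** -/
theorem ec_crit (W : HeightOneSpectrum (𝓞 K) → WeierstrassCurve (𝓞 K))
    {S : Finset (HeightOneSpectrum (𝓞 K))}
    (hS : ∀ v : HeightOneSpectrum (𝓞 K), (6 : 𝓞 K) ∈ v.asIdeal → v ∈ S) {B : Set ℝ}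
    (hB : ∀ b ∈ B, 0 < b) {m : ℂ → ℤ} (hm0 : ∀ ρ : ℂ, 3 / 2 < ρ.re → m ρ = 0)
    (hfin : ∀ A : ℝ, 0 < A → (∃ b ∈ B, A < b) → ∀ R : ℝ,
      {ρ : ℂ | m ρ ≠ 0 ∧ 3 / 2 - A < ρ.re ∧ |ρ.im| < R}.Finite) :
    (∃ F : ℂ → ℂ, (∀ s : ℂ, 3 / 2 < s.re → F s = LSp W S s) ∧
      ∀ s : ℂ, (∃ b ∈ B, 3 / 2 - b < s.re) → MeromorphicAt F s ∧
        meromorphicOrderAt F s = (m s : WithTop ℤ)) ↔
    ∀ A : ℝ, 0 < A → (∃ b ∈ B, 2 * A < b) → EF W S m A := by
  obtain ⟨β, hLD, hβ⟩ := ec_data W hS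
  have hfin' : ∀ A : ℝ, 0 < A → (∃ b ∈ B, A < b) → ∀ R : ℝ,
      {w : ℂ | m (w + 3 / 2) ≠ 0 ∧ w ∈ box A R}.Finite := by
    intro A hA hb R
    refine ((hfin A hA hb R).image fun ρ => ρ - 3 / 2).subset ?_
    rintro w ⟨h1, h2, h3⟩
    refine ⟨w + 3 / 2, ⟨h1, ?_, ?_⟩, by simp⟩
    · rw [re_shift]
      linarith
    · rw [im_shift]
      exact h3
  have key := hLD.criterion (μ := fun w => m (w + 3 / 2))
    (fun w hw => hm0 _ (by rw [re_shift]; linarith)) hB hfin' (Real.log_pos one_lt_two)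
  have e1 : Formula Measure.count (uu (K := K)) (cc β) (fun w => m (w + 3 / 2)) B (Real.log 2) ↔
      ∀ A : ℝ, 0 < A → (∃ b ∈ B, 2 * A < b) → EF W S m A := by
    unfold Formula
    exact forall_congr' fun A => forall_congr' fun hA => forall_congr' fun _ =>
      (EF_iff W S m hA hβ).symm
  rw [← e1, ← key]
  constructor
  · rintro ⟨F, h1, h2⟩
    refine ⟨fun z => F (z + 3 / 2), fun z hz => ?_, fun z hz => ?_⟩
    · show F (z + 3 / 2) = _
      rw [h1 _ (by rw [re_shift]; linarith)]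
      unfold LSp
      rw [add_comm]
    · obtain ⟨b, hb, hz⟩ := hz
      obtain ⟨h3, h4⟩ := h2 (z + 3 / 2) ⟨b, hb, by rw [re_shift]; linarith⟩
      refine ⟨meromorphicAt_fun_comp_add_const_iff_meromorphicAt.2 h3, ?_⟩
      rw [meromorphicOrderAt_fun_comp_add_const_eq_meromorphicOrderAt, h4]
  · rintro ⟨Λ, h1, h2⟩
    refine ⟨fun s => Λ (s - 3 / 2), fun s hs => ?_, fun s hs => ?_⟩
    · have := h1 (s - 3 / 2) (by rw [re_shift']; linarith)
      show Λ (s - 3 / 2) = _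
      rw [this]
      unfold LSp
      rw [add_sub_cancel]
    · obtain ⟨b, hb, hz⟩ := hs
      obtain ⟨h3, h4⟩ := h2 (s - 3 / 2) ⟨b, hb, by rw [re_shift']; linarith⟩
      refine ⟨meromorphicAt_fun_comp_sub_const_iff_meromorphicAt.2 h3, ?_⟩
      rw [meromorphicOrderAt_fun_comp_sub_const_eq_meromorphicOrderAt, h4, sub_add_cancel]

/-- **The criterion for meromorphic continuation.** -/
theorem ec_exists (W : HeightOneSpectrum (𝓞 K) → WeierstrassCurve (𝓞 K))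
    {S : Finset (HeightOneSpectrum (𝓞 K))}
    (hS : ∀ v : HeightOneSpectrum (𝓞 K), (6 : 𝓞 K) ∈ v.asIdeal → v ∈ S) {B : Set ℝ}
    (hB : ∀ b ∈ B, 0 < b) :
    (∃ F : ℂ → ℂ, (∀ s : ℂ, 3 / 2 < s.re → F s = LSp W S s) ∧
      ∀ s : ℂ, (∃ b ∈ B, 3 / 2 - b < s.re) → MeromorphicAt F s) ↔
    ∃ m : ℂ → ℤ, (∀ ρ : ℂ, 3 / 2 < ρ.re → m ρ = 0) ∧
      (∀ A : ℝ, 0 < A → (∃ b ∈ B, A < b) → ∀ R : ℝ,
        {ρ : ℂ | m ρ ≠ 0 ∧ 3 / 2 - A < ρ.re ∧ |ρ.im| < R}.Finite) ∧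
      ∀ A : ℝ, 0 < A → (∃ b ∈ B, 2 * A < b) → EF W S m A := by
  constructor
  · rintro ⟨F, h1, h2⟩
    obtain ⟨β, hLD, hβ⟩ := ec_data W hS
    obtain ⟨μ, k1, k2, k3⟩ := (hLD.exists_iff hB (Real.log_pos one_lt_two)).1
      ⟨fun z => F (z + 3 / 2), fun z hz => by
        show F (z + 3 / 2) = _
        rw [h1 _ (by rw [re_shift]; linarith)]
        unfold LSp
        rw [add_comm], fun z hz => by
        obtain ⟨b, hb, hz⟩ := hz
        exact meromorphicAt_fun_comp_add_const_iff_meromorphicAt.2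
          (h2 (z + 3 / 2) ⟨b, hb, by rw [re_shift]; linarith⟩)⟩
    have e0 : (fun w => (fun ρ => μ (ρ - 3 / 2)) (w + 3 / 2)) = μ := by
      funext w
      simp
    refine ⟨fun ρ => μ (ρ - 3 / 2), fun ρ hρ => k1 _ (by rw [re_shift']; linarith), ?_, ?_⟩
    · intro A hA hb R
      refine ((k2 A hA hb R).image fun w => w + 3 / 2).subset ?_
      rintro ρ ⟨h3, h4, h5⟩
      refine ⟨ρ - 3 / 2, ⟨h3, ?_, ?_⟩, by simp⟩
      · rw [re_shift']
        linarith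
      · rw [im_shift']
        exact h5
    · intro A hA hb
      rw [EF_iff W S _ hA hβ]
      simp only [add_sub_cancel_right]
      exact k3 A hA hb
  · rintro ⟨m, hm0, hfin, h⟩
    obtain ⟨F, h1, h2⟩ := (ec_crit W hS hB hm0 hfin).2 h
    exact ⟨F, h1, fun s hs => (h2 s hs).1⟩

lemma lfac_ne {q : ℕ} (hq : 2 ≤ q) {a : ℝ} (ha : |a| ≤ q) {e : ℂ} (he : ‖e‖ ≤ q) {s : ℂ}
    (hs : 3 / 2 < s.re) : lfac q a e s ≠ 0 := by
  have hq0 : (0 : ℝ) < q := by exact_mod_cast (by omega : 0 < q)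
  have hq1 : (1 : ℝ) ≤ q := by exact_mod_cast (by omega : 1 ≤ q)
  have hq2 : (2 : ℝ) ≤ q := by exact_mod_cast hq
  have hx : ‖(q : ℂ) ^ (-s)‖ ≤ (q : ℝ) ^ (-(3 / 2) : ℝ) := by
    rw [Complex.norm_natCast_cpow_of_pos (by omega), Complex.neg_re]
    exact Real.rpow_le_rpow_of_exponent_le hq1 (by linarith)
  have h1 : (q : ℝ) * (q : ℝ) ^ (-(3 / 2) : ℝ) ≤ 708 / 1000 := by
    have e1 : (q : ℝ) * (q : ℝ) ^ (-(3 / 2) : ℝ) = (Real.sqrt q)⁻¹ := by
      rw [Real.sqrt_eq_rpow, ← Real.rpow_neg hq0.le]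
      nth_rewrite 1 [← Real.rpow_one (q : ℝ)]
      rw [← Real.rpow_add hq0]
      norm_num
    rw [e1, inv_le_comm₀ (Real.sqrt_pos.2 hq0) (by norm_num)]
    refine Real.le_sqrt_of_sq_le ?_
    norm_num
    linarith
  have h2 : (q : ℝ) * ((q : ℝ) ^ (-(3 / 2) : ℝ)) ^ 2 ≤ 1 / 4 := by
    have e1 : (q : ℝ) * ((q : ℝ) ^ (-(3 / 2) : ℝ)) ^ 2 = ((q : ℝ) ^ 2)⁻¹ := by
      rw [← Real.rpow_natCast, ← Real.rpow_mul hq0.le]
      nth_rewrite 1 [← Real.rpow_one (q : ℝ)]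
      rw [← Real.rpow_add hq0, ← Real.rpow_natCast (q : ℝ) 2, ← Real.rpow_neg hq0.le]
      norm_num
    rw [e1, inv_le_comm₀ (by positivity) (by norm_num)]
    nlinarith
  have h3 : ‖(a : ℂ) * (q : ℂ) ^ (-s)‖ ≤ 708 / 1000 := by
    rw [norm_mul, Complex.norm_real]
    exact (mul_le_mul ha hx (norm_nonneg _) hq0.le).trans h1
  have h4 : ‖e * (q : ℂ) ^ (-2 * s)‖ ≤ 1 / 4 := by
    rw [Pool.Agent.TH339.MP.cpow_two q (by omega), norm_mul, norm_pow]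
    exact (mul_le_mul he (pow_le_pow_left₀ (norm_nonneg _) hx 2) (by positivity) hq0.le).trans h2
  unfold lfac
  apply inv_ne_zero
  intro h
  have h5 : (1 : ℂ) = (a : ℂ) * (q : ℂ) ^ (-s) - e * (q : ℂ) ^ (-2 * s) := by
    linear_combination h
  have h6 : ‖(1 : ℂ)‖ ≤ 708 / 1000 + 1 / 4 := by
    rw [h5]
    exact (norm_sub_le _ _).trans (add_le_add h3 h4)
  rw [norm_one] at h6
  norm_num at h6

lemma elf_ne (W : HeightOneSpectrum (𝓞 K) → WeierstrassCurve (𝓞 K))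
    (v : HeightOneSpectrum (𝓞 K)) {s : ℂ} (hs : 3 / 2 < s.re) : elf W v s ≠ 0 := by
  unfold elf
  refine lfac_ne (Pool.Agent.TH339.MP.two_le_nm v) (Pool.Agent.TH339.MP.av_triv W v) ?_ hs
  split_ifs
  · simp
  · simp

lemma elf_mer (W : HeightOneSpectrum (𝓞 K) → WeierstrassCurve (𝓞 K))
    (v : HeightOneSpectrum (𝓞 K)) (s : ℂ) : MeromorphicAt (elf W v) s := by
  have hn : ((nm v : ℕ) : ℂ) ≠ 0 := by
    have := nm_ge v
    have h : (nm v : ℝ) ≠ 0 := by linarith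
    exact_mod_cast h
  have h1 : Differentiable ℂ fun s : ℂ => 1 - ((av W v : ℝ) : ℂ) * ((nm v : ℕ) : ℂ) ^ (-s) +
      (open Classical in if (W v).Δ ∈ v.asIdeal then 0 else (nm v : ℂ)) *
        ((nm v : ℕ) : ℂ) ^ (-2 * s) := by
    have e1 : Differentiable ℂ fun s : ℂ => ((nm v : ℕ) : ℂ) ^ (-s) :=
      differentiable_id.neg.const_cpow (Or.inl hn)
    have e2 : Differentiable ℂ fun s : ℂ => ((nm v : ℕ) : ℂ) ^ (-2 * s) :=
      (differentiable_id.const_mul (-2 : ℂ)).const_cpow (Or.inl hn)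
    exact ((differentiable_const _).sub (e1.const_mul _)).add (e2.const_mul _)
  exact (h1.analyticAt s).meromorphicAt.fun_inv

lemma LSp_eq (W : HeightOneSpectrum (𝓞 K) → WeierstrassCurve (𝓞 K))
    (S : Finset (HeightOneSpectrum (𝓞 K))) {s : ℂ} (hs : 3 / 2 < s.re) :
    LSp W S s = (∏' v, elf W v s) * (∏ v ∈ S, elf W v s)⁻¹ := by
  classical
  obtain ⟨b, _, hb⟩ := Pool.Agent.TH339.MP.elf_hasProd W
  obtain ⟨E, hE, _⟩ := hb s hs
  have h1 : Multipliable fun v => elf W v s := hE.multipliable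
  have h4 : HasProd (fun v => if v ∈ S then (elf W v s)⁻¹ else 1) (∏ v ∈ S, (elf W v s)⁻¹) := by
    have h5 := hasProd_prod_of_ne_finset_one (L := SummationFilter.unconditional _)
      (s := S) (f := fun v => if v ∈ S then (elf W v s)⁻¹ else 1) (fun v hv => if_neg hv)
    have h6 : ∏ v ∈ S, (if v ∈ S then (elf W v s)⁻¹ else 1) = ∏ v ∈ S, (elf W v s)⁻¹ :=
      Finset.prod_congr rfl fun v hv => if_pos hv
    rwa [h6] at h5
  have h7 := h1.tprod_mul h4.multipliable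
  rw [h4.tprod_eq, Finset.prod_inv_distrib] at h7
  rw [← h7]
  unfold LSp
  refine tprod_congr fun v => ?_
  by_cases hv : v ∈ S
  · rw [if_pos hv, if_pos hv, mul_inv_cancel₀ (elf_ne W v hs)]
  · rw [if_neg hv, if_neg hv, mul_one]

/-- meromorphic continuation does not depend on finitely many factors -/
theorem full_iff (W : HeightOneSpectrum (𝓞 K) → WeierstrassCurve (𝓞 K))
    (S : Finset (HeightOneSpectrum (𝓞 K))) (B : Set ℝ) :
    (∃ F : ℂ → ℂ, (∀ s : ℂ, 3 / 2 < s.re → F s = ∏' v, elf W v s) ∧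
      ∀ s : ℂ, (∃ b ∈ B, 3 / 2 - b < s.re) → MeromorphicAt F s) ↔
    (∃ F : ℂ → ℂ, (∀ s : ℂ, 3 / 2 < s.re → F s = LSp W S s) ∧
      ∀ s : ℂ, (∃ b ∈ B, 3 / 2 - b < s.re) → MeromorphicAt F s) := by
  have hP : ∀ s : ℂ, MeromorphicAt (fun s => ∏ v ∈ S, elf W v s) s := fun s =>
    MeromorphicAt.fun_prod fun v _ => elf_mer W v s
  have hP0 : ∀ s : ℂ, 3 / 2 < s.re → ∏ v ∈ S, elf W v s ≠ 0 := fun s hs =>
    Finset.prod_ne_zero_iff.2 fun v _ => elf_ne W v hs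
  constructor
  · rintro ⟨F, h1, h2⟩
    refine ⟨fun s => F s * (∏ v ∈ S, elf W v s)⁻¹, fun s hs => ?_, fun s hs => ?_⟩
    · simp only
      rw [h1 s hs, LSp_eq W S hs]
    · exact (h2 s hs).fun_mul (hP s).fun_inv
  · rintro ⟨F, h1, h2⟩
    refine ⟨fun s => F s * ∏ v ∈ S, elf W v s, fun s hs => ?_, fun s hs => ?_⟩
    · simp only
      rw [h1 s hs, LSp_eq W S hs, inv_mul_cancel_right₀ (hP0 s hs)]
    · exact (h2 s hs).fun_mul (hP s)

end

end Pool.Agent.N881.GW
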