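import Mathlib
import Pool.Agent.Helper5.Pf.GlasserReal

/-!
# The Gaussian weight

`gk A y u = √(A / (π y)) exp (-A (u - y)² / y)`; its integral over `y` is `1` for every `u ≥ 0`.
-/

set_option autoImplicit false

namespace Pool.Agent.N881.GW

open MeasureTheory Set Filter Topology
open Pool.Agent.Helper5.PG (glG glG_deriv glG_top glG_bot)

/-- the Gaussian weight -/
noncomputable def gk (A y u : ℝ) : ℝ :=
  √(A / (Real.pi * y)) * Real.exp (-(A * (u - y) ^ 2 / y))

lemma gk_nonneg (A y u : ℝ) : 0 ≤ gk A y u := by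
  unfold gk
  positivity

/-- the first argument -/
noncomputable def qa (A u t : ℝ) : ℝ := √A * √t + √A * u / √t
/-- the second argument -/
noncomputable def qb (A u t : ℝ) : ℝ := √A * √t - √A * u / √t

lemma qa_deriv (A u : ℝ) {t : ℝ} (ht : 0 < t) :
    HasDerivAt (qa A u) (√A / (2 * √t) - √A * u / (2 * √t ^ 3)) t := by
  have hr : 0 < √t := Real.sqrt_pos.2 ht
  have h1 := Real.hasDerivAt_sqrt ht.ne'
  have h2 := (hasDerivAt_const t (√A * u)).fun_div h1 hr.ne'
  refine ((h1.const_mul (√A)).fun_add h2).congr_deriv ?_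
  field_simp
  ring

lemma qb_deriv (A u : ℝ) {t : ℝ} (ht : 0 < t) :
    HasDerivAt (qb A u) (√A / (2 * √t) + √A * u / (2 * √t ^ 3)) t := by
  have hr : 0 < √t := Real.sqrt_pos.2 ht
  have h1 := Real.hasDerivAt_sqrt ht.ne'
  have h2 := (hasDerivAt_const t (√A * u)).fun_div h1 hr.ne'
  refine ((h1.const_mul (√A)).fun_sub h2).congr_deriv ?_
  field_simp
  ring

/-- the antiderivative -/
noncomputable def qq (A u t : ℝ) : ℝ :=
  (glG (qb A u t) + Real.exp (4 * A * u) * glG (qa A u t)) / √Real.pi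

lemma qq_deriv {A : ℝ} (hA : 0 < A) (u : ℝ) {t : ℝ} (ht : 0 < t) :
    HasDerivAt (qq A u) (gk A t u) t := by
  have hr : 0 < √t := Real.sqrt_pos.2 ht
  have hrt : √t ^ 2 = t := Real.sq_sqrt ht.le
  have hAA : √A ^ 2 = A := Real.sq_sqrt hA.le
  have h1 := (glG_deriv (qb A u t)).comp t (qb_deriv A u ht)
  have h2 := ((glG_deriv (qa A u t)).comp t (qa_deriv A u ht)).const_mul (Real.exp (4 * A * u))
  have h3 := (h1.fun_add h2).div_const (√Real.pi)
  refine h3.congr_deriv ?_
  have eb : Real.exp (-(qb A u t) ^ 2) = Real.exp (-(A * (u - t) ^ 2 / t)) := by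
    congr 1
    unfold qb
    have : (√A * √t - √A * u / √t) ^ 2 = √A ^ 2 * (√t ^ 2 - u) ^ 2 / √t ^ 2 := by
      field_simp
    rw [this, hrt, hAA]
    ring
  have ea : Real.exp (4 * A * u) * Real.exp (-(qa A u t) ^ 2) =
      Real.exp (-(A * (u - t) ^ 2 / t)) := by
    rw [← Real.exp_add]
    congr 1
    unfold qa
    have : (√A * √t + √A * u / √t) ^ 2 = √A ^ 2 * (√t ^ 2 + u) ^ 2 / √t ^ 2 := by
      field_simp
    rw [this, hrt, hAA]
    field_simp
    ring
  rw [← mul_assoc, ea, eb]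
  unfold gk
  have hs : √(A / (Real.pi * t)) = √A / (√Real.pi * √t) := by
    rw [Real.sqrt_div hA.le, Real.sqrt_mul Real.pi_pos.le]
  rw [hs]
  have hpi : 0 < √Real.pi := Real.sqrt_pos.2 Real.pi_pos
  field_simp
  ring

lemma qq_top {A : ℝ} (hA : 0 < A) (u : ℝ) :
    Tendsto (qq A u) atTop (𝓝 ((1 + Real.exp (4 * A * u)) / 2)) := by
  have hs : Tendsto Real.sqrt atTop atTop := Real.tendsto_sqrt_atTop
  have hpi : 0 < √Real.pi := Real.sqrt_pos.2 Real.pi_pos
  have h1 : Tendsto (fun t => √A * u / √t) atTop (𝓝 0) := tendsto_const_nhds.div_atTop hs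
  have h0 : Tendsto (fun t => √A * √t) atTop atTop := hs.const_mul_atTop (Real.sqrt_pos.2 hA)
  have ha : Tendsto (qa A u) atTop atTop := h0.atTop_add h1
  have hb : Tendsto (qb A u) atTop atTop := by
    have := h0.atTop_add h1.neg
    refine this.congr fun t => ?_
    unfold qb
    ring
  have h := ((glG_top.comp hb).add ((glG_top.comp ha).const_mul (Real.exp (4 * A * u)))).div_const
    (√Real.pi)
  have e : (√Real.pi / 2 + Real.exp (4 * A * u) * (√Real.pi / 2)) / √Real.pi =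
      (1 + Real.exp (4 * A * u)) / 2 := by
    field_simp
  rw [e] at h
  exact h

lemma qq_zero {A : ℝ} (hA : 0 < A) {u : ℝ} (hu : 0 ≤ u) :
    Tendsto (qq A u) (𝓝[>] 0) (𝓝 ((-1 + Real.exp (4 * A * u)) / 2)) := by
  have hpi : 0 < √Real.pi := Real.sqrt_pos.2 Real.pi_pos
  have hs0 : Tendsto Real.sqrt (𝓝[>] 0) (𝓝 0) := by
    have h := (Real.continuous_sqrt.tendsto 0).mono_left (nhdsWithin_le_nhds (s := Ioi 0))
    rw [Real.sqrt_zero] at h
    exact h
  have hs : Tendsto Real.sqrt (𝓝[>] 0) (𝓝[>] 0) := by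
    rw [tendsto_nhdsWithin_iff]
    refine ⟨hs0, ?_⟩
    filter_upwards [self_mem_nhdsWithin] with t ht
    exact Real.sqrt_pos.2 ht
  have h0 : Tendsto (fun t => √A * √t) (𝓝[>] 0) (𝓝 0) := by
    have := hs0.const_mul (√A)
    rwa [mul_zero] at this
  rcases hu.eq_or_lt with rfl | hu
  · have hc : Continuous glG := by
      rw [continuous_iff_continuousAt]
      exact fun s => (glG_deriv s).continuousAt
    have hz : glG 0 = 0 := by unfold glG; simp
    have h1 : Tendsto (fun t => glG (√A * √t)) (𝓝[>] 0) (𝓝 0) := by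
      have := (hc.tendsto 0).comp h0
      rwa [hz] at this
    have h2 := (h1.add h1).div_const (√Real.pi)
    have e : (-1 + Real.exp (4 * A * 0)) / 2 = ((0 : ℝ) + 0) / √Real.pi := by simp
    rw [e]
    refine h2.congr fun t => ?_
    unfold qq qa qb
    simp
  · have h1 : Tendsto (fun t => √A * u / √t) (𝓝[>] 0) atTop := by
      have h2 := (tendsto_inv_nhdsGT_zero.comp hs).const_mul_atTop
        (mul_pos (Real.sqrt_pos.2 hA) hu)
      exact h2.congr fun t => (div_eq_mul_inv _ _).symm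
    have ha : Tendsto (qa A u) (𝓝[>] 0) atTop := h0.add_atTop h1
    have hb : Tendsto (qb A u) (𝓝[>] 0) atBot := by
      have := h0.add_atBot (tendsto_neg_atTop_atBot.comp h1)
      refine this.congr fun t => ?_
      show √A * √t + -(√A * u / √t) = _
      unfold qb
      ring
    have h := ((glG_bot.comp hb).add ((glG_top.comp ha).const_mul
      (Real.exp (4 * A * u)))).div_const (√Real.pi)
    have e : (-(√Real.pi / 2) + Real.exp (4 * A * u) * (√Real.pi / 2)) / √Real.pi =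
        (-1 + Real.exp (4 * A * u)) / 2 := by
      field_simp
    rw [e] at h
    exact h

/-- **The identity of Cauchy and Schlömilch** for the weight. -/
theorem gk_integral {A : ℝ} (hA : 0 < A) {u : ℝ} (hu : 0 ≤ u) :
    IntegrableOn (fun y => gk A y u) (Ioi 0) ∧ ∫ y in Ioi (0 : ℝ), gk A y u = 1 := by
  obtain ⟨g0, hg0⟩ : ∃ g0, g0 = (-1 + Real.exp (4 * A * u)) / 2 := ⟨_, rfl⟩
  obtain ⟨g, hg⟩ : ∃ g : ℝ → ℝ, g = fun t => if t ≤ 0 then g0 else qq A u t := ⟨_, rfl⟩
  have hgpos : ∀ t : ℝ, 0 < t → g t = qq A u t := fun t ht => by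
    rw [hg]
    exact if_neg (not_le.2 ht)
  have hgzero : g 0 = g0 := by
    rw [hg]
    exact if_pos le_rfl
  have hcont : ContinuousWithinAt g (Ici 0) 0 := by
    rw [← continuousWithinAt_Ioi_iff_Ici]
    show Tendsto g (𝓝[>] 0) (𝓝 (g 0))
    rw [hgzero, hg0]
    refine (qq_zero hA hu).congr' ?_
    filter_upwards [self_mem_nhdsWithin] with t ht
    exact (hgpos t ht).symm
  have hderiv : ∀ t ∈ Ioi (0:ℝ), HasDerivAt g (gk A t u) t := by
    intro t ht
    refine (qq_deriv hA u ht).congr_of_eventuallyEq ?_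
    filter_upwards [Ioi_mem_nhds ht] with s hs
    exact hgpos s hs
  have hnn : ∀ t ∈ Ioi (0:ℝ), 0 ≤ gk A t u := fun t _ => gk_nonneg A t u
  have htop : Tendsto g atTop (𝓝 ((1 + Real.exp (4 * A * u)) / 2)) := by
    refine (qq_top hA u).congr' ?_
    filter_upwards [eventually_gt_atTop 0] with t ht
    exact (hgpos t ht).symm
  refine ⟨integrableOn_Ioi_deriv_of_nonneg hcont hderiv hnn htop, ?_⟩
  rw [integral_Ioi_of_hasDerivAt_of_nonneg hcont hderiv hnn htop, hgzero, hg0]
  ring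

end Pool.Agent.N881.GW
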