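import Pool.Agent.N881.GW.A
import Pool.Agent.HopfPinch.AnS1

/-!
# Laplace transforms and their Gaussian averages
-/

set_option autoImplicit false

namespace Pool.Agent.N881.GW

open MeasureTheory Set Filter Topology

variable {Ω : Type} [MeasurableSpace Ω] {m : Measure Ω} {u : Ω → ℝ} {c : Ω → ℂ}

/-- Data of a Laplace transform which converges absolutely for `Re z > 0`. -/
structure Dat (m : Measure Ω) (u : Ω → ℝ) (c : Ω → ℂ) : Prop where
  hu : ∀ ω, 0 ≤ u ω
  mu : Measurable u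
  mc : Measurable c
  int : ∀ σ : ℝ, 0 < σ → Integrable (fun ω => ‖c ω‖ * Real.exp (-(σ * u ω))) m

/-- The Laplace transform. -/
noncomputable def phi (m : Measure Ω) (u : Ω → ℝ) (c : Ω → ℂ) (z : ℂ) : ℂ :=
  ∫ ω, c ω * Complex.exp (-(z * u ω)) ∂m

/-- The Gaussian average. -/
noncomputable def MM (m : Measure Ω) (u : Ω → ℝ) (c : Ω → ℂ) (A y : ℝ) (z : ℂ) : ℂ :=
  ∫ ω, c ω * Complex.exp (-(z * u ω)) * (gk A y (u ω) : ℂ) ∂m

/-- The constant of the trivial bound. -/
noncomputable def KK (m : Measure Ω) (u : Ω → ℝ) (c : Ω → ℂ) (σ : ℝ) : ℝ :=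
  ∫ ω, ‖c ω‖ * Real.exp (-(σ * u ω)) ∂m

lemma KK_nonneg (σ : ℝ) : 0 ≤ KK m u c σ :=
  integral_nonneg fun ω => by positivity

lemma quad_le {A y b u : ℝ} (hA : 0 < A) (hy : 0 < y) :
    b * u - A * (u - y) ^ 2 / y ≤ y * (b + b ^ 2 / (4 * A)) := by
  have h : y * (b + b ^ 2 / (4 * A)) - (b * u - A * (u - y) ^ 2 / y) =
      A / y * (u - y - b * y / (2 * A)) ^ 2 := by
    field_simp
    ring
  have h2 : 0 ≤ A / y * (u - y - b * y / (2 * A)) ^ 2 := by positivity
  linarith

lemma ker_le {A y u σ b x : ℝ} (hA : 0 < A) (hy : 0 < y) (hu : 0 ≤ u) (hb : σ - x ≤ b) :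
    Real.exp (-(x * u)) * gk A y u ≤
      √(A / (Real.pi * y)) * Real.exp (y * (b + b ^ 2 / (4 * A))) * Real.exp (-(σ * u)) := by
  unfold gk
  have h1 : Real.exp (-(x * u)) * Real.exp (-(A * (u - y) ^ 2 / y)) ≤
      Real.exp (y * (b + b ^ 2 / (4 * A))) * Real.exp (-(σ * u)) := by
    rw [← Real.exp_add, ← Real.exp_add]
    apply Real.exp_le_exp.2
    have h2 := quad_le (u := u) (b := b) hA hy
    have h3 : (σ - x) * u ≤ b * u := mul_le_mul_of_nonneg_right hb hu
    linarith
  calc Real.exp (-(x * u)) * (√(A / (Real.pi * y)) * Real.exp (-(A * (u - y) ^ 2 / y)))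
      = √(A / (Real.pi * y)) * (Real.exp (-(x * u)) * Real.exp (-(A * (u - y) ^ 2 / y))) := by ring
    _ ≤ √(A / (Real.pi * y)) * (Real.exp (y * (b + b ^ 2 / (4 * A))) * Real.exp (-(σ * u))) :=
        mul_le_mul_of_nonneg_left h1 (Real.sqrt_nonneg _)
    _ = _ := by ring

lemma norm_cexp (z : ℂ) (u : ℝ) : ‖Complex.exp (-(z * u))‖ = Real.exp (-(z.re * u)) := by
  rw [Complex.norm_exp]
  congr 1
  simp

lemma norm_ker (z : ℂ) (A y u : ℝ) (a : ℂ) :
    ‖a * Complex.exp (-(z * u)) * (gk A y u : ℂ)‖ = ‖a‖ * (Real.exp (-(z.re * u)) * gk A y u) := by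
  rw [norm_mul, norm_mul, norm_cexp, Complex.norm_real, Real.norm_of_nonneg (gk_nonneg A y u)]
  ring

lemma gk_meas (A y : ℝ) : Measurable (gk A y) := by
  unfold gk
  fun_prop

lemma gk_meas2 (A : ℝ) : Measurable fun p : ℝ × ℝ => gk A p.1 p.2 := by
  unfold gk
  fun_prop

lemma gk_nonpos {A y : ℝ} (hA : 0 < A) (hy : y ≤ 0) (u : ℝ) : gk A y u = 0 := by
  unfold gk
  rw [Real.sqrt_eq_zero_of_nonpos, zero_mul]
  exact div_nonpos_of_nonneg_of_nonpos hA.le (mul_nonpos_of_nonneg_of_nonpos Real.pi_pos.le hy)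

lemma MM_nonpos {A y : ℝ} (hA : 0 < A) (hy : y ≤ 0) (z : ℂ) : MM m u c A y z = 0 := by
  unfold MM
  simp [gk_nonpos hA hy]

lemma Dat.meas_ker (D : Dat m u c) (A y : ℝ) (z : ℂ) :
    Measurable fun ω => c ω * Complex.exp (-(z * u ω)) * (gk A y (u ω) : ℂ) := by
  have h1 : Measurable fun ω => gk A y (u ω) := (gk_meas A y).comp D.mu
  have := D.mu
  have := D.mc
  fun_prop

/-- the pointwise bound -/
lemma Dat.ker_bound (D : Dat m u c) {A y σ b : ℝ} (hA : 0 < A) (hy : 0 < y) {z : ℂ}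
    (hb : σ - z.re ≤ b) (ω : Ω) :
    ‖c ω * Complex.exp (-(z * u ω)) * (gk A y (u ω) : ℂ)‖ ≤
      √(A / (Real.pi * y)) * Real.exp (y * (b + b ^ 2 / (4 * A))) *
        (‖c ω‖ * Real.exp (-(σ * u ω))) := by
  rw [norm_ker]
  calc _ ≤ ‖c ω‖ * (√(A / (Real.pi * y)) * Real.exp (y * (b + b ^ 2 / (4 * A))) *
        Real.exp (-(σ * u ω))) :=
        mul_le_mul_of_nonneg_left (ker_le hA hy (D.hu ω) hb) (norm_nonneg _)
    _ = _ := by ring

lemma Dat.ker_integrable (D : Dat m u c) {A y : ℝ} (hA : 0 < A) (hy : 0 < y) (z : ℂ) :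
    Integrable (fun ω => c ω * Complex.exp (-(z * u ω)) * (gk A y (u ω) : ℂ)) m :=
  ((D.int 1 one_pos).const_mul _).mono' (D.meas_ker A y z).aestronglyMeasurable
    (Eventually.of_forall fun ω => D.ker_bound hA hy (b := 1 - z.re) le_rfl ω)

/-- **The trivial bound.** -/
lemma Dat.MM_le (D : Dat m u c) {A y σ b : ℝ} (hA : 0 < A) (hy : 0 < y) (hσ : 0 < σ) {z : ℂ}
    (hb : σ - z.re ≤ b) :
    ‖MM m u c A y z‖ ≤
      √(A / (Real.pi * y)) * Real.exp (y * (b + b ^ 2 / (4 * A))) * KK m u c σ := by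
  unfold MM KK
  rw [← integral_const_mul]
  exact norm_integral_le_of_norm_le ((D.int σ hσ).const_mul _)
    (Eventually.of_forall fun ω => D.ker_bound hA hy hb ω)

/-- The averages are entire functions of `z`. -/
lemma Dat.MM_diff (D : Dat m u c) {A : ℝ} (hA : 0 < A) (y : ℝ) :
    Differentiable ℂ (MM m u c A y) := by
  rcases le_or_gt y 0 with hy | hy
  · have : MM m u c A y = fun _ => 0 := funext fun z => MM_nonpos hA hy z
    rw [this]
    exact differentiable_const _
  intro z0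
  have hop : IsOpen {z : ℂ | z0.re - 1 < z.re} := isOpen_lt continuous_const Complex.continuous_re
  refine (Pool.Agent.HP.differentiableOn_integral m
    (fun ω z => c ω * Complex.exp (-(z * u ω)) * (gk A y (u ω) : ℂ))
    {z : ℂ | z0.re - 1 < z.re} hop (fun z _ => (D.meas_ker A y z).aestronglyMeasurable)
    (fun ω => ?_) _ ((D.int 1 one_pos).const_mul _)
    (fun ω z hz => D.ker_bound hA hy (b := 2 - z0.re) ?_ ω)).differentiableAt
    (hop.mem_nhds ?_)
  · refine Differentiable.differentiableOn ?_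
    fun_prop
  · simp only [mem_ofPred_eq] at hz
    linarith
  · simp only [mem_ofPred_eq]
    linarith

/-- **Shifting the line.** -/
lemma gk_shift {A A' y y' b : ℝ} (hA : 0 < A) (hA' : A' = A + b / 2) (hA'0 : 0 < A')
    (hy : 0 < y) (hy' : y' = y * A' / A) (u : ℝ) :
    Real.exp (b * u) * gk A y u = Real.exp (A' * y' - A * y) * gk A' y' u := by
  have hy'0 : 0 < y' := by rw [hy']; positivity
  unfold gk
  have h1 : A' / (Real.pi * y') = A / (Real.pi * y) := by
    rw [hy']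
    field_simp
  rw [h1]
  have h2 : Real.exp (b * u) * Real.exp (-(A * (u - y) ^ 2 / y)) =
      Real.exp (A' * y' - A * y) * Real.exp (-(A' * (u - y') ^ 2 / y')) := by
    rw [← Real.exp_add, ← Real.exp_add]
    congr 1
    have hb : b = 2 * A' - 2 * A := by linarith
    rw [hy', hb]
    field_simp
    ring
  calc _ = √(A / (Real.pi * y)) * (Real.exp (b * u) * Real.exp (-(A * (u - y) ^ 2 / y))) := by ring
    _ = _ := by rw [h2]; ring

lemma MM_shift {A A' y y' b : ℝ} (hA : 0 < A) (hA' : A' = A + b / 2) (hA'0 : 0 < A')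
    (hy : 0 < y) (hy' : y' = y * A' / A) (z : ℂ) :
    MM m u c A y (z - b) = (Real.exp (A' * y' - A * y) : ℂ) * MM m u c A' y' z := by
  unfold MM
  rw [← integral_const_mul]
  refine integral_congr_ae (Eventually.of_forall fun ω => ?_)
  have h := gk_shift hA hA' hA'0 hy hy' (u ω)
  have e : Complex.exp (-((z - b) * u ω)) = Complex.exp (-(z * u ω)) *
      (Real.exp (b * u ω) : ℂ) := by
    rw [Complex.ofReal_exp, ← Complex.exp_add]
    congr 1
    push_cast
    ring
  simp only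
  rw [e]
  calc c ω * (Complex.exp (-(z * u ω)) * (Real.exp (b * u ω) : ℂ)) * (gk A y (u ω) : ℂ)
      = c ω * Complex.exp (-(z * u ω)) * ((Real.exp (b * u ω) * gk A y (u ω) : ℝ) : ℂ) := by
        push_cast; ring
    _ = _ := by rw [h]; push_cast; ring

lemma phi_integrable (D : Dat m u c) {z : ℂ} (hz : 0 < z.re) :
    Integrable (fun ω => c ω * Complex.exp (-(z * u ω))) m := by
  have := D.mu
  have := D.mc
  have hm : Measurable fun ω => c ω * Complex.exp (-(z * u ω)) := by fun_prop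
  refine (D.int z.re hz).mono' hm.aestronglyMeasurable (Eventually.of_forall fun ω => ?_)
  rw [norm_mul, norm_cexp]

lemma norm_phi_le (D : Dat m u c) {σ : ℝ} (hσ : 0 < σ) {z : ℂ} (hz : σ ≤ z.re) :
    ‖phi m u c z‖ ≤ KK m u c σ := by
  unfold phi KK
  refine norm_integral_le_of_norm_le (D.int σ hσ) (Eventually.of_forall fun ω => ?_)
  rw [norm_mul, norm_cexp]
  refine mul_le_mul_of_nonneg_left (Real.exp_le_exp.2 ?_) (norm_nonneg _)
  have := mul_le_mul_of_nonneg_right hz (D.hu ω)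
  linarith

/-- the kernel as a function of both variables -/
lemma Dat.meas2 (D : Dat m u c) (A : ℝ) (z : ℂ) :
    Measurable (Function.uncurry fun (y : ℝ) (ω : Ω) =>
      c ω * Complex.exp (-(z * u ω)) * (gk A y (u ω) : ℂ)) := by
  have h0 : Measurable fun p : ℝ × Ω => (p.1, u p.2) :=
    measurable_fst.prodMk (D.mu.comp measurable_snd)
  have h1 : Measurable fun p : ℝ × Ω => gk A p.1 (u p.2) := (gk_meas2 A).comp h0
  have h2 : Measurable fun p : ℝ × Ω => u p.2 := D.mu.comp measurable_snd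
  have h3 : Measurable fun p : ℝ × Ω => c p.2 := D.mc.comp measurable_snd
  have h4 : Measurable fun p : ℝ × Ω => -(z * (u p.2 : ℂ)) :=
    ((Complex.measurable_ofReal.comp h2).const_mul z).neg
  exact (h3.mul (Complex.measurable_exp.comp h4)).mul (Complex.measurable_ofReal.comp h1)

/-- **Inversion:** the integral of the averages is the Laplace transform. -/
theorem Dat.inversion [SFinite m] (D : Dat m u c) {A : ℝ} (hA : 0 < A) {z : ℂ} (hz : 0 < z.re) :
    ∫ y in Ioi (0 : ℝ), MM m u c A y z = phi m u c z := by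
  unfold MM phi
  have hint : Integrable (Function.uncurry fun (y : ℝ) (ω : Ω) =>
      c ω * Complex.exp (-(z * u ω)) * (gk A y (u ω) : ℂ))
      ((volume.restrict (Ioi (0 : ℝ))).prod m) := by
    rw [integrable_prod_iff' (D.meas2 A z).aestronglyMeasurable]
    refine ⟨Eventually.of_forall fun ω => ?_, ?_⟩
    · have h5 : Integrable (fun y => (c ω * Complex.exp (-(z * u ω))) * (gk A y (u ω) : ℂ))
          (volume.restrict (Ioi (0 : ℝ))) :=
        ((gk_integral hA (D.hu ω)).1.ofReal (𝕜 := ℂ)).const_mul _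
      exact h5
    · have e : (fun ω => ∫ y in Ioi (0 : ℝ), ‖Function.uncurry (fun (y : ℝ) (ω : Ω) =>
          c ω * Complex.exp (-(z * u ω)) * (gk A y (u ω) : ℂ)) (y, ω)‖) =
          fun ω => ‖c ω‖ * Real.exp (-(z.re * u ω)) := by
        funext ω
        simp only [Function.uncurry]
        have : ∀ y, ‖c ω * Complex.exp (-(z * u ω)) * (gk A y (u ω) : ℂ)‖ =
            ‖c ω‖ * Real.exp (-(z.re * u ω)) * gk A y (u ω) := fun y => by
          rw [norm_ker]; ring
        simp only [this]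
        rw [integral_const_mul, (gk_integral hA (D.hu ω)).2, mul_one]
      rw [e]
      exact D.int _ hz
  rw [integral_integral_swap hint]
  refine integral_congr_ae (Eventually.of_forall fun ω => ?_)
  simp only
  rw [integral_const_mul, integral_complex_ofReal, (gk_integral hA (D.hu ω)).2]
  simp

end Pool.Agent.N881.GW
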