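import Pool.Agent.N881.GW.B

/-!
# Small averages give a continuation
-/

set_option autoImplicit false

namespace Pool.Agent.N881.GW

open MeasureTheory Set Filter Topology

variable {Ω : Type} [MeasurableSpace Ω] {m : Measure Ω} {u : Ω → ℝ} {c : Ω → ℂ}

lemma sqrt_le_of_one_le {A y : ℝ} (hA : 0 < A) (hy : 1 ≤ y) : √(A / (Real.pi * y)) ≤ √A := by
  apply Real.sqrt_le_sqrt
  have h1 : 1 ≤ Real.pi * y := by
    have := Real.pi_gt_three
    nlinarith
  exact div_le_self hA.le h1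

lemma norm_gauss (κ y τ0 : ℝ) (ζ : ℂ) :
    ‖Complex.exp (κ * y * (ζ - τ0 * Complex.I) ^ 2)‖ =
      Real.exp (κ * y * (ζ.re ^ 2 - (ζ.im - τ0) ^ 2)) := by
  rw [Complex.norm_exp]
  congr 1
  have : (κ : ℂ) * y = ((κ * y : ℝ) : ℂ) := by push_cast; ring
  rw [this, Complex.re_ofReal_mul]
  congr 1
  simp [sq]

/-- **Exponential decay in the interior.** -/
theorem decay_unif {A' b : ℝ} (hb : 0 < b) (hbA : b < 2 * A') :
    ∃ T1 η : ℝ, 0 < T1 ∧ 0 < η ∧ ∀ {Ω : Type} [MeasurableSpace Ω] {m : Measure Ω} {u : Ω → ℝ}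
      {c : Ω → ℂ} (_ : Dat m u c) (T C y0 : ℝ),
      (∀ τ y : ℝ, |τ| ≤ T + T1 → y0 ≤ y →
        ‖MM m u c A' y (τ * Complex.I)‖ ≤ C * Real.exp (-(A' * y))) →
      ∃ C1 Y0 : ℝ, 0 < Y0 ∧ 0 ≤ C1 ∧ ∀ (z : ℂ) (y : ℝ), -b ≤ z.re → |z.im| ≤ T → Y0 ≤ y →
        ‖MM m u c (A' - b / 2) y z‖ ≤ C1 * Real.exp (-(η * y)) := by
  set A : ℝ := A' - b / 2 with hAdef
  have hA : 0 < A := by rw [hAdef]; linarith
  have hA'0 : 0 < A' := by linarith
  set σ1 : ℝ := min 1 (4 * A) with hσ1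
  have hσ10 : 0 < σ1 := lt_min one_pos (by positivity)
  have hσ1A : σ1 ≤ 4 * A := min_le_right _ _
  set κ : ℝ := min (A / (2 * b ^ 2)) (1 / (8 * σ1)) with hκ
  have hκ0 : 0 < κ := lt_min (by positivity) (by positivity)
  have hκb : κ * b ^ 2 ≤ A / 2 := by
    calc κ * b ^ 2 ≤ A / (2 * b ^ 2) * b ^ 2 :=
          mul_le_mul_of_nonneg_right (min_le_left _ _) (by positivity)
      _ = A / 2 := by field_simp
  have hκσ : κ * σ1 ^ 2 ≤ σ1 / 8 := by
    calc κ * σ1 ^ 2 ≤ 1 / (8 * σ1) * σ1 ^ 2 :=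
          mul_le_mul_of_nonneg_right (min_le_right _ _) (by positivity)
      _ = σ1 / 8 := by field_simp
  set K0 : ℝ := (b + 1) + (b + 1) ^ 2 / (4 * A) with hK0
  have hK00 : 0 < K0 := by positivity
  set T1 : ℝ := √((K0 + κ * (b ^ 2 + σ1 ^ 2) + 1) / κ) with hT1
  have hT1sq : κ * T1 ^ 2 = K0 + κ * (b ^ 2 + σ1 ^ 2) + 1 := by
    rw [hT1, Real.sq_sqrt (by positivity)]
    field_simp
  have hT10 : 0 < T1 := Real.sqrt_pos.2 (by positivity)
  set η : ℝ := min (A / 2) (min 1 (σ1 / 8)) with hη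
  have hη0 : 0 < η := lt_min (by positivity) (lt_min one_pos (by positivity))
  have hη1 : η ≤ A / 2 := min_le_left _ _
  have hη2 : η ≤ 1 := (min_le_right _ _).trans (min_le_left _ _)
  have hη3 : η ≤ σ1 / 8 := (min_le_right _ _).trans (min_le_right _ _)
  refine ⟨T1, η, hT10, hη0, ?_⟩
  intro Ω _ m u c D T C y0 hyp
  set k1 : ℝ := √A * KK m u c 1 with hk1
  set k2 : ℝ := √A * KK m u c (σ1 / 2) with hk2
  have hk10 : 0 ≤ k1 := mul_nonneg (Real.sqrt_nonneg _) (KK_nonneg _)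
  have hk20 : 0 ≤ k2 := mul_nonneg (Real.sqrt_nonneg _) (KK_nonneg _)
  set C1 : ℝ := |C| + k1 + k2 with hC1
  have hC10 : 0 ≤ C1 := by positivity
  refine ⟨C1, max 1 y0, lt_of_lt_of_le one_pos (le_max_left _ _), hC10,
    fun z y hz1 hz2 hy => ?_⟩
  have hy1 : 1 ≤ y := (le_max_left _ _).trans hy
  have hy2 : y0 ≤ y := (le_max_right _ _).trans hy
  have hyp0 : 0 < y := by linarith
  have hsq := sqrt_le_of_one_le hA hy1
  -- the right part
  have hright : ∀ ζ : ℂ, σ1 ≤ ζ.re → ‖MM m u c A y ζ‖ ≤ k2 * Real.exp (-(σ1 / 4 * y)) := by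
    intro ζ hζ
    have h1 := D.MM_le (σ := σ1 / 2) (b := -(σ1 / 2)) hA hyp0 (by positivity) (z := ζ)
      (by linarith)
    refine h1.trans ?_
    have h2 : Real.exp (y * (-(σ1 / 2) + (-(σ1 / 2)) ^ 2 / (4 * A))) ≤
        Real.exp (-(σ1 / 4 * y)) := by
      apply Real.exp_le_exp.2
      have h3 : (-(σ1 / 2)) ^ 2 / (4 * A) ≤ σ1 / 4 := by
        rw [div_le_iff₀ (by positivity)]
        nlinarith
      nlinarith
    calc √(A / (Real.pi * y)) * Real.exp (y * (-(σ1 / 2) + (-(σ1 / 2)) ^ 2 / (4 * A))) *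
          KK m u c (σ1 / 2)
        ≤ √A * Real.exp (-(σ1 / 4 * y)) * KK m u c (σ1 / 2) := by
          refine mul_le_mul_of_nonneg_right ?_ (KK_nonneg _)
          exact mul_le_mul hsq h2 (Real.exp_pos _).le (Real.sqrt_nonneg _)
      _ = k2 * Real.exp (-(σ1 / 4 * y)) := by rw [hk2]; ring
  -- the trivial bound
  have htriv : ∀ ζ : ℂ, -b ≤ ζ.re → ‖MM m u c A y ζ‖ ≤ k1 * Real.exp (y * K0) := by
    intro ζ hζ
    have h1 := D.MM_le (σ := 1) (b := b + 1) hA hyp0 one_pos (z := ζ) (by linarith)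
    refine h1.trans ?_
    calc √(A / (Real.pi * y)) * Real.exp (y * (b + 1 + (b + 1) ^ 2 / (4 * A))) * KK m u c 1
        ≤ √A * Real.exp (y * K0) * KK m u c 1 := by
          refine mul_le_mul_of_nonneg_right ?_ (KK_nonneg _)
          exact mul_le_mul_of_nonneg_right hsq (Real.exp_pos _).le
      _ = k1 * Real.exp (y * K0) := by rw [hk1]; ring
  rcases le_or_gt σ1 z.re with hσ | hσ
  · refine (hright z hσ).trans ?_
    have h1 : k2 ≤ C1 := by rw [hC1]; have := abs_nonneg C; linarith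
    have h2 : Real.exp (-(σ1 / 4 * y)) ≤ Real.exp (-(η * y)) := by
      apply Real.exp_le_exp.2
      nlinarith
    exact mul_le_mul h1 h2 (Real.exp_pos _).le hC10
  -- the strip
  set τ0 : ℝ := z.im with hτ0
  set f : ℂ → ℂ := fun ζ => MM m u c A y ζ * Complex.exp (κ * y * (ζ - τ0 * Complex.I) ^ 2) with hf
  have hfn : ∀ ζ : ℂ, ‖f ζ‖ = ‖MM m u c A y ζ‖ *
      Real.exp (κ * y * (ζ.re ^ 2 - (ζ.im - τ0) ^ 2)) := by
    intro ζ
    rw [hf]
    simp only
    rw [norm_mul, norm_gauss]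
  have hfd : Differentiable ℂ f := by
    have h1 : Differentiable ℂ (MM m u c A y) := D.MM_diff hA y
    have h2 : Differentiable ℂ fun ζ : ℂ =>
        Complex.exp (κ * y * (ζ - τ0 * Complex.I) ^ 2) := by fun_prop
    exact h1.fun_mul h2
  have hκy : 0 ≤ κ * y := by positivity
  have key := PhragmenLindelof.vertical_strip (f := f) (a := -b) (b := σ1)
    (C := C1 * Real.exp (-(η * y))) (z := z) hfd.diffContOnCl ?_ ?_ ?_ hz1 hσ.le
  · rw [hfn] at key
    have h1 : 1 ≤ Real.exp (κ * y * (z.re ^ 2 - (z.im - τ0) ^ 2)) := by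
      rw [hτ0, sub_self]
      apply Real.one_le_exp
      have : 0 ≤ z.re ^ 2 := sq_nonneg _
      nlinarith
    calc ‖MM m u c A y z‖ = ‖MM m u c A y z‖ * 1 := (mul_one _).symm
      _ ≤ ‖MM m u c A y z‖ * Real.exp (κ * y * (z.re ^ 2 - (z.im - τ0) ^ 2)) :=
          mul_le_mul_of_nonneg_left h1 (norm_nonneg _)
      _ ≤ _ := key
  · refine ⟨0, div_pos Real.pi_pos (by linarith), 0, ?_⟩
    refine Asymptotics.IsBigO.of_bound (k1 * Real.exp (y * K0) *
      Real.exp (κ * y * (b ^ 2 + σ1 ^ 2))) ?_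
    rw [eventually_inf_principal]
    refine Eventually.of_forall fun ζ hζ => ?_
    have hζ1 : -b < ζ.re := hζ.1
    have hζ2 : ζ.re < σ1 := hζ.2
    rw [hfn]
    have h1 := htriv ζ hζ1.le
    have h2 : Real.exp (κ * y * (ζ.re ^ 2 - (ζ.im - τ0) ^ 2)) ≤
        Real.exp (κ * y * (b ^ 2 + σ1 ^ 2)) := by
      apply Real.exp_le_exp.2
      refine mul_le_mul_of_nonneg_left ?_ hκy
      have h3 : ζ.re ^ 2 ≤ b ^ 2 + σ1 ^ 2 := by
        rcases le_total 0 ζ.re with h | h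
        · nlinarith
        · nlinarith
      have := sq_nonneg (ζ.im - τ0)
      linarith
    calc ‖MM m u c A y ζ‖ * Real.exp (κ * y * (ζ.re ^ 2 - (ζ.im - τ0) ^ 2))
        ≤ (k1 * Real.exp (y * K0)) * Real.exp (κ * y * (b ^ 2 + σ1 ^ 2)) :=
          mul_le_mul h1 h2 (Real.exp_pos _).le (by positivity)
      _ = _ := by simp
  · intro ζ hζ
    rw [hfn]
    rcases le_or_gt |ζ.im| (T + T1) with hi | hi
    · have e1 : ζ = (ζ.im : ℂ) * Complex.I - (b : ℂ) := by
        apply Complex.ext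
        · simp [hζ]
        · simp
      have h1 : ‖MM m u c A y ζ‖ ≤ |C| * Real.exp (-(A * y)) := by
        have h2 := MM_shift (m := m) (u := u) (c := c) (A := A) (A' := A') (b := b) hA
          (by rw [hAdef]; ring) hA'0 hyp0 rfl ((ζ.im : ℂ) * Complex.I)
        rw [← e1] at h2
        rw [h2, norm_mul, Complex.norm_real, Real.norm_of_nonneg (Real.exp_pos _).le]
        have hy' : y0 ≤ y * A' / A := by
          refine hy2.trans ?_
          rw [le_div_iff₀ hA]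
          have : A ≤ A' := by rw [hAdef]; linarith
          nlinarith
        have h3 := hyp ζ.im (y * A' / A) hi hy'
        calc Real.exp (A' * (y * A' / A) - A * y) * ‖MM m u c A' (y * A' / A)
              ((ζ.im : ℂ) * Complex.I)‖
            ≤ Real.exp (A' * (y * A' / A) - A * y) *
                (|C| * Real.exp (-(A' * (y * A' / A)))) := by
              refine mul_le_mul_of_nonneg_left (h3.trans ?_) (Real.exp_pos _).le
              exact mul_le_mul_of_nonneg_right (le_abs_self C) (Real.exp_pos _).le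
          _ = |C| * (Real.exp (A' * (y * A' / A) - A * y) *
                Real.exp (-(A' * (y * A' / A)))) := by ring
          _ = |C| * Real.exp (-(A * y)) := by
              rw [← Real.exp_add]
              congr 2
              ring
      have h2 : Real.exp (κ * y * (ζ.re ^ 2 - (ζ.im - τ0) ^ 2)) ≤ Real.exp (A / 2 * y) := by
        apply Real.exp_le_exp.2
        rw [hζ]
        have := sq_nonneg (ζ.im - τ0)
        have h4 : κ * y * (ζ.im - τ0) ^ 2 ≥ 0 := by positivity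
        nlinarith
      calc ‖MM m u c A y ζ‖ * Real.exp (κ * y * (ζ.re ^ 2 - (ζ.im - τ0) ^ 2))
          ≤ (|C| * Real.exp (-(A * y))) * Real.exp (A / 2 * y) :=
            mul_le_mul h1 h2 (Real.exp_pos _).le (by positivity)
        _ = |C| * Real.exp (-(A / 2 * y)) := by
            rw [mul_assoc, ← Real.exp_add]
            congr 2
            ring
        _ ≤ C1 * Real.exp (-(η * y)) := by
            refine mul_le_mul ?_ (Real.exp_le_exp.2 ?_) (Real.exp_pos _).le hC10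
            · rw [hC1]; linarith
            · nlinarith
    · have h1 := htriv ζ hζ.ge
      have h2 : T1 ^ 2 ≤ (ζ.im - τ0) ^ 2 := by
        have h3 : T1 ≤ |ζ.im - τ0| := by
          have h4 := abs_sub_abs_le_abs_sub ζ.im τ0
          linarith
        calc T1 ^ 2 ≤ |ζ.im - τ0| ^ 2 := pow_le_pow_left₀ hT10.le h3 2
          _ = _ := sq_abs _
      have h3 : Real.exp (κ * y * (ζ.re ^ 2 - (ζ.im - τ0) ^ 2)) ≤
          Real.exp (y * (-K0 - 1)) := by
        apply Real.exp_le_exp.2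
        rw [hζ]
        have h4 : κ * (b ^ 2 - (ζ.im - τ0) ^ 2) ≤ -K0 - 1 := by
          have h5 : κ * T1 ^ 2 ≤ κ * (ζ.im - τ0) ^ 2 := mul_le_mul_of_nonneg_left h2 hκ0.le
          have h6 : 0 ≤ κ * σ1 ^ 2 := by positivity
          nlinarith
        calc κ * y * ((-b) ^ 2 - (ζ.im - τ0) ^ 2) = y * (κ * (b ^ 2 - (ζ.im - τ0) ^ 2)) := by ring
          _ ≤ _ := mul_le_mul_of_nonneg_left h4 hyp0.le
      calc ‖MM m u c A y ζ‖ * Real.exp (κ * y * (ζ.re ^ 2 - (ζ.im - τ0) ^ 2))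
          ≤ (k1 * Real.exp (y * K0)) * Real.exp (y * (-K0 - 1)) :=
            mul_le_mul h1 h3 (Real.exp_pos _).le (by positivity)
        _ = k1 * Real.exp (-(1 * y)) := by
            rw [mul_assoc, ← Real.exp_add]
            congr 2
            ring
        _ ≤ C1 * Real.exp (-(η * y)) := by
            refine mul_le_mul ?_ (Real.exp_le_exp.2 ?_) (Real.exp_pos _).le hC10
            · rw [hC1]; have := abs_nonneg C; linarith
            · nlinarith
  · intro ζ hζ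
    rw [hfn]
    have h1 := hright ζ hζ.ge
    have h2 : Real.exp (κ * y * (ζ.re ^ 2 - (ζ.im - τ0) ^ 2)) ≤ Real.exp (σ1 / 8 * y) := by
      apply Real.exp_le_exp.2
      rw [hζ]
      have h4 : κ * y * (ζ.im - τ0) ^ 2 ≥ 0 := by positivity
      nlinarith
    calc ‖MM m u c A y ζ‖ * Real.exp (κ * y * (ζ.re ^ 2 - (ζ.im - τ0) ^ 2))
        ≤ (k2 * Real.exp (-(σ1 / 4 * y))) * Real.exp (σ1 / 8 * y) :=
          mul_le_mul h1 h2 (Real.exp_pos _).le (by positivity)
      _ = k2 * Real.exp (-(σ1 / 8 * y)) := by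
          rw [mul_assoc, ← Real.exp_add]
          congr 2
          ring
      _ ≤ C1 * Real.exp (-(η * y)) := by
          refine mul_le_mul ?_ (Real.exp_le_exp.2 ?_) (Real.exp_pos _).le hC10
          · rw [hC1]; have := abs_nonneg C; linarith
          · nlinarith

/-- **Exponential decay in the interior.** -/
theorem Dat.decay (D : Dat m u c) {A' b : ℝ} (hb : 0 < b) (hbA : b < 2 * A') :
    ∃ T1 η : ℝ, 0 < T1 ∧ 0 < η ∧ ∀ T C y0 : ℝ,
      (∀ τ y : ℝ, |τ| ≤ T + T1 → y0 ≤ y →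
        ‖MM m u c A' y (τ * Complex.I)‖ ≤ C * Real.exp (-(A' * y))) →
      ∃ C1 Y0 : ℝ, 0 < Y0 ∧ 0 ≤ C1 ∧ ∀ (z : ℂ) (y : ℝ), -b ≤ z.re → |z.im| ≤ T → Y0 ≤ y →
        ‖MM m u c (A' - b / 2) y z‖ ≤ C1 * Real.exp (-(η * y)) := by
  obtain ⟨T1, η, h1, h2, h3⟩ := decay_unif hb hbA
  exact ⟨T1, η, h1, h2, fun T C y0 => h3 D T C y0⟩

end Pool.Agent.N881.GW
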