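import Pool.Agent.N881.GW.C

/-!
# Small averages give a continuation: the function
-/

set_option autoImplicit false

namespace Pool.Agent.N881.GW

open MeasureTheory Set Filter Topology

variable {Ω : Type} [MeasurableSpace Ω] {m : Measure Ω} {u : Ω → ℝ} {c : Ω → ℂ}

lemma Dat.meas_y [SFinite m] (D : Dat m u c) (A : ℝ) (z : ℂ) :
    StronglyMeasurable fun y => MM m u c A y z :=
  (D.meas2 A z).stronglyMeasurable.integral_prod_right

lemma integrable_bound {A Y0 k C1 η : ℝ} (hη : 0 < η) (hY0 : 0 < Y0) :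
    IntegrableOn (fun y => (Ioc (0 : ℝ) Y0).indicator (fun y => √(A / (Real.pi * y)) * k) y +
      C1 * Real.exp (-(η * y))) (Ioi 0) := by
  have h1 : IntegrableOn (fun y : ℝ => √(A / (Real.pi * y)) * k) (Ioc 0 Y0) := by
    have h2 : IntervalIntegrable (fun y : ℝ => y ^ (-(1 / 2) : ℝ)) volume 0 Y0 :=
      intervalIntegral.intervalIntegrable_rpow' (by norm_num)
    rw [intervalIntegrable_iff_integrableOn_Ioc_of_le hY0.le] at h2
    have h3 := (h2.const_mul (√(A / Real.pi))).mul_const k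
    refine IntegrableOn.congr_fun h3 (fun y hy => ?_) measurableSet_Ioc
    have hy0 : 0 < y := hy.1
    congr 1
    have : A / (Real.pi * y) = A / Real.pi * y⁻¹ := by field_simp
    rw [this, Real.sqrt_mul' _ (inv_nonneg.2 hy0.le), Real.sqrt_inv, Real.rpow_neg hy0.le,
      Real.sqrt_eq_rpow y]
  have h4 : IntegrableOn (fun y => (Ioc (0 : ℝ) Y0).indicator
      (fun y => √(A / (Real.pi * y)) * k) y) (Ioi 0) :=
    (h1.integrable_indicator measurableSet_Ioc).integrableOn
  have h5 : IntegrableOn (fun y => C1 * Real.exp (-(η * y))) (Ioi 0) := by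
    have := exp_neg_integrableOn_Ioi 0 hη
    have h6 := this.const_mul C1
    refine IntegrableOn.congr_fun h6 (fun y _ => ?_) measurableSet_Ioi
    congr 2
    ring
  exact h4.add h5

/-- the continuation -/
noncomputable def HH (m : Measure Ω) (u : Ω → ℝ) (c : Ω → ℂ) (A : ℝ) (z : ℂ) : ℂ :=
  ∫ y in Ioi (0 : ℝ), MM m u c A y z

/-- **Small averages give a continuation,** on a box. -/
theorem back_box_unif {A' b : ℝ} (hb : 0 < b) (hbA : b < 2 * A') :
    ∃ T1 : ℝ, 0 < T1 ∧ ∀ {Ω : Type} [MeasurableSpace Ω] {m : Measure Ω} {u : Ω → ℝ}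
      {c : Ω → ℂ} [SFinite m] (_ : Dat m u c) (T C y0 : ℝ),
      (∀ τ y : ℝ, |τ| ≤ T + T1 → y0 ≤ y →
        ‖MM m u c A' y (τ * Complex.I)‖ ≤ C * Real.exp (-(A' * y))) →
      DifferentiableOn ℂ (HH m u c (A' - b / 2)) {z : ℂ | -b < z.re ∧ |z.im| < T} := by
  obtain ⟨T1, η, hT1, hη, hdec⟩ := decay_unif hb hbA
  refine ⟨T1, hT1, ?_⟩
  intro Ω _ m u c _ D T C y0 hyp
  obtain ⟨C1, Y0, hY0, hC1, hd⟩ := hdec D T C y0 hyp
  have hA : 0 < A' - b / 2 := by linarith
  set A : ℝ := A' - b / 2 with hAdef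
  show DifferentiableOn ℂ (fun z => ∫ y in Ioi (0 : ℝ), MM m u c A y z) _
  set K0 : ℝ := (b + 1) + (b + 1) ^ 2 / (4 * A) with hK0
  have hK00 : 0 < K0 := by positivity
  have hop : IsOpen {z : ℂ | -b < z.re ∧ |z.im| < T} := by
    refine IsOpen.inter (isOpen_lt continuous_const Complex.continuous_re) ?_
    exact isOpen_lt (continuous_abs.comp Complex.continuous_im) continuous_const
  refine Pool.Agent.HP.differentiableOn_integral (volume.restrict (Ioi (0 : ℝ)))
    (fun y z => MM m u c A y z) _ hop (fun z _ => (D.meas_y A z).aestronglyMeasurable)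
    (fun y => (D.MM_diff hA y).differentiableOn) _
    (integrable_bound (A := A) (Y0 := Y0) (k := Real.exp (Y0 * K0) * KK m u c 1) (C1 := C1)
      hη hY0) ?_
  intro y z hz
  have hk : 0 ≤ Real.exp (Y0 * K0) * KK m u c 1 := mul_nonneg (Real.exp_pos _).le (KK_nonneg _)
  have hi : 0 ≤ (Ioc (0 : ℝ) Y0).indicator (fun y => √(A / (Real.pi * y)) *
      (Real.exp (Y0 * K0) * KK m u c 1)) y :=
    indicator_nonneg (fun y _ => mul_nonneg (Real.sqrt_nonneg _) hk) y
  have he : 0 ≤ C1 * Real.exp (-(η * y)) := by positivity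
  rcases le_or_gt y 0 with hy | hy
  · rw [MM_nonpos hA hy, norm_zero]
    exact add_nonneg hi he
  · rcases le_or_gt Y0 y with hY | hY
    · exact (hd z y hz.1.le hz.2.le hY).trans (le_add_of_nonneg_left hi)
    · have h1 := D.MM_le (σ := 1) (b := b + 1) hA hy one_pos (z := z) (by linarith [hz.1])
      have h2 : (Ioc (0 : ℝ) Y0).indicator (fun y => √(A / (Real.pi * y)) *
          (Real.exp (Y0 * K0) * KK m u c 1)) y = √(A / (Real.pi * y)) *
          (Real.exp (Y0 * K0) * KK m u c 1) :=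
        indicator_of_mem (show y ∈ Ioc (0 : ℝ) Y0 from ⟨hy, hY.le⟩) _
      rw [h2]
      refine le_trans ?_ (le_add_of_nonneg_right he)
      refine h1.trans ?_
      rw [mul_assoc]
      refine mul_le_mul_of_nonneg_left ?_ (Real.sqrt_nonneg _)
      refine mul_le_mul_of_nonneg_right (Real.exp_le_exp.2 ?_) (KK_nonneg _)
      exact mul_le_mul_of_nonneg_right hY.le hK00.le

/-- **Small averages give a continuation,** on a box. -/
theorem Dat.back_box [SFinite m] (D : Dat m u c) {A' b : ℝ} (hb : 0 < b) (hbA : b < 2 * A') :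
    ∃ T1 : ℝ, 0 < T1 ∧ ∀ T C y0 : ℝ,
      (∀ τ y : ℝ, |τ| ≤ T + T1 → y0 ≤ y →
        ‖MM m u c A' y (τ * Complex.I)‖ ≤ C * Real.exp (-(A' * y))) →
      DifferentiableOn ℂ (HH m u c (A' - b / 2)) {z : ℂ | -b < z.re ∧ |z.im| < T} := by
  obtain ⟨T1, h1, h2⟩ := back_box_unif hb hbA
  exact ⟨T1, h1, fun T C y0 => h2 D T C y0⟩

end Pool.Agent.N881.GW
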