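import Pool.Agent.N881.GW.B

/-!
# A continuation makes the averages small
-/

set_option autoImplicit false

namespace Pool.Agent.N881.GW

open MeasureTheory Set Filter Topology

variable {Ω : Type} [MeasurableSpace Ω] {m : Measure Ω} {u : Ω → ℝ} {c : Ω → ℂ}

/-- the kernel of the representation -/
noncomputable def EE (A y : ℝ) (ζ : ℂ) : ℂ := Complex.exp (y * (ζ + ζ ^ 2 / (4 * A)))

/-- the point `1 + it` -/
noncomputable def p1 (t : ℝ) : ℂ := 1 + t * Complex.I

lemma norm_EE {A : ℝ} (hA : A ≠ 0) (y : ℝ) (ζ : ℂ) : ‖EE A y ζ‖ =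
    Real.exp (y * (ζ.re + (ζ.re ^ 2 - ζ.im ^ 2) / (4 * A))) := by
  unfold EE
  rw [Complex.norm_exp]
  congr 1
  have h : (ζ + ζ ^ 2 / (4 * A) : ℂ) = ζ + ζ ^ 2 * ((1 / (4 * A) : ℝ) : ℂ) := by
    push_cast
    field_simp
  rw [h, Complex.re_ofReal_mul, Complex.add_re, Complex.re_mul_ofReal]
  congr 2
  simp [sq]
  field_simp

lemma quad_form {A y : ℝ} (hA : 0 < A) (u : ℝ) (t : ℝ) :
    EE A y (p1 t) * Complex.exp (-(p1 t * u)) =
      Complex.exp (((-(y / (4 * A)) : ℝ) : ℂ) * t ^ 2 +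
        (((y + y / (2 * A) - u : ℝ) : ℂ) * Complex.I) * t +
        ((y + y / (4 * A) - u : ℝ) : ℂ)) := by
  unfold EE p1
  rw [← Complex.exp_add]
  congr 1
  have hA' : (A : ℂ) ≠ 0 := by exact_mod_cast hA.ne'
  push_cast
  field_simp
  ring_nf
  simp only [Complex.I_sq]
  ring

lemma gk_eq_integral {A y : ℝ} (hA : 0 < A) (hy : 0 < y) (u : ℝ) :
    ∫ t : ℝ, EE A y (p1 t) * Complex.exp (-(p1 t * u)) = 2 * Real.pi * (gk A y u : ℂ) := by
  simp_rw [quad_form hA u]
  have hb : (((-(y / (4 * A)) : ℝ) : ℂ)).re < 0 := by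
    rw [Complex.ofReal_re]
    have : 0 < y / (4 * A) := by positivity
    linarith
  rw [integral_cexp_quadratic hb]
  have h1 : ((Real.pi : ℂ) / -((-(y / (4 * A)) : ℝ) : ℂ)) =
      ((Real.pi / (y / (4 * A)) : ℝ) : ℂ) := by
    push_cast
    ring
  rw [h1]
  have h2 : ((1 : ℂ) / 2) = ((1 / 2 : ℝ) : ℂ) := by push_cast; ring
  rw [h2, ← Complex.ofReal_cpow (by positivity), ← Real.sqrt_eq_rpow]
  have h3 : ((y + y / (4 * A) - u : ℝ) : ℂ) -
      (((y + y / (2 * A) - u : ℝ) : ℂ) * Complex.I) ^ 2 / (4 * ((-(y / (4 * A)) : ℝ) : ℂ)) =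
      ((-(A * (u - y) ^ 2 / y) : ℝ) : ℂ) := by
    rw [mul_pow, Complex.I_sq]
    have hA' : (A : ℂ) ≠ 0 := by exact_mod_cast hA.ne'
    have hy' : (y : ℂ) ≠ 0 := by exact_mod_cast hy.ne'
    push_cast
    field_simp
    ring
  rw [h3, ← Complex.ofReal_exp]
  unfold gk
  have h4 : √(Real.pi / (y / (4 * A))) = 2 * Real.pi * √(A / (Real.pi * y)) := by
    have h5 : Real.pi / (y / (4 * A)) = (2 * Real.pi) ^ 2 * (A / (Real.pi * y)) := by
      field_simp
      ring
    rw [h5, Real.sqrt_mul (by positivity), Real.sqrt_sq (by positivity)]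
  rw [h4]
  push_cast
  ring

lemma EE_integrable {A y : ℝ} (hA : 0 < A) (hy : 0 < y) :
    Integrable fun t : ℝ => EE A y (p1 t) := by
  have h := fun t => quad_form (y := y) hA 0 t
  have hb : (((-(y / (4 * A)) : ℝ) : ℂ)).re < 0 := by
    rw [Complex.ofReal_re]
    have : 0 < y / (4 * A) := by positivity
    linarith
  have h2 := integrable_cexp_quadratic' hb (((y + y / (2 * A) - 0 : ℝ) : ℂ) * Complex.I)
    ((y + y / (4 * A) - 0 : ℝ) : ℂ)
  refine h2.congr (Eventually.of_forall fun t => ?_)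
  simp only
  rw [← h t]
  simp

lemma p1_re (t : ℝ) : (p1 t).re = 1 := by simp [p1]
lemma p1_im (t : ℝ) : (p1 t).im = t := by simp [p1]

lemma p1_cont : Continuous p1 := by unfold p1; fun_prop

lemma EE_cont (A y : ℝ) : Continuous (EE A y) := by unfold EE; fun_prop

lemma EE_diff (A y : ℝ) : Differentiable ℂ (EE A y) := by unfold EE; fun_prop

/-- **The representation** of the averages. -/
theorem Dat.repr [SFinite m] (D : Dat m u c) {A y : ℝ} (hA : 0 < A) (hy : 0 < y) {z : ℂ}
    (hz : 0 ≤ z.re) :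
    2 * Real.pi * MM m u c A y z = ∫ t : ℝ, EE A y (p1 t) * phi m u c (z + p1 t) := by
  unfold MM phi
  rw [← integral_const_mul]
  have e1 : ∀ ω, (2 : ℂ) * Real.pi * (c ω * Complex.exp (-(z * u ω)) * (gk A y (u ω) : ℂ)) =
      ∫ t : ℝ, c ω * Complex.exp (-(z * u ω)) *
        (EE A y (p1 t) * Complex.exp (-(p1 t * u ω))) := by
    intro ω
    rw [integral_const_mul, gk_eq_integral hA hy]
    ring
  simp_rw [e1]
  have hmE : Measurable fun t : ℝ => EE A y (p1 t) :=
    ((EE_cont A y).comp p1_cont).measurable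
  have hint : Integrable (Function.uncurry fun (ω : Ω) (t : ℝ) =>
      c ω * Complex.exp (-(z * u ω)) * (EE A y (p1 t) * Complex.exp (-(p1 t * u ω))))
      (m.prod volume) := by
    have h1 : Integrable (fun p : Ω × ℝ => (‖c p.1‖ * Real.exp (-(1 * u p.1))) *
        ‖EE A y (p1 p.2)‖) (m.prod volume) :=
      (D.int 1 one_pos).mul_prod (EE_integrable hA hy).norm
    refine h1.mono' ?_ (Eventually.of_forall fun p => ?_)
    · have m1 : Measurable fun p : Ω × ℝ => u p.1 := D.mu.comp measurable_fst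
      have m2 : Measurable fun p : Ω × ℝ => c p.1 := D.mc.comp measurable_fst
      have m3 : Measurable fun p : Ω × ℝ => EE A y (p1 p.2) := hmE.comp measurable_snd
      have m4 : Measurable fun p : Ω × ℝ => p1 p.2 := p1_cont.measurable.comp measurable_snd
      have m5 : Measurable fun p : Ω × ℝ => (u p.1 : ℂ) := Complex.measurable_ofReal.comp m1
      exact ((m2.mul (Complex.measurable_exp.comp (m5.const_mul z).neg)).mul
        (m3.mul (Complex.measurable_exp.comp (m4.mul m5).neg))).aestronglyMeasurable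
    · simp only [Function.uncurry]
      rw [norm_mul, norm_mul, norm_mul, norm_cexp, norm_cexp, p1_re]
      have h2 : Real.exp (-(z.re * u p.1)) ≤ 1 := by
        apply Real.exp_le_one_iff.2
        have := mul_nonneg hz (D.hu p.1)
        linarith
      have h3 : 0 ≤ ‖c p.1‖ * Real.exp (-(1 * u p.1)) * ‖EE A y (p1 p.2)‖ := by positivity
      calc ‖c p.1‖ * Real.exp (-(z.re * u p.1)) *
            (‖EE A y (p1 p.2)‖ * Real.exp (-(1 * u p.1)))
          = (‖c p.1‖ * Real.exp (-(1 * u p.1)) * ‖EE A y (p1 p.2)‖) *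
              Real.exp (-(z.re * u p.1)) := by ring
        _ ≤ (‖c p.1‖ * Real.exp (-(1 * u p.1)) * ‖EE A y (p1 p.2)‖) * 1 :=
            mul_le_mul_of_nonneg_left h2 h3
        _ = _ := by ring
  rw [integral_integral_swap hint]
  refine integral_congr_ae (Eventually.of_forall fun t => ?_)
  simp only
  rw [← integral_const_mul]
  refine integral_congr_ae (Eventually.of_forall fun ω => ?_)
  simp only
  have e2 : Complex.exp (-((z + p1 t) * u ω)) =
      Complex.exp (-(z * u ω)) * Complex.exp (-(p1 t * u ω)) := by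
    rw [← Complex.exp_add]
    congr 1
    ring
  rw [e2]
  ring

end Pool.Agent.N881.GW
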