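import Pool.Agent.N881.GW.C2
import Pool.Agent.N881.GW.D2

/-!
# Half-planes
-/

set_option autoImplicit false

namespace Pool.Agent.N881.GW

open MeasureTheory Set Filter Topology

/-- `F` (on `Re z > 0`) has a holomorphic continuation to `Re z > -b`. -/
def Ext (F : ℂ → ℂ) (b : ℝ) : Prop :=
  ∃ H : ℂ → ℂ, DifferentiableOn ℂ H {z : ℂ | -b < z.re} ∧ ∀ z : ℂ, 0 < z.re → H z = F z

lemma isOpen_half (b : ℝ) : IsOpen {z : ℂ | -b < z.re} :=
  isOpen_lt continuous_const Complex.continuous_re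

lemma preconn_half (b : ℝ) : IsPreconnected {z : ℂ | -b < z.re} :=
  (convex_halfSpace_re_gt (-b)).isPreconnected

/-- two continuations agree -/
lemma ext_unique {F H1 H2 : ℂ → ℂ} {b : ℝ} (hb : 0 < b)
    (h1 : DifferentiableOn ℂ H1 {z : ℂ | -b < z.re}) (h2 : DifferentiableOn ℂ H2 {z : ℂ | -b < z.re})
    (e1 : ∀ z : ℂ, 0 < z.re → H1 z = F z) (e2 : ∀ z : ℂ, 0 < z.re → H2 z = F z) :
    ∀ z : ℂ, -b < z.re → H1 z = H2 z := by
  have a1 := h1.analyticOnNhd (isOpen_half b)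
  have a2 := h2.analyticOnNhd (isOpen_half b)
  have h := a1.eqOn_of_preconnected_of_eventuallyEq a2 (preconn_half b) (z₀ := 1)
    (show -b < (1 : ℂ).re by rw [Complex.one_re]; linarith) ?_
  · exact fun z hz => h hz
  · have hop : IsOpen {z : ℂ | 0 < z.re} := isOpen_lt continuous_const Complex.continuous_re
    filter_upwards [hop.mem_nhds (show (0 : ℝ) < (1 : ℂ).re by rw [Complex.one_re]; exact one_pos)]
      with z hz
    rw [e1 z hz, e2 z hz]

/-- **Glueing.** -/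
theorem ext_glue {F : ℂ → ℂ} {S : Set ℝ} (hS : ∀ b ∈ S, 0 < b) (hne : S.Nonempty)
    (h : ∀ b ∈ S, Ext F b) :
    ∃ H : ℂ → ℂ, (∀ z : ℂ, (∃ b ∈ S, -b < z.re) → DifferentiableAt ℂ H z) ∧
      ∀ z : ℂ, 0 < z.re → H z = F z := by
  classical
  choose! G hG1 hG2 using h
  obtain ⟨b1, hb1⟩ := hne
  set β : ℂ → ℝ := fun z => if hz : ∃ b ∈ S, -b < z.re then hz.choose else b1 with hβ
  have hβS : ∀ z, β z ∈ S := by
    intro z
    rw [hβ]
    simp only
    split_ifs with hz
    · exact hz.choose_spec.1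
    · exact hb1
  have hβz : ∀ z : ℂ, (∃ b ∈ S, -b < z.re) → -(β z) < z.re := by
    intro z hz
    rw [hβ]
    simp only
    rw [dif_pos hz]
    exact hz.choose_spec.2
  have hagree : ∀ b ∈ S, ∀ z : ℂ, -b < z.re → G (β z) z = G b z := by
    intro b hb z hz
    have hz1 := hβz z ⟨b, hb, hz⟩
    set d := min (β z) b with hd
    have hd0 : 0 < d := lt_min (hS _ (hβS z)) (hS _ hb)
    refine ext_unique (F := F) hd0 ((hG1 _ (hβS z)).mono fun w hw => ?_)
      ((hG1 _ hb).mono fun w hw => ?_) (hG2 _ (hβS z)) (hG2 _ hb) z ?_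
    · have hw' : -d < w.re := hw
      show -(β z) < w.re
      have : d ≤ β z := min_le_left _ _
      linarith
    · have hw' : -d < w.re := hw
      show -b < w.re
      have : d ≤ b := min_le_right _ _
      linarith
    · rcases min_choice (β z) b with h | h
      · rw [hd, h]; exact hz1
      · rw [hd, h]; exact hz
  refine ⟨fun z => G (β z) z, ?_, fun z hz => ?_⟩
  · rintro z ⟨b, hb, hz⟩
    have h1 : DifferentiableAt ℂ (G b) z :=
      (hG1 b hb z hz).differentiableAt ((isOpen_half b).mem_nhds hz)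
    refine h1.congr_of_eventuallyEq ?_
    filter_upwards [(isOpen_half b).mem_nhds hz] with w hw
    exact hagree b hb w hw
  · exact hG2 _ (hβS z) z hz

variable {Ω : Type} [MeasurableSpace Ω] {m : Measure Ω} {u : Ω → ℝ} {c : Ω → ℂ}

/-- the averages are `O(e^{-Ay})`, locally uniformly on the line -/
def Small (m : Measure Ω) (u : Ω → ℝ) (c : Ω → ℂ) (A y0 : ℝ) : Prop :=
  ∀ T : ℝ, ∃ C : ℝ, ∀ τ y : ℝ, |τ| ≤ T → y0 ≤ y →
    ‖MM m u c A y (τ * Complex.I)‖ ≤ C * Real.exp (-(A * y))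

/-- **Small averages give a continuation,** to a half-plane. -/
theorem Dat.back [SFinite m] (D : Dat m u c) {A b y0 : ℝ} (hb : 0 < b) (hbA : b < 2 * A)
    (h : Small m u c A y0) : Ext (phi m u c) b := by
  obtain ⟨T1, hT1, hbox⟩ := D.back_box hb hbA
  refine ⟨HH m u c (A - b / 2), ?_, fun z hz => D.inversion (by linarith) hz⟩
  intro z hz
  obtain ⟨C, hC⟩ := h (|z.im| + 1 + T1)
  have h1 := hbox (|z.im| + 1) C y0 hC
  have hop : IsOpen {w : ℂ | -b < w.re ∧ |w.im| < |z.im| + 1} := by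
    refine IsOpen.inter (isOpen_lt continuous_const Complex.continuous_re) ?_
    exact isOpen_lt (continuous_abs.comp Complex.continuous_im) continuous_const
  have hz' : -b < z.re ∧ |z.im| < |z.im| + 1 := ⟨hz, by linarith⟩
  exact ((h1 z hz').differentiableAt (hop.mem_nhds hz')).differentiableWithinAt

/-- **A continuation makes the averages small,** for a half-plane. -/
theorem Dat.fwd [SFinite m] (D : Dat m u c) {A b y0 : ℝ} (hA : 0 < A) (hb : 2 * A < b)
    (hy0 : 0 < y0) (h : Ext (phi m u c) b) : Small m u c A y0 := by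
  obtain ⟨H, h1, h2⟩ := h
  obtain ⟨T1, hT1, hbox⟩ := D.fwd_box hA hb
  intro T
  exact hbox T H (h1.mono fun z hz => hz.1) (fun z hz _ => h2 z hz) y0 hy0

/-- **The criterion.** -/
theorem Dat.criterion [SFinite m] (D : Dat m u c) {y0 : ℝ} (hy0 : 0 < y0) {S : Set ℝ}
    (hS : ∀ b ∈ S, 0 < b) (hne : S.Nonempty) :
    (∀ A : ℝ, 0 < A → (∃ b ∈ S, 2 * A < b) → Small m u c A y0) ↔
      ∃ H : ℂ → ℂ, (∀ z : ℂ, (∃ b ∈ S, -b < z.re) → DifferentiableAt ℂ H z) ∧
        ∀ z : ℂ, 0 < z.re → H z = phi m u c z := by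
  constructor
  · intro h
    set S' : Set ℝ := {b' | 0 < b' ∧ ∃ b ∈ S, b' < b} with hS'
    have hne' : S'.Nonempty := by
      obtain ⟨b, hb⟩ := hne
      exact ⟨b / 2, by have := hS b hb; positivity, b, hb, by have := hS b hb; linarith⟩
    obtain ⟨H, h1, h2⟩ := ext_glue (F := phi m u c) (S := S') (fun b hb => hb.1) hne' (by
      rintro b' ⟨hb'0, b, hb, hlt⟩
      exact D.back (A := (b' + b) / 4) (y0 := y0) hb'0 (by linarith)
        (h _ (by have := hS b hb; linarith) ⟨b, hb, by linarith⟩))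
    refine ⟨H, fun z hz => h1 z ?_, h2⟩
    obtain ⟨b, hb, hlt⟩ := hz
    have hb0 := hS b hb
    refine ⟨max ((b - z.re) / 2) (b / 2), ⟨lt_of_lt_of_le (by positivity) (le_max_right _ _),
      b, hb, max_lt (by linarith) (by linarith)⟩, ?_⟩
    have h3 := le_max_left ((b - z.re) / 2) (b / 2)
    linarith
  · rintro ⟨H, h1, h2⟩ A hA ⟨b, hb, hAb⟩
    exact D.fwd hA hAb hy0 ⟨H, fun z hz => (h1 z ⟨b, hb, hz⟩).differentiableWithinAt, h2⟩

end Pool.Agent.N881.GW
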