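import Mathlib

/-!
# Exponentials of Dirichlet series are Dirichlet series
-/

set_option autoImplicit false

namespace Pool.Agent.N881.GW

open LSeries Filter Topology

/-- the powers for the convolution -/
noncomputable def pw (f : ℕ → ℂ) : ℕ → ℕ → ℂ
  | 0 => LSeries.delta
  | m + 1 => LSeries.convolution f (pw f m)

/-- the powers of the absolute values of the terms -/
noncomputable def rw' (f : ℕ → ℂ) (s : ℂ) : ℕ → ℕ → ℝ
  | 0 => fun n => if n = 1 then 1 else 0
  | m + 1 => fun n => ∑ p ∈ n.divisorsAntidiagonal, ‖term f s p.1‖ * rw' f s m p.2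

lemma rw'_nonneg (f : ℕ → ℂ) (s : ℂ) (m n : ℕ) : 0 ≤ rw' f s m n := by
  induction m generalizing n with
  | zero => unfold rw'; split_ifs <;> norm_num
  | succ m ih => unfold rw'; exact Finset.sum_nonneg fun p _ => mul_nonneg (norm_nonneg _) (ih _)

lemma norm_term_pw_le (f : ℕ → ℂ) (s : ℂ) (m n : ℕ) : ‖term (pw f m) s n‖ ≤ rw' f s m n := by
  induction m generalizing n with
  | zero =>
    unfold pw rw'
    rw [LSeries.term_delta]
    split_ifs <;> simp
  | succ m ih =>
    unfold pw rw'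
    rw [LSeries.term_convolution]
    refine (norm_sum_le _ _).trans (Finset.sum_le_sum fun p _ => ?_)
    rw [norm_mul]
    exact mul_le_mul_of_nonneg_left (ih _) (norm_nonneg _)

lemma hasSum_pw {f : ℕ → ℂ} {s : ℂ} (hf : LSeriesSummable f s) (m : ℕ) :
    LSeriesHasSum (pw f m) s (LSeries f s ^ m) := by
  induction m with
  | zero =>
    unfold pw
    rw [pow_zero]
    unfold LSeriesHasSum
    have : term LSeries.delta s = fun n => if n = 1 then 1 else 0 :=
      funext fun n => LSeries.term_delta s n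
    rw [this]
    exact hasSum_ite_eq 1 1
  | succ m ih =>
    unfold pw
    rw [pow_succ']
    exact hf.LSeriesHasSum.convolution ih

lemma rw'_eq (f : ℕ → ℂ) (s : ℂ) (m n : ℕ) :
    ((rw' f s m n : ℝ) : ℂ) = term (pw (fun k => (‖f k‖ : ℂ)) m) (s.re : ℂ) n := by
  induction m generalizing n with
  | zero =>
    unfold pw rw'
    rw [LSeries.term_delta]
    split_ifs <;> simp
  | succ m ih =>
    unfold pw rw'
    rw [LSeries.term_convolution]
    push_cast
    refine Finset.sum_congr rfl fun p _ => ?_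
    rw [ih]
    congr 1
    rw [LSeries.norm_term_eq, LSeries.term_def]
    split_ifs with h
    · simp
    · push_cast
      congr 1
      rw [Complex.ofReal_cpow (Nat.cast_nonneg _)]
      push_cast
      rfl

lemma hasSum_rw' {f : ℕ → ℂ} {s : ℂ} (hf : LSeriesSummable f s) (m : ℕ) :
    HasSum (rw' f s m) ((∑' n, ‖term f s n‖) ^ m) := by
  set g : ℕ → ℂ := fun k => (‖f k‖ : ℂ) with hg
  have h1 : ∀ n, term g (s.re : ℂ) n = ((‖term f s n‖ : ℝ) : ℂ) := by
    intro n
    rw [LSeries.norm_term_eq, LSeries.term_def]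
    split_ifs with h
    · simp
    · rw [hg]
      push_cast
      congr 1
      rw [Complex.ofReal_cpow (Nat.cast_nonneg _)]
      push_cast
      rfl
  have h2 : LSeriesSummable g (s.re : ℂ) := by
    unfold LSeriesSummable
    have : term g (s.re : ℂ) = fun n => ((‖term f s n‖ : ℝ) : ℂ) := funext h1
    rw [this]
    exact Complex.summable_ofReal.2 hf.norm
  have h3 := hasSum_pw h2 m
  unfold LSeriesHasSum at h3
  have h4 : LSeries g (s.re : ℂ) = ((∑' n, ‖term f s n‖ : ℝ) : ℂ) := by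
    unfold LSeries
    rw [Complex.ofReal_tsum]
    exact tsum_congr h1
  rw [h4, ← Complex.ofReal_pow] at h3
  have h5 : term (pw g m) (s.re : ℂ) = fun n => ((rw' f s m n : ℝ) : ℂ) :=
    funext fun n => (rw'_eq f s m n).symm
  rw [h5] at h3
  exact Complex.hasSum_ofReal.1 h3

/-- the coefficients of the exponential -/
noncomputable def ex (f : ℕ → ℂ) (n : ℕ) : ℂ := ∑' m : ℕ, pw f m n / (m.factorial : ℂ)

/-- **The exponential of a Dirichlet series.** -/
theorem hasSum_exp {f : ℕ → ℂ} {s : ℂ} (hf : LSeriesSummable f s) :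
    LSeriesHasSum (ex f) s (Complex.exp (LSeries f s)) := by
  set S : ℝ := ∑' n, ‖term f s n‖ with hS
  set G : ℕ × ℕ → ℂ := fun p => term (pw f p.1) s p.2 / (p.1.factorial : ℂ) with hG
  have hbig : Summable fun p : ℕ × ℕ => rw' f s p.1 p.2 / (p.1.factorial : ℝ) := by
    rw [summable_prod_of_nonneg (fun p => div_nonneg (rw'_nonneg _ _ _ _) (by positivity))]
    refine ⟨fun m => ?_, ?_⟩
    · show Summable fun n => rw' f s m n / (m.factorial : ℝ)
      exact (hasSum_rw' hf m).summable.div_const _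
    have e : (fun m : ℕ => ∑' n, rw' f s m n / (m.factorial : ℝ)) =
        fun m : ℕ => S ^ m / (m.factorial : ℝ) := by
      funext m
      rw [tsum_div_const, (hasSum_rw' hf m).tsum_eq]
    rw [e]
    exact Real.summable_pow_div_factorial S
  have hGs : Summable G := by
    refine Summable.of_norm_bounded hbig fun p => ?_
    rw [hG]
    simp only [norm_div, Complex.norm_natCast]
    exact div_le_div_of_nonneg_right (norm_term_pw_le _ _ _ _) (by positivity)
  have h1 : ∑' p, G p = Complex.exp (LSeries f s) := by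
    rw [hGs.tsum_prod]
    have e : ∀ m : ℕ, ∑' n, G (m, n) = LSeries f s ^ m / (m.factorial : ℂ) := by
      intro m
      rw [hG]
      simp only
      rw [tsum_div_const, (hasSum_pw hf m).tsum_eq]
    rw [tsum_congr e]
    have h2 := Complex.exp_eq_exp_ℂ
    rw [h2, NormedSpace.exp_eq_tsum_div]
  have hGs' : Summable (G ∘ Prod.swap) := hGs.comp_injective Prod.swap_injective
  have h3 : ∑' p, (G ∘ Prod.swap) p = ∑' p, G p := (Equiv.prodComm ℕ ℕ).tsum_eq G
  have h4 : HasSum (fun n => ∑' m, (G ∘ Prod.swap) (n, m)) (∑' p, (G ∘ Prod.swap) p) :=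
    hGs'.hasSum.prod_fiberwise fun n =>
      (hGs'.comp_injective (Prod.mk_right_injective n)).hasSum
  rw [h3, h1] at h4
  unfold LSeriesHasSum
  have h5 : term (ex f) s = fun n => ∑' m, (G ∘ Prod.swap) (n, m) := by
    funext n
    rw [LSeries.term_def]
    split_ifs with hn
    · subst hn
      have : ∀ m, (G ∘ Prod.swap) (0, m) = 0 := fun m => by
        show term (pw f m) s 0 / (m.factorial : ℂ) = 0
        rw [LSeries.term_zero, zero_div]
      rw [tsum_congr this, tsum_zero]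
    · unfold ex
      rw [← tsum_div_const]
      refine tsum_congr fun m => ?_
      show pw f m n / (m.factorial : ℂ) / (n : ℂ) ^ s = term (pw f m) s n / (m.factorial : ℂ)
      rw [LSeries.term_of_ne_zero hn]
      ring
  rw [h5]
  exact h4

/-- `F` is a Dirichlet series which converges absolutely for `Re s > σ0`. -/
def IsDS (σ0 : ℝ) (F : ℂ → ℂ) : Prop :=
  ∃ a : ℕ → ℂ, ∀ s : ℂ, σ0 < s.re → LSeriesHasSum a s (F s)

lemma IsDS.congr {σ0 : ℝ} {F G : ℂ → ℂ} (h : IsDS σ0 F) (hG : ∀ s : ℂ, σ0 < s.re → G s = F s) :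
    IsDS σ0 G := by
  obtain ⟨a, ha⟩ := h
  exact ⟨a, fun s hs => by rw [hG s hs]; exact ha s hs⟩

lemma IsDS.mul {σ0 : ℝ} {F G : ℂ → ℂ} (h1 : IsDS σ0 F) (h2 : IsDS σ0 G) :
    IsDS σ0 fun s => F s * G s := by
  obtain ⟨a, ha⟩ := h1
  obtain ⟨b, hb⟩ := h2
  exact ⟨LSeries.convolution a b, fun s hs => (ha s hs).convolution (hb s hs)⟩

lemma IsDS.one (σ0 : ℝ) : IsDS σ0 fun _ => 1 := by
  refine ⟨LSeries.delta, fun s _ => ?_⟩
  unfold LSeriesHasSum
  have : term LSeries.delta s = fun n => if n = 1 then 1 else 0 :=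
    funext fun n => LSeries.term_delta s n
  rw [this]
  exact hasSum_ite_eq 1 1

lemma IsDS.exp {σ0 : ℝ} {F : ℂ → ℂ} (h : IsDS σ0 F) : IsDS σ0 fun s => Complex.exp (F s) := by
  obtain ⟨a, ha⟩ := h
  refine ⟨ex a, fun s hs => ?_⟩
  have h1 := hasSum_exp (ha s hs).LSeriesSummable
  rwa [(ha s hs).LSeries_eq] at h1

lemma IsDS.prod {ι : Type} {σ0 : ℝ} (S : Finset ι) {F : ι → ℂ → ℂ} (h : ∀ v ∈ S, IsDS σ0 (F v)) :
    IsDS σ0 fun s => ∏ v ∈ S, F v s := by
  classical
  induction S using Finset.induction_on with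
  | empty => simpa using IsDS.one σ0
  | insert v S hv ih =>
    have h1 := (h v (Finset.mem_insert_self _ _)).mul
      (ih fun w hw => h w (Finset.mem_insert_of_mem hw))
    exact h1.congr fun s _ => Finset.prod_insert hv

lemma hasSum_extend {ι : Type} {g : ι → ℕ} (hg : Function.Injective g) (hg0 : ∀ i, g i ≠ 0)
    {c : ι → ℂ} {s a : ℂ} (h : HasSum (fun i => c i * (g i : ℂ) ^ (-s)) a) :
    LSeriesHasSum (Function.extend g c 0) s a := by
  unfold LSeriesHasSum
  rw [← hg.hasSum_iff]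
  · refine h.congr_fun ?_
    intro i
    simp only [Function.comp_apply]
    rw [LSeries.term_of_ne_zero (hg0 i), hg.extend_apply, Complex.cpow_neg]
    rfl
  · intro n hn
    rw [LSeries.term_def]
    split_ifs with h0
    · rfl
    · rw [Function.extend_apply' _ _ _ (by simpa using hn)]
      simp

lemma pow_cpow (q k : ℕ) (s : ℂ) : ((q ^ k : ℕ) : ℂ) ^ s = ((q : ℂ) ^ s) ^ k := by
  induction k with
  | zero => simp
  | succ k ih =>
    rw [pow_succ, Nat.cast_mul, Complex.natCast_mul_natCast_cpow, ih, pow_succ]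

lemma IsDS.geom {σ0 : ℝ} {q : ℕ} (hq : 2 ≤ q) {β : ℂ} (hβ : ‖β‖ ≤ (q : ℝ) ^ σ0) :
    IsDS σ0 fun s => (1 - β * (q : ℂ) ^ (-s))⁻¹ := by
  have hq0 : (q : ℂ) ≠ 0 := by
    have : q ≠ 0 := by omega
    exact_mod_cast this
  have hq1 : (1 : ℝ) < q := by exact_mod_cast hq
  have hinj : Function.Injective fun k : ℕ => q ^ k := Nat.pow_right_injective hq
  refine ⟨Function.extend (fun k : ℕ => q ^ k) (fun k => β ^ k) 0, fun s hs => ?_⟩
  refine hasSum_extend hinj (fun k => by positivity) ?_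
  have h1 : ‖β * (q : ℂ) ^ (-s)‖ < 1 := by
    rw [norm_mul, Complex.norm_natCast_cpow_of_pos (by omega), Complex.neg_re]
    have h2 : (q : ℝ) ^ σ0 < (q : ℝ) ^ s.re := Real.rpow_lt_rpow_of_exponent_lt hq1 hs
    have h3 : 0 < (q : ℝ) ^ s.re := Real.rpow_pos_of_pos (by linarith) _
    rw [Real.rpow_neg (by linarith), ← div_eq_mul_inv, div_lt_one h3]
    exact lt_of_le_of_lt hβ h2
  have h2 := hasSum_geometric_of_norm_lt_one h1
  refine h2.congr_fun ?_
  intro k
  rw [mul_pow, pow_cpow]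

lemma eval_eq_prod {B : Polynomial ℂ} (hB : B.eval 0 = 1) (z : ℂ) :
    B.eval z = (B.roots.map fun ρ => 1 - ρ⁻¹ * z).prod := by
  have hB0 : B ≠ 0 := by
    rintro rfl
    simp at hB
  have h1 := (IsAlgClosed.splits B).eq_prod_roots
  have h2 : ∀ w : ℂ, B.eval w = B.leadingCoeff * (B.roots.map fun ρ => w - ρ).prod := by
    intro w
    conv_lhs => rw [h1]
    rw [Polynomial.eval_mul, Polynomial.eval_C, Polynomial.eval_multiset_prod, Multiset.map_map]
    congr 2
    refine Multiset.map_congr rfl fun ρ _ => ?_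
    simp
  have hr : ∀ ρ ∈ B.roots, ρ ≠ 0 := by
    rintro ρ hρ rfl
    have := (Polynomial.mem_roots hB0).1 hρ
    rw [Polynomial.IsRoot.def, hB] at this
    exact one_ne_zero this
  have h3 : (B.roots.map fun ρ => z - ρ).prod =
      (B.roots.map fun ρ => (0 : ℂ) - ρ).prod * (B.roots.map fun ρ => 1 - ρ⁻¹ * z).prod := by
    rw [← Multiset.prod_map_mul]
    congr 1
    refine Multiset.map_congr rfl fun ρ hρ => ?_
    have := hr ρ hρ
    field_simp
    ring
  rw [h2 z, h3, ← mul_assoc, ← h2 0, hB, one_mul]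

lemma IsDS.poly {σ0 : ℝ} {q : ℕ} (hq : 2 ≤ q) {B : Polynomial ℂ} (hB : B.eval 0 = 1)
    (hne : ∀ s : ℂ, σ0 < s.re → B.eval ((q : ℂ) ^ (-s)) ≠ 0) :
    IsDS σ0 fun s => (B.eval ((q : ℂ) ^ (-s)))⁻¹ := by
  have hB0 : B ≠ 0 := by
    rintro rfl
    simp at hB
  have hq1 : (1 : ℝ) < q := by exact_mod_cast hq
  have hq0 : (0 : ℝ) < q := by linarith
  have hroot : ∀ ρ ∈ B.roots, ‖ρ⁻¹‖ ≤ (q : ℝ) ^ σ0 := by
    intro ρ hρ
    by_contra hcon
    rw [not_le] at hcon
    have h1 := (Polynomial.mem_roots hB0).1 hρ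
    rw [Polynomial.IsRoot.def] at h1
    have hρ0 : ρ ≠ 0 := by
      rintro rfl
      rw [hB] at h1
      exact one_ne_zero h1
    have hlq : (0 : ℝ) < Real.log q := Real.log_pos hq1
    have hlqC : Complex.log (q : ℂ) = ((Real.log q : ℝ) : ℂ) := by
      rw [Complex.natCast_log]
    set s : ℂ := -(Complex.log ρ / Complex.log q) with hs
    have hlq0 : Complex.log (q : ℂ) ≠ 0 := by
      rw [hlqC]
      exact_mod_cast hlq.ne'
    have h2 : (q : ℂ) ^ (-s) = ρ := by
      have hqC : (q : ℂ) ≠ 0 := by exact_mod_cast hq0.ne'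
      rw [Complex.cpow_def_of_ne_zero hqC, hs, neg_neg, mul_div_cancel₀ _ hlq0,
        Complex.exp_log hρ0]
    have h3 : σ0 < s.re := by
      have e : s.re = -(Real.log ‖ρ‖ / Real.log q) := by
        rw [hs, hlqC, Complex.neg_re, Complex.div_ofReal_re, Complex.log_re]
      rw [e, ← neg_div, lt_div_iff₀ hlq]
      have h4 : Real.log ((q : ℝ) ^ σ0) < Real.log ‖ρ⁻¹‖ :=
        Real.log_lt_log (Real.rpow_pos_of_pos hq0 _) hcon
      rw [Real.log_rpow hq0, norm_inv, Real.log_inv] at h4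
      exact h4
    exact hne s h3 (by rw [h2]; exact h1)
  have key : ∀ M : Multiset ℂ, (∀ ρ ∈ M, ‖ρ⁻¹‖ ≤ (q : ℝ) ^ σ0) →
      IsDS σ0 fun s => ((M.map fun ρ => 1 - ρ⁻¹ * (q : ℂ) ^ (-s)).prod)⁻¹ := by
    intro M
    induction M using Multiset.induction_on with
    | empty => intro _; simpa using IsDS.one σ0
    | cons ρ M ih =>
      intro h
      have h1 := (IsDS.geom hq (h ρ (Multiset.mem_cons_self _ _))).mul
        (ih fun w hw => h w (Multiset.mem_cons_of_mem hw))
      refine h1.congr fun s _ => ?_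
      simp only [Multiset.map_cons, Multiset.prod_cons, mul_inv]
  exact (key B.roots hroot).congr fun s _ => by rw [eval_eq_prod hB]

end Pool.Agent.N881.GW
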