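import Pool.Agent.N881.GW.F
import Pool.Agent.N881.RP.Main

/-!
# The Dirichlet coefficients of the L-functions of varieties
-/

set_option autoImplicit false

namespace Pool.Agent.N881.GW

open NumberField IsDedekindDomain Polynomial
open Pool.Agent.TH339.MP (PP FF bb tm norm_bb nm)
open Pool.Agent.TH958.BV (IsFrobenius IsEulerSystem LFun edgePoint localFactor)
open Pool.Agent.R409.EV (DD be norm_be LFun_eq)
open Pool.Agent.N881.RP (ed L_eq re_half)

variable {K : Type} [Field K] [NumberField K] {n : ℕ}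
  {X : Set (MvPolynomial (Fin n) (𝓞 K))} {d i N : ℕ} {B : HeightOneSpectrum (𝓞 K) → ℂ[X]}

lemma inj_pp : Function.Injective fun x : PP => (x.1 : ℕ) ^ (x.2 + 1) := by
  intro x y h
  apply Nat.Primes.prodNatEquiv.injective
  apply Subtype.ext
  rw [Nat.Primes.coe_prodNatEquiv_apply, Nat.Primes.coe_prodNatEquiv_apply]
  exact h

lemma isDS_FF {b : PP → ℂ} {M : ℝ} (hb : ∀ x, ‖b x‖ ≤ M / (x.2 + 1 : ℕ)) (i : ℕ) :
    IsDS (ed i) fun s => FF b (s - (i : ℂ) / 2) := by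
  refine ⟨Function.extend (fun x : PP => (x.1 : ℕ) ^ (x.2 + 1))
    (fun x => b x * (((x.1 : ℕ) ^ (x.2 + 1) : ℕ) : ℂ) ^ ((i : ℂ) / 2)) 0, fun s hs => ?_⟩
  have hs1 : 1 < (s - (i : ℂ) / 2).re := by
    rw [re_half]
    unfold ed at hs
    linarith
  refine hasSum_extend inj_pp (fun x => pow_ne_zero _ x.1.2.ne_zero) ?_
  have h := (Pool.Agent.TH339.MP.summable_tm hb hs1).hasSum
  refine h.congr_fun ?_
  intro x
  unfold tm
  have hp : (((x.1 : ℕ) ^ (x.2 + 1) : ℕ) : ℂ) ≠ 0 := by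
    exact_mod_cast pow_ne_zero _ x.1.2.ne_zero
  rw [mul_assoc, ← Complex.cpow_add _ _ hp, ← pow_cpow]
  congr 2
  ring

/-- **The Dirichlet coefficients exist.** -/
theorem isDS_LFun (hB : IsEulerSystem X d i N B) (h0 : ∀ v, (B v).eval 0 = 1)
    (hfin : ∀ (v : HeightOneSpectrum (𝓞 K)) (s : ℂ), (i : ℝ) / 2 + 1 < s.re →
      (B v).eval ((Ideal.absNorm v.asIdeal : ℂ) ^ (-s)) ≠ 0) :
    IsDS (ed i) (LFun B) := by
  have h1 := (isDS_FF (norm_bb (norm_be X d i N B)) i).exp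
  have h2 : IsDS (ed i) fun s => ∏ v ∈ Pool.Agent.R409.EV.bad hB,
      ((B v).eval ((Ideal.absNorm v.asIdeal : ℂ) ^ (-s)))⁻¹ :=
    IsDS.prod _ fun v _ => IsDS.poly (Pool.Agent.TH339.MP.two_le_nm v) (h0 v) (hfin v)
  refine (h2.mul h1).congr fun s hs => ?_
  rw [L_eq hB hs]
  congr 1
  unfold DD
  rw [Finset.prod_inv_distrib]
  congr 1
  refine Finset.prod_congr rfl fun v _ => ?_
  rw [sub_add_cancel]
  rfl

end Pool.Agent.N881.GW
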