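import Pool.Agent.N881.GW.E

/-!
# Sums of two Laplace transforms
-/

set_option autoImplicit false

namespace Pool.Agent.N881.GW

open MeasureTheory Set Filter Topology

section sum

variable {Ω₁ Ω₂ : Type} [MeasurableSpace Ω₁] [MeasurableSpace Ω₂] {m₁ : Measure Ω₁}
  {m₂ : Measure Ω₂} {u₁ : Ω₁ → ℝ} {u₂ : Ω₂ → ℝ} {c₁ : Ω₁ → ℂ} {c₂ : Ω₂ → ℂ}

lemma emb_inl : MeasurableEmbedding (Sum.inl : Ω₁ → Ω₁ ⊕ Ω₂) :=
  ⟨Sum.inl_injective, measurable_inl, fun _ hs => hs.inl_image⟩

lemma emb_inr : MeasurableEmbedding (Sum.inr : Ω₂ → Ω₁ ⊕ Ω₂) :=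
  ⟨Sum.inr_injective, measurable_inr, fun _ hs => measurableSet_inr_image.2 hs⟩

/-- the sum of two measures on the disjoint union -/
noncomputable def ms (m₁ : Measure Ω₁) (m₂ : Measure Ω₂) : Measure (Ω₁ ⊕ Ω₂) :=
  m₁.map Sum.inl + m₂.map Sum.inr

instance [SFinite m₁] [SFinite m₂] : SFinite (ms m₁ m₂) := by
  unfold ms
  infer_instance

lemma integrable_ms {E : Type} [NormedAddCommGroup E] {f : Ω₁ ⊕ Ω₂ → E}
    (h1 : Integrable (fun x => f (Sum.inl x)) m₁) (h2 : Integrable (fun x => f (Sum.inr x)) m₂) :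
    Integrable f (ms m₁ m₂) := by
  unfold ms
  exact ((emb_inl.integrable_map_iff).2 h1).add_measure
    ((emb_inr.integrable_map_iff).2 h2)

lemma integral_ms {E : Type} [NormedAddCommGroup E] [NormedSpace ℝ E] {f : Ω₁ ⊕ Ω₂ → E}
    (h1 : Integrable (fun x => f (Sum.inl x)) m₁) (h2 : Integrable (fun x => f (Sum.inr x)) m₂) :
    ∫ x, f x ∂(ms m₁ m₂) = (∫ x, f (Sum.inl x) ∂m₁) + ∫ x, f (Sum.inr x) ∂m₂ := by
  unfold ms
  rw [integral_add_measure ((emb_inl.integrable_map_iff).2 h1)
    ((emb_inr.integrable_map_iff).2 h2),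
    emb_inl.integral_map, emb_inr.integral_map]

lemma Dat.sum (D₁ : Dat m₁ u₁ c₁) (D₂ : Dat m₂ u₂ c₂) :
    Dat (ms m₁ m₂) (Sum.elim u₁ u₂) (Sum.elim c₁ c₂) where
  hu := by
    rintro (x | x)
    · exact D₁.hu x
    · exact D₂.hu x
  mu := measurable_fun_sum D₁.mu D₂.mu
  mc := measurable_fun_sum D₁.mc D₂.mc
  int := fun σ hσ => integrable_ms (D₁.int σ hσ) (D₂.int σ hσ)

lemma phi_sum (D₁ : Dat m₁ u₁ c₁) (D₂ : Dat m₂ u₂ c₂) {z : ℂ} (hz : 0 < z.re) :
    phi (ms m₁ m₂) (Sum.elim u₁ u₂) (Sum.elim c₁ c₂) z = phi m₁ u₁ c₁ z + phi m₂ u₂ c₂ z := by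
  unfold phi
  exact integral_ms (phi_integrable D₁ hz) (phi_integrable D₂ hz)

lemma MM_sum (D₁ : Dat m₁ u₁ c₁) (D₂ : Dat m₂ u₂ c₂) {A y : ℝ} (hA : 0 < A) (hy : 0 < y)
    (z : ℂ) : MM (ms m₁ m₂) (Sum.elim u₁ u₂) (Sum.elim c₁ c₂) A y z =
      MM m₁ u₁ c₁ A y z + MM m₂ u₂ c₂ A y z := by
  unfold MM
  exact integral_ms (D₁.ker_integrable hA hy z) (D₂.ker_integrable hA hy z)

end sum

section count

variable {ι : Type} [Countable ι] [MeasurableSpace ι] [MeasurableSingletonClass ι]

lemma integral_count_eq {f : ι → ℂ} (hf : Summable fun i => ‖f i‖) :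
    ∫ i, f i ∂Measure.count = ∑' i, f i := by
  rw [integral_countable (integrable_count_iff.2 hf)]
  refine tsum_congr fun i => ?_
  simp

end count

section poly

/-- the Laplace transform of a polynomial -/
noncomputable def lapP (P : Polynomial ℂ) (z : ℂ) : ℂ :=
  P.sum fun k a => a * ((k.factorial : ℂ) / z ^ (k + 1))

lemma integrable_pow_exp (k : ℕ) {σ : ℝ} (hσ : 0 < σ) :
    IntegrableOn (fun t : ℝ => t ^ k * Real.exp (-(σ * t))) (Ioi 0) := by
  refine integrable_of_isBigO_exp_neg (b := σ / 2) (by positivity) (by fun_prop) ?_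
  have h := isLittleO_pow_exp_pos_mul_atTop k (b := σ / 2) (by positivity)
  have h2 := h.isBigO.mul (Asymptotics.isBigO_refl (fun t : ℝ => Real.exp (-(σ * t))) atTop)
  refine h2.congr_right fun t => ?_
  rw [← Real.exp_add]
  congr 1
  ring

lemma integrable_pow_cexp (k : ℕ) {z : ℂ} (hz : 0 < z.re) :
    IntegrableOn (fun t : ℝ => (t : ℂ) ^ k * Complex.exp (-(z * t))) (Ioi 0) := by
  refine (integrable_pow_exp k hz).mono' (by fun_prop) ?_
  refine (ae_restrict_iff' measurableSet_Ioi).2 (Eventually.of_forall fun t ht => ?_)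
  have ht0 : (0 : ℝ) < t := ht
  rw [norm_mul, norm_cexp, norm_pow, Complex.norm_real, Real.norm_of_nonneg ht0.le]

lemma tendsto_pow_cexp (k : ℕ) {z : ℂ} (hz : 0 < z.re) :
    Tendsto (fun t : ℝ => (t : ℂ) ^ k * Complex.exp (-(z * t))) atTop (𝓝 0) := by
  rw [tendsto_zero_iff_norm_tendsto_zero]
  have h := isLittleO_pow_exp_pos_mul_atTop k hz
  have h2 := h.tendsto_div_nhds_zero
  refine (h2.congr' ?_)
  filter_upwards [eventually_gt_atTop 0] with t ht
  rw [norm_mul, norm_cexp, norm_pow, Complex.norm_real, Real.norm_of_nonneg ht.le, Real.exp_neg,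
    div_eq_mul_inv]

lemma integral_pow_cexp (k : ℕ) {z : ℂ} (hz : 0 < z.re) :
    ∫ t in Ioi (0 : ℝ), (t : ℂ) ^ k * Complex.exp (-(z * t)) =
      (k.factorial : ℂ) / z ^ (k + 1) := by
  have hz0 : z ≠ 0 := by
    rintro rfl
    simp at hz
  have hE : ∀ t : ℝ, HasDerivAt (fun t : ℝ => Complex.exp (-(z * t)))
      (Complex.exp (-(z * t)) * (-z)) t := by
    intro t
    have h1 : HasDerivAt (fun t : ℝ => -(z * (t : ℂ))) (-(z * 1)) t :=
      ((Complex.ofRealCLM.hasDerivAt (x := t)).const_mul z).neg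
    have h2 := h1.cexp
    rwa [mul_one] at h2
  induction k with
  | zero =>
    have h := integral_Ioi_of_hasDerivAt_of_tendsto' (a := (0 : ℝ)) (m := (0 : ℂ))
      (f := fun t : ℝ => Complex.exp (-(z * t))) (f' := fun t : ℝ => Complex.exp (-(z * t)) * (-z))
      (fun t _ => hE t) ?_ ?_
    · rw [integral_mul_const] at h
      simp only [pow_zero, one_mul, Nat.factorial_zero, Nat.cast_one, zero_add, pow_one]
      have h3 : (∫ t in Ioi (0 : ℝ), Complex.exp (-(z * t))) * z = 1 := by
        simp only [Complex.ofReal_zero, mul_zero, neg_zero, Complex.exp_zero] at h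
        linear_combination -h
      exact eq_div_of_mul_eq hz0 h3
    · have := (integrable_pow_cexp 0 hz).mul_const (-z)
      refine IntegrableOn.congr_fun (this : IntegrableOn _ _ _) (fun t _ => ?_) measurableSet_Ioi
      simp
    · have := tendsto_pow_cexp 0 hz
      simpa using this
  | succ k ih =>
    have hP : ∀ t : ℝ, HasDerivAt (fun t : ℝ => (t : ℂ) ^ (k + 1)) (((k + 1 : ℕ) : ℂ) * (t : ℂ) ^ k) t := by
      intro t
      have h1 : HasDerivAt (fun t : ℝ => (t : ℂ)) 1 t := Complex.ofRealCLM.hasDerivAt (x := t)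
      have h2 := h1.fun_pow (k + 1)
      simpa using h2
    have h := integral_Ioi_of_hasDerivAt_of_tendsto' (a := (0 : ℝ)) (m := (0 : ℂ))
      (f := fun t : ℝ => (t : ℂ) ^ (k + 1) * Complex.exp (-(z * t)))
      (f' := fun t : ℝ => ((k + 1 : ℕ) : ℂ) * (t : ℂ) ^ k * Complex.exp (-(z * t)) +
        (t : ℂ) ^ (k + 1) * (Complex.exp (-(z * t)) * (-z)))
      (fun t _ => (hP t).mul (hE t)) ?_ (tendsto_pow_cexp (k + 1) hz)
    · have i1 : IntegrableOn (fun t : ℝ => ((k + 1 : ℕ) : ℂ) * (t : ℂ) ^ k *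
          Complex.exp (-(z * t))) (Ioi 0) := by
        have := (integrable_pow_cexp k hz).const_mul ((k + 1 : ℕ) : ℂ)
        refine this.congr (Eventually.of_forall fun t => ?_)
        simp only
        ring
      have i2 : IntegrableOn (fun t : ℝ => (t : ℂ) ^ (k + 1) *
          (Complex.exp (-(z * t)) * (-z))) (Ioi 0) := by
        have := (integrable_pow_cexp (k + 1) hz).mul_const (-z)
        refine this.congr (Eventually.of_forall fun t => ?_)
        simp only
        ring
      rw [integral_add i1 i2] at h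
      have e1 : ∫ t in Ioi (0 : ℝ), ((k + 1 : ℕ) : ℂ) * (t : ℂ) ^ k * Complex.exp (-(z * t)) =
          ((k + 1 : ℕ) : ℂ) * ((k.factorial : ℂ) / z ^ (k + 1)) := by
        rw [← ih, ← integral_const_mul]
        refine integral_congr_ae (Eventually.of_forall fun t => ?_)
        simp only
        ring
      have e2 : ∫ t in Ioi (0 : ℝ), (t : ℂ) ^ (k + 1) * (Complex.exp (-(z * t)) * (-z)) =
          (∫ t in Ioi (0 : ℝ), (t : ℂ) ^ (k + 1) * Complex.exp (-(z * t))) * (-z) := by
        rw [← integral_mul_const]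
        refine integral_congr_ae (Eventually.of_forall fun t => ?_)
        simp only
        ring
      rw [e1, e2] at h
      have h3 : (∫ t in Ioi (0 : ℝ), (t : ℂ) ^ (k + 1) * Complex.exp (-(z * t))) * z =
          ((k + 1 : ℕ) : ℂ) * ((k.factorial : ℂ) / z ^ (k + 1)) := by
        simp only [Complex.ofReal_zero, ne_eq, Nat.add_eq_zero_iff, one_ne_zero, and_false,
          not_false_eq_true, zero_pow, zero_mul, sub_zero] at h
        linear_combination -h
      rw [Nat.factorial_succ, Nat.cast_mul]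
      rw [eq_div_iff (pow_ne_zero _ hz0), pow_succ z (k + 1), ← mul_assoc, mul_right_comm, h3]
      field_simp
    · have i1 : IntegrableOn (fun t : ℝ => ((k + 1 : ℕ) : ℂ) * (t : ℂ) ^ k *
          Complex.exp (-(z * t))) (Ioi 0) := by
        have := (integrable_pow_cexp k hz).const_mul ((k + 1 : ℕ) : ℂ)
        refine this.congr (Eventually.of_forall fun t => ?_)
        simp only
        ring
      have i2 : IntegrableOn (fun t : ℝ => (t : ℂ) ^ (k + 1) *
          (Complex.exp (-(z * t)) * (-z))) (Ioi 0) := by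
        have := (integrable_pow_cexp (k + 1) hz).mul_const (-z)
        refine this.congr (Eventually.of_forall fun t => ?_)
        simp only
        ring
      exact i1.add i2

/-- the density on the line -/
noncomputable def uP (t : ℝ) : ℝ := max t 0

lemma dat_poly (P : Polynomial ℂ) :
    Dat (volume.restrict (Ioi (0 : ℝ))) uP (fun t => -(P.eval (t : ℂ))) where
  hu := fun t => le_max_right _ _
  mu := measurable_id.max measurable_const
  mc := by
    have h : Continuous fun t : ℝ => -(P.eval (t : ℂ)) :=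
      (P.continuous.comp Complex.continuous_ofReal).neg
    exact h.measurable
  int := by
    intro σ hσ
    have h1 : ∀ t : ℝ, ‖-(P.eval (t : ℂ))‖ * Real.exp (-(σ * uP t)) ≤
        P.sum fun k a => ‖a‖ * (|t| ^ k * Real.exp (-(σ * uP t))) := by
      intro t
      rw [norm_neg, Polynomial.eval_eq_sum, Polynomial.sum, Polynomial.sum]
      calc ‖∑ k ∈ P.support, P.coeff k * (t : ℂ) ^ k‖ * Real.exp (-(σ * uP t))
          ≤ (∑ k ∈ P.support, ‖P.coeff k * (t : ℂ) ^ k‖) * Real.exp (-(σ * uP t)) :=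
            mul_le_mul_of_nonneg_right (norm_sum_le _ _) (Real.exp_pos _).le
        _ = _ := by
            rw [Finset.sum_mul]
            refine Finset.sum_congr rfl fun k _ => ?_
            rw [norm_mul, norm_pow, Complex.norm_real, Real.norm_eq_abs]
            ring
    have h2 : Integrable (fun t : ℝ => P.sum fun k a => ‖a‖ *
        (|t| ^ k * Real.exp (-(σ * uP t)))) (volume.restrict (Ioi (0 : ℝ))) := by
      unfold Polynomial.sum
      refine integrable_finsetSum _ fun k _ => Integrable.const_mul ?_ _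
      refine (integrable_pow_exp k hσ).congr ?_
      refine (ae_restrict_iff' measurableSet_Ioi).2 (Eventually.of_forall fun t ht => ?_)
      have ht0 : (0 : ℝ) < t := ht
      simp only
      unfold uP
      rw [abs_of_pos ht0, max_eq_left ht0.le]
    refine h2.mono' ?_ (Eventually.of_forall fun t => ?_)
    · have h : Continuous fun t : ℝ => -(P.eval (t : ℂ)) :=
        (P.continuous.comp Complex.continuous_ofReal).neg
      have h' : Continuous uP := continuous_id.max continuous_const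
      exact (h.norm.mul (Real.continuous_exp.comp
        (continuous_const.mul h').neg)).aestronglyMeasurable
    · rw [Real.norm_of_nonneg (by positivity)]
      exact h1 t

lemma phi_poly (P : Polynomial ℂ) {z : ℂ} (hz : 0 < z.re) :
    phi (volume.restrict (Ioi (0 : ℝ))) uP (fun t => -(P.eval (t : ℂ))) z = -lapP P z := by
  unfold phi lapP
  have e1 : ∫ t in Ioi (0 : ℝ), -(P.eval (t : ℂ)) * Complex.exp (-(z * uP t)) =
      ∫ t in Ioi (0 : ℝ), ∑ k ∈ P.support, -(P.coeff k) *
        ((t : ℂ) ^ k * Complex.exp (-(z * t))) := by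
    refine setIntegral_congr_fun measurableSet_Ioi fun t ht => ?_
    have ht0 : (0 : ℝ) < t := ht
    unfold uP
    rw [max_eq_left ht0.le, Polynomial.eval_eq_sum, Polynomial.sum, ← Finset.sum_neg_distrib,
      Finset.sum_mul]
    refine Finset.sum_congr rfl fun k _ => ?_
    ring
  rw [e1, integral_finsetSum _ fun k _ => ((integrable_pow_cexp k hz).const_mul _)]
  rw [Polynomial.sum, ← Finset.sum_neg_distrib]
  refine Finset.sum_congr rfl fun k _ => ?_
  rw [integral_const_mul, integral_pow_cexp k hz]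
  ring

end poly

end Pool.Agent.N881.GW
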