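import Pool.Agent.N881.GW.J2

/-!
# Gaussian summability: the criterion
-/

set_option autoImplicit false

namespace Pool.Agent.N881.GW

open MeasureTheory Set Filter Topology

variable {Ω : Type} [MeasurableSpace Ω] {m : Measure Ω} {u : Ω → ℝ} {c : Ω → ℂ}

lemma isOpen_union (S : Set ℝ) : IsOpen {z : ℂ | ∃ b ∈ S, -b < z.re} := by
  have : {z : ℂ | ∃ b ∈ S, -b < z.re} = ⋃ b ∈ S, {z : ℂ | -b < z.re} := by
    ext z
    simp
  rw [this]
  exact isOpen_biUnion fun b _ => isOpen_half b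

/-- the Gaussian means converge to the continuation -/
theorem gauss_tlu [SFinite m] (D : Dat m u c) {S : Set ℝ} {H : ℂ → ℂ}
    (h1 : ∀ z : ℂ, (∃ b ∈ S, -b < z.re) → DifferentiableAt ℂ H z)
    (h2 : ∀ z : ℂ, 0 < z.re → H z = phi m u c z) :
    TendstoLocallyUniformlyOn (fun α z => GG m u c α z) H (𝓝[>] 0)
      {z : ℂ | ∃ b ∈ S, -b < z.re} := by
  rw [tendstoLocallyUniformlyOn_iff_forall_isCompact (isOpen_union S)]
  intro K hKU hK
  rcases K.eq_empty_or_nonempty with rfl | hne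
  · exact tendstoUniformlyOn_empty
  obtain ⟨z0, hz0, hmin⟩ := hK.exists_isMinOn hne Complex.continuous_re.continuousOn
  obtain ⟨b, hb, hlt⟩ := hKU hz0
  have hKb : K ⊆ {z : ℂ | -b < z.re} := fun z hz => lt_of_lt_of_le hlt (hmin hz)
  obtain ⟨C, hC⟩ := gauss_rate D (b := b) (H := H)
    (fun z hz => (h1 z ⟨b, hb, hz⟩).differentiableWithinAt) h2 hK hKb
  rw [Metric.tendstoUniformlyOn_iff]
  intro ε hε
  have h3 : Tendsto (fun α : ℝ => C * √α) (𝓝[>] 0) (𝓝 0) := by
    have h4 : Continuous fun α : ℝ => C * √α := by fun_prop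
    have h5 := (h4.tendsto 0).mono_left (nhdsWithin_le_nhds (s := Ioi 0))
    simpa using h5
  have h6 : ∀ᶠ α : ℝ in 𝓝[>] 0, α ≤ 1 :=
    Filter.Eventually.filter_mono nhdsWithin_le_nhds (eventually_le_nhds one_pos)
  filter_upwards [h3.eventually (gt_mem_nhds hε), h6, self_mem_nhdsWithin] with α h7 h8 h9 z hz
  rw [dist_comm, dist_eq_norm]
  exact lt_of_le_of_lt (hC α h9 h8 z hz) h7

/-- locally uniform convergence of the Gaussian means gives a continuation -/
theorem gauss_back (D : Dat m u c) {S : Set ℝ} {G : ℂ → ℂ}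
    (h : TendstoLocallyUniformlyOn (fun α z => GG m u c α z) G (𝓝[>] 0)
      {z : ℂ | ∃ b ∈ S, -b < z.re}) (hne : S.Nonempty) (hS : ∀ b ∈ S, 0 < b) :
    (∀ z : ℂ, (∃ b ∈ S, -b < z.re) → DifferentiableAt ℂ G z) ∧
      ∀ z : ℂ, 0 < z.re → G z = phi m u c z := by
  constructor
  · intro z hz
    have hd := h.differentiableOn (by
      filter_upwards [self_mem_nhdsWithin] with α hα
      exact (GG_diff D hα).differentiableOn) (isOpen_union S)
    exact (hd z hz).differentiableAt ((isOpen_union S).mem_nhds hz)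
  · intro z hz
    obtain ⟨b, hb⟩ := hne
    have h3 := h.tendsto_at (show z ∈ {z : ℂ | ∃ b ∈ S, -b < z.re} from
      ⟨b, hb, by have := hS b hb; linarith⟩)
    exact tendsto_nhds_unique h3 (GG_tendsto D hz)

end Pool.Agent.N881.GW
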