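import Pool.Agent.N881.GW.H
import Pool.Agent.N881.GW.J3
import Pool.Agent.N881.GW.F

/-!
# The criterion for Dirichlet series
-/

set_option autoImplicit false

namespace Pool.Agent.N881.GW

open MeasureTheory Set Filter Topology

section dir

/-- the coefficients, normalised -/
noncomputable def dc (a : ℕ → ℂ) (e : ℝ) (n : ℕ) : ℂ := LSeries.term a (e : ℂ) n

/-- the frequencies -/
noncomputable def du (n : ℕ) : ℝ := Real.log n

lemma term_shift (a : ℕ → ℂ) (e : ℝ) (z : ℂ) (n : ℕ) :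
    LSeries.term a (e + z) n = dc a e n * Complex.exp (-(z * du n)) := by
  unfold dc du
  rcases eq_or_ne n 0 with rfl | hn
  · simp
  · have hn0 : (n : ℂ) ≠ 0 := Nat.cast_ne_zero.2 hn
    rw [LSeries.term_of_ne_zero hn, LSeries.term_of_ne_zero hn, Complex.cpow_add _ _ hn0,
      div_mul_eq_div_div, div_eq_mul_inv (a n / _)]
    congr 1
    rw [Complex.cpow_def_of_ne_zero hn0, ← Complex.exp_neg, Complex.natCast_log]
    congr 1
    ring

variable {a : ℕ → ℂ} {e : ℝ} {L : ℂ → ℂ}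

lemma dat_dir (ha : ∀ s : ℂ, e < s.re → LSeriesHasSum a s (L s)) :
    Dat Measure.count du (dc a e) where
  hu := fun n => Real.log_natCast_nonneg n
  mu := measurable_from_top
  mc := measurable_from_top
  int := by
    intro σ hσ
    rw [integrable_count_iff]
    have h := (ha (e + σ) (by simpa using hσ)).summable.norm
    refine h.congr fun n => ?_
    rw [term_shift, norm_mul, norm_cexp, Complex.ofReal_re, Real.norm_of_nonneg (by positivity)]

lemma phi_dir (ha : ∀ s : ℂ, e < s.re → LSeriesHasSum a s (L s)) {z : ℂ} (hz : 0 < z.re) :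
    phi Measure.count du (dc a e) z = L (e + z) := by
  have h1 := ha (e + z) (by simpa using hz)
  have h2 := h1.summable
  unfold phi
  have h3 : ∀ n, dc a e n * Complex.exp (-(z * du n)) = LSeries.term a (e + z) n :=
    fun n => (term_shift a e z n).symm
  simp_rw [h3]
  rw [integral_count_eq h2.norm, h1.tsum_eq]

/-- The window sum. -/
noncomputable def win (a : ℕ → ℂ) (e A x τ : ℝ) : ℂ :=
  √(A / (Real.pi * Real.log x)) * ∑' n : ℕ, LSeries.term a (e + τ * Complex.I) n *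
    Real.exp (-(A * (Real.log n - Real.log x) ^ 2 / Real.log x))

/-- The main term. -/
noncomputable def mt (P : Polynomial ℂ) (A x τ : ℝ) : ℂ :=
  √(A / (Real.pi * Real.log x)) * ∫ t in Ioi (0 : ℝ), P.eval (t : ℂ) *
    Complex.exp (-(τ * Complex.I * t)) * Real.exp (-(A * (t - Real.log x) ^ 2 / Real.log x))

lemma MM_dir (ha : ∀ s : ℂ, e < s.re → LSeriesHasSum a s (L s)) {A : ℝ} (hA : 0 < A)
    {x : ℝ} (hx : 1 < x) (τ : ℝ) :
    MM Measure.count du (dc a e) A (Real.log x) (τ * Complex.I) = win a e A x τ := by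
  have hD := dat_dir ha
  have h0 := hD.ker_integrable hA (Real.log_pos hx) (τ * Complex.I)
  rw [integrable_count_iff] at h0
  unfold MM win
  rw [integral_count_eq h0, ← tsum_mul_left]
  refine tsum_congr fun n => ?_
  rw [← term_shift]
  unfold gk du
  push_cast
  ring

lemma MM_poly (P : Polynomial ℂ) (A x τ : ℝ) :
    MM (volume.restrict (Ioi (0 : ℝ))) uP (fun t => -(P.eval (t : ℂ))) A (Real.log x)
      (τ * Complex.I) = -mt P A x τ := by
  unfold MM mt
  rw [← integral_const_mul, ← integral_neg]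
  refine setIntegral_congr_fun measurableSet_Ioi fun t ht => ?_
  have ht0 : (0 : ℝ) < t := ht
  unfold gk uP
  rw [max_eq_left ht0.le]
  push_cast
  ring

end dir

section principal

lemma lapP_add (P Q : Polynomial ℂ) (z : ℂ) : lapP (P + Q) z = lapP P z + lapP Q z := by
  unfold lapP
  exact Polynomial.sum_add_index P Q _ (fun i => by simp) (fun i x y => by ring)

lemma lapP_zero (z : ℂ) : lapP 0 z = 0 := by unfold lapP; simp

lemma lapP_monomial (n : ℕ) (c : ℂ) (z : ℂ) :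
    lapP (Polynomial.monomial n c) z = c * ((n.factorial : ℂ) / z ^ (n + 1)) := by
  unfold lapP
  exact Polynomial.sum_monomial_index c _ (by simp)

lemma lapP_analytic (P : Polynomial ℂ) {z : ℂ} (hz : z ≠ 0) : AnalyticAt ℂ (lapP P) z := by
  unfold lapP Polynomial.sum
  refine Finset.analyticAt_fun_sum _ fun k _ => ?_
  exact analyticAt_const.mul (analyticAt_const.div (analyticAt_id.pow _) (pow_ne_zero _ hz))

lemma lapP_mero (P : Polynomial ℂ) (z : ℂ) : MeromorphicAt (lapP P) z := by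
  unfold lapP Polynomial.sum
  refine MeromorphicAt.fun_sum fun k _ => ?_
  exact (MeromorphicAt.const _ _).mul ((MeromorphicAt.const _ _).div ((MeromorphicAt.id _).pow _))

lemma principal_aux (n : ℕ) : ∀ g : ℂ → ℂ, AnalyticAt ℂ g 0 → ∃ (P : Polynomial ℂ) (h : ℂ → ℂ),
    AnalyticAt ℂ h 0 ∧ ∀ z : ℂ, z ≠ 0 → (z ^ n)⁻¹ * g z = lapP P z + h z := by
  induction n with
  | zero =>
    intro g hg
    exact ⟨0, g, hg, fun z _ => by simp [lapP_zero]⟩
  | succ n ih =>
    intro g hg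
    have hd : AnalyticAt ℂ (dslope g 0) 0 := by
      obtain ⟨p, hp⟩ := hg
      exact hp.has_fpower_series_dslope_fslope.analyticAt
    obtain ⟨P, h, hh, e⟩ := ih _ hd
    refine ⟨P + Polynomial.monomial n (g 0 / (n.factorial : ℂ)), h, hh, fun z hz => ?_⟩
    rw [lapP_add, lapP_monomial]
    have h1 := e z hz
    have h2 : g z = g 0 + z * dslope g 0 z := by
      rw [dslope_of_ne _ hz, slope_def_field]
      field_simp
      ring
    have hf : (n.factorial : ℂ) ≠ 0 := Nat.cast_ne_zero.2 n.factorial_ne_zero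
    have h3 : (z ^ (n + 1))⁻¹ * g z = g 0 / (n.factorial : ℂ) * ((n.factorial : ℂ) / z ^ (n + 1)) +
        (z ^ n)⁻¹ * dslope g 0 z := by
      rw [h2]
      field_simp
      ring
    rw [h3, h1]
    ring

lemma principal {F : ℂ → ℂ} (hF : MeromorphicAt F 0) : ∃ (P : Polynomial ℂ) (h : ℂ → ℂ),
    AnalyticAt ℂ h 0 ∧ ∀ᶠ z in 𝓝[≠] (0 : ℂ), F z = lapP P z + h z := by
  obtain ⟨n, hn⟩ := hF
  obtain ⟨P, h, hh, e⟩ := principal_aux n _ hn
  refine ⟨P, h, hh, ?_⟩
  filter_upwards [self_mem_nhdsWithin] with z hz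
  have hz0 : z ≠ 0 := hz
  rw [← e z hz0]
  simp only [sub_zero, smul_eq_mul]
  rw [inv_mul_cancel_left₀ (pow_ne_zero _ hz0)]

end principal

section main

variable {a : ℕ → ℂ} {e : ℝ} {L : ℂ → ℂ}

/-- the measure -/
noncomputable abbrev mS : Measure (ℕ ⊕ ℝ) := ms Measure.count (volume.restrict (Ioi (0 : ℝ)))

/-- the coefficients -/
noncomputable abbrev cS (a : ℕ → ℂ) (e : ℝ) (P : Polynomial ℂ) : ℕ ⊕ ℝ → ℂ :=
  Sum.elim (dc a e) (fun t => -(P.eval (t : ℂ)))

/-- the frequencies -/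
noncomputable abbrev uS : ℕ ⊕ ℝ → ℝ := Sum.elim du uP

lemma datS (ha : ∀ s : ℂ, e < s.re → LSeriesHasSum a s (L s)) (P : Polynomial ℂ) :
    Dat mS uS (cS a e P) := (dat_dir ha).sum (dat_poly P)

lemma phiS (ha : ∀ s : ℂ, e < s.re → LSeriesHasSum a s (L s)) (P : Polynomial ℂ) {z : ℂ}
    (hz : 0 < z.re) : phi mS uS (cS a e P) z = L (e + z) - lapP P z := by
  rw [phi_sum (dat_dir ha) (dat_poly P) hz, phi_dir ha hz, phi_poly P hz]
  ring

lemma MMS (ha : ∀ s : ℂ, e < s.re → LSeriesHasSum a s (L s)) (P : Polynomial ℂ) {A x : ℝ}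
    (hA : 0 < A) (hx : 1 < x) (τ : ℝ) :
    MM mS uS (cS a e P) A (Real.log x) (τ * Complex.I) = win a e A x τ - mt P A x τ := by
  rw [MM_sum (dat_dir ha) (dat_poly P) hA (Real.log_pos hx), MM_dir ha hA hx, MM_poly]
  ring

lemma small_iff (ha : ∀ s : ℂ, e < s.re → LSeriesHasSum a s (L s)) (P : Polynomial ℂ) {A : ℝ}
    (hA : 0 < A) : Small mS uS (cS a e P) A (Real.log 2) ↔
      ∀ T : ℝ, ∃ C : ℝ, ∀ τ x : ℝ, |τ| ≤ T → 2 ≤ x →
        ‖win a e A x τ - mt P A x τ‖ ≤ C * x ^ (-A) := by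
  constructor
  · intro h T
    obtain ⟨C, hC⟩ := h T
    refine ⟨C, fun τ x hτ hx => ?_⟩
    have h1 := hC τ (Real.log x) hτ (Real.log_le_log two_pos hx)
    rw [MMS ha P hA (by linarith)] at h1
    rwa [Real.rpow_def_of_pos (by linarith : (0 : ℝ) < x),
      show Real.log x * -A = -(A * Real.log x) by ring]
  · intro h T
    obtain ⟨C, hC⟩ := h T
    refine ⟨C, fun τ y hτ hy => ?_⟩
    have hx2 : 2 ≤ Real.exp y := by
      rw [← Real.exp_log two_pos]
      exact Real.exp_le_exp.2 hy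
    have h1 := hC τ (Real.exp y) hτ hx2
    rw [← MMS ha P hA (by linarith) τ, Real.log_exp] at h1
    rwa [Real.rpow_def_of_pos (Real.exp_pos y), Real.log_exp,
      show y * -A = -(A * y) by ring] at h1

/-- `L(e + z) - lapP P z` continues -/
def Cont (L : ℂ → ℂ) (e : ℝ) (P : Polynomial ℂ) (S : Set ℝ) : Prop :=
  ∃ H : ℂ → ℂ, (∀ z : ℂ, (∃ b ∈ S, -b < z.re) → DifferentiableAt ℂ H z) ∧
    ∀ z : ℂ, 0 < z.re → H z = L (e + z) - lapP P z

/-- **Windows.** -/
theorem cont_iff_win (ha : ∀ s : ℂ, e < s.re → LSeriesHasSum a s (L s)) (P : Polynomial ℂ)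
    {S : Set ℝ} (hS : ∀ b ∈ S, 0 < b) (hne : S.Nonempty) :
    Cont L e P S ↔ ∀ A : ℝ, 0 < A → (∃ b ∈ S, 2 * A < b) →
      ∀ T : ℝ, ∃ C : ℝ, ∀ τ x : ℝ, |τ| ≤ T → 2 ≤ x →
        ‖win a e A x τ - mt P A x τ‖ ≤ C * x ^ (-A) := by
  have h := (datS ha P).criterion (Real.log_pos one_lt_two) hS hne
  unfold Cont
  constructor
  · rintro ⟨H, h1, h2⟩ A hA hAb
    exact (small_iff ha P hA).1 (h.2 ⟨H, h1, fun z hz => by rw [h2 z hz, phiS ha P hz]⟩ A hA hAb)
  · intro hw
    obtain ⟨H, h1, h2⟩ := h.1 fun A hA hAb => (small_iff ha P hA).2 (hw A hA hAb)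
    exact ⟨H, h1, fun z hz => by rw [h2 z hz, phiS ha P hz]⟩

/-- The Gaussian mean of the Dirichlet series. -/
noncomputable def gm (a : ℕ → ℂ) (α : ℝ) (s : ℂ) : ℂ :=
  ∑' n : ℕ, LSeries.term a s n * Real.exp (-(α * Real.log n ^ 2))

/-- The Gaussian mean of the main term. -/
noncomputable def gp (P : Polynomial ℂ) (e α : ℝ) (s : ℂ) : ℂ :=
  ∫ t in Ioi (0 : ℝ), P.eval (t : ℂ) * Complex.exp (-((s - e) * t)) * Real.exp (-(α * t ^ 2))

lemma GG_sum {Ω₁ Ω₂ : Type} [MeasurableSpace Ω₁] [MeasurableSpace Ω₂] {m₁ : Measure Ω₁}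
    {m₂ : Measure Ω₂} {u₁ : Ω₁ → ℝ} {u₂ : Ω₂ → ℝ} {c₁ : Ω₁ → ℂ} {c₂ : Ω₂ → ℂ}
    (D₁ : Dat m₁ u₁ c₁) (D₂ : Dat m₂ u₂ c₂) {α : ℝ} (hα : 0 < α) (z : ℂ) :
    GG (ms m₁ m₂) (Sum.elim u₁ u₂) (Sum.elim c₁ c₂) α z = GG m₁ u₁ c₁ α z + GG m₂ u₂ c₂ α z := by
  unfold GG
  exact integral_ms (GG_integrable D₁ hα z) (GG_integrable D₂ hα z)

lemma GGS (ha : ∀ s : ℂ, e < s.re → LSeriesHasSum a s (L s)) (P : Polynomial ℂ) {α : ℝ}
    (hα : 0 < α) (s : ℂ) : GG mS uS (cS a e P) α (s - e) = gm a α s - gp P e α s := by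
  rw [GG_sum (dat_dir ha) (dat_poly P) hα]
  have h1 : GG Measure.count du (dc a e) α (s - e) = gm a α s := by
    have h0 := GG_integrable (dat_dir ha) hα (s - e)
    rw [integrable_count_iff] at h0
    unfold GG gm
    rw [integral_count_eq h0]
    refine tsum_congr fun n => ?_
    rw [← term_shift, add_sub_cancel]
    unfold du
    rfl
  have h2 : GG (volume.restrict (Ioi (0 : ℝ))) uP (fun t => -(P.eval (t : ℂ))) α (s - e) =
      -gp P e α s := by
    unfold GG gp
    rw [← integral_neg]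
    refine setIntegral_congr_fun measurableSet_Ioi fun t ht => ?_
    have ht0 : (0 : ℝ) < t := ht
    unfold uP
    rw [max_eq_left ht0.le]
    ring
  rw [h1, h2]
  ring

/-- **Gaussian means.** -/
theorem cont_iff_gauss (ha : ∀ s : ℂ, e < s.re → LSeriesHasSum a s (L s)) (P : Polynomial ℂ)
    {S : Set ℝ} (hS : ∀ b ∈ S, 0 < b) (hne : S.Nonempty) :
    Cont L e P S ↔ ∃ G : ℂ → ℂ, TendstoLocallyUniformlyOn (fun α s => gm a α s - gp P e α s) G
      (𝓝[>] 0) {s : ℂ | ∃ b ∈ S, e - b < s.re} := by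
  have hD := datS ha P
  constructor
  · rintro ⟨H, h1, h2⟩
    have h3 := gauss_tlu hD h1 fun z hz => by rw [h2 z hz, phiS ha P hz]
    have h4 := h3.comp (fun s : ℂ => s - e) (t := {s : ℂ | ∃ b ∈ S, e - b < s.re}) (by
      rintro s ⟨b, hb, hlt⟩
      exact ⟨b, hb, by simp; linarith⟩) (continuous_id.sub continuous_const).continuousOn
    refine ⟨_, h4.congr_inseparable ?_⟩
    filter_upwards [self_mem_nhdsWithin] with α hα s _
    exact .of_eq (GGS ha P hα s)
  · rintro ⟨G, hG⟩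
    have h3 := hG.comp (fun z : ℂ => e + z) (t := {z : ℂ | ∃ b ∈ S, -b < z.re}) (by
      rintro z ⟨b, hb, hlt⟩
      exact ⟨b, hb, by simp; linarith⟩) (continuous_const.add continuous_id).continuousOn
    have h4 : TendstoLocallyUniformlyOn (fun α z => GG mS uS (cS a e P) α z)
        (G ∘ fun z : ℂ => e + z) (𝓝[>] 0) {z : ℂ | ∃ b ∈ S, -b < z.re} := by
      refine h3.congr_inseparable ?_
      filter_upwards [self_mem_nhdsWithin] with α hα z _
      refine .of_eq ?_
      have := GGS ha P hα (e + z)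
      rw [add_sub_cancel_left] at this
      rw [this]
      rfl
    obtain ⟨h5, h6⟩ := gauss_back hD h4 hne hS
    exact ⟨_, h5, fun z hz => by rw [h6 z hz, phiS ha P hz]⟩

/-- the limit of the Gaussian means -/
theorem gauss_limit (ha : ∀ s : ℂ, e < s.re → LSeriesHasSum a s (L s)) (P : Polynomial ℂ)
    {S : Set ℝ} {Λ : ℂ → ℂ}
    (h1 : ∀ s : ℂ, (∃ b ∈ S, e - b < s.re) → DifferentiableAt ℂ Λ s)
    (h2 : ∀ s : ℂ, e < s.re → Λ s = L s - lapP P (s - e)) :
    TendstoLocallyUniformlyOn (fun α s => gm a α s - gp P e α s) Λ (𝓝[>] 0)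
      {s : ℂ | ∃ b ∈ S, e - b < s.re} := by
  have hD := datS ha P
  have h3 := gauss_tlu hD (S := S) (H := fun z => Λ (e + z)) (fun z hz => ?_) fun z hz => by
    rw [phiS ha P hz]
    have := h2 (e + z) (by simpa using hz)
    rwa [add_sub_cancel_left] at this
  · have h4 := h3.comp (fun s : ℂ => s - e) (t := {s : ℂ | ∃ b ∈ S, e - b < s.re}) (by
      rintro s ⟨b, hb, hlt⟩
      exact ⟨b, hb, by simp; linarith⟩) (continuous_id.sub continuous_const).continuousOn
    have h5 : ((fun z => Λ (e + z)) ∘ fun s : ℂ => s - e) = Λ := by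
      funext s
      simp
    rw [h5] at h4
    refine h4.congr_inseparable ?_
    filter_upwards [self_mem_nhdsWithin] with α hα s _
    exact .of_eq (GGS ha P hα s)
  · obtain ⟨b, hb, hlt⟩ := hz
    have h6 := h1 (e + z) ⟨b, hb, by simp; linarith⟩
    exact h6.comp z ((differentiable_id.const_add (e : ℂ)) z)

/-- **The pole at the edge.** -/
theorem q1_iff (odd : Prop) {S : Set ℝ}
    (hS : ∀ b ∈ S, 0 < b) (hne : S.Nonempty) :
    (∃ Λ : ℂ → ℂ, (∀ s : ℂ, (∃ b ∈ S, e - b < s.re) → s ≠ e → AnalyticAt ℂ Λ s) ∧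
      MeromorphicAt Λ e ∧ (odd → AnalyticAt ℂ Λ e) ∧ ∀ s : ℂ, e < s.re → Λ s = L s) ↔
    ∃ P : Polynomial ℂ, (odd → P = 0) ∧ Cont L e P S := by
  have hsh : ∀ z : ℂ, AnalyticAt ℂ (fun z : ℂ => (e : ℂ) + z) z := fun z =>
    analyticAt_const.add analyticAt_id
  constructor
  · rintro ⟨Λ, h1, h2, h3, h4⟩
    -- the principal part
    obtain ⟨P, h, hP, hh, hev⟩ : ∃ (P : Polynomial ℂ) (h : ℂ → ℂ), (odd → P = 0) ∧
        AnalyticAt ℂ h 0 ∧ ∀ᶠ z in 𝓝[≠] (0 : ℂ), Λ (e + z) = lapP P z + h z := by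
      by_cases ho : odd
      · refine ⟨0, fun z => Λ (e + z), fun _ => rfl, ?_, Eventually.of_forall fun z => by
          rw [lapP_zero, zero_add]⟩
        refine AnalyticAt.fun_comp (g := Λ) (f := fun z : ℂ => (e : ℂ) + z) ?_ (hsh 0)
        rw [add_zero]
        exact h3 ho
      · have hm : MeromorphicAt (fun z : ℂ => Λ (e + z)) 0 := by
          refine MeromorphicAt.comp_analyticAt (g := fun z : ℂ => (e : ℂ) + z) ?_ (hsh 0)
          rw [add_zero]
          exact h2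
        obtain ⟨P, h, hh, hev⟩ := principal hm
        exact ⟨P, h, fun h => absurd h ho, hh, hev⟩
    refine ⟨P, hP, ?_⟩
    classical
    refine ⟨fun z => if z = 0 then h 0 else Λ (e + z) - lapP P z, fun z hz => ?_,
      fun z hz => ?_⟩
    · by_cases hz0 : z = 0
      · subst hz0
        refine hh.differentiableAt.congr_of_eventuallyEq ?_
        rw [eventually_nhdsWithin_iff] at hev
        filter_upwards [hev] with w hw
        by_cases hw0 : w = 0
        · rw [if_pos hw0, hw0]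
        · rw [if_neg hw0, hw hw0]
          ring
      · have h5 : AnalyticAt ℂ (fun z : ℂ => Λ (e + z)) z := by
          refine AnalyticAt.fun_comp (g := Λ) (f := fun z : ℂ => (e : ℂ) + z) ?_ (hsh z)
          refine h1 _ ?_ ?_
          · obtain ⟨b, hb, hlt⟩ := hz
            exact ⟨b, hb, by simp; linarith⟩
          · intro hc
            apply hz0
            linear_combination hc
        refine (h5.sub (lapP_analytic P hz0)).differentiableAt.congr_of_eventuallyEq ?_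
        filter_upwards [isOpen_ne.mem_nhds hz0] with w hw
        rw [if_neg hw]
        rfl
    · have hz0 : z ≠ 0 := by
        rintro rfl
        simp at hz
      beta_reduce
      rw [if_neg hz0, h4]
      simpa using hz
  · rintro ⟨P, hP, H, h1, h2⟩
    have hHan : ∀ z : ℂ, (∃ b ∈ S, -b < z.re) → AnalyticAt ℂ H z := by
      intro z hz
      have hd : DifferentiableOn ℂ H {z : ℂ | ∃ b ∈ S, -b < z.re} := fun w hw =>
        (h1 w hw).differentiableWithinAt
      exact hd.analyticAt ((isOpen_union S).mem_nhds hz)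
    have hsub : ∀ s : ℂ, AnalyticAt ℂ (fun s : ℂ => s - e) s := fun s =>
      analyticAt_id.sub analyticAt_const
    have hH' : ∀ s : ℂ, (∃ b ∈ S, e - b < s.re) → AnalyticAt ℂ (fun s => H (s - e)) s := by
      rintro s ⟨b, hb, hlt⟩
      refine AnalyticAt.fun_comp (g := H) (f := fun s : ℂ => s - e) (hHan _ ⟨b, hb, ?_⟩) (hsub s)
      simp
      linarith
    obtain ⟨b0, hb0⟩ := hne
    have he : ∃ b ∈ S, e - b < ((e : ℂ)).re := ⟨b0, hb0, by
      rw [Complex.ofReal_re]; have := hS b0 hb0; linarith⟩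
    refine ⟨fun s => H (s - e) + lapP P (s - e), fun s hs hse => ?_, ?_, fun ho => ?_,
      fun s hs => ?_⟩
    · refine (hH' s hs).add ?_
      exact AnalyticAt.fun_comp (g := lapP P) (f := fun s : ℂ => s - e)
        (lapP_analytic P (sub_ne_zero.2 hse)) (hsub s)
    · refine (hH' _ he).meromorphicAt.add ?_
      exact (lapP_mero P _).comp_analyticAt (hsub _)
    · rw [hP ho]
      simp only [lapP_zero, add_zero]
      exact hH' _ he
    · have h5 : 0 < (s - (e : ℂ)).re := by simpa using hs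
      beta_reduce
      rw [h2 _ h5, sub_add_cancel, add_sub_cancel]

end main

end Pool.Agent.N881.GW
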