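import Pool.Agent.N881.GW.E

/-!
# Gaussian summability
-/

set_option autoImplicit false

namespace Pool.Agent.N881.GW

open MeasureTheory Set Filter Topology
open scoped Interval

variable {Ω : Type} [MeasurableSpace Ω] {m : Measure Ω} {u : Ω → ℝ} {c : Ω → ℂ}

/-- The Gaussian mean. -/
noncomputable def GG (m : Measure Ω) (u : Ω → ℝ) (c : Ω → ℂ) (α : ℝ) (z : ℂ) : ℂ :=
  ∫ ω, c ω * Complex.exp (-(z * u ω)) * (Real.exp (-(α * u ω ^ 2)) : ℂ) ∂m

/-- the kernel of the representation -/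
noncomputable def FG (α : ℝ) (ζ : ℂ) : ℂ := Complex.exp (ζ ^ 2 * ((1 / (4 * α) : ℝ) : ℂ))

/-- the point `σ + it` -/
noncomputable def ps (σ t : ℝ) : ℂ := σ + t * Complex.I

lemma ps_re (σ t : ℝ) : (ps σ t).re = σ := by simp [ps]
lemma ps_im (σ t : ℝ) : (ps σ t).im = t := by simp [ps]
lemma ps_cont (σ : ℝ) : Continuous (ps σ) := by unfold ps; fun_prop
lemma FG_cont (α : ℝ) : Continuous (FG α) := by unfold FG; fun_prop
lemma FG_diff (α : ℝ) : Differentiable ℂ (FG α) := by unfold FG; fun_prop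

lemma norm_FG (α : ℝ) (ζ : ℂ) :
    ‖FG α ζ‖ = Real.exp ((ζ.re ^ 2 - ζ.im ^ 2) / (4 * α)) := by
  unfold FG
  rw [Complex.norm_exp, Complex.re_mul_ofReal]
  congr 1
  simp [sq]
  ring

lemma FG_form {α : ℝ} (hα : 0 < α) (σ u t : ℝ) :
    FG α (ps σ t) * Complex.exp (-(ps σ t * u)) =
      Complex.exp (((-(1 / (4 * α)) : ℝ) : ℂ) * t ^ 2 +
        (((σ / (2 * α) - u : ℝ) : ℂ) * Complex.I) * t +
        ((σ ^ 2 / (4 * α) - σ * u : ℝ) : ℂ)) := by
  unfold FG ps
  rw [← Complex.exp_add]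
  congr 1
  have hA' : (α : ℂ) ≠ 0 := by exact_mod_cast hα.ne'
  push_cast
  field_simp
  ring_nf
  simp only [Complex.I_sq]
  ring

lemma FG_integral {α : ℝ} (hα : 0 < α) (σ u : ℝ) :
    ∫ t : ℝ, FG α (ps σ t) * Complex.exp (-(ps σ t * u)) =
      √(4 * Real.pi * α) * (Real.exp (-(α * u ^ 2)) : ℂ) := by
  simp_rw [FG_form hα σ u]
  have hb : (((-(1 / (4 * α)) : ℝ) : ℂ)).re < 0 := by
    rw [Complex.ofReal_re]
    have : 0 < 1 / (4 * α) := by positivity
    linarith
  rw [integral_cexp_quadratic hb]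
  have h1 : ((Real.pi : ℂ) / -((-(1 / (4 * α)) : ℝ) : ℂ)) =
      ((4 * Real.pi * α : ℝ) : ℂ) := by
    have hA' : (α : ℂ) ≠ 0 := by exact_mod_cast hα.ne'
    push_cast
    field_simp
  rw [h1]
  have h2 : ((1 : ℂ) / 2) = ((1 / 2 : ℝ) : ℂ) := by push_cast; ring
  rw [h2, ← Complex.ofReal_cpow (by positivity), ← Real.sqrt_eq_rpow]
  have h3 : ((σ ^ 2 / (4 * α) - σ * u : ℝ) : ℂ) -
      (((σ / (2 * α) - u : ℝ) : ℂ) * Complex.I) ^ 2 / (4 * ((-(1 / (4 * α)) : ℝ) : ℂ)) =
      ((-(α * u ^ 2) : ℝ) : ℂ) := by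
    rw [mul_pow, Complex.I_sq]
    have hA' : (α : ℂ) ≠ 0 := by exact_mod_cast hα.ne'
    push_cast
    field_simp
    ring
  rw [h3, ← Complex.ofReal_exp]

lemma FG_integrable {α : ℝ} (hα : 0 < α) (σ : ℝ) :
    Integrable fun t : ℝ => FG α (ps σ t) := by
  have h := fun t => FG_form hα σ 0 t
  have hb : (((-(1 / (4 * α)) : ℝ) : ℂ)).re < 0 := by
    rw [Complex.ofReal_re]
    have : 0 < 1 / (4 * α) := by positivity
    linarith
  have h2 := integrable_cexp_quadratic' hb (((σ / (2 * α) - 0 : ℝ) : ℂ) * Complex.I)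
    ((σ ^ 2 / (4 * α) - σ * 0 : ℝ) : ℂ)
  refine h2.congr (Eventually.of_forall fun t => ?_)
  simp only
  rw [← h t]
  simp

lemma GG_bound (D : Dat m u c) {α : ℝ} (hα : 0 < α) {z : ℂ} {R : ℝ} (hz : -R ≤ z.re) (ω : Ω) :
    ‖c ω * Complex.exp (-(z * u ω)) * (Real.exp (-(α * u ω ^ 2)) : ℂ)‖ ≤
      Real.exp ((R + 1) ^ 2 / (4 * α)) * (‖c ω‖ * Real.exp (-(1 * u ω))) := by
  rw [norm_mul, norm_mul, norm_cexp, Complex.norm_real, Real.norm_of_nonneg (Real.exp_pos _).le]
  have h : Real.exp (-(z.re * u ω)) * Real.exp (-(α * u ω ^ 2)) ≤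
      Real.exp ((R + 1) ^ 2 / (4 * α)) * Real.exp (-(1 * u ω)) := by
    rw [← Real.exp_add, ← Real.exp_add]
    apply Real.exp_le_exp.2
    have h1 : -(z.re * u ω) ≤ R * u ω := by
      have := mul_le_mul_of_nonneg_right hz (D.hu ω)
      linarith
    have h2 : (R + 1) * u ω - α * u ω ^ 2 ≤ (R + 1) ^ 2 / (4 * α) := by
      rw [le_div_iff₀ (by positivity)]
      nlinarith [sq_nonneg (2 * α * u ω - (R + 1))]
    linarith
  calc ‖c ω‖ * Real.exp (-(z.re * u ω)) * Real.exp (-(α * u ω ^ 2))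
      = ‖c ω‖ * (Real.exp (-(z.re * u ω)) * Real.exp (-(α * u ω ^ 2))) := by ring
    _ ≤ ‖c ω‖ * (Real.exp ((R + 1) ^ 2 / (4 * α)) * Real.exp (-(1 * u ω))) :=
        mul_le_mul_of_nonneg_left h (norm_nonneg _)
    _ = _ := by ring

lemma GG_meas (D : Dat m u c) (α : ℝ) (z : ℂ) :
    Measurable fun ω => c ω * Complex.exp (-(z * u ω)) * (Real.exp (-(α * u ω ^ 2)) : ℂ) := by
  have := D.mu
  have := D.mc
  fun_prop

lemma GG_integrable (D : Dat m u c) {α : ℝ} (hα : 0 < α) (z : ℂ) :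
    Integrable (fun ω => c ω * Complex.exp (-(z * u ω)) * (Real.exp (-(α * u ω ^ 2)) : ℂ)) m :=
  ((D.int 1 one_pos).const_mul _).mono' (GG_meas D α z).aestronglyMeasurable
    (Eventually.of_forall fun ω => GG_bound D hα (R := -z.re) (by simp) ω)

lemma GG_diff (D : Dat m u c) {α : ℝ} (hα : 0 < α) : Differentiable ℂ (GG m u c α) := by
  intro z0
  have hop : IsOpen {z : ℂ | z0.re - 1 < z.re} := isOpen_lt continuous_const Complex.continuous_re
  refine (Pool.Agent.HP.differentiableOn_integral m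
    (fun ω z => c ω * Complex.exp (-(z * u ω)) * (Real.exp (-(α * u ω ^ 2)) : ℂ))
    {z : ℂ | z0.re - 1 < z.re} hop (fun z _ => (GG_meas D α z).aestronglyMeasurable)
    (fun ω => ?_) _ ((D.int 1 one_pos).const_mul _)
    (fun ω z hz => GG_bound D hα (R := 1 - z0.re) ?_ ω)).differentiableAt (hop.mem_nhds ?_)
  · refine Differentiable.differentiableOn ?_
    fun_prop
  · have hz' : z0.re - 1 < z.re := hz
    linarith
  · show z0.re - 1 < z0.re
    linarith

/-- the Gaussian means converge for `Re z > 0` -/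
lemma GG_tendsto (D : Dat m u c) {z : ℂ} (hz : 0 < z.re) :
    Tendsto (fun α => GG m u c α z) (𝓝[>] 0) (𝓝 (phi m u c z)) := by
  unfold GG phi
  refine tendsto_integral_filter_of_dominated_convergence (fun ω => ‖c ω‖ *
    Real.exp (-(z.re * u ω))) (Eventually.of_forall fun α => (GG_meas D α z).aestronglyMeasurable)
    ?_ (D.int _ hz) (Eventually.of_forall fun ω => ?_)
  · filter_upwards [self_mem_nhdsWithin] with α hα
    have hα0 : (0 : ℝ) < α := hα
    refine Eventually.of_forall fun ω => ?_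
    rw [norm_mul, norm_mul, norm_cexp, Complex.norm_real, Real.norm_of_nonneg (Real.exp_pos _).le]
    refine mul_le_of_le_one_right (by positivity) (Real.exp_le_one_iff.2 ?_)
    have : 0 ≤ α * u ω ^ 2 := by positivity
    linarith
  · have h1 : Continuous fun α : ℝ => c ω * Complex.exp (-(z * u ω)) *
        (Real.exp (-(α * u ω ^ 2)) : ℂ) := by fun_prop
    have h2 := (h1.tendsto 0).mono_left (nhdsWithin_le_nhds (s := Ioi 0))
    simpa using h2

/-- **The representation.** -/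
lemma GG_repr [SFinite m] (D : Dat m u c) {α : ℝ} (hα : 0 < α) {σ : ℝ} {z : ℂ}
    (hz : 1 ≤ z.re + σ) :
    √(4 * Real.pi * α) * GG m u c α z = ∫ t : ℝ, FG α (ps σ t) * phi m u c (z + ps σ t) := by
  unfold GG phi
  rw [← integral_const_mul]
  have e1 : ∀ ω, (√(4 * Real.pi * α) : ℂ) * (c ω * Complex.exp (-(z * u ω)) *
      (Real.exp (-(α * u ω ^ 2)) : ℂ)) =
      ∫ t : ℝ, c ω * Complex.exp (-(z * u ω)) *
        (FG α (ps σ t) * Complex.exp (-(ps σ t * u ω))) := by
    intro ω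
    rw [integral_const_mul, FG_integral hα]
    ring
  simp_rw [e1]
  have hmE : Measurable fun t : ℝ => FG α (ps σ t) :=
    ((FG_cont α).comp (ps_cont σ)).measurable
  have hint : Integrable (Function.uncurry fun (ω : Ω) (t : ℝ) =>
      c ω * Complex.exp (-(z * u ω)) * (FG α (ps σ t) * Complex.exp (-(ps σ t * u ω))))
      (m.prod volume) := by
    have h1 : Integrable (fun p : Ω × ℝ => (‖c p.1‖ * Real.exp (-(1 * u p.1))) *
        ‖FG α (ps σ p.2)‖) (m.prod volume) :=
      (D.int 1 one_pos).mul_prod (FG_integrable hα σ).norm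
    refine h1.mono' ?_ (Eventually.of_forall fun p => ?_)
    · have m1 : Measurable fun p : Ω × ℝ => u p.1 := D.mu.comp measurable_fst
      have m2 : Measurable fun p : Ω × ℝ => c p.1 := D.mc.comp measurable_fst
      have m3 : Measurable fun p : Ω × ℝ => FG α (ps σ p.2) := hmE.comp measurable_snd
      have m4 : Measurable fun p : Ω × ℝ => ps σ p.2 :=
        (ps_cont σ).measurable.comp measurable_snd
      have m5 : Measurable fun p : Ω × ℝ => (u p.1 : ℂ) := Complex.measurable_ofReal.comp m1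
      exact ((m2.mul (Complex.measurable_exp.comp (m5.const_mul z).neg)).mul
        (m3.mul (Complex.measurable_exp.comp (m4.mul m5).neg))).aestronglyMeasurable
    · simp only [Function.uncurry]
      rw [norm_mul, norm_mul, norm_mul, norm_cexp, norm_cexp, ps_re]
      have h2 : Real.exp (-(z.re * u p.1)) * Real.exp (-(σ * u p.1)) ≤
          Real.exp (-(1 * u p.1)) := by
        rw [← Real.exp_add]
        apply Real.exp_le_exp.2
        have := mul_le_mul_of_nonneg_right hz (D.hu p.1)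
        linarith
      calc ‖c p.1‖ * Real.exp (-(z.re * u p.1)) *
            (‖FG α (ps σ p.2)‖ * Real.exp (-(σ * u p.1)))
          = (‖c p.1‖ * ‖FG α (ps σ p.2)‖) *
              (Real.exp (-(z.re * u p.1)) * Real.exp (-(σ * u p.1))) := by ring
        _ ≤ (‖c p.1‖ * ‖FG α (ps σ p.2)‖) * Real.exp (-(1 * u p.1)) :=
            mul_le_mul_of_nonneg_left h2 (by positivity)
        _ = _ := by ring
  rw [integral_integral_swap hint]
  refine integral_congr_ae (Eventually.of_forall fun t => ?_)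
  simp only
  rw [← integral_const_mul]
  refine integral_congr_ae (Eventually.of_forall fun ω => ?_)
  simp only
  have e2 : Complex.exp (-((z + ps σ t) * u ω)) =
      Complex.exp (-(z * u ω)) * Complex.exp (-(ps σ t * u ω)) := by
    rw [← Complex.exp_add]
    congr 1
    ring
  rw [e2]
  ring

end Pool.Agent.N881.GW
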