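import Pool.Agent.N881.GW.J

/-!
# Gaussian summability in the half-plane of holomorphy
-/

set_option autoImplicit false

namespace Pool.Agent.N881.GW

open MeasureTheory Set Filter Topology
open scoped Interval

variable {Ω : Type} [MeasurableSpace Ω] {m : Measure Ω} {u : Ω → ℝ} {c : Ω → ℂ}

lemma exp_neg_le {x : ℝ} (hx : 0 < x) : Real.exp (-x) ≤ 1 / x := by
  rw [Real.exp_neg, ← one_div]
  exact one_div_le_one_div_of_le hx (by have := Real.add_one_le_exp x; linarith)

lemma gauss_int {α : ℝ} (hα : 0 < α) (k : ℝ) (hk : 0 < k) :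
    Integrable (fun t : ℝ => Real.exp (-(k * t ^ 2 / α))) ∧
      ∫ t : ℝ, Real.exp (-(k * t ^ 2 / α)) = √(Real.pi * α / k) := by
  have e : (fun t : ℝ => Real.exp (-(k * t ^ 2 / α))) = fun t => Real.exp (-(k / α) * t ^ 2) := by
    funext t
    congr 1
    ring
  rw [e]
  refine ⟨integrable_exp_neg_mul_sq (by positivity), ?_⟩
  rw [integral_gaussian]
  congr 1
  field_simp

/-- **The rate of convergence.** -/
theorem gauss_rate [SFinite m] (D : Dat m u c) {b : ℝ} {H : ℂ → ℂ}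
    (hH : DifferentiableOn ℂ H {z : ℂ | -b < z.re}) (hHphi : ∀ z : ℂ, 0 < z.re → H z = phi m u c z)
    {K : Set ℂ} (hK : IsCompact K) (hKU : K ⊆ {z : ℂ | -b < z.re}) :
    ∃ C : ℝ, ∀ α : ℝ, 0 < α → α ≤ 1 → ∀ z ∈ K, ‖GG m u c α z - H z‖ ≤ C * √α := by
  obtain ⟨R, hR0, hR⟩ : ∃ R : ℝ, 0 ≤ R ∧ ∀ z ∈ K, ‖z‖ ≤ R := by
    obtain ⟨R, hR⟩ := hK.isBounded.exists_norm_le
    exact ⟨max R 0, le_max_right _ _, fun z hz => (hR z hz).trans (le_max_left _ _)⟩
  set σ : ℝ := R + 1 with hσ
  have hσ0 : 0 < σ := by positivity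
  set T : ℝ := σ + 1 with hT
  have hT0 : 0 < T := by positivity
  have hTσ : 0 < T ^ 2 - σ ^ 2 := by rw [hT]; nlinarith
  -- the constant `κ`
  set κ : ℝ := (T ^ 2 - σ ^ 2) / (4 * T ^ 2) with hκ
  have hκ0 : 0 < κ := by positivity
  have hκ1 : κ ≤ 1 / 4 := by
    rw [hκ, div_le_div_iff₀ (by positivity) (by norm_num)]
    nlinarith [sq_nonneg σ]
  have htail : ∀ t : ℝ, T ^ 2 ≤ t ^ 2 → κ * t ^ 2 ≤ (t ^ 2 - σ ^ 2) / 4 := by
    intro t ht
    have h1 : κ * t ^ 2 = t ^ 2 / 4 - σ ^ 2 / 4 * (t ^ 2 / T ^ 2) := by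
      rw [hκ]
      field_simp
    have h2 : 1 ≤ t ^ 2 / T ^ 2 := by
      rw [le_div_iff₀ (by positivity)]
      linarith
    have h3 : 0 ≤ σ ^ 2 / 4 := by positivity
    nlinarith
  -- compactness
  set K' : Set ℂ := (fun p : ℂ × ℂ => p.1 + p.2) '' (K ×ˢ (Icc 0 σ ×ℂ Icc (-T) T)) with hK'
  have hK'c : IsCompact K' :=
    (hK.prod (isCompact_Icc.reProdIm isCompact_Icc)).image (continuous_fst.add continuous_snd)
  have hmem : ∀ z ∈ K, ∀ ζ : ℂ, 0 ≤ ζ.re → ζ.re ≤ σ → -T ≤ ζ.im → ζ.im ≤ T → z + ζ ∈ K' :=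
    fun z hz ζ h1 h2 h3 h4 => ⟨(z, ζ), ⟨hz, ⟨h1, h2⟩, ⟨h3, h4⟩⟩, rfl⟩
  have hK'U : K' ⊆ {z : ℂ | -b < z.re} := by
    rintro _ ⟨⟨z, ζ⟩, ⟨hz, h1, -⟩, rfl⟩
    have h2 : -b < z.re := hKU hz
    have h3 : 0 ≤ ζ.re := h1.1
    show -b < (z + ζ).re
    rw [Complex.add_re]
    linarith
  obtain ⟨S, hS0, hS⟩ : ∃ S : ℝ, 0 ≤ S ∧ ∀ z ∈ K', ‖H z‖ ≤ S := by
    obtain ⟨S, hS⟩ := hK'c.exists_bound_of_continuousOn (hH.continuousOn.mono hK'U)
    exact ⟨max S 0, le_max_right _ _, fun z hz => (hS z hz).trans (le_max_left _ _)⟩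
  have han := hH.analyticOnNhd (isOpen_half b)
  obtain ⟨S', hS'0, hS'⟩ : ∃ S' : ℝ, 0 ≤ S' ∧ ∀ z ∈ K', ‖deriv H z‖ ≤ S' := by
    obtain ⟨S, hS⟩ := hK'c.exists_bound_of_continuousOn (han.deriv.continuousOn.mono hK'U)
    exact ⟨max S 0, le_max_right _ _, fun z hz => (hS z hz).trans (le_max_left _ _)⟩
  set k1 : ℝ := KK m u c 1 with hk1
  have hk10 : 0 ≤ k1 := KK_nonneg _
  refine ⟨((k1 + S) * (2 / (κ * T ^ 2)) * √(2 * Real.pi / κ) +
    2 * (S * (4 / (T ^ 2 - σ ^ 2)) * σ) + S' * 5 * √(8 * Real.pi)) / √(4 * Real.pi),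
    fun α hα hα1 z hz => ?_⟩
  have hsα0 : 0 < √α := Real.sqrt_pos.2 hα
  have hsα : √α * √α = α := Real.mul_self_sqrt hα.le
  have hzre : -R ≤ z.re := by
    have h1 := (abs_le.1 (Complex.abs_re_le_norm z)).1
    have h2 := hR z hz
    linarith
  set I : Set ℝ := Ioc (-T) T with hI
  have hIm : MeasurableSet I := measurableSet_Ioc
  have hIc : ∀ t ∈ Iᶜ, T ^ 2 ≤ t ^ 2 := by
    intro t ht
    rw [hI, mem_compl_iff, mem_Ioc, not_and_or, not_lt, not_le] at ht
    rcases ht with h | h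
    · nlinarith
    · nlinarith
  -- a general tail bound
  have htb : ∫ t in Iᶜ, Real.exp (-(κ * t ^ 2 / α)) ≤
      (2 / (κ * T ^ 2)) * √(2 * Real.pi / κ) * (α * √α) := by
    have g1 := gauss_int hα (κ / 2) (by positivity)
    have h1 : ∫ t in Iᶜ, Real.exp (-(κ * t ^ 2 / α)) ≤
        ∫ t in Iᶜ, (2 * α / (κ * T ^ 2)) * Real.exp (-(κ / 2 * t ^ 2 / α)) := by
      refine setIntegral_mono_on (gauss_int hα κ hκ0).1.integrableOn
        (g1.1.const_mul _).integrableOn hIm.compl fun t ht => ?_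
      have h2 : Real.exp (-(κ * t ^ 2 / α)) = Real.exp (-(κ / 2 * t ^ 2 / α)) *
          Real.exp (-(κ / 2 * t ^ 2 / α)) := by
        rw [← Real.exp_add]
        congr 1
        ring
      have h3 : Real.exp (-(κ / 2 * t ^ 2 / α)) ≤ 2 * α / (κ * T ^ 2) := by
        have h4 : κ / 2 * T ^ 2 / α ≤ κ / 2 * t ^ 2 / α :=
          div_le_div_of_nonneg_right (mul_le_mul_of_nonneg_left (hIc t ht) (by positivity)) hα.le
        calc Real.exp (-(κ / 2 * t ^ 2 / α)) ≤ Real.exp (-(κ / 2 * T ^ 2 / α)) :=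
              Real.exp_le_exp.2 (by linarith)
          _ ≤ 1 / (κ / 2 * T ^ 2 / α) := exp_neg_le (by positivity)
          _ = _ := by field_simp
      rw [h2]
      exact mul_le_mul_of_nonneg_right h3 (Real.exp_pos _).le
    have h5 : ∫ t in Iᶜ, (2 * α / (κ * T ^ 2)) * Real.exp (-(κ / 2 * t ^ 2 / α)) ≤
        ∫ t, (2 * α / (κ * T ^ 2)) * Real.exp (-(κ / 2 * t ^ 2 / α)) := by
      refine setIntegral_le_integral (g1.1.const_mul _) (Eventually.of_forall fun t => ?_)
      simp only [Pi.zero_apply]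
      positivity
    refine h1.trans (h5.trans (le_of_eq ?_))
    rw [integral_const_mul, g1.2]
    have h6 : Real.pi * α / (κ / 2) = 2 * Real.pi / κ * α := by field_simp
    rw [h6, Real.sqrt_mul (by positivity)]
    ring
  -- the function on the line
  set g : ℝ → ℂ := fun t => FG α (ps σ t) * phi m u c (z + ps σ t) with hg
  have hre : ∀ t : ℝ, (z + ps σ t).re = z.re + σ := fun t => by rw [Complex.add_re, ps_re]
  have hre1 : 1 ≤ z.re + σ := by rw [hσ]; linarith
  have hrep := GG_repr D hα hre1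
  have hgint : Integrable g := by
    refine ((FG_integrable hα σ).mul_const (KK m u c 1 : ℂ)).mono ?_
      (Eventually.of_forall fun t => ?_)
    · have h1 : Continuous fun t : ℝ => phi m u c (z + ps σ t) := by
        refine D.phi_diff.continuousOn.comp_continuous ?_ fun t => ?_
        · exact continuous_const.add (ps_cont σ)
        · show 0 < (z + ps σ t).re
          rw [hre]; linarith
      exact (((FG_cont α).comp (ps_cont σ)).mul h1).aestronglyMeasurable
    · rw [hg]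
      simp only [norm_mul]
      refine mul_le_mul_of_nonneg_left ?_ (norm_nonneg _)
      rw [Complex.norm_real, Real.norm_of_nonneg (KK_nonneg _)]
      exact norm_phi_le D one_pos (by rw [hre]; exact hre1)
  have hsplit : ∫ t, g t = (∫ t in I, g t) + ∫ t in Iᶜ, g t :=
    (integral_add_compl hIm hgint).symm
  have hout : ‖∫ t in Iᶜ, g t‖ ≤ k1 * ((2 / (κ * T ^ 2)) * √(2 * Real.pi / κ) * (α * √α)) := by
    have h2 : ‖∫ t in Iᶜ, g t‖ ≤ ∫ t in Iᶜ, k1 * Real.exp (-(κ * t ^ 2 / α)) := by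
      refine norm_integral_le_of_norm_le ((gauss_int hα κ hκ0).1.const_mul _).integrableOn ?_
      refine (ae_restrict_iff' hIm.compl).2 (Eventually.of_forall fun t ht => ?_)
      rw [hg]
      simp only [norm_mul]
      rw [norm_FG, ps_re, ps_im, mul_comm]
      have h3 : ‖phi m u c (z + ps σ t)‖ ≤ k1 :=
        norm_phi_le D one_pos (by rw [hre]; exact hre1)
      refine mul_le_mul h3 (Real.exp_le_exp.2 ?_) (Real.exp_pos _).le hk10
      have h4 := htail t (hIc t ht)
      have h5 : (σ ^ 2 - t ^ 2) / (4 * α) = -((t ^ 2 - σ ^ 2) / 4 / α) := by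
        field_simp
        ring
      rw [h5]
      have := div_le_div_of_nonneg_right h4 hα.le
      linarith
    refine h2.trans ?_
    rw [integral_const_mul]
    exact mul_le_mul_of_nonneg_left htb hk10
  -- the shift
  set f : ℂ → ℂ := fun ζ => FG α ζ * H (z + ζ) with hf
  have hcauchy := Complex.integral_boundary_rect_eq_zero_of_differentiableOn f
    (⟨0, -T⟩ : ℂ) (⟨σ, T⟩ : ℂ) ?_
  swap
  · rw [hf]
    refine (FG_diff α).differentiableOn.mul ?_
    refine hH.comp (differentiable_id.const_add _).differentiableOn ?_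
    intro ζ hζ
    have h1 := hζ.1
    simp only [mem_preimage] at h1
    rw [uIcc_of_le hσ0.le] at h1
    have h2 : -b < z.re := hKU hz
    show -b < (z + ζ).re
    rw [Complex.add_re]
    linarith [h1.1]
  simp only at hcauchy
  have hside : ∀ x w : ℝ, 0 ≤ x → x ≤ σ → w ^ 2 = T ^ 2 → -T ≤ w → w ≤ T →
      ‖f (x + (w : ℂ) * Complex.I)‖ ≤ S * (4 / (T ^ 2 - σ ^ 2)) * α := by
    intro x w h1 h2 h3 h4 h5
    have r1 : ((x : ℂ) + (w : ℂ) * Complex.I).re = x := by simp
    have r2 : ((x : ℂ) + (w : ℂ) * Complex.I).im = w := by simp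
    rw [hf]
    simp only [norm_mul]
    rw [norm_FG, r1, r2, h3]
    have h6 : ‖H (z + (x + (w : ℂ) * Complex.I))‖ ≤ S :=
      hS _ (hmem z hz _ (by rw [r1]; exact h1) (by rw [r1]; exact h2) (by rw [r2]; exact h4)
        (by rw [r2]; exact h5))
    have h7 : Real.exp ((x ^ 2 - T ^ 2) / (4 * α)) ≤ (4 / (T ^ 2 - σ ^ 2)) * α := by
      have h8 : (x ^ 2 - T ^ 2) / (4 * α) ≤ -((T ^ 2 - σ ^ 2) / (4 * α)) := by
        rw [← neg_div]
        refine div_le_div_of_nonneg_right ?_ (by positivity)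
        nlinarith
      calc _ ≤ Real.exp (-((T ^ 2 - σ ^ 2) / (4 * α))) := Real.exp_le_exp.2 h8
        _ ≤ 1 / ((T ^ 2 - σ ^ 2) / (4 * α)) := exp_neg_le (by positivity)
        _ = _ := by field_simp
    calc _ ≤ (4 / (T ^ 2 - σ ^ 2)) * α * S :=
          mul_le_mul h7 h6 (norm_nonneg _) (by positivity)
      _ = _ := by ring
  have n1 : ‖∫ x in (0 : ℝ)..σ, f (x + ((-T : ℝ) : ℂ) * Complex.I)‖ ≤
      (S * (4 / (T ^ 2 - σ ^ 2)) * α) * |σ - 0| := by
    refine intervalIntegral.norm_integral_le_of_norm_le_const fun x hx => ?_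
    rw [uIoc_of_le hσ0.le] at hx
    exact hside x (-T) hx.1.le hx.2 (by ring) le_rfl (by linarith)
  have n2 : ‖∫ x in (0 : ℝ)..σ, f (x + ((T : ℝ) : ℂ) * Complex.I)‖ ≤
      (S * (4 / (T ^ 2 - σ ^ 2)) * α) * |σ - 0| := by
    refine intervalIntegral.norm_integral_le_of_norm_le_const fun x hx => ?_
    rw [uIoc_of_le hσ0.le] at hx
    exact hside x T hx.1.le hx.2 rfl (by linarith) le_rfl
  have e1 : ∫ t in I, g t = ∫ v in (-T)..T, f ((σ : ℝ) + v * Complex.I) := by
    rw [intervalIntegral.integral_of_le (by linarith)]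
    refine setIntegral_congr_fun measurableSet_Ioc fun t ht => ?_
    rw [hg, hf]
    simp only
    have e2 : ps σ t = ((σ : ℝ) : ℂ) + t * Complex.I := rfl
    rw [← e2, hHphi]
    rw [hre]
    linarith
  have e0 : ∫ v in (-T)..T, f (((0 : ℝ) : ℂ) + v * Complex.I) =
      ∫ t in I, (Real.exp (-(1 / 4 * t ^ 2 / α)) : ℂ) * H (z + t * Complex.I) := by
    rw [intervalIntegral.integral_of_le (by linarith)]
    refine setIntegral_congr_fun measurableSet_Ioc fun t ht => ?_
    rw [hf]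
    simp only [Complex.ofReal_zero, zero_add]
    congr 1
    unfold FG
    rw [mul_pow, Complex.I_sq]
    push_cast
    congr 1
    ring
  -- the inner part
  have hHline : ContinuousOn (fun t : ℝ => H (z + t * Complex.I)) (Icc (-T) T) := by
    have h1 : Continuous fun t : ℝ => z + t * Complex.I := by fun_prop
    refine hH.continuousOn.comp h1.continuousOn fun t _ => ?_
    show -b < (z + t * Complex.I).re
    have : (z + t * Complex.I).re = z.re := by simp
    rw [this]
    exact hKU hz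
  have hint1 : IntegrableOn (fun t : ℝ => (Real.exp (-(1 / 4 * t ^ 2 / α)) : ℂ) *
      H (z + t * Complex.I)) I := by
    have h1 : ContinuousOn (fun t : ℝ => (Real.exp (-(1 / 4 * t ^ 2 / α)) : ℂ) *
      H (z + t * Complex.I)) (Icc (-T) T) := by
      refine ContinuousOn.mul ?_ hHline
      have : Continuous fun t : ℝ => (Real.exp (-(1 / 4 * t ^ 2 / α)) : ℂ) := by fun_prop
      exact this.continuousOn
    exact (h1.integrableOn_compact isCompact_Icc).mono_set Ioc_subset_Icc_self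
  have hgl := gauss_int hα (1 / 4) (by norm_num)
  have hglC : Integrable (fun t : ℝ => (Real.exp (-(1 / 4 * t ^ 2 / α)) : ℂ) * H z) :=
    (hgl.1.ofReal (𝕜 := ℂ)).mul_const _
  have hHz : (√(4 * Real.pi * α) : ℂ) * H z =
      (∫ t in I, (Real.exp (-(1 / 4 * t ^ 2 / α)) : ℂ) * H z) +
        ∫ t in Iᶜ, (Real.exp (-(1 / 4 * t ^ 2 / α)) : ℂ) * H z := by
    rw [integral_add_compl hIm hglC, integral_mul_const, integral_complex_ofReal, hgl.2]
    congr 3
    ring
  have hout2 : ‖∫ t in Iᶜ, (Real.exp (-(1 / 4 * t ^ 2 / α)) : ℂ) * H z‖ ≤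
      S * ((2 / (κ * T ^ 2)) * √(2 * Real.pi / κ) * (α * √α)) := by
    have h2 : ‖∫ t in Iᶜ, (Real.exp (-(1 / 4 * t ^ 2 / α)) : ℂ) * H z‖ ≤
        ∫ t in Iᶜ, S * Real.exp (-(κ * t ^ 2 / α)) := by
      refine norm_integral_le_of_norm_le ((gauss_int hα κ hκ0).1.const_mul _).integrableOn ?_
      refine Eventually.of_forall fun t => ?_
      rw [norm_mul, Complex.norm_real, Real.norm_of_nonneg (Real.exp_pos _).le, mul_comm]
      have h3 : ‖H z‖ ≤ S := by
        have := hS _ (hmem z hz 0 (by simp) (by simpa using hσ0.le) (by simpa using hT0.le)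
          (by simpa using hT0.le))
        rwa [add_zero] at this
      refine mul_le_mul h3 (Real.exp_le_exp.2 ?_) (Real.exp_pos _).le hS0
      have h4 : κ * t ^ 2 / α ≤ 1 / 4 * t ^ 2 / α :=
        div_le_div_of_nonneg_right (mul_le_mul_of_nonneg_right hκ1 (sq_nonneg t)) hα.le
      linarith
    refine h2.trans ?_
    rw [integral_const_mul]
    exact mul_le_mul_of_nonneg_left htb hS0
  have hmain : ‖(∫ t in I, (Real.exp (-(1 / 4 * t ^ 2 / α)) : ℂ) * H (z + t * Complex.I)) -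
      ∫ t in I, (Real.exp (-(1 / 4 * t ^ 2 / α)) : ℂ) * H z‖ ≤
      S' * 5 * √(8 * Real.pi) * (√α * √α) := by
    rw [← integral_sub hint1 hglC.integrableOn]
    have g8 := gauss_int hα (1 / 8) (by norm_num)
    have h2 : ‖∫ t in I, ((Real.exp (-(1 / 4 * t ^ 2 / α)) : ℂ) * H (z + t * Complex.I) -
        (Real.exp (-(1 / 4 * t ^ 2 / α)) : ℂ) * H z)‖ ≤
        ∫ t in I, S' * 5 * √α * Real.exp (-(1 / 8 * t ^ 2 / α)) := by
      refine norm_integral_le_of_norm_le (g8.1.const_mul _).integrableOn ?_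
      refine (ae_restrict_iff' hIm).2 (Eventually.of_forall fun t ht => ?_)
      rw [← mul_sub, norm_mul, Complex.norm_real, Real.norm_of_nonneg (Real.exp_pos _).le]
      -- Lipschitz
      have hlip : ‖H (z + t * Complex.I) - H z‖ ≤ S' * |t| := by
        have hpath : ∀ v ∈ uIcc 0 t, HasDerivWithinAt (fun v : ℝ => H (z + v * Complex.I))
            (deriv H (z + v * Complex.I) * Complex.I) (uIcc 0 t) v := by
          intro v _
          have h3 : HasDerivAt H (deriv H (z + v * Complex.I)) (z + v * Complex.I) := by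
            have h4 : (z + v * Complex.I) ∈ {z : ℂ | -b < z.re} := by
              show -b < (z + v * Complex.I).re
              have : (z + v * Complex.I).re = z.re := by simp
              rw [this]
              exact hKU hz
            exact ((hH _ h4).differentiableAt ((isOpen_half b).mem_nhds h4)).hasDerivAt
          have h5 : HasDerivAt (fun v : ℝ => z + (v : ℂ) * Complex.I) (1 * Complex.I) v :=
            ((Complex.ofRealCLM.hasDerivAt (x := v)).mul_const Complex.I).const_add z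
          have h6 := h3.comp v h5
          rw [one_mul] at h6
          exact h6.hasDerivWithinAt
        have h7 := (convex_uIcc (0 : ℝ) t).norm_image_sub_le_of_norm_hasDerivWithin_le
          (C := S') hpath (fun v hv => ?_) left_mem_uIcc right_mem_uIcc
        · simpa using h7
        · rw [norm_mul, Complex.norm_I, mul_one]
          have hv' : -T ≤ v ∧ v ≤ T := by
            have h8 := uIcc_subset_Icc (a₁ := (0 : ℝ)) (b₁ := t) (a₂ := -T) (b₂ := T)
              ⟨by linarith, hT0.le⟩ ⟨ht.1.le, ht.2⟩ hv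
            exact h8
          refine hS' _ (hmem z hz _ ?_ ?_ ?_ ?_) <;> simp
          · exact hσ0.le
          · exact hv'.1
          · exact hv'.2
      have habs : Real.exp (-(1 / 4 * t ^ 2 / α)) * |t| ≤
          5 * √α * Real.exp (-(1 / 8 * t ^ 2 / α)) := by
        have h9 : Real.exp (-(1 / 4 * t ^ 2 / α)) =
            Real.exp (-(1 / 8 * t ^ 2 / α)) * Real.exp (-(1 / 8 * t ^ 2 / α)) := by
          rw [← Real.exp_add]; congr 1; ring
        have h10 : Real.exp (-(1 / 8 * t ^ 2 / α)) * |t| ≤ 5 * √α := by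
          rcases le_or_gt |t| √α with h | h
          · calc _ ≤ 1 * |t| := by
                  refine mul_le_mul_of_nonneg_right (Real.exp_le_one_iff.2 ?_) (abs_nonneg _)
                  have : 0 ≤ 1 / 8 * t ^ 2 / α := by positivity
                  linarith
              _ ≤ 5 * √α := by linarith
          · have ht0 : 0 < |t| := lt_trans hsα0 h
            have ht2 : 0 < t ^ 2 := by rw [← sq_abs]; positivity
            -- `e^{-x} ≤ 1 / (x √..)`: use `e^{-x} ≤ 1 / (2 √x)`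
            have h11 : Real.exp (-(1 / 8 * t ^ 2 / α)) ≤ 5 * √α / |t| := by
              set y : ℝ := |t| / √α with hy
              have hy0 : 0 < y := by positivity
              have h12 : 1 / 8 * t ^ 2 / α = y ^ 2 / 8 := by
                rw [hy, div_pow, sq_abs, Real.sq_sqrt hα.le]
                ring
              have h13 : 5 * √α / |t| = 5 / y := by
                rw [hy]
                field_simp
              rw [h12, h13, le_div_iff₀ hy0, Real.exp_neg, inv_mul_le_iff₀ (Real.exp_pos _)]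
              have h14 := Real.add_one_le_exp (y ^ 2 / 8)
              nlinarith [sq_nonneg (y - 4)]
            calc _ ≤ 5 * √α / |t| * |t| := mul_le_mul_of_nonneg_right h11 (abs_nonneg _)
              _ = 5 * √α := div_mul_cancel₀ _ ht0.ne'
        rw [h9]
        calc _ = Real.exp (-(1 / 8 * t ^ 2 / α)) * (Real.exp (-(1 / 8 * t ^ 2 / α)) * |t|) := by
              ring
          _ ≤ Real.exp (-(1 / 8 * t ^ 2 / α)) * (5 * √α) :=
              mul_le_mul_of_nonneg_left h10 (Real.exp_pos _).le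
          _ = _ := by ring
      calc Real.exp (-(1 / 4 * t ^ 2 / α)) * ‖H (z + t * Complex.I) - H z‖
          ≤ Real.exp (-(1 / 4 * t ^ 2 / α)) * (S' * |t|) :=
            mul_le_mul_of_nonneg_left hlip (Real.exp_pos _).le
        _ = S' * (Real.exp (-(1 / 4 * t ^ 2 / α)) * |t|) := by ring
        _ ≤ S' * (5 * √α * Real.exp (-(1 / 8 * t ^ 2 / α))) :=
            mul_le_mul_of_nonneg_left habs hS'0
        _ = _ := by ring
    refine h2.trans ?_
    have h3 : ∫ t in I, S' * 5 * √α * Real.exp (-(1 / 8 * t ^ 2 / α)) ≤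
        ∫ t, S' * 5 * √α * Real.exp (-(1 / 8 * t ^ 2 / α)) := by
      refine setIntegral_le_integral (g8.1.const_mul _) (Eventually.of_forall fun t => ?_)
      simp only [Pi.zero_apply]
      positivity
    refine h3.trans (le_of_eq ?_)
    rw [integral_const_mul, g8.2]
    have h6 : Real.pi * α / (1 / 8) = 8 * Real.pi * α := by ring
    rw [h6, Real.sqrt_mul (by positivity)]
    ring
  -- the conclusion
  have e3 : Complex.I • ∫ v in (-T)..T, f (((σ : ℝ) : ℂ) + v * Complex.I) =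
      Complex.I • (∫ v in (-T)..T, f (((0 : ℝ) : ℂ) + v * Complex.I)) -
      (∫ x in (0 : ℝ)..σ, f (x + ((-T : ℝ) : ℂ) * Complex.I)) +
      ∫ x in (0 : ℝ)..σ, f (x + ((T : ℝ) : ℂ) * Complex.I) := by
    linear_combination hcauchy
  have e4 : ∫ v in (-T)..T, f (((σ : ℝ) : ℂ) + v * Complex.I) =
      (∫ v in (-T)..T, f (((0 : ℝ) : ℂ) + v * Complex.I)) +
      Complex.I * (∫ x in (0 : ℝ)..σ, f (x + ((-T : ℝ) : ℂ) * Complex.I)) -
      Complex.I * ∫ x in (0 : ℝ)..σ, f (x + ((T : ℝ) : ℂ) * Complex.I) := by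
    have h1 := congrArg (fun w => -Complex.I * w) e3
    simp only [smul_eq_mul] at h1
    have h2 : Complex.I * Complex.I = -1 := Complex.I_mul_I
    linear_combination h1 + ((∫ v in (-T)..T, f (((σ : ℝ) : ℂ) + v * Complex.I)) -
      ∫ v in (-T)..T, f (((0 : ℝ) : ℂ) + v * Complex.I)) * h2
  have hfin : (√(4 * Real.pi * α) : ℂ) * (GG m u c α z - H z) =
      (∫ t in Iᶜ, g t) +
      Complex.I * (∫ x in (0 : ℝ)..σ, f (x + ((-T : ℝ) : ℂ) * Complex.I)) -
      Complex.I * (∫ x in (0 : ℝ)..σ, f (x + ((T : ℝ) : ℂ) * Complex.I)) +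
      ((∫ t in I, (Real.exp (-(1 / 4 * t ^ 2 / α)) : ℂ) * H (z + t * Complex.I)) -
        ∫ t in I, (Real.exp (-(1 / 4 * t ^ 2 / α)) : ℂ) * H z) -
      ∫ t in Iᶜ, (Real.exp (-(1 / 4 * t ^ 2 / α)) : ℂ) * H z := by
    rw [mul_sub, hHz, hrep]
    change (∫ t, g t) - _ = _
    rw [hsplit, e1, e4, e0]
    ring
  have hnorm : √(4 * Real.pi * α) * ‖GG m u c α z - H z‖ ≤
      k1 * ((2 / (κ * T ^ 2)) * √(2 * Real.pi / κ) * (α * √α)) +
      (S * (4 / (T ^ 2 - σ ^ 2)) * α) * |σ - 0| + (S * (4 / (T ^ 2 - σ ^ 2)) * α) * |σ - 0| +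
      S' * 5 * √(8 * Real.pi) * (√α * √α) +
      S * ((2 / (κ * T ^ 2)) * √(2 * Real.pi / κ) * (α * √α)) := by
    have h1 : √(4 * Real.pi * α) * ‖GG m u c α z - H z‖ =
        ‖(√(4 * Real.pi * α) : ℂ) * (GG m u c α z - H z)‖ := by
      rw [norm_mul, Complex.norm_real, Real.norm_of_nonneg (Real.sqrt_nonneg _)]
    rw [h1, hfin]
    refine (norm_sub_le _ _).trans (add_le_add ?_ hout2)
    refine (norm_add_le _ _).trans (add_le_add ?_ hmain)
    refine (norm_sub_le _ _).trans (add_le_add ?_ ?_)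
    · refine (norm_add_le _ _).trans (add_le_add hout ?_)
      rw [norm_mul, Complex.norm_I, one_mul]
      exact n1
    · rw [norm_mul, Complex.norm_I, one_mul]
      exact n2
  have h4pi : 0 < √(4 * Real.pi) := Real.sqrt_pos.2 (by positivity)
  rw [Real.sqrt_mul (by positivity), sub_zero, abs_of_pos hσ0] at hnorm
  rw [div_mul_eq_mul_div, le_div_iff₀ h4pi]
  have h5 : √(4 * Real.pi) * ‖GG m u c α z - H z‖ * √α ≤
      (((k1 + S) * (2 / (κ * T ^ 2)) * √(2 * Real.pi / κ) +
        2 * (S * (4 / (T ^ 2 - σ ^ 2)) * σ) + S' * 5 * √(8 * Real.pi)) * √α) * √α := by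
    have h6 : α * √α ≤ α := by
      have : √α ≤ 1 := Real.sqrt_le_one.2 hα1
      nlinarith
    have h7 : 0 ≤ (k1 + S) * (2 / (κ * T ^ 2)) * √(2 * Real.pi / κ) := by positivity
    have h8 := mul_le_mul_of_nonneg_left h6 h7
    calc _ = √(4 * Real.pi) * √α * ‖GG m u c α z - H z‖ := by ring
      _ ≤ _ := hnorm
      _ = (k1 + S) * (2 / (κ * T ^ 2)) * √(2 * Real.pi / κ) * (α * √α) +
          2 * (S * (4 / (T ^ 2 - σ ^ 2)) * σ) * α + S' * 5 * √(8 * Real.pi) * (√α * √α) := by
            ring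
      _ ≤ (k1 + S) * (2 / (κ * T ^ 2)) * √(2 * Real.pi / κ) * α +
          2 * (S * (4 / (T ^ 2 - σ ^ 2)) * σ) * α + S' * 5 * √(8 * Real.pi) * (√α * √α) := by
            linarith
      _ = _ := by rw [mul_assoc _ √α √α, hsα]; ring
  have h9 := le_of_mul_le_mul_right h5 hsα0
  linarith [h9]

end Pool.Agent.N881.GW
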