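import Pool.Agent.N881.GW.H

/-!
# The contribution of a pole
-/

set_option autoImplicit false

namespace Pool.Agent.N881.GW

open MeasureTheory Set Filter Topology

/-- the average of `e^{ζ t}`, `t > 0` -/
noncomputable def NN (A y : ℝ) (ζ : ℂ) : ℂ :=
  ∫ t in Ioi (0 : ℝ), Complex.exp (ζ * t) * (gk A y t : ℂ)

/-- the power of `x = e^y` -/
noncomputable def XX (A y : ℝ) (ζ : ℂ) : ℂ := Complex.exp (y * (ζ + ζ ^ 2 / (4 * A)))

lemma norm_XX {A : ℝ} (hA : 0 < A) (y : ℝ) (ζ : ℂ) : ‖XX A y ζ‖ =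
    Real.exp (y * (-A + ((ζ.re + 2 * A) ^ 2 - ζ.im ^ 2) / (4 * A))) := by
  have h := norm_EE hA.ne' y ζ
  unfold EE at h
  unfold XX
  rw [h]
  congr 2
  field_simp
  ring

/-- poles far away do not contribute -/
lemma XX_small {A y : ℝ} (hA : 0 < A) (hy : 0 ≤ y) {ζ : ℂ} (h1 : -(2 * A) < ζ.re) (h2 : ζ.re ≤ 0)
    (h3 : 2 * A ≤ |ζ.im|) : ‖XX A y ζ‖ ≤ Real.exp (-(A * y)) := by
  rw [norm_XX hA]
  apply Real.exp_le_exp.2
  have h4 : (ζ.re + 2 * A) ^ 2 ≤ (2 * A) ^ 2 := pow_le_pow_left₀ (by linarith) (by linarith) 2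
  have h5 : (2 * A) ^ 2 ≤ ζ.im ^ 2 := by
    rw [← sq_abs ζ.im]
    exact pow_le_pow_left₀ (by positivity) h3 2
  have h6 : ((ζ.re + 2 * A) ^ 2 - ζ.im ^ 2) / (4 * A) ≤ 0 :=
    div_nonpos_of_nonpos_of_nonneg (by linarith) (by positivity)
  nlinarith

lemma gk_form {A y : ℝ} (hA : 0 < A) (hy : 0 < y) (ζ : ℂ) (t : ℝ) :
    Complex.exp (ζ * t) * (gk A y t : ℂ) = (√(A / (Real.pi * y)) : ℂ) *
      Complex.exp (((-(A / y) : ℝ) : ℂ) * t ^ 2 + (ζ + 2 * A) * t + ((-(A * y) : ℝ) : ℂ)) := by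
  unfold gk
  rw [Complex.ofReal_mul, mul_left_comm]
  congr 1
  rw [Complex.ofReal_exp, ← Complex.exp_add]
  congr 1
  have hy' : (y : ℂ) ≠ 0 := by exact_mod_cast hy.ne'
  push_cast
  field_simp
  ring

lemma neg_re_aux {A y : ℝ} (hA : 0 < A) (hy : 0 < y) : (((-(A / y) : ℝ) : ℂ)).re < 0 := by
  rw [Complex.ofReal_re]
  have : 0 < A / y := by positivity
  linarith

lemma gk_int_full {A y : ℝ} (hA : 0 < A) (hy : 0 < y) (ζ : ℂ) :
    Integrable (fun t : ℝ => Complex.exp (ζ * t) * (gk A y t : ℂ)) := by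
  have h := integrable_cexp_quadratic' (neg_re_aux hA hy) (ζ + 2 * A) ((-(A * y) : ℝ) : ℂ)
  refine (h.const_mul (√(A / (Real.pi * y)) : ℂ)).congr (Eventually.of_forall fun t => ?_)
  simp only
  rw [gk_form hA hy]

lemma integral_full {A y : ℝ} (hA : 0 < A) (hy : 0 < y) (ζ : ℂ) :
    ∫ t : ℝ, Complex.exp (ζ * t) * (gk A y t : ℂ) = XX A y ζ := by
  simp_rw [gk_form hA hy]
  rw [integral_const_mul, integral_cexp_quadratic (neg_re_aux hA hy)]
  have h1 : ((Real.pi : ℂ) / -((-(A / y) : ℝ) : ℂ)) = ((Real.pi / (A / y) : ℝ) : ℂ) := by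
    push_cast
    ring
  rw [h1]
  have h2 : ((1 : ℂ) / 2) = ((1 / 2 : ℝ) : ℂ) := by push_cast; ring
  rw [h2, ← Complex.ofReal_cpow (by positivity), ← Real.sqrt_eq_rpow, ← mul_assoc,
    ← Complex.ofReal_mul, ← Real.sqrt_mul (by positivity)]
  have h3 : A / (Real.pi * y) * (Real.pi / (A / y)) = 1 := by
    field_simp
  rw [h3, Real.sqrt_one, Complex.ofReal_one, one_mul]
  unfold XX
  congr 1
  have hA' : (A : ℂ) ≠ 0 := by exact_mod_cast hA.ne'
  have hy' : (y : ℂ) ≠ 0 := by exact_mod_cast hy.ne'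
  push_cast
  field_simp
  ring

lemma norm_exp_gk (A y : ℝ) (ζ : ℂ) (t : ℝ) :
    ‖Complex.exp (ζ * t) * (gk A y t : ℂ)‖ = Real.exp (ζ.re * t) * gk A y t := by
  rw [norm_mul, Complex.norm_real, Real.norm_of_nonneg (gk_nonneg A y t), Complex.norm_exp]
  congr 2
  simp

lemma gk_le {A y : ℝ} (hA : 0 < A) (hy : 0 < y) (t : ℝ) :
    gk A y t ≤ √(A / (Real.pi * y)) * (Real.exp (-(A * y)) * Real.exp (2 * A * t)) := by
  unfold gk
  refine mul_le_mul_of_nonneg_left ?_ (Real.sqrt_nonneg _)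
  rw [← Real.exp_add]
  apply Real.exp_le_exp.2
  have h : -(A * (t - y) ^ 2 / y) = -(A * y) + 2 * A * t - A * t ^ 2 / y := by
    field_simp
    ring
  have h2 : 0 ≤ A * t ^ 2 / y := by positivity
  linarith

/-- **The average of an exponential,** main case. -/
lemma NN_main {A y y0 : ℝ} (hA : 0 < A) (hy0 : 0 < y0) (hy : y0 ≤ y) {ζ : ℂ}
    (h1 : -(2 * A) < ζ.re) :
    ‖NN A y ζ - XX A y ζ‖ ≤ √(A / (Real.pi * y0)) / (ζ.re + 2 * A) * Real.exp (-(A * y)) := by
  have hyp : 0 < y := by linarith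
  have hκ : 0 < ζ.re + 2 * A := by linarith
  have hint := gk_int_full hA hyp ζ
  have h2 : XX A y ζ = NN A y ζ + ∫ t in Iic (0 : ℝ), Complex.exp (ζ * t) * (gk A y t : ℂ) := by
    rw [← integral_full hA hyp, NN, ← compl_Ioi, integral_add_compl measurableSet_Ioi hint]
  have h3 : NN A y ζ - XX A y ζ = -∫ t in Iic (0 : ℝ), Complex.exp (ζ * t) * (gk A y t : ℂ) := by
    rw [h2]; ring
  rw [h3, norm_neg]
  have h4 : ‖∫ t in Iic (0 : ℝ), Complex.exp (ζ * t) * (gk A y t : ℂ)‖ ≤
      ∫ t in Iic (0 : ℝ), (√(A / (Real.pi * y)) * Real.exp (-(A * y))) *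
        Real.exp ((ζ.re + 2 * A) * t) := by
    refine norm_integral_le_of_norm_le ?_ (Eventually.of_forall fun t => ?_)
    · exact (integrableOn_exp_mul_Iic hκ 0).const_mul _
    · rw [norm_exp_gk]
      calc Real.exp (ζ.re * t) * gk A y t
          ≤ Real.exp (ζ.re * t) * (√(A / (Real.pi * y)) *
              (Real.exp (-(A * y)) * Real.exp (2 * A * t))) :=
            mul_le_mul_of_nonneg_left (gk_le hA hyp t) (Real.exp_pos _).le
        _ = (√(A / (Real.pi * y)) * Real.exp (-(A * y))) *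
              (Real.exp (ζ.re * t) * Real.exp (2 * A * t)) := by ring
        _ = _ := by rw [← Real.exp_add]; congr 2; ring
  refine h4.trans ?_
  rw [integral_const_mul, integral_exp_mul_Iic hκ]
  simp only [mul_zero, Real.exp_zero]
  have h5 : √(A / (Real.pi * y)) ≤ √(A / (Real.pi * y0)) := by
    apply Real.sqrt_le_sqrt
    exact div_le_div_of_nonneg_left hA.le (by positivity)
      (mul_le_mul_of_nonneg_left hy Real.pi_pos.le)
  calc √(A / (Real.pi * y)) * Real.exp (-(A * y)) * (1 / (ζ.re + 2 * A))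
      ≤ √(A / (Real.pi * y0)) * Real.exp (-(A * y)) * (1 / (ζ.re + 2 * A)) := by
        refine mul_le_mul_of_nonneg_right ?_ (by positivity)
        exact mul_le_mul_of_nonneg_right h5 (Real.exp_pos _).le
    _ = _ := by ring

/-- the average of an exponential, the other case -/
lemma NN_small {A y : ℝ} (hA : 0 < A) (hy : 0 < y) {ζ : ℂ} (h1 : ζ.re ≤ -(2 * A)) :
    ‖NN A y ζ‖ ≤ Real.exp (-(A * y)) := by
  have hb : 0 < A / y := by positivity
  have h4 : ‖NN A y ζ‖ ≤ ∫ t in Ioi (0 : ℝ), (√(A / (Real.pi * y)) * Real.exp (-(A * y))) *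
        Real.exp (-(A / y) * t ^ 2) := by
    unfold NN
    refine norm_integral_le_of_norm_le ?_ ?_
    · exact ((integrable_exp_neg_mul_sq hb).const_mul _).integrableOn
    · refine (ae_restrict_iff' measurableSet_Ioi).2 (Eventually.of_forall fun t ht => ?_)
      have ht0 : (0 : ℝ) < t := ht
      rw [norm_exp_gk]
      unfold gk
      have h5 : Real.exp (ζ.re * t) * Real.exp (-(A * (t - y) ^ 2 / y)) ≤
          Real.exp (-(A * y)) * Real.exp (-(A / y) * t ^ 2) := by
        rw [← Real.exp_add, ← Real.exp_add]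
        apply Real.exp_le_exp.2
        have h6 : -(A * (t - y) ^ 2 / y) = -(A * y) + 2 * A * t + -(A / y) * t ^ 2 := by
          field_simp
          ring
        have h7 : (ζ.re + 2 * A) * t ≤ 0 :=
          mul_nonpos_of_nonpos_of_nonneg (by linarith) ht0.le
        linarith
      calc Real.exp (ζ.re * t) * (√(A / (Real.pi * y)) * Real.exp (-(A * (t - y) ^ 2 / y)))
          = √(A / (Real.pi * y)) * (Real.exp (ζ.re * t) * Real.exp (-(A * (t - y) ^ 2 / y))) := by
            ring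
        _ ≤ √(A / (Real.pi * y)) * (Real.exp (-(A * y)) * Real.exp (-(A / y) * t ^ 2)) :=
            mul_le_mul_of_nonneg_left h5 (Real.sqrt_nonneg _)
        _ = _ := by ring
  refine h4.trans ?_
  rw [integral_const_mul, integral_gaussian_Ioi]
  have h8 : √(A / (Real.pi * y)) * √(Real.pi / (A / y)) = 1 := by
    rw [← Real.sqrt_mul (by positivity)]
    have : A / (Real.pi * y) * (Real.pi / (A / y)) = 1 := by field_simp
    rw [this, Real.sqrt_one]
  have h9 : √(A / (Real.pi * y)) * Real.exp (-(A * y)) * (√(Real.pi / (A / y)) / 2) =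
      Real.exp (-(A * y)) / 2 := by
    calc _ = (√(A / (Real.pi * y)) * √(Real.pi / (A / y))) * Real.exp (-(A * y)) / 2 := by ring
      _ = _ := by rw [h8, one_mul]
  rw [h9]
  have := Real.exp_pos (-(A * y))
  linarith

/-- the density of finitely many poles -/
noncomputable def dz (Z : Finset ℂ) (m : ℂ → ℤ) (t : ℝ) : ℂ :=
  ∑ w ∈ Z, (m w : ℂ) * Complex.exp (w * t)

lemma integrable_exp_Ioi {w : ℂ} {σ : ℝ} (h : w.re < σ) :
    IntegrableOn (fun t : ℝ => Complex.exp ((w - σ) * t)) (Ioi 0) := by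
  have h1 := integrableOn_exp_mul_complex_Ioi (a := w - σ) (by simpa using h) 0
  exact h1

lemma dat_poles (Z : Finset ℂ) (m : ℂ → ℤ) (hZ : ∀ w ∈ Z, w.re ≤ 0) :
    Dat (volume.restrict (Ioi (0 : ℝ))) uP (dz Z m) where
  hu := fun t => le_max_right _ _
  mu := measurable_id.max measurable_const
  mc := by unfold dz; fun_prop
  int := by
    intro σ hσ
    have h2 : Integrable (fun t : ℝ => ∑ w ∈ Z, ‖(m w : ℂ)‖ *
        ‖Complex.exp ((w - σ) * t)‖) (volume.restrict (Ioi (0 : ℝ))) := by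
      refine integrable_finsetSum _ fun w hw => Integrable.const_mul ?_ _
      exact (integrable_exp_Ioi (lt_of_le_of_lt (hZ w hw) hσ)).norm
    refine h2.mono' ?_ ?_
    · have h : Continuous (dz Z m) := by unfold dz; fun_prop
      have h' : Continuous uP := continuous_id.max continuous_const
      exact (h.norm.mul (Real.continuous_exp.comp
        (continuous_const.mul h').neg)).aestronglyMeasurable
    · refine (ae_restrict_iff' measurableSet_Ioi).2 (Eventually.of_forall fun t ht => ?_)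
      have ht0 : (0 : ℝ) < t := ht
      rw [Real.norm_of_nonneg (by positivity)]
      unfold dz uP
      rw [max_eq_left ht0.le]
      calc ‖∑ w ∈ Z, (m w : ℂ) * Complex.exp (w * t)‖ * Real.exp (-(σ * t))
          ≤ (∑ w ∈ Z, ‖(m w : ℂ) * Complex.exp (w * t)‖) * Real.exp (-(σ * t)) :=
            mul_le_mul_of_nonneg_right (norm_sum_le _ _) (Real.exp_pos _).le
        _ = _ := by
            rw [Finset.sum_mul]
            refine Finset.sum_congr rfl fun w _ => ?_
            rw [norm_mul, mul_assoc]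
            congr 1
            rw [Complex.norm_exp, Complex.norm_exp, ← Real.exp_add]
            congr 1
            simp
            ring

lemma phi_poles (Z : Finset ℂ) (m : ℂ → ℤ) (hZ : ∀ w ∈ Z, w.re ≤ 0) {z : ℂ} (hz : 0 < z.re) :
    phi (volume.restrict (Ioi (0 : ℝ))) uP (dz Z m) z = ∑ w ∈ Z, (m w : ℂ) / (z - w) := by
  unfold phi
  have hlt : ∀ w ∈ Z, (w - z).re < 0 := fun w hw => by
    have := hZ w hw
    rw [Complex.sub_re]
    linarith
  have e1 : ∫ t in Ioi (0 : ℝ), dz Z m t * Complex.exp (-(z * uP t)) =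
      ∫ t in Ioi (0 : ℝ), ∑ w ∈ Z, (m w : ℂ) * Complex.exp ((w - z) * t) := by
    refine setIntegral_congr_fun measurableSet_Ioi fun t ht => ?_
    have ht0 : (0 : ℝ) < t := ht
    unfold dz uP
    rw [max_eq_left ht0.le, Finset.sum_mul]
    refine Finset.sum_congr rfl fun w _ => ?_
    rw [mul_assoc, ← Complex.exp_add]
    congr 2
    ring
  rw [e1, integral_finsetSum _ fun w hw =>
    (integrableOn_exp_mul_complex_Ioi (hlt w hw) 0).const_mul _]
  refine Finset.sum_congr rfl fun w hw => ?_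
  rw [integral_const_mul, integral_exp_mul_complex_Ioi (hlt w hw) 0]
  have hne : z - w ≠ 0 := by
    intro h
    have h2 := hlt w hw
    have h3 : w - z = 0 := by linear_combination -h
    rw [h3] at h2
    simp at h2
  have hne' : w - z ≠ 0 := by
    intro h
    apply hne
    linear_combination -h
  simp only [Complex.ofReal_zero, mul_zero, Complex.exp_zero]
  field_simp
  ring

lemma MM_poles (Z : Finset ℂ) (m : ℂ → ℤ) {A y : ℝ} (hA : 0 < A) (hy : 0 < y) (z : ℂ) :
    MM (volume.restrict (Ioi (0 : ℝ))) uP (dz Z m) A y z =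
      ∑ w ∈ Z, (m w : ℂ) * NN A y (w - z) := by
  unfold MM NN
  have e1 : ∫ t in Ioi (0 : ℝ), dz Z m t * Complex.exp (-(z * uP t)) * (gk A y (uP t) : ℂ) =
      ∫ t in Ioi (0 : ℝ), ∑ w ∈ Z, (m w : ℂ) * (Complex.exp ((w - z) * t) * (gk A y t : ℂ)) := by
    refine setIntegral_congr_fun measurableSet_Ioi fun t ht => ?_
    have ht0 : (0 : ℝ) < t := ht
    unfold dz uP
    rw [max_eq_left ht0.le, Finset.sum_mul, Finset.sum_mul]
    refine Finset.sum_congr rfl fun w _ => ?_
    have : Complex.exp ((w - z) * t) = Complex.exp (w * t) * Complex.exp (-(z * t)) := by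
      rw [← Complex.exp_add]
      congr 1
      ring
    rw [this]
    ring
  rw [e1, integral_finsetSum _ fun w _ => ((gk_int_full hA hy (w - z)).integrableOn.const_mul _)]
  exact Finset.sum_congr rfl fun w _ => integral_const_mul _ _

end Pool.Agent.N881.GW
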