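import Pool.Agent.N881.GW.M1

/-!
# Continuation with given zeros and poles: from the function to the averages
-/

set_option autoImplicit false

namespace Pool.Agent.N881.GW

open MeasureTheory Set Filter Topology

/-- the product with given zeros and poles -/
noncomputable def PZ (Z : Finset ℂ) (μ : ℂ → ℤ) (z : ℂ) : ℂ := ∏ w ∈ Z, (z - w) ^ (μ w)

lemma PZ_mer (Z : Finset ℂ) (μ : ℂ → ℤ) (z : ℂ) : MeromorphicAt (PZ Z μ) z := by
  unfold PZ
  fun_prop

lemma PZ_ne {Z : Finset ℂ} (μ : ℂ → ℤ) {z : ℂ} (hz : z ∉ Z) : PZ Z μ z ≠ 0 := by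
  unfold PZ
  rw [Finset.prod_ne_zero_iff]
  intro w hw
  refine zpow_ne_zero _ (sub_ne_zero.2 ?_)
  rintro rfl
  exact hz hw

lemma order_zero_of_ne {f : ℂ → ℂ} {z : ℂ} (h1 : AnalyticAt ℂ f z) (h2 : f z ≠ 0) :
    meromorphicOrderAt f z = 0 :=
  (h1.meromorphicNFAt.meromorphicOrderAt_eq_zero_iff).2 h2

open Classical in
lemma PZ_order (Z : Finset ℂ) (μ : ℂ → ℤ) (z : ℂ) :
    meromorphicOrderAt (PZ Z μ) z = ((if z ∈ Z then μ z else 0 : ℤ) : WithTop ℤ) := by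
  unfold PZ
  rw [meromorphicOrderAt_fun_prod (fun w _ => by fun_prop)]
  have h : ∀ w ∈ Z, meromorphicOrderAt (fun a : ℂ => (a - w) ^ (μ w)) z =
      ((if w = z then μ z else 0 : ℤ) : WithTop ℤ) := by
    intro w _
    split_ifs with hwz
    · rw [hwz]
      exact fun_meromorphicOrderAt_zpow_id_sub_const
    · have hne : z - w ≠ 0 := sub_ne_zero.2 fun h => hwz h.symm
      exact order_zero_of_ne ((analyticAt_id.sub analyticAt_const).fun_zpow hne)
        (zpow_ne_zero _ hne)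
  rw [Finset.sum_congr rfl h, ← WithTop.coe_sum, Finset.sum_ite_eq']

lemma PZ_deriv {Z : Finset ℂ} (μ : ℂ → ℤ) {z : ℂ} (hz : z ∉ Z) :
    HasDerivAt (PZ Z μ) (PZ Z μ z * ∑ w ∈ Z, (μ w : ℂ) / (z - w)) z := by
  classical
  induction Z using Finset.induction with
  | empty =>
    simp only [Finset.sum_empty, mul_zero]
    have : PZ ∅ μ = fun _ => 1 := by
      funext z
      simp [PZ]
    rw [this]
    exact hasDerivAt_const _ _
  | insert a s ha ih =>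
    have hz1 : z ∉ s := fun h => hz (Finset.mem_insert_of_mem h)
    have hza : z - a ≠ 0 := by
      rw [sub_ne_zero]
      rintro rfl
      exact hz (Finset.mem_insert_self _ _)
    have h1 := ih hz1
    have e : PZ (insert a s) μ = fun z => (z - a) ^ (μ a) * PZ s μ z := by
      funext z
      unfold PZ
      rw [Finset.prod_insert ha]
    rw [e, Finset.sum_insert ha]
    have h2 : HasDerivAt (fun z : ℂ => (z - a) ^ (μ a)) ((μ a : ℂ) * (z - a) ^ (μ a - 1)) z := by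
      have h3 := (hasDerivAt_zpow (μ a) (z - a) (Or.inl hza)).comp z
        ((hasDerivAt_id z).sub_const a)
      simpa [Function.comp_def] using h3
    have h4 := h2.mul h1
    refine h4.congr_deriv ?_
    simp only
    rw [zpow_sub_one₀ hza]
    field_simp

variable {Ω : Type} [MeasurableSpace Ω] {m : Measure Ω} {u : Ω → ℝ} {c : Ω → ℂ} {L : ℂ → ℂ}

/-- `L` is a function with logarithmic derivative minus the Laplace transform. -/
structure LD (m : Measure Ω) (u : Ω → ℝ) (c : Ω → ℂ) (L : ℂ → ℂ) : Prop where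
  dat : Dat m u c
  der : ∀ z : ℂ, 0 < z.re → HasDerivAt L (-(phi m u c z) * L z) z
  ne : ∀ z : ℂ, 0 < z.re → L z ≠ 0

/-- the box -/
def box (b R : ℝ) : Set ℂ := {z : ℂ | -b < z.re ∧ |z.im| < R}

lemma isOpen_box (b R : ℝ) : IsOpen (box b R) := by
  refine IsOpen.inter (isOpen_lt continuous_const Complex.continuous_re) ?_
  exact isOpen_lt (continuous_abs.comp Complex.continuous_im) continuous_const

/-- `Λ` continues `L` to `U` and has the orders `μ` -/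
def Cont (L : ℂ → ℂ) (μ : ℂ → ℤ) (U : Set ℂ) (Λ : ℂ → ℂ) : Prop :=
  (∀ z ∈ U, 0 < z.re → Λ z = L z) ∧
    ∀ z ∈ U, MeromorphicAt Λ z ∧ meromorphicOrderAt Λ z = (μ z : WithTop ℤ)

/-- **The regularised logarithmic derivative.** -/
lemma LD.reg (E : LD m u c L) {μ : ℂ → ℤ} {Λ : ℂ → ℂ} {b R : ℝ} (hb : 0 < b)
    (hΛ : Cont L μ (box b R) Λ) {Z : Finset ℂ} (hZ0 : ∀ w ∈ Z, w.re ≤ 0)
    (hZ : ∀ z ∈ box b R, μ z ≠ 0 → z ∈ Z) :
    ∃ H : ℂ → ℂ, DifferentiableOn ℂ H (box b R) ∧ ∀ z : ℂ, 0 < z.re → |z.im| < R →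
      H z = phi m u c z + ∑ w ∈ Z, (μ w : ℂ) / (z - w) := by
  classical
  obtain ⟨hΛ1, hΛ2⟩ := hΛ
  set G : ℂ → ℂ := fun z => Λ z * (PZ Z μ z)⁻¹ with hG
  have hGm : MeromorphicOn G (box b R) := fun z hz => (hΛ2 z hz).1.fun_mul (PZ_mer Z μ z).fun_inv
  have hGo : ∀ z ∈ box b R, meromorphicOrderAt G z = 0 := by
    intro z hz
    have h1 := fun_meromorphicOrderAt_mul (hΛ2 z hz).1 (PZ_mer Z μ z).fun_inv
    rw [hG, h1, (hΛ2 z hz).2]
    have h2 : meromorphicOrderAt (fun w => (PZ Z μ w)⁻¹) z = -meromorphicOrderAt (PZ Z μ) z :=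
      fun_meromorphicOrderAt_inv
    rw [h2, PZ_order]
    by_cases hm : z ∈ Z
    · rw [if_pos hm, ← WithTop.LinearOrderedAddCommGroup.coe_neg, ← WithTop.coe_add,
        add_neg_cancel, WithTop.coe_zero]
    · have h3 : μ z = 0 := by
        by_contra hne
        exact hm (hZ z hz hne)
      rw [if_neg hm, h3]
      simp
  set N : ℂ → ℂ := toMeromorphicNFOn G (box b R) with hN
  have hNF : ∀ z ∈ box b R, MeromorphicNFAt N z := fun z hz =>
    meromorphicNFOn_toMeromorphicNFOn G (box b R) hz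
  have hNG : ∀ z ∈ box b R, N =ᶠ[𝓝[≠] z] G := fun z hz =>
    hGm.toMeromorphicNFOn_eq_self_on_nhdsNE hz
  have hNo : ∀ z ∈ box b R, meromorphicOrderAt N z = 0 := fun z hz => by
    rw [meromorphicOrderAt_congr (hNG z hz), hGo z hz]
  have hNa : ∀ z ∈ box b R, AnalyticAt ℂ N z := fun z hz =>
    ((hNF z hz).meromorphicOrderAt_nonneg_iff_analyticAt).1 (hNo z hz).ge
  have hN0 : ∀ z ∈ box b R, N z ≠ 0 := fun z hz =>
    ((hNF z hz).meromorphicOrderAt_eq_zero_iff).1 (hNo z hz)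
  refine ⟨fun z => -(deriv N z / N z), fun z hz => ?_, fun z hz0 hzR => ?_⟩
  · have h1 := (hNa z hz).deriv.differentiableAt
    have h2 := (hNa z hz).differentiableAt
    exact ((h1.div h2 (hN0 z hz)).neg).differentiableWithinAt
  · have hzb : z ∈ box b R := ⟨by linarith, hzR⟩
    have hzZ : z ∉ Z := fun h => by
      have := hZ0 z h
      linarith
    have hP0 := PZ_ne μ hzZ
    have hLd := E.der z hz0
    have hPd := PZ_deriv μ hzZ
    have hQ := hLd.mul (hPd.inv hP0)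
    have hev : N =ᶠ[𝓝 z] fun z => L z * (PZ Z μ z)⁻¹ := by
      have h1 : G =ᶠ[𝓝 z] fun z => L z * (PZ Z μ z)⁻¹ := by
        have hop : IsOpen ({z : ℂ | 0 < z.re} ∩ box b R) :=
          (isOpen_lt continuous_const Complex.continuous_re).inter (isOpen_box b R)
        filter_upwards [hop.mem_nhds ⟨hz0, hzb⟩] with w hw
        rw [hG]
        simp only
        rw [hΛ1 w hw.2 hw.1]
      have h2 : N =ᶠ[𝓝[≠] z] fun z => L z * (PZ Z μ z)⁻¹ :=
        (hNG z hzb).trans (h1.filter_mono nhdsWithin_le_nhds)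
      exact ((hNa z hzb).continuousAt.eventuallyEq_nhds_iff_eventuallyEq_nhdsNE
        hQ.continuousAt).1 h2
    have hNd := (hQ.congr_of_eventuallyEq hev).deriv
    have hNz : N z = L z * (PZ Z μ z)⁻¹ := hev.eq_of_nhds
    have hL0 := E.ne z hz0
    simp only
    rw [hNd, hNz, Pi.inv_apply]
    field_simp
    ring

/-- the poles and zeros which count -/
def ZS (μ : ℂ → ℤ) (A T : ℝ) : Set ℂ := {w : ℂ | μ w ≠ 0 ∧ -(2 * A) < w.re ∧ |w.im| ≤ T + 2 * A}

lemma one_conv {A y0 : ℝ} (hA : 0 < A) (hy0 : 0 < y0) (T : ℝ) {w : ℂ} (hw : w.re ≤ 0) :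
    ∃ C : ℝ, ∀ τ y : ℝ, |τ| ≤ T → y0 ≤ y →
      ((-(2 * A) < w.re ∧ |w.im| ≤ T + 2 * A) →
        ‖NN A y (w - τ * Complex.I) - XX A y (w - τ * Complex.I)‖ ≤ C * Real.exp (-(A * y))) ∧
      (¬(-(2 * A) < w.re ∧ |w.im| ≤ T + 2 * A) →
        ‖NN A y (w - τ * Complex.I)‖ ≤ C * Real.exp (-(A * y))) := by
  have hre : ∀ τ : ℝ, (w - τ * Complex.I).re = w.re := fun τ => by simp
  have him : ∀ τ : ℝ, (w - τ * Complex.I).im = w.im - τ := fun τ => by simp
  by_cases h1 : -(2 * A) < w.re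
  · set k : ℝ := √(A / (Real.pi * y0)) / (w.re + 2 * A) with hk
    have hk0 : 0 ≤ k := div_nonneg (Real.sqrt_nonneg _) (by linarith)
    refine ⟨k + 1, fun τ y hτ hy => ?_⟩
    have hm := NN_main hA hy0 hy (ζ := w - τ * Complex.I) (by rw [hre]; exact h1)
    rw [hre] at hm
    have he := Real.exp_pos (-(A * y))
    refine ⟨fun _ => ?_, fun h2 => ?_⟩
    · refine hm.trans ?_
      rw [add_mul]
      linarith
    · have h3 : T + 2 * A < |w.im| := by
        by_contra h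
        exact h2 ⟨h1, not_lt.1 h⟩
      have h4 : 2 * A ≤ |(w - τ * Complex.I).im| := by
        rw [him]
        have := abs_sub_abs_le_abs_sub w.im τ
        linarith
      have h5 := XX_small hA (y := y) (by linarith) (ζ := w - τ * Complex.I)
        (by rw [hre]; exact h1) (by rw [hre]; exact hw) h4
      calc ‖NN A y (w - τ * Complex.I)‖
          = ‖(NN A y (w - τ * Complex.I) - XX A y (w - τ * Complex.I)) +
              XX A y (w - τ * Complex.I)‖ := by rw [sub_add_cancel]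
        _ ≤ k * Real.exp (-(A * y)) + Real.exp (-(A * y)) :=
            (norm_add_le _ _).trans (add_le_add hm h5)
        _ = _ := by ring
  · refine ⟨1, fun τ y _ hy => ⟨fun h => absurd h.1 h1, fun _ => ?_⟩⟩
    rw [one_mul]
    exact NN_small hA (by linarith) (by rw [hre]; exact not_lt.1 h1)

open Classical in
lemma sum_conv {A y0 : ℝ} (hA : 0 < A) (hy0 : 0 < y0) (T : ℝ) {Z : Finset ℂ} (μ : ℂ → ℤ)
    (hZ : ∀ w ∈ Z, w.re ≤ 0) :
    ∃ C : ℝ, ∀ τ y : ℝ, |τ| ≤ T → y0 ≤ y →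
      ‖(∑ w ∈ Z, (μ w : ℂ) * NN A y (w - τ * Complex.I)) -
        ∑ w ∈ Z with (-(2 * A) < w.re ∧ |w.im| ≤ T + 2 * A),
          (μ w : ℂ) * XX A y (w - τ * Complex.I)‖ ≤ C * Real.exp (-(A * y)) := by
  have h : ∀ w : ℂ, ∃ C : ℝ, w ∈ Z → ∀ τ y : ℝ, |τ| ≤ T → y0 ≤ y →
      ((-(2 * A) < w.re ∧ |w.im| ≤ T + 2 * A) →
        ‖NN A y (w - τ * Complex.I) - XX A y (w - τ * Complex.I)‖ ≤ C * Real.exp (-(A * y))) ∧
      (¬(-(2 * A) < w.re ∧ |w.im| ≤ T + 2 * A) →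
        ‖NN A y (w - τ * Complex.I)‖ ≤ C * Real.exp (-(A * y))) := by
    intro w
    by_cases hw : w ∈ Z
    · obtain ⟨C, hC⟩ := one_conv hA hy0 T (hZ w hw)
      exact ⟨C, fun _ => hC⟩
    · exact ⟨0, fun h => absurd h hw⟩
  choose C hC using h
  refine ⟨∑ w ∈ Z, ‖(μ w : ℂ)‖ * C w, fun τ y hτ hy => ?_⟩
  rw [Finset.sum_filter, ← Finset.sum_sub_distrib, Finset.sum_mul]
  refine (norm_sum_le _ _).trans (Finset.sum_le_sum fun w hw => ?_)
  have h2 := hC w hw τ y hτ hy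
  split_ifs with h3
  · rw [← mul_sub, norm_mul, mul_assoc]
    exact mul_le_mul_of_nonneg_left (h2.1 h3) (norm_nonneg _)
  · rw [sub_zero, norm_mul, mul_assoc]
    exact mul_le_mul_of_nonneg_left (h2.2 h3) (norm_nonneg _)

/-- **From the function to the averages.** -/
theorem LD.fwd [SFinite m] (E : LD m u c L) {μ : ℂ → ℤ} {A b : ℝ} (hA : 0 < A) (hb : 2 * A < b)
    (hμ0 : ∀ w : ℂ, 0 < w.re → μ w = 0) (hfin : ∀ R : ℝ, {w : ℂ | μ w ≠ 0 ∧ w ∈ box b R}.Finite)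
    {Λ : ℂ → ℂ} (hΛ : ∀ R : ℝ, Cont L μ (box b R) Λ) (T : ℝ) {y0 : ℝ} (hy0 : 0 < y0) :
    ∃ C : ℝ, ∀ τ y : ℝ, |τ| ≤ T → y0 ≤ y →
      ‖MM m u c A y (τ * Complex.I) +
        ∑ᶠ w ∈ ZS μ A T, (μ w : ℂ) * XX A y (w - τ * Complex.I)‖ ≤ C * Real.exp (-(A * y)) := by
  classical
  obtain ⟨T1, hT1, hbox⟩ := fwd_box_unif hA hb
  set R : ℝ := T + max T1 (2 * A + 1) with hR
  set Z : Finset ℂ := (hfin R).toFinset with hZ
  have hmemZ : ∀ w, w ∈ Z ↔ μ w ≠ 0 ∧ w ∈ box b R := fun w => by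
    rw [hZ, Set.Finite.mem_toFinset]
    rfl
  have hZ0 : ∀ w ∈ Z, w.re ≤ 0 := by
    intro w hw
    by_contra h
    exact ((hmemZ w).1 hw).1 (hμ0 w (not_le.1 h))
  obtain ⟨H, hH1, hH2⟩ := E.reg (by linarith) (hΛ R) hZ0 fun z hz hne => (hmemZ z).2 ⟨hne, hz⟩
  have hle : T + T1 ≤ R := by
    rw [hR]
    have := le_max_left T1 (2 * A + 1)
    linarith
  have hle2 : T + 2 * A < R := by
    rw [hR]
    have := le_max_right T1 (2 * A + 1)
    linarith
  obtain ⟨C1, hC1⟩ := hbox (E.dat.sum (dat_poles Z μ hZ0)) T H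
    (hH1.mono fun z hz => ⟨hz.1, lt_of_lt_of_le hz.2 hle⟩)
    (fun z hz1 hz2 => by
      rw [phi_sum E.dat (dat_poles Z μ hZ0) hz1, phi_poles Z μ hZ0 hz1]
      exact hH2 z hz1 (lt_of_lt_of_le hz2 hle)) y0 hy0
  obtain ⟨C2, hC2⟩ := sum_conv hA hy0 T μ hZ0
  refine ⟨C1 + C2, fun τ y hτ hy => ?_⟩
  have h1 := hC1 τ y hτ hy
  have h2 := hC2 τ y hτ hy
  have hyp : 0 < y := by linarith
  rw [MM_sum E.dat (dat_poles Z μ hZ0) hA hyp, MM_poles Z μ hA hyp] at h1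
  have hset : ZS μ A T = ↑(Z.filter fun w => -(2 * A) < w.re ∧ |w.im| ≤ T + 2 * A) := by
    ext w
    rw [Finset.coe_filter]
    simp only [ZS, mem_ofPred_eq, hmemZ]
    constructor
    · rintro ⟨h3, h4, h5⟩
      exact ⟨⟨h3, by linarith, lt_of_le_of_lt h5 hle2⟩, h4, h5⟩
    · rintro ⟨⟨h3, _⟩, h4, h5⟩
      exact ⟨h3, h4, h5⟩
  rw [hset, finsum_mem_coe_finset]
  set S1 := ∑ w ∈ Z, (μ w : ℂ) * NN A y (w - τ * Complex.I)
  set S2 := ∑ w ∈ Z with (-(2 * A) < w.re ∧ |w.im| ≤ T + 2 * A),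
    (μ w : ℂ) * XX A y (w - τ * Complex.I)
  calc ‖MM m u c A y (τ * Complex.I) + S2‖
      = ‖(MM m u c A y (τ * Complex.I) + S1) - (S1 - S2)‖ := by congr 1; ring
    _ ≤ C1 * Real.exp (-(A * y)) + C2 * Real.exp (-(A * y)) :=
        (norm_sub_le _ _).trans (add_le_add h1 h2)
    _ = _ := by ring

end Pool.Agent.N881.GW
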