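import Pool.Agent.N881.GW.M2
import Pool.Agent.TH942.RZ.Log

/-!
# Continuation with given zeros and poles: from the averages to the function
-/

set_option autoImplicit false

namespace Pool.Agent.N881.GW

open MeasureTheory Set Filter Topology

variable {Ω : Type} [MeasurableSpace Ω] {m : Measure Ω} {u : Ω → ℝ} {c : Ω → ℂ} {L : ℂ → ℂ}

lemma convex_box (b R : ℝ) : Convex ℝ (box b R) := by
  have h : box b R = {z : ℂ | -b < z.re} ∩ ({z : ℂ | -R < z.im} ∩ {z : ℂ | z.im < R}) := by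
    ext z
    simp only [box, mem_ofPred_eq, mem_inter_iff, abs_lt]
  rw [h]
  exact (convex_halfSpace_re_gt _).inter ((convex_halfSpace_im_gt _).inter
    (convex_halfSpace_im_lt _))

/-- **From the averages to the function,** on a box. -/
theorem LD.back_box [SFinite m] (E : LD m u c L) {μ : ℂ → ℤ} (hμ0 : ∀ w : ℂ, 0 < w.re → μ w = 0)
    {A b y0 : ℝ} (hb : 0 < b) (hbA : b < 2 * A) (hy0 : 0 < y0)
    (hfin : ∀ T : ℝ, (ZS μ A T).Finite)
    (hyp : ∀ T : ℝ, ∃ C : ℝ, ∀ τ y : ℝ, |τ| ≤ T → y0 ≤ y →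
      ‖MM m u c A y (τ * Complex.I) +
        ∑ᶠ w ∈ ZS μ A T, (μ w : ℂ) * XX A y (w - τ * Complex.I)‖ ≤ C * Real.exp (-(A * y)))
    (R : ℝ) : ∃ Λ : ℂ → ℂ, Cont L μ (box b R) Λ := by
  classical
  rcases le_or_gt R 0 with hR | hR
  · refine ⟨fun _ => 0, fun z hz => ?_, fun z hz => ?_⟩
    · have h1 := hz.2
      have h2 := abs_nonneg z.im
      linarith
    · have h1 := hz.2
      have h2 := abs_nonneg z.im
      linarith
  have hA : 0 < A := by linarith
  obtain ⟨T1, hT1, hbox⟩ := back_box_unif hb hbA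
  set Z : Finset ℂ := (hfin (R + T1)).toFinset with hZ
  have hmemZ : ∀ w, w ∈ Z ↔ w ∈ ZS μ A (R + T1) := fun w => by rw [hZ, Set.Finite.mem_toFinset]
  have hZ0 : ∀ w ∈ Z, w.re ≤ 0 := by
    intro w hw
    by_contra h
    exact ((hmemZ w).1 hw).1 (hμ0 w (not_le.1 h))
  obtain ⟨C1, hC1⟩ := hyp (R + T1)
  obtain ⟨C2, hC2⟩ := sum_conv hA hy0 (R + T1) μ hZ0
  have D' := E.dat.sum (dat_poles Z μ hZ0)
  have hfilt : (Z.filter fun w => -(2 * A) < w.re ∧ |w.im| ≤ R + T1 + 2 * A) = Z := by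
    rw [Finset.filter_eq_self]
    intro w hw
    exact ((hmemZ w).1 hw).2
  have hsum : ∀ τ y : ℝ, ∑ᶠ w ∈ ZS μ A (R + T1), (μ w : ℂ) * XX A y (w - τ * Complex.I) =
      ∑ w ∈ Z, (μ w : ℂ) * XX A y (w - τ * Complex.I) := by
    intro τ y
    have : ZS μ A (R + T1) = ↑Z := by
      ext w
      rw [Finset.mem_coe, hmemZ]
    rw [this, finsum_mem_coe_finset]
  have hH := hbox D' R (C1 + C2) y0 (fun τ y hτ hy => by
    have hyp0 : 0 < y := by linarith
    have h1 := hC1 τ y hτ hy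
    have h2 := hC2 τ y hτ hy
    rw [hfilt] at h2
    rw [hsum] at h1
    rw [MM_sum E.dat (dat_poles Z μ hZ0) hA hyp0, MM_poles Z μ hA hyp0]
    set S1 := ∑ w ∈ Z, (μ w : ℂ) * NN A y (w - τ * Complex.I)
    set S2 := ∑ w ∈ Z, (μ w : ℂ) * XX A y (w - τ * Complex.I)
    calc ‖MM m u c A y (τ * Complex.I) + S1‖
        = ‖(MM m u c A y (τ * Complex.I) + S2) + (S1 - S2)‖ := by congr 1; ring
      _ ≤ C1 * Real.exp (-(A * y)) + C2 * Real.exp (-(A * y)) :=
          (norm_add_le _ _).trans (add_le_add h1 h2)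
      _ = _ := by ring)
  set H : ℂ → ℂ := HH (ms m (volume.restrict (Ioi (0 : ℝ)))) (Sum.elim u uP)
    (Sum.elim c (dz Z μ)) (A - b / 2) with hHdef
  have hHphi : ∀ z : ℂ, 0 < z.re → H z = phi m u c z + ∑ w ∈ Z, (μ w : ℂ) / (z - w) := by
    intro z hz
    have h1 := D'.inversion (A := A - b / 2) (by linarith) hz
    rw [phi_sum E.dat (dat_poles Z μ hZ0) hz, phi_poles Z μ hZ0 hz] at h1
    exact h1
  obtain ⟨P, hP⟩ := Pool.Agent.TH942.SL.convex_primitive (isOpen_box b R) (convex_box b R) hH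
  set Q : ℂ → ℂ := fun z => PZ Z μ z * Complex.exp (-(P z)) with hQ
  have hbox0 : Convex ℝ ({z : ℂ | 0 < z.re} ∩ box b R) :=
    (convex_halfSpace_re_gt 0).inter (convex_box b R)
  have hnZ : ∀ z : ℂ, 0 < z.re → z ∉ Z := fun z hz h => by
    have := hZ0 z h
    linarith
  have hQ0 : ∀ z : ℂ, 0 < z.re → Q z ≠ 0 := fun z hz =>
    mul_ne_zero (PZ_ne μ (hnZ z hz)) (Complex.exp_ne_zero _)
  have hQd : ∀ z ∈ {z : ℂ | 0 < z.re} ∩ box b R, HasDerivAt Q (-(phi m u c z) * Q z) z := by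
    rintro z ⟨hz0, hzb⟩
    have hz0' : 0 < z.re := hz0
    have h1 := (PZ_deriv μ (hnZ z hz0')).fun_mul ((hP z hzb).fun_neg.cexp)
    refine h1.congr_deriv ?_
    have h2 := hHphi z hz0'
    rw [hQ]
    simp only
    linear_combination (-(PZ Z μ z * Complex.exp (-(P z)))) * h2
  have hconst : ∀ z ∈ {z : ℂ | 0 < z.re} ∩ box b R,
      HasDerivAt (fun z => L z * (Q z)⁻¹) 0 z := by
    intro z hz
    have hz0' : 0 < z.re := hz.1
    have h1 := (E.der z hz0').fun_mul ((hQd z hz).fun_inv (hQ0 z hz0'))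
    refine h1.congr_deriv ?_
    have := hQ0 z hz0'
    field_simp
    ring
  have h1mem : (1 : ℂ) ∈ {z : ℂ | 0 < z.re} ∩ box b R := by
    refine ⟨?_, ?_, ?_⟩
    · show 0 < (1 : ℂ).re
      rw [Complex.one_re]; exact one_pos
    · show -b < (1 : ℂ).re
      rw [Complex.one_re]; linarith
    · show |(1 : ℂ).im| < R
      rw [Complex.one_im, abs_zero]; exact hR
  set K : ℂ := L 1 * (Q 1)⁻¹ with hK
  have h10 : (0 : ℝ) < (1 : ℂ).re := by rw [Complex.one_re]; exact one_pos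
  have hK0 : K ≠ 0 := mul_ne_zero (E.ne 1 h10) (inv_ne_zero (hQ0 1 h10))
  refine ⟨fun z => K * Q z, fun z hz hz0 => ?_, fun z hz => ?_⟩
  · have h2 := Pool.Agent.TH942.RZ.eq_of_deriv_zero hbox0 hconst (z := z) (w := 1) ⟨hz0, hz⟩ h1mem
    have := hQ0 z hz0
    rw [hK, ← h2]
    field_simp
  · have hPa : AnalyticAt ℂ (fun z => K * Complex.exp (-(P z))) z := by
      have h3 : DifferentiableOn ℂ P (box b R) := fun w hw =>
        (hP w hw).differentiableAt.differentiableWithinAt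
      have h4 := h3.analyticAt ((isOpen_box b R).mem_nhds hz)
      exact analyticAt_const.mul (h4.neg.cexp)
    have hPne : K * Complex.exp (-(P z)) ≠ 0 := mul_ne_zero hK0 (Complex.exp_ne_zero _)
    have e : (fun z => K * Q z) = fun z => PZ Z μ z * (K * Complex.exp (-(P z))) := by
      funext z
      rw [hQ]
      ring
    rw [e]
    refine ⟨(PZ_mer Z μ z).fun_mul hPa.meromorphicAt, ?_⟩
    rw [fun_meromorphicOrderAt_mul (PZ_mer Z μ z) hPa.meromorphicAt, PZ_order,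
      order_zero_of_ne hPa hPne, add_zero]
    congr 1
    by_cases hm : z ∈ Z
    · rw [if_pos hm]
    · rw [if_neg hm]
      by_contra hne
      apply hm
      rw [hmemZ]
      refine ⟨fun h => hne h.symm, ?_, ?_⟩
      · have := hz.1
        linarith
      · have := hz.2
        linarith

end Pool.Agent.N881.GW
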