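import Pool.Agent.N881.GW.M3

/-!
# Glueing meromorphic functions; the criterion
-/

set_option autoImplicit false

namespace Pool.Agent.N881.GW

open MeasureTheory Set Filter Topology

/-- two meromorphic functions which agree near a point of a connected set agree -/
lemma mer_identity {U : Set ℂ} (hU : IsPreconnected U) {f g : ℂ → ℂ} (hf : MeromorphicOn f U)
    (hg : MeromorphicOn g U) {z1 : ℂ} (h1 : z1 ∈ U) (hfg : f =ᶠ[𝓝 z1] g) {z : ℂ} (hz : z ∈ U) :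
    f =ᶠ[𝓝[≠] z] g := by
  have hd : MeromorphicOn (f - g) U := fun w hw => (hf w hw).sub (hg w hw)
  have h2 : meromorphicOrderAt (f - g) z1 = ⊤ := by
    rw [meromorphicOrderAt_eq_top_iff]
    refine (hfg.filter_mono nhdsWithin_le_nhds).mono fun w hw => ?_
    rw [Pi.sub_apply, hw, sub_self]
  have h3 : meromorphicOrderAt (f - g) z = ⊤ := by
    by_contra h
    exact hd.meromorphicOrderAt_ne_top_of_isPreconnected hU hz h1 h h2
  rw [meromorphicOrderAt_eq_top_iff] at h3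
  exact h3.mono fun w hw => sub_eq_zero.1 hw

/-- **Glueing.** -/
theorem mer_glue {J : Type} {U : J → Set ℂ} {F : J → ℂ → ℂ} {V : Set ℂ} {L : ℂ → ℂ} {μ : ℂ → ℤ}
    (hV : IsOpen V) (hL : AnalyticOnNhd ℂ L V) (hU : ∀ j, IsOpen (U j))
    (hc : ∀ i j, IsPreconnected (U i ∩ U j)) {z1 : ℂ} (h1 : ∀ j, z1 ∈ U j) (h1V : z1 ∈ V)
    (hF1 : ∀ j, ∀ z ∈ U j, z ∈ V → F j z = L z)
    (hF2 : ∀ j, ∀ z ∈ U j, MeromorphicAt (F j) z ∧
      meromorphicOrderAt (F j) z = (μ z : WithTop ℤ)) :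
    ∃ Λ : ℂ → ℂ, (∀ z ∈ V, Λ z = L z) ∧ ∀ j, ∀ z ∈ U j, MeromorphicAt Λ z ∧
      meromorphicOrderAt Λ z = (μ z : WithTop ℤ) := by
  classical
  have hm : ∀ j, MeromorphicOn (F j) (U j) := fun j z hz => (hF2 j z hz).1
  have hVU : ∀ j, ∀ z ∈ U j, z ∈ V → F j =ᶠ[𝓝 z] L := by
    intro j z hz hzV
    filter_upwards [((hU j).inter hV).mem_nhds ⟨hz, hzV⟩] with w hw
    exact hF1 j w hw.1 hw.2
  have hag : ∀ i j, ∀ z ∈ U i, z ∈ U j → F i =ᶠ[𝓝[≠] z] F j := by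
    intro i j z hzi hzj
    exact mer_identity (hc i j) ((hm i).mono_set inter_subset_left)
      ((hm j).mono_set inter_subset_right) (z1 := z1) ⟨h1 i, h1 j⟩
      ((hVU i z1 (h1 i) h1V).trans (hVU j z1 (h1 j) h1V).symm) ⟨hzi, hzj⟩
  set N : J → ℂ → ℂ := fun j z => toMeromorphicNFAt (F j) z z with hN
  have hNN : ∀ i j, ∀ z ∈ U i, z ∈ U j → N i z = N j z := fun i j z hzi hzj =>
    (toMeromorphicNFAt_eventuallyEq_nhds_congr (hag i j z hzi hzj)).eq_of_nhds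
  have hNV : ∀ j, ∀ z ∈ U j, z ∈ V → N j z = L z := by
    intro j z hz hzV
    have h2 := (toMeromorphicNFAt_eventuallyEq_nhds_congr
      ((hVU j z hz hzV).filter_mono nhdsWithin_le_nhds)).eq_of_nhds
    rw [toMeromorphicNFAt_eq_self.2 (hL z hzV).meromorphicNFAt] at h2
    exact h2
  set Λ : ℂ → ℂ := fun z => if h : ∃ j, z ∈ U j then N h.choose z else L z with hΛ
  have hΛN : ∀ j, ∀ z ∈ U j, Λ z = N j z := by
    intro j z hz
    have h : ∃ j, z ∈ U j := ⟨j, hz⟩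
    rw [hΛ]
    simp only
    rw [dif_pos h]
    exact hNN _ j z h.choose_spec hz
  refine ⟨Λ, fun z hz => ?_, fun j z hz => ?_⟩
  · by_cases h : ∃ j, z ∈ U j
    · obtain ⟨j, hj⟩ := h
      rw [hΛN j z hj, hNV j z hj hz]
    · rw [hΛ]
      simp only
      rw [dif_neg h]
  · have hev : F j =ᶠ[𝓝[≠] z] Λ := by
      have h2 := (hm j).eventually_analyticAt_or_mem_compl hz
      filter_upwards [h2, nhdsWithin_le_nhds ((hU j).mem_nhds hz)] with w hw hwU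
      rcases hw with hw | hw
      · rw [hΛN j w hwU, hN]
        simp only
        rw [toMeromorphicNFAt_eq_self.2 hw.meromorphicNFAt]
      · exact absurd hwU hw
    refine ⟨(hm j z hz).congr hev, ?_⟩
    rw [← meromorphicOrderAt_congr hev, (hF2 j z hz).2]

variable {Ω : Type} [MeasurableSpace Ω] {m : Measure Ω} {u : Ω → ℝ} {c : Ω → ℂ} {L : ℂ → ℂ}

lemma LD.an (E : LD m u c L) : AnalyticOnNhd ℂ L {z : ℂ | 0 < z.re} := by
  have h : DifferentiableOn ℂ L {z : ℂ | 0 < z.re} := fun z hz =>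
    (E.der z hz).differentiableAt.differentiableWithinAt
  exact h.analyticOnNhd (isOpen_lt continuous_const Complex.continuous_re)

/-- the formula for all parameters `A < sup S / 2` -/
def Formula (m : Measure Ω) (u : Ω → ℝ) (c : Ω → ℂ) (μ : ℂ → ℤ) (S : Set ℝ) (y0 : ℝ) : Prop :=
  ∀ A : ℝ, 0 < A → (∃ b ∈ S, 2 * A < b) → ∀ T : ℝ, ∃ C : ℝ, ∀ τ y : ℝ, |τ| ≤ T → y0 ≤ y →
    ‖MM m u c A y (τ * Complex.I) +
      ∑ᶠ w ∈ ZS μ A T, (μ w : ℂ) * XX A y (w - τ * Complex.I)‖ ≤ C * Real.exp (-(A * y))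

/-- **The criterion.** -/
theorem LD.criterion [SFinite m] (E : LD m u c L) {μ : ℂ → ℤ} (hμ0 : ∀ w : ℂ, 0 < w.re → μ w = 0)
    {S : Set ℝ} (hS : ∀ b ∈ S, 0 < b)
    (hfin : ∀ A : ℝ, 0 < A → (∃ b ∈ S, A < b) → ∀ R : ℝ,
      {w : ℂ | μ w ≠ 0 ∧ w ∈ box A R}.Finite) {y0 : ℝ} (hy0 : 0 < y0) :
    (∃ Λ : ℂ → ℂ, (∀ z : ℂ, 0 < z.re → Λ z = L z) ∧ ∀ z : ℂ, (∃ b ∈ S, -b < z.re) →
      MeromorphicAt Λ z ∧ meromorphicOrderAt Λ z = (μ z : WithTop ℤ)) ↔
    Formula m u c μ S y0 := by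
  constructor
  · rintro ⟨Λ, h1, h2⟩ A hA ⟨b, hb, hAb⟩ T
    have hb' : (2 * A + b) / 2 < b := by linarith
    refine E.fwd hA (b := (2 * A + b) / 2) (by linarith) hμ0
      (hfin _ (by linarith) ⟨b, hb, hb'⟩) (Λ := Λ) (fun R => ⟨fun z _ hz0 => h1 z hz0,
        fun z hz => h2 z ⟨b, hb, ?_⟩⟩) T hy0
    have := hz.1
    linarith
  · intro h
    set J : Type := {p : ℝ × ℝ // (0 < p.1 ∧ ∃ b ∈ S, p.1 < b) ∧ 0 < p.2} with hJ
    have key : ∀ j : J, ∃ Λ : ℂ → ℂ, Cont L μ (box j.1.1 j.1.2) Λ := by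
      rintro ⟨⟨b', R⟩, ⟨hb'0, b, hb, hlt⟩, hR⟩
      have hlt' : b' < b := hlt
      have hb'0' : 0 < b' := hb'0
      have hA : 2 * ((b' + b) / 4) < b := by linarith
      refine E.back_box hμ0 (A := (b' + b) / 4) hb'0 (by linarith) hy0 (fun T => ?_)
        (h _ (by linarith) ⟨b, hb, hA⟩) R
      refine (hfin (2 * ((b' + b) / 4)) (by linarith) ⟨b, hb, hA⟩
        (T + 2 * ((b' + b) / 4) + 1)).subset ?_
      rintro w ⟨h3, h4, h5⟩
      exact ⟨h3, h4, by linarith⟩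
    choose F hF using key
    have h1re : (0 : ℝ) < (1 : ℂ).re := by rw [Complex.one_re]; exact one_pos
    obtain ⟨Λ, hΛ1, hΛ2⟩ := mer_glue (J := J) (U := fun j => box j.1.1 j.1.2) (F := F)
      (V := {z : ℂ | 0 < z.re}) (L := L) (μ := μ)
      (isOpen_lt continuous_const Complex.continuous_re) E.an (fun j => isOpen_box _ _)
      (fun i j => ((convex_box _ _).inter (convex_box _ _)).isPreconnected) (z1 := 1)
      (fun j => by
        refine ⟨?_, ?_⟩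
        · have := j.2.1.1
          linarith
        · rw [Complex.one_im, abs_zero]
          exact j.2.2) h1re
      (fun j z hz hzV => (hF j).1 z hz hzV) (fun j z hz => (hF j).2 z hz)
    refine ⟨Λ, hΛ1, ?_⟩
    rintro z ⟨b, hb, hz⟩
    have hb0 := hS b hb
    have h3 := le_max_left ((b - z.re) / 2) (b / 2)
    have h4 : max ((b - z.re) / 2) (b / 2) < b := max_lt (by linarith) (by linarith)
    refine hΛ2 ⟨(max ((b - z.re) / 2) (b / 2), |z.im| + 1),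
      ⟨lt_of_lt_of_le (by positivity) (le_max_right _ _), b, hb, h4⟩, ?_⟩ z ⟨?_, ?_⟩
    · show 0 < |z.im| + 1
      positivity
    · show -(max ((b - z.re) / 2) (b / 2)) < z.re
      linarith
    · show |z.im| < |z.im| + 1
      linarith

/-- **The criterion for meromorphic continuation.** -/
theorem LD.exists_iff [SFinite m] (E : LD m u c L) {S : Set ℝ} (hS : ∀ b ∈ S, 0 < b)
    {y0 : ℝ} (hy0 : 0 < y0) :
    (∃ Λ : ℂ → ℂ, (∀ z : ℂ, 0 < z.re → Λ z = L z) ∧ ∀ z : ℂ, (∃ b ∈ S, -b < z.re) →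
      MeromorphicAt Λ z) ↔
    ∃ μ : ℂ → ℤ, (∀ w : ℂ, 0 < w.re → μ w = 0) ∧
      (∀ A : ℝ, 0 < A → (∃ b ∈ S, A < b) → ∀ R : ℝ, {w : ℂ | μ w ≠ 0 ∧ w ∈ box A R}.Finite) ∧
      Formula m u c μ S y0 := by
  constructor
  · rintro ⟨Λ, h1, h2⟩
    set μ : ℂ → ℤ := fun z => (meromorphicOrderAt Λ z).untop₀ with hμ
    have h1re : (0 : ℝ) < (1 : ℂ).re := by rw [Complex.one_re]; exact one_pos
    have hVe : ∀ z : ℂ, 0 < z.re → Λ =ᶠ[𝓝 z] L := by
      intro z hz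
      filter_upwards [(isOpen_lt continuous_const Complex.continuous_re).mem_nhds
        (show z ∈ {z : ℂ | 0 < z.re} from hz)] with w hw
      exact h1 w hw
    have hV0 : ∀ z : ℂ, 0 < z.re → meromorphicOrderAt Λ z = 0 := by
      intro z hz
      rw [meromorphicOrderAt_congr ((hVe z hz).filter_mono nhdsWithin_le_nhds)]
      exact order_zero_of_ne (E.an z hz) (E.ne z hz)
    have hμ0 : ∀ w : ℂ, 0 < w.re → μ w = 0 := by
      intro w hw
      rw [hμ]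
      simp only
      rw [hV0 w hw]
      rfl
    have hfin : ∀ A : ℝ, 0 < A → (∃ b ∈ S, A < b) → ∀ R : ℝ,
        {w : ℂ | μ w ≠ 0 ∧ w ∈ box A R}.Finite := by
      rintro A hA ⟨b, hb, hAb⟩ R
      have hK : IsCompact (Icc (-A) 0 ×ℂ Icc (-R) R) := isCompact_Icc.reProdIm isCompact_Icc
      have hm : MeromorphicOn Λ (Icc (-A) 0 ×ℂ Icc (-R) R) := by
        intro z hz
        have h3 := hz.1
        simp only [mem_preimage, mem_Icc] at h3
        exact h2 z ⟨b, hb, by linarith⟩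
      refine ((MeromorphicOn.divisor Λ (Icc (-A) 0 ×ℂ Icc (-R) R)).finiteSupport hK).subset ?_
      rintro w ⟨h3, h4, h5⟩
      have hwK : w ∈ Icc (-A) 0 ×ℂ Icc (-R) R := by
        refine ⟨⟨h4.le, ?_⟩, abs_le.1 h5.le⟩
        by_contra h
        exact h3 (hμ0 w (not_le.1 h))
      rw [Function.mem_support, MeromorphicOn.divisor_apply hm hwK]
      exact h3
    refine ⟨μ, hμ0, hfin, (E.criterion hμ0 hS hfin hy0).1 ⟨Λ, h1, fun z hz => ⟨h2 z hz, ?_⟩⟩⟩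
    obtain ⟨b, hb, hzb⟩ := hz
    have hmb : MeromorphicOn Λ {z : ℂ | -b < z.re} := fun w hw => h2 w ⟨b, hb, hw⟩
    have h5 : meromorphicOrderAt Λ z ≠ ⊤ := by
      refine hmb.meromorphicOrderAt_ne_top_of_isPreconnected (preconn_half b) (x := 1)
        (show -b < (1 : ℂ).re by rw [Complex.one_re]; linarith [hS b hb]) hzb ?_
      rw [hV0 1 h1re]
      exact WithTop.zero_ne_top
    rw [hμ]
    simp only
    exact (WithTop.coe_untop₀_of_ne_top h5).symm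
  · rintro ⟨μ, hμ0, hfin, h⟩
    obtain ⟨Λ, h1, h2⟩ := (E.criterion hμ0 hS hfin hy0).2 h
    exact ⟨Λ, h1, fun z hz => (h2 z hz).1⟩

end Pool.Agent.N881.GW
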