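import Pool.Agent.N881.GW.M4
import Pool.Agent.TH339.MP.P10

/-!
# Euler products over number fields
-/

set_option autoImplicit false

namespace Pool.Agent.N881.GW

open MeasureTheory Set Filter Topology NumberField IsDedekindDomain
open Pool.Agent.TH339.MP (nm pr lv FF bb)

section deriv

variable {Ω : Type} [MeasurableSpace Ω] {m : Measure Ω} {u : Ω → ℝ} {c c' : Ω → ℂ}

/-- differentiation of a Laplace transform -/
lemma Dat.hasDerivAt (D' : Dat m u c') (D : Dat m u c) (h : ∀ ω, c ω = u ω * c' ω) {z : ℂ}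
    (hz : 0 < z.re) : HasDerivAt (phi m u c') (-(phi m u c z)) z := by
  have := D.mu
  have := D.mc
  have := D'.mc
  have hop : IsOpen {w : ℂ | z.re / 2 < w.re} := isOpen_lt continuous_const Complex.continuous_re
  have h1 := hasDerivAt_integral_of_dominated_loc_of_deriv_le (μ := m)
    (F := fun (w : ℂ) ω => c' ω * Complex.exp (-(w * u ω)))
    (F' := fun (w : ℂ) ω => -(c ω * Complex.exp (-(w * u ω))))
    (bound := fun ω => ‖c ω‖ * Real.exp (-(z.re / 2 * u ω))) (x₀ := z)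
    (s := {w : ℂ | z.re / 2 < w.re})
    (hop.mem_nhds (show z.re / 2 < z.re by linarith)) ?_ (phi_integrable D' hz) ?_ ?_
    (D.int (z.re / 2) (by positivity)) ?_
  · have h2 := h1.2
    unfold phi
    rw [← integral_neg]
    exact h2
  · refine Eventually.of_forall fun w => ?_
    have hm : Measurable fun ω => c' ω * Complex.exp (-(w * u ω)) := by fun_prop
    exact hm.aestronglyMeasurable
  · have hm : Measurable fun ω => -(c ω * Complex.exp (-(z * u ω))) := by fun_prop
    exact hm.aestronglyMeasurable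
  · refine Eventually.of_forall fun ω w hw => ?_
    have hw' : z.re / 2 < w.re := hw
    rw [norm_neg, norm_mul, norm_cexp]
    refine mul_le_mul_of_nonneg_left (Real.exp_le_exp.2 ?_) (norm_nonneg _)
    have := mul_le_mul_of_nonneg_right hw'.le (D.hu ω)
    linarith
  · refine Eventually.of_forall fun ω w _ => ?_
    have h3 : HasDerivAt (fun w : ℂ => -(w * (u ω : ℂ))) (-(1 * (u ω : ℂ))) w :=
      ((hasDerivAt_id w).mul_const _).neg
    have h4 := (h3.cexp).const_mul (c' ω)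
    refine h4.congr_deriv ?_
    rw [h ω]
    ring

end deriv

section

variable {K : Type} [Field K] [NumberField K] {N : ℕ}

instance instMSIdx : MeasurableSpace (HeightOneSpectrum (𝓞 K) × ℕ) := ⊤

instance : DiscreteMeasurableSpace (HeightOneSpectrum (𝓞 K) × ℕ) := ⟨fun _ => trivial⟩

instance instCountPl : Countable (HeightOneSpectrum (𝓞 K)) := by
  have h := (Pool.Agent.TH339.MP.summable_pr (K := K) (σ := 2) (by norm_num)).countable_support
  have h2 : Function.support (fun v : HeightOneSpectrum (𝓞 K) => ((pr v : ℕ) : ℝ) ^ (-(2 : ℝ))) =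
      Set.univ := by
    ext v
    simp only [Function.mem_support, mem_univ, iff_true]
    have : (0 : ℝ) < ((pr v : ℕ) : ℝ) := by exact_mod_cast (pr v).2.pos
    positivity
  rw [h2] at h
  exact Set.countable_univ_iff.1 h

/-- the logarithm of the norm of the power of the place -/
noncomputable def uu (p : HeightOneSpectrum (𝓞 K) × ℕ) : ℝ := (p.2 + 1) * Real.log (nm p.1)

/-- the power sums -/
noncomputable def ps (β : HeightOneSpectrum (𝓞 K) → Fin N → ℂ) (v : HeightOneSpectrum (𝓞 K))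
    (n : ℕ) : ℂ := ∑ j, β v j ^ n

/-- the coefficients of the logarithm -/
noncomputable def c0 (β : HeightOneSpectrum (𝓞 K) → Fin N → ℂ) (p : HeightOneSpectrum (𝓞 K) × ℕ) :
    ℂ := ps β p.1 (p.2 + 1) / (p.2 + 1 : ℕ) * Complex.exp (-(uu p : ℂ))

/-- the coefficients of the logarithmic derivative -/
noncomputable def cc (β : HeightOneSpectrum (𝓞 K) → Fin N → ℂ) (p : HeightOneSpectrum (𝓞 K) × ℕ) :
    ℂ := ps β p.1 (p.2 + 1) * Real.log (nm p.1) * Complex.exp (-(uu p : ℂ))

lemma cc_eq (β : HeightOneSpectrum (𝓞 K) → Fin N → ℂ) (p : HeightOneSpectrum (𝓞 K) × ℕ) :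
    cc β p = uu p * c0 β p := by
  unfold cc c0 uu
  have : ((p.2 + 1 : ℕ) : ℂ) ≠ 0 := by exact_mod_cast Nat.succ_ne_zero p.2
  push_cast at this ⊢
  field_simp

lemma nm_ge (v : HeightOneSpectrum (𝓞 K)) : (2 : ℝ) ≤ nm v := by
  exact_mod_cast Pool.Agent.TH339.MP.two_le_nm v

lemma log_nm_pos (v : HeightOneSpectrum (𝓞 K)) : 0 < Real.log (nm v) :=
  Real.log_pos (by linarith [nm_ge v])

lemma uu_pos (p : HeightOneSpectrum (𝓞 K) × ℕ) : 0 < uu p := by
  unfold uu
  have := log_nm_pos p.1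
  positivity

lemma summable_G {x : ℝ} (hx : 1 < x) :
    Summable fun p : HeightOneSpectrum (𝓞 K) × ℕ => Real.exp (-(x * uu p)) := by
  have h1 : Summable fun p : HeightOneSpectrum (𝓞 K) × ℕ =>
      ((pr p.1 : ℕ) : ℝ) ^ (-x) * (1 / 2 : ℝ) ^ p.2 :=
    (Pool.Agent.TH339.MP.summable_pr (K := K) hx).mul_of_nonneg
      (summable_geometric_of_lt_one (by norm_num) (by norm_num))
      (fun v => Real.rpow_nonneg (Nat.cast_nonneg _) _) (fun k => by positivity)
  refine Summable.of_nonneg_of_le (fun p => (Real.exp_pos _).le) (fun p => ?_) h1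
  have hpr : (0 : ℝ) < ((pr p.1 : ℕ) : ℝ) := by exact_mod_cast (pr p.1).2.pos
  have h2 : Real.exp (-(x * uu p)) = ((nm p.1 : ℝ) ^ (-x)) ^ (p.2 + 1) := by
    have hn : (0 : ℝ) < nm p.1 := by linarith [nm_ge p.1]
    rw [Real.rpow_def_of_pos hn, ← Real.exp_nat_mul]
    congr 1
    unfold uu
    push_cast
    ring
  have h3 : (nm p.1 : ℝ) ^ (-x) ≤ ((pr p.1 : ℕ) : ℝ) ^ (-x) := by
    refine Real.rpow_le_rpow_of_nonpos hpr ?_ (by linarith)
    rw [Pool.Agent.TH339.MP.nm_eq]
    push_cast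
    refine le_self_pow₀ ?_ (Pool.Agent.TH339.MP.dg_pos p.1).ne'
    exact_mod_cast (pr p.1).2.one_lt.le
  have h4 : (nm p.1 : ℝ) ^ (-x) ≤ 1 / 2 := by
    calc (nm p.1 : ℝ) ^ (-x) ≤ (2 : ℝ) ^ (-x) :=
          Real.rpow_le_rpow_of_nonpos (by norm_num) (nm_ge p.1) (by linarith)
      _ ≤ (2 : ℝ) ^ (-(1 : ℝ)) :=
          Real.rpow_le_rpow_of_exponent_le (by norm_num) (by linarith)
      _ = 1 / 2 := by rw [Real.rpow_neg_one]; norm_num
  have h5 : (0 : ℝ) ≤ (nm p.1 : ℝ) ^ (-x) := Real.rpow_nonneg (Nat.cast_nonneg _) _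
  rw [h2, pow_succ, mul_comm]
  exact mul_le_mul h3 (pow_le_pow_left₀ h5 h4 _) (by positivity)
    (Real.rpow_nonneg hpr.le _)

omit [NumberField K] in
lemma norm_ps {β : HeightOneSpectrum (𝓞 K) → Fin N → ℂ} (hβ : ∀ v j, ‖β v j‖ ≤ 1)
    (v : HeightOneSpectrum (𝓞 K)) (n : ℕ) : ‖ps β v n‖ ≤ N := by
  unfold ps
  refine (norm_sum_le _ _).trans ?_
  calc ∑ j, ‖β v j ^ n‖ ≤ ∑ _j : Fin N, (1 : ℝ) := Finset.sum_le_sum fun j _ => by
        rw [norm_pow]
        exact pow_le_one₀ (norm_nonneg _) (hβ v j)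
    _ = N := by simp

lemma norm_exp_uu (p : HeightOneSpectrum (𝓞 K) × ℕ) :
    ‖Complex.exp (-(uu p : ℂ))‖ = Real.exp (-(uu p)) := by
  rw [Complex.norm_exp]
  congr 1

lemma mul_exp_le {t σ : ℝ} (hσ : 0 < σ) :
    t * Real.exp (-(σ * t)) ≤ 2 / σ * Real.exp (-(σ / 2 * t)) := by
  have h1 : σ / 2 * t ≤ Real.exp (σ / 2 * t) := by
    have := Real.add_one_le_exp (σ / 2 * t)
    linarith
  have h2 : Real.exp (-(σ * t)) = Real.exp (-(σ / 2 * t)) * Real.exp (-(σ / 2 * t)) := by
    rw [← Real.exp_add]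
    congr 1
    ring
  have h3 : Real.exp (σ / 2 * t) * Real.exp (-(σ / 2 * t)) = 1 := by
    rw [← Real.exp_add, add_neg_cancel, Real.exp_zero]
  have h4 : t * Real.exp (-(σ / 2 * t)) ≤ 2 / σ := by
    have h5 := mul_le_mul_of_nonneg_right h1 (Real.exp_pos (-(σ / 2 * t))).le
    rw [h3] at h5
    rw [le_div_iff₀ hσ]
    nlinarith
  rw [h2, ← mul_assoc]
  exact mul_le_mul_of_nonneg_right h4 (Real.exp_pos _).le

lemma dat_cc {β : HeightOneSpectrum (𝓞 K) → Fin N → ℂ} (hβ : ∀ v j, ‖β v j‖ ≤ 1) :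
    Dat Measure.count (uu (K := K)) (cc β) where
  hu := fun p => (uu_pos p).le
  mu := Measurable.of_discrete
  mc := Measurable.of_discrete
  int := by
    intro σ hσ
    rw [integrable_count_iff]
    have h1 := (summable_G (K := K) (x := 1 + σ / 2) (by linarith)).mul_left (N * (2 / σ))
    refine Summable.of_nonneg_of_le (fun p => norm_nonneg _) (fun p => ?_) h1
    have hu := (uu_pos p).le
    rw [Real.norm_of_nonneg (by positivity)]
    have hl := (log_nm_pos p.1).le
    have h2 : ‖cc β p‖ ≤ N * uu p * Real.exp (-(uu p)) := by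
      unfold cc
      rw [norm_mul, norm_mul, norm_exp_uu, Complex.norm_real, Real.norm_of_nonneg hl]
      refine mul_le_mul_of_nonneg_right ?_ (Real.exp_pos _).le
      refine mul_le_mul (norm_ps hβ _ _) ?_ hl (Nat.cast_nonneg _)
      unfold uu
      have : (0 : ℝ) ≤ p.2 := Nat.cast_nonneg _
      nlinarith
    calc ‖cc β p‖ * Real.exp (-(σ * uu p))
        ≤ (N * uu p * Real.exp (-(uu p))) * Real.exp (-(σ * uu p)) :=
          mul_le_mul_of_nonneg_right h2 (Real.exp_pos _).le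
      _ = N * Real.exp (-(uu p)) * (uu p * Real.exp (-(σ * uu p))) := by ring
      _ ≤ N * Real.exp (-(uu p)) * (2 / σ * Real.exp (-(σ / 2 * uu p))) :=
          mul_le_mul_of_nonneg_left (mul_exp_le hσ) (by positivity)
      _ = N * (2 / σ) * (Real.exp (-(uu p)) * Real.exp (-(σ / 2 * uu p))) := by ring
      _ = _ := by
          rw [← Real.exp_add]
          congr 2
          ring

lemma dat_c0 {β : HeightOneSpectrum (𝓞 K) → Fin N → ℂ} (hβ : ∀ v j, ‖β v j‖ ≤ 1) :
    Dat Measure.count (uu (K := K)) (c0 β) where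
  hu := fun p => (uu_pos p).le
  mu := Measurable.of_discrete
  mc := Measurable.of_discrete
  int := by
    intro σ hσ
    rw [integrable_count_iff]
    have h1 := (summable_G (K := K) (x := 1 + σ) (by linarith)).mul_left (N : ℝ)
    refine Summable.of_nonneg_of_le (fun p => norm_nonneg _) (fun p => ?_) h1
    have hu := (uu_pos p).le
    rw [Real.norm_of_nonneg (by positivity)]
    have h2 : ‖c0 β p‖ ≤ N * Real.exp (-(uu p)) := by
      unfold c0
      rw [norm_mul, norm_div, norm_exp_uu]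
      refine mul_le_mul_of_nonneg_right ?_ (Real.exp_pos _).le
      have h3 : (1 : ℝ) ≤ ‖((p.2 + 1 : ℕ) : ℂ)‖ := by
        rw [Complex.norm_natCast]
        exact_mod_cast Nat.succ_pos _
      exact (div_le_self (norm_nonneg _) h3).trans (norm_ps hβ _ _)
    calc ‖c0 β p‖ * Real.exp (-(σ * uu p))
        ≤ (N * Real.exp (-(uu p))) * Real.exp (-(σ * uu p)) :=
          mul_le_mul_of_nonneg_right h2 (Real.exp_pos _).le
      _ = N * (Real.exp (-(uu p)) * Real.exp (-(σ * uu p))) := by ring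
      _ = _ := by
          rw [← Real.exp_add]
          congr 2
          ring

lemma exp_uu (v : HeightOneSpectrum (𝓞 K)) (k : ℕ) (z : ℂ) :
    Complex.exp (-(uu (v, k) : ℂ)) * Complex.exp (-(z * uu (v, k))) =
      (((nm v : ℕ) : ℂ) ^ (-(1 + z))) ^ (k + 1) := by
  have hn : ((nm v : ℕ) : ℂ) ≠ 0 := by
    have := nm_ge v
    have h : (nm v : ℝ) ≠ 0 := by linarith
    exact_mod_cast h
  rw [← Complex.exp_add, Complex.cpow_def_of_ne_zero hn, ← Complex.exp_nat_mul]
  congr 1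
  unfold uu
  rw [Complex.natCast_log.symm]
  push_cast
  ring

lemma hasSum_fib {β : HeightOneSpectrum (𝓞 K) → Fin N → ℂ} (hβ : ∀ v j, ‖β v j‖ ≤ 1)
    (v : HeightOneSpectrum (𝓞 K)) {z : ℂ} (hz : 0 < z.re) :
    HasSum (fun k : ℕ => c0 β (v, k) * Complex.exp (-(z * uu (v, k)))) (lv β v (1 + z)) := by
  have hs : 1 ≤ (1 + z).re := by
    rw [Complex.add_re, Complex.one_re]
    linarith
  set X : ℂ := ((nm v : ℕ) : ℂ) ^ (-(1 + z)) with hX
  have h1 : ∀ j, HasSum (fun k : ℕ => (β v j * X) ^ (k + 1) / ((k + 1 : ℕ) : ℂ))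
      (-Complex.log (1 - β v j * X)) := by
    intro j
    have hlt : ‖β v j * X‖ < 1 := by
      rw [norm_mul]
      have h3 := (Pool.Agent.TH339.MP.norm_nm_cpow v hs).2
      have h4 := hβ v j
      nlinarith [norm_nonneg (β v j), norm_nonneg X]
    have h1 := Complex.hasSum_taylorSeries_neg_log hlt
    rw [← hasSum_nat_add_iff' 1] at h1
    simpa only [Finset.range_one, Finset.sum_singleton, pow_zero, CharP.cast_eq_zero, div_zero,
      sub_zero] using h1
  have h3 := hasSum_sum (s := (Finset.univ : Finset (Fin N))) fun j _ => h1 j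
  unfold lv
  convert h3 using 1
  funext k
  unfold c0 ps
  simp only
  rw [mul_assoc, exp_uu, ← hX, div_mul_eq_mul_div, Finset.sum_mul, Finset.sum_div]
  refine Finset.sum_congr rfl fun j _ => ?_
  rw [mul_pow]

lemma phi_c0 {β : HeightOneSpectrum (𝓞 K) → Fin N → ℂ} (hβ : ∀ v j, ‖β v j‖ ≤ 1) {z : ℂ}
    (hz : 0 < z.re) :
    HasSum (fun v => lv β v (1 + z)) (phi Measure.count (uu (K := K)) (c0 β) z) := by
  have h1 := phi_integrable (dat_c0 hβ) hz
  have h2 := integrable_count_iff.1 h1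
  unfold phi
  rw [integral_count_eq h2]
  have h3 : Summable fun p : HeightOneSpectrum (𝓞 K) × ℕ => c0 β p * Complex.exp (-(z * uu p)) :=
    h2.of_norm
  exact h3.hasSum.prod_fiberwise fun v => hasSum_fib hβ v hz

/-- **The Euler product.** -/
theorem ld_euler {β : HeightOneSpectrum (𝓞 K) → Fin N → ℂ} (hβ : ∀ v j, ‖β v j‖ ≤ 1)
    {L : ℂ → ℂ} (hL : ∀ z : ℂ, 0 < z.re →
      L z = ∏' v : HeightOneSpectrum (𝓞 K), ∏ j, (1 - β v j * ((nm v : ℕ) : ℂ) ^ (-(1 + z)))⁻¹) :
    LD Measure.count (uu (K := K)) (cc β) L := by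
  have hLe : ∀ z : ℂ, 0 < z.re →
      L z = Complex.exp (phi Measure.count (uu (K := K)) (c0 β) z) := by
    intro z hz
    rw [hL z hz]
    have hs : 1 ≤ (1 + z).re := by
      rw [Complex.add_re, Complex.one_re]
      linarith
    have h1 := (phi_c0 hβ hz).cexp
    have h2 : (Complex.exp ∘ fun v => lv β v (1 + z)) =
        fun v => ∏ j, (1 - β v j * ((nm v : ℕ) : ℂ) ^ (-(1 + z)))⁻¹ := by
      funext v
      exact Pool.Agent.TH339.MP.exp_lv hβ v hs
    rw [h2] at h1
    exact h1.tprod_eq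
  refine ⟨dat_cc hβ, fun z hz => ?_, fun z hz => ?_⟩
  · have h1 := ((dat_c0 hβ).hasDerivAt (dat_cc hβ) (cc_eq β) hz).cexp
    have hop : IsOpen {w : ℂ | 0 < w.re} := isOpen_lt continuous_const Complex.continuous_re
    have h2 : L =ᶠ[𝓝 z] fun z => Complex.exp (phi Measure.count (uu (K := K)) (c0 β) z) := by
      filter_upwards [hop.mem_nhds (show z ∈ {w : ℂ | 0 < w.re} from hz)] with w hw
      exact hLe w hw
    refine (h1.congr_of_eventuallyEq h2).congr_deriv ?_
    rw [hLe z hz]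
    ring
  · rw [hLe z hz]
    exact Complex.exp_ne_zero _

end

end Pool.Agent.N881.GW
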