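import Pool.Agent.N881.GW.M5

/-!
# Elliptic curves over number fields
-/

set_option autoImplicit false

namespace Pool.Agent.N881.GW

open MeasureTheory Set Filter Topology NumberField IsDedekindDomain
open Pool.Agent.TH339.MP (nm pr lv FF bb elf av S6 affc lfac)

/-- the sequence with the recursion `t_{n+2} = a t_{n+1} - d t_n` -/
def psum (a d : ℤ) : ℕ → ℤ
  | 0 => 2
  | 1 => a
  | (n + 2) => a * psum a d (n + 1) - d * psum a d n

lemma psum_eq {a d : ℤ} {r b0 b1 : ℂ} (h1 : (a : ℂ) = (b0 + b1) * r)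
    (h2 : (d : ℂ) = b0 * b1 * r ^ 2) (n : ℕ) :
    ((psum a d n : ℤ) : ℂ) = r ^ n * (b0 ^ n + b1 ^ n) := by
  induction n using Nat.twoStepInduction with
  | zero => simp [psum]; norm_num
  | one => simp [psum, h1]; ring
  | more n ih1 ih2 =>
    simp only [psum]
    push_cast
    rw [ih1, ih2, h1, h2]
    ring

section

variable {K : Type} [Field K] [NumberField K]

/-- the trace -/
noncomputable def av' (W : HeightOneSpectrum (𝓞 K) → WeierstrassCurve (𝓞 K))
    (v : HeightOneSpectrum (𝓞 K)) : ℤ :=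
  (nm v : ℤ) - affc ((W v).map (Ideal.Quotient.mk v.asIdeal))

open Classical in
/-- the determinant -/
noncomputable def dv (W : HeightOneSpectrum (𝓞 K) → WeierstrassCurve (𝓞 K))
    (v : HeightOneSpectrum (𝓞 K)) : ℤ := if (W v).Δ ∈ v.asIdeal then 0 else (nm v : ℤ)

lemma av'_eq (W : HeightOneSpectrum (𝓞 K) → WeierstrassCurve (𝓞 K))
    (v : HeightOneSpectrum (𝓞 K)) : ((av' W v : ℤ) : ℝ) = av W v := by
  unfold av' av
  push_cast
  rfl

lemma half_cpow (v : HeightOneSpectrum (𝓞 K)) (s : ℂ) :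
    ((nm v : ℕ) : ℂ) ^ (-(s - 1 / 2)) =
      Complex.exp ((Real.log (nm v) : ℂ) / 2) * ((nm v : ℕ) : ℂ) ^ (-s) := by
  have hn : ((nm v : ℕ) : ℂ) ≠ 0 := by
    have := nm_ge v
    have h : (nm v : ℝ) ≠ 0 := by linarith
    exact_mod_cast h
  rw [Complex.cpow_def_of_ne_zero hn, Complex.cpow_def_of_ne_zero hn, ← Complex.exp_add]
  congr 1
  rw [Complex.natCast_log.symm]
  ring

lemma key_two {a e S P q : ℂ} (hq : q ≠ 1) (hq0 : q ≠ 0) (h1 : 1 - a + e = 1 - S + P)
    (h2 : 1 - a * q⁻¹ + e * (q⁻¹) ^ 2 = 1 - S * q⁻¹ + P * (q⁻¹) ^ 2) : a = S ∧ e = P := by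
  have h3 : q ^ 2 - a * q + e = q ^ 2 - S * q + P := by
    have h := congrArg (fun t => q ^ 2 * t) h2
    field_simp at h
    linear_combination h
  have h4 : (a - S) * (q - 1) = 0 := by linear_combination h1 - h3
  have h5 : a = S := by
    rcases mul_eq_zero.1 h4 with h | h
    · exact sub_eq_zero.1 h
    · exact absurd (sub_eq_zero.1 h) hq
  exact ⟨h5, by rw [h5] at h1; linear_combination h1⟩

lemma trace_eq (W : HeightOneSpectrum (𝓞 K) → WeierstrassCurve (𝓞 K))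
    {v : HeightOneSpectrum (𝓞 K)} {β : Fin 2 → ℂ}
    (h : ∀ s : ℂ, elf W v s = ∏ j, (1 - β j * ((nm v : ℕ) : ℂ) ^ (-(s - 1 / 2)))⁻¹) :
    ((av' W v : ℤ) : ℂ) = (β 0 + β 1) * Complex.exp ((Real.log (nm v) : ℂ) / 2) ∧
    ((dv W v : ℤ) : ℂ) = β 0 * β 1 * Complex.exp ((Real.log (nm v) : ℂ) / 2) ^ 2 := by
  classical
  have hnm := nm_ge v
  have hn0 : ((nm v : ℕ) : ℂ) ≠ 0 := by
    have h : (nm v : ℝ) ≠ 0 := by linarith
    exact_mod_cast h
  have hn1 : ((nm v : ℕ) : ℂ) ≠ 1 := by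
    have h : (nm v : ℝ) ≠ 1 := by linarith
    exact_mod_cast h
  set r : ℂ := Complex.exp ((Real.log (nm v) : ℂ) / 2) with hr
  have key : ∀ s : ℂ, 1 - ((av' W v : ℤ) : ℂ) * ((nm v : ℕ) : ℂ) ^ (-s) +
      ((dv W v : ℤ) : ℂ) * (((nm v : ℕ) : ℂ) ^ (-s)) ^ 2 =
      1 - ((β 0 + β 1) * r) * ((nm v : ℕ) : ℂ) ^ (-s) +
        (β 0 * β 1 * r ^ 2) * (((nm v : ℕ) : ℂ) ^ (-s)) ^ 2 := by
    intro s
    have h1 := h s
    rw [Finset.prod_inv_distrib] at h1
    unfold elf lfac at h1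
    have h2 := inv_injective h1
    rw [Fin.prod_univ_two, half_cpow, ← hr, Pool.Agent.TH339.MP.cpow_two _ (by
      have := Pool.Agent.TH339.MP.two_le_nm v
      omega)] at h2
    have h3 : ((av W v : ℝ) : ℂ) = ((av' W v : ℤ) : ℂ) := by
      rw [← av'_eq]
      push_cast
      rfl
    have h4 : (if (W v).Δ ∈ v.asIdeal then 0 else (nm v : ℂ)) = ((dv W v : ℤ) : ℂ) := by
      unfold dv
      split_ifs
      · simp
      · simp
    rw [h3, h4] at h2
    rw [h2]
    ring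
  have k0 := key 0
  have k1 := key 1
  rw [neg_zero, Complex.cpow_zero] at k0
  rw [Complex.cpow_neg_one] at k1
  refine key_two hn1 hn0 ?_ k1
  linear_combination k0

lemma S6_sub {S : Finset (HeightOneSpectrum (𝓞 K))}
    (hS : ∀ v : HeightOneSpectrum (𝓞 K), (6 : 𝓞 K) ∈ v.asIdeal → v ∈ S)
    {v : HeightOneSpectrum (𝓞 K)} (hv : v ∈ (S6 : Finset (HeightOneSpectrum (𝓞 K)))) :
    v ∈ S := by
  classical
  apply hS
  unfold S6 at hv
  rw [Finset.mem_union, Pool.Agent.TH339.MP.mem_Sp, Pool.Agent.TH339.MP.mem_Sp] at hv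
  have h1 := Pool.Agent.TH339.MP.pr_mem v
  rcases hv with h | h
  · rw [h] at h1
    have h2 := v.asIdeal.mul_mem_left (3 : 𝓞 K) h1
    have h3 : (3 : 𝓞 K) * ((2 : ℕ) : 𝓞 K) = 6 := by norm_num
    rwa [h3] at h2
  · rw [h] at h1
    have h2 := v.asIdeal.mul_mem_left (2 : 𝓞 K) h1
    have h3 : (2 : 𝓞 K) * ((3 : ℕ) : 𝓞 K) = 6 := by norm_num
    rwa [h3] at h2

/-- the term of the average -/
noncomputable def term (W : HeightOneSpectrum (𝓞 K) → WeierstrassCurve (𝓞 K)) (A x τ : ℝ)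
    (p : HeightOneSpectrum (𝓞 K) × ℕ) : ℂ :=
  ((psum (av' W p.1) (dv W p.1) (p.2 + 1) : ℤ) : ℂ) * (Real.log (nm p.1) : ℂ) *
    ((nm p.1 : ℕ) : ℂ) ^ (-(((p.2 : ℂ) + 1) * (3 / 2 + τ * Complex.I))) *
    (Real.exp (-(A * (((p.2 : ℝ) + 1) * Real.log (nm p.1) - Real.log x) ^ 2 / Real.log x)) : ℂ)

open Classical in
/-- the average -/
noncomputable def avg (W : HeightOneSpectrum (𝓞 K) → WeierstrassCurve (𝓞 K))
    (S : Finset (HeightOneSpectrum (𝓞 K))) (A x τ : ℝ) : ℂ :=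
  (√(A / (Real.pi * Real.log x)) : ℂ) *
    ∑' p : HeightOneSpectrum (𝓞 K) × ℕ, if p.1 ∈ S then 0 else term W A x τ p

open Classical in
/-- **The L-series of an elliptic curve.** -/
theorem ec_data (W : HeightOneSpectrum (𝓞 K) → WeierstrassCurve (𝓞 K))
    {S : Finset (HeightOneSpectrum (𝓞 K))}
    (hS : ∀ v : HeightOneSpectrum (𝓞 K), (6 : 𝓞 K) ∈ v.asIdeal → v ∈ S) :
    ∃ β : HeightOneSpectrum (𝓞 K) → Fin 2 → ℂ,
      LD Measure.count (uu (K := K)) (cc β)
        (fun z => ∏' v : HeightOneSpectrum (𝓞 K), if v ∈ S then 1 else elf W v (3 / 2 + z)) ∧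
      ∀ A x τ : ℝ, 0 < A → 1 < x →
        MM Measure.count (uu (K := K)) (cc β) A (Real.log x) (τ * Complex.I) = avg W S A x τ := by
  obtain ⟨β, h1, h2⟩ := Pool.Agent.TH339.MP.exists_beta W
  set β' : HeightOneSpectrum (𝓞 K) → Fin 2 → ℂ := fun v j => if v ∈ S then 0 else β v j with hβ'
  have hb' : ∀ v j, ‖β' v j‖ ≤ 1 := by
    intro v j
    simp only [hβ']
    split_ifs
    · simp
    · exact h1 v j
  refine ⟨β', ld_euler hb' fun z _ => ?_, fun A x τ hA hx => ?_⟩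
  · refine tprod_congr fun v => ?_
    by_cases hv : v ∈ S
    · simp [hβ', hv]
    · have h3 : v ∉ (S6 : Finset (HeightOneSpectrum (𝓞 K))) := fun h => hv (S6_sub hS h)
      rw [if_neg hv, h2 v h3]
      simp only [hβ', if_neg hv]
      have : (3 / 2 + z - 1 / 2 : ℂ) = 1 + z := by ring
      rw [this]
  · have hy : 0 < Real.log x := Real.log_pos hx
    have hint := integrable_count_iff.1 ((dat_cc hb').ker_integrable hA hy (τ * Complex.I))
    unfold MM
    rw [integral_count_eq hint]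
    unfold avg
    rw [← tsum_mul_left]
    refine tsum_congr fun p => ?_
    obtain ⟨v, k⟩ := p
    by_cases hv : v ∈ S
    · rw [if_pos hv, mul_zero]
      unfold cc ps
      simp [hβ', hv]
    · rw [if_neg hv]
      have h3 : v ∉ (S6 : Finset (HeightOneSpectrum (𝓞 K))) := fun h => hv (S6_sub hS h)
      obtain ⟨h4, h5⟩ := trace_eq W (h2 v h3)
      unfold term
      rw [psum_eq h4 h5]
      unfold cc ps gk
      simp only [hβ', if_neg hv, Fin.sum_univ_two]
      have hn : ((nm v : ℕ) : ℂ) ≠ 0 := by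
        have := nm_ge v
        have h : (nm v : ℝ) ≠ 0 := by linarith
        exact_mod_cast h
      have e1 : Complex.exp ((Real.log (nm v) : ℂ) / 2) ^ (k + 1) *
          ((nm v : ℕ) : ℂ) ^ (-(((k : ℂ) + 1) * (3 / 2 + τ * Complex.I))) =
          Complex.exp (-(uu (v, k) : ℂ)) * Complex.exp (-(τ * Complex.I * uu (v, k))) := by
        rw [Complex.cpow_def_of_ne_zero hn, ← Complex.exp_nat_mul, ← Complex.exp_add,
          ← Complex.exp_add]
        congr 1
        unfold uu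
        rw [Complex.natCast_log.symm]
        push_cast
        ring
      have e2 : ((k : ℝ) + 1) * Real.log (nm v) = uu (v, k) := rfl
      rw [e2]
      rw [Complex.ofReal_mul]
      linear_combination (-((β v 0 ^ (k + 1) + β v 1 ^ (k + 1)) * (Real.log (nm v) : ℂ) *
        (√(A / (Real.pi * Real.log x)) : ℂ) *
        (Real.exp (-(A * (uu (v, k) - Real.log x) ^ 2 / Real.log x)) : ℂ))) * e1

end

end Pool.Agent.N881.GW
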