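import Pool.Agent.N881.GW.C2

/-!
# The averages at one point: from the averages to the function
-/

set_option autoImplicit false

namespace Pool.Agent.N881.GW

open MeasureTheory Set Filter Topology

variable {Ω : Type} [MeasurableSpace Ω] {m : Measure Ω} {u : Ω → ℝ} {c : Ω → ℂ}

/-- the real part of `z + z²/(4A)` -/
noncomputable def xr (A : ℝ) (z : ℂ) : ℝ := z.re + (z.re ^ 2 - z.im ^ 2) / (4 * A)

lemma xr_eq {A : ℝ} (hA : A ≠ 0) (z : ℂ) : (z + z ^ 2 / (4 * A)).re = xr A z := by
  have h : (z + z ^ 2 / (4 * A) : ℂ) = z + z ^ 2 * ((1 / (4 * A) : ℝ) : ℂ) := by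
    push_cast
    field_simp
  rw [h, Complex.add_re, Complex.re_mul_ofReal]
  unfold xr
  simp [sq]
  field_simp

lemma xr_cont (A : ℝ) : Continuous (xr A) := by
  unfold xr
  exact Complex.continuous_re.add (((Complex.continuous_re.pow 2).sub
    (Complex.continuous_im.pow 2)).div_const _)

/-- the part of the plane to the right of the hyperbola -/
def reg (A κ : ℝ) : Set ℂ := {z : ℂ | -(2 * A) < z.re ∧ -κ < xr A z}

lemma isOpen_reg (A κ : ℝ) : IsOpen (reg A κ) :=
  (isOpen_lt continuous_const Complex.continuous_re).inter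
    (isOpen_lt continuous_const (xr_cont A))

lemma xr_iff {A : ℝ} (hA : 0 < A) (κ : ℝ) (z : ℂ) :
    -κ < xr A z ↔ z.im ^ 2 + 4 * A * (A - κ) < (z.re + 2 * A) ^ 2 := by
  unfold xr
  have h4 : (0 : ℝ) < 4 * A := by positivity
  have h : z.re + (z.re ^ 2 - z.im ^ 2) / (4 * A) =
      ((z.re + 2 * A) ^ 2 - z.im ^ 2 - 4 * A * A) / (4 * A) := by
    field_simp
    ring
  rw [h, lt_div_iff₀ h4]
  constructor
  · intro h
    linarith
  · intro h
    linarith

lemma convex_reg {A κ : ℝ} (hA : 0 < A) (hκ : κ ≤ A) : Convex ℝ (reg A κ) := by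
  intro z hz w hw a b ha hb hab
  obtain ⟨hz1, hz2⟩ := hz
  obtain ⟨hw1, hw2⟩ := hw
  rw [xr_iff hA] at hz2 hw2
  set k : ℝ := 4 * A * (A - κ) with hk
  have hk0 : 0 ≤ k := mul_nonneg (by positivity) (by linarith)
  have hre : (a • z + b • w).re = a * z.re + b * w.re := by simp
  have him : (a • z + b • w).im = a * z.im + b * w.im := by simp
  set p : ℝ := z.re + 2 * A with hp
  set q : ℝ := w.re + 2 * A with hq
  have hp0 : 0 < p := by rw [hp]; linarith
  have hq0 : 0 < q := by rw [hq]; linarith
  refine ⟨?_, ?_⟩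
  · rw [hre]
    have e : a * z.re + b * w.re = a * p + b * q - 2 * A := by
      rw [hp, hq]
      have : a = 1 - b := by linarith
      rw [this]
      ring
    rw [e]
    have : 0 < a * p + b * q := by
      rcases eq_or_lt_of_le ha with h | h
      · have hb1 : b = 1 := by linarith
        rw [← h, hb1]
        linarith
      · have h1 : 0 < a * p := by positivity
        have h2 : 0 ≤ b * q := by positivity
        linarith
    linarith
  · rw [xr_iff hA, hre, him]
    have e : a * z.re + b * w.re + 2 * A = a * p + b * q := by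
      rw [hp, hq]
      have : a = 1 - b := by linarith
      rw [this]
      ring
    rw [e, ← hk]
    -- the product
    have h1 : z.im * w.im + k ≤ p * q := by
      by_contra hcon
      rw [not_le] at hcon
      have h2 : (p * q) ^ 2 < (z.im * w.im + k) ^ 2 :=
        pow_lt_pow_left₀ hcon (by positivity) two_ne_zero
      have h3 : (z.im ^ 2 + k) * (w.im ^ 2 + k) ≤ p ^ 2 * q ^ 2 :=
        mul_le_mul hz2.le hw2.le (by positivity) (by positivity)
      have h4 : 0 ≤ k * (z.im - w.im) ^ 2 := mul_nonneg hk0 (sq_nonneg _)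
      nlinarith
    have h5 : 2 * (a * b) * (z.im * w.im + k) ≤ 2 * (a * b) * (p * q) :=
      mul_le_mul_of_nonneg_left h1 (by positivity)
    have h6 : a ^ 2 * (z.im ^ 2 + k) + b ^ 2 * (w.im ^ 2 + k) < a ^ 2 * p ^ 2 + b ^ 2 * q ^ 2 := by
      rcases eq_or_lt_of_le ha with h | h
      · have hb1 : b = 1 := by linarith
        rw [← h, hb1]
        linarith
      · have h7 : a ^ 2 * (z.im ^ 2 + k) < a ^ 2 * p ^ 2 :=
          mul_lt_mul_of_pos_left hz2 (by positivity)
        have h8 : b ^ 2 * (w.im ^ 2 + k) ≤ b ^ 2 * q ^ 2 :=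
          mul_le_mul_of_nonneg_left hw2.le (by positivity)
        linarith
    have h9 : (a * z.im + b * w.im) ^ 2 + k = a ^ 2 * (z.im ^ 2 + k) + b ^ 2 * (w.im ^ 2 + k) +
        2 * (a * b) * (z.im * w.im + k) + k * (1 - (a + b) ^ 2) := by ring
    rw [h9, hab]
    nlinarith

/-- the continuation to the right of the hyperbola -/
noncomputable def H1 (m : Measure Ω) (u : Ω → ℝ) (c : Ω → ℂ) (A : ℝ) (z : ℂ) : ℂ :=
  (1 + z / (2 * A)) * ∫ y in Ioi (0 : ℝ), MM m u c A y 0 *
    Complex.exp (-(y * (z + z ^ 2 / (4 * A))))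

lemma norm_exp_xr {A : ℝ} (hA : A ≠ 0) (y : ℝ) (z : ℂ) :
    ‖Complex.exp (-(y * (z + z ^ 2 / (4 * A))))‖ = Real.exp (-(y * xr A z)) := by
  rw [Complex.norm_exp]
  congr 1
  rw [Complex.neg_re, Complex.re_ofReal_mul, xr_eq hA]

/-- the values for positive numbers -/
lemma Dat.H1_pos [SFinite m] (D : Dat m u c) {A x : ℝ} (hA : 0 < A) (hx : 0 < x) :
    H1 m u c A x = phi m u c x := by
  set A' : ℝ := A + x / 2 with hA'
  have hA'0 : 0 < A' := by rw [hA']; positivity
  have h1 : ∀ y ∈ Ioi (0 : ℝ), MM m u c A y 0 * Complex.exp (-(y * ((x : ℂ) +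
      (x : ℂ) ^ 2 / (4 * A)))) = MM m u c A' (y * (A' / A)) x := by
    intro y hy
    have hy0 : (0 : ℝ) < y := hy
    have h2 := MM_shift (m := m) (u := u) (c := c) (A := A) (A' := A') (b := x) hA hA' hA'0 hy0
      rfl (x : ℂ)
    rw [sub_self] at h2
    rw [h2, mul_right_comm, Complex.ofReal_exp, ← Complex.exp_add]
    have e : ((A' * (y * A' / A) - A * y : ℝ) : ℂ) + -(y * ((x : ℂ) + (x : ℂ) ^ 2 / (4 * A))) =
        0 := by
      have hAc : (A : ℂ) ≠ 0 := by exact_mod_cast hA.ne'
      rw [hA']
      push_cast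
      field_simp
      ring
    rw [e, Complex.exp_zero, one_mul, mul_div_assoc]
  unfold H1
  rw [setIntegral_congr_fun measurableSet_Ioi h1,
    integral_comp_mul_right_Ioi (fun y => MM m u c A' y (x : ℂ)) 0 (b := A' / A) (by positivity),
    zero_mul, D.inversion hA'0 (z := (x : ℂ)) (by simpa using hx), Complex.real_smul, ← mul_assoc]
  have hAc : (A : ℂ) ≠ 0 := by exact_mod_cast hA.ne'
  have hne : (2 * (A : ℂ) + x) ≠ 0 := by
    have : (2 * A + x) ≠ 0 := by positivity
    exact_mod_cast this
  have h3 : (A' : ℂ) = (2 * A + x) / 2 := by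
    rw [hA']
    push_cast
    ring
  have e : (1 + (x : ℂ) / (2 * A)) * (((A' / A)⁻¹ : ℝ) : ℂ) = 1 := by
    rw [inv_div, Complex.ofReal_div, h3]
    field_simp
  rw [e, one_mul]

/-- **Small averages at one point give a continuation** to the right of a hyperbola. -/
theorem Dat.one_point [SFinite m] (D : Dat m u c) {A κ C y0 : ℝ} (hA : 0 < A)
    (h : ∀ y : ℝ, y0 ≤ y → ‖MM m u c A y 0‖ ≤ C * Real.exp (-(κ * y))) :
    DifferentiableOn ℂ (H1 m u c A) (reg A κ) := by
  intro z0 hz0
  obtain ⟨_, hz0e⟩ := hz0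
  set e1 : ℝ := (xr A z0 + -κ) / 2 with he1
  have h1 : -κ < e1 := by rw [he1]; linarith
  have h2 : e1 < xr A z0 := by rw [he1]; linarith
  set Y0 : ℝ := max 1 y0 with hY0
  have hY00 : 0 < Y0 := lt_of_lt_of_le one_pos (le_max_left _ _)
  set K0 : ℝ := 1 + 1 ^ 2 / (4 * A) with hK0
  have hK00 : 0 < K0 := by positivity
  have hop : IsOpen {z : ℂ | e1 < xr A z} := isOpen_lt continuous_const (xr_cont A)
  have key : DifferentiableOn ℂ (fun z => ∫ y in Ioi (0 : ℝ), MM m u c A y 0 *
      Complex.exp (-(y * (z + z ^ 2 / (4 * A))))) {z : ℂ | e1 < xr A z} := by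
    refine Pool.Agent.HP.differentiableOn_integral (volume.restrict (Ioi (0 : ℝ)))
      (fun y z => MM m u c A y 0 * Complex.exp (-(y * (z + z ^ 2 / (4 * A))))) _ hop
      (fun z _ => ?_) (fun y => ?_) _
      (integrable_bound (A := A) (Y0 := Y0)
        (k := Real.exp (Y0 * (K0 + |e1|)) * KK m u c 1) (C1 := |C|) (η := κ + e1)
        (by linarith) hY00) ?_
    · refine ((D.meas_y A 0).aestronglyMeasurable).mul ?_
      have : Continuous fun y : ℝ => Complex.exp (-(y * (z + z ^ 2 / (4 * A)))) := by fun_prop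
      exact this.aestronglyMeasurable
    · refine Differentiable.differentiableOn ?_
      fun_prop
    · intro y z hz
      have hz' : e1 < xr A z := hz
      have hk : 0 ≤ Real.exp (Y0 * (K0 + |e1|)) * KK m u c 1 :=
        mul_nonneg (Real.exp_pos _).le (KK_nonneg _)
      have hi : 0 ≤ (Ioc (0 : ℝ) Y0).indicator (fun y => √(A / (Real.pi * y)) *
          (Real.exp (Y0 * (K0 + |e1|)) * KK m u c 1)) y :=
        indicator_nonneg (fun y _ => mul_nonneg (Real.sqrt_nonneg _) hk) y
      have he : 0 ≤ |C| * Real.exp (-((κ + e1) * y)) := by positivity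
      rcases le_or_gt y 0 with hy | hy
      · rw [MM_nonpos hA hy, zero_mul, norm_zero]
        exact add_nonneg hi he
      · rw [norm_mul, norm_exp_xr hA.ne']
        have h3 : Real.exp (-(y * xr A z)) ≤ Real.exp (-(y * e1)) := by
          apply Real.exp_le_exp.2
          have := mul_le_mul_of_nonneg_left hz'.le hy.le
          linarith
        rcases le_or_gt Y0 y with hY | hY
        · have h4 := h y ((le_max_right _ _).trans hY)
          refine le_trans ?_ (le_add_of_nonneg_left hi)
          calc ‖MM m u c A y 0‖ * Real.exp (-(y * xr A z))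
              ≤ (|C| * Real.exp (-(κ * y))) * Real.exp (-(y * e1)) := by
                refine mul_le_mul (h4.trans ?_) h3 (Real.exp_pos _).le (by positivity)
                exact mul_le_mul_of_nonneg_right (le_abs_self C) (Real.exp_pos _).le
            _ = |C| * Real.exp (-((κ + e1) * y)) := by
                rw [mul_assoc, ← Real.exp_add]
                congr 2
                ring
        · have h4 := D.MM_le (σ := 1) (b := 1) hA hy one_pos (z := 0) (by simp)
          have h5 : (Ioc (0 : ℝ) Y0).indicator (fun y => √(A / (Real.pi * y)) *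
              (Real.exp (Y0 * (K0 + |e1|)) * KK m u c 1)) y = √(A / (Real.pi * y)) *
              (Real.exp (Y0 * (K0 + |e1|)) * KK m u c 1) :=
            indicator_of_mem (show y ∈ Ioc (0 : ℝ) Y0 from ⟨hy, hY.le⟩) _
          rw [h5]
          refine le_trans ?_ (le_add_of_nonneg_right he)
          calc ‖MM m u c A y 0‖ * Real.exp (-(y * xr A z))
              ≤ (√(A / (Real.pi * y)) * Real.exp (y * K0) * KK m u c 1) *
                  Real.exp (-(y * e1)) :=
                mul_le_mul h4 h3 (Real.exp_pos _).le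
                  (mul_nonneg (by positivity) (KK_nonneg _))
            _ = √(A / (Real.pi * y)) * ((Real.exp (y * K0) * Real.exp (-(y * e1))) *
                  KK m u c 1) := by ring
            _ ≤ √(A / (Real.pi * y)) * (Real.exp (Y0 * (K0 + |e1|)) * KK m u c 1) := by
                refine mul_le_mul_of_nonneg_left ?_ (Real.sqrt_nonneg _)
                refine mul_le_mul_of_nonneg_right ?_ (KK_nonneg _)
                rw [← Real.exp_add]
                apply Real.exp_le_exp.2
                have h6 : y * K0 ≤ Y0 * K0 := mul_le_mul_of_nonneg_right hY.le hK00.le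
                have h7 : -(y * e1) ≤ Y0 * |e1| := by
                  calc -(y * e1) = y * (-e1) := by ring
                    _ ≤ y * |e1| := mul_le_mul_of_nonneg_left (neg_le_abs e1) hy.le
                    _ ≤ Y0 * |e1| := mul_le_mul_of_nonneg_right hY.le (abs_nonneg _)
                linarith
  have h3 : DifferentiableAt ℂ (fun z => ∫ y in Ioi (0 : ℝ), MM m u c A y 0 *
      Complex.exp (-(y * (z + z ^ 2 / (4 * A))))) z0 := key.differentiableAt (hop.mem_nhds h2)
  have h4 : DifferentiableAt ℂ (fun z : ℂ => 1 + z / (2 * A)) z0 := by fun_prop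
  exact (h4.mul h3).differentiableWithinAt

end Pool.Agent.N881.GW
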