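import Pool.Agent.N881.GW.O1
import Pool.Agent.N881.GW.D2

/-!
# The averages at one point: from the function to the averages
-/

set_option autoImplicit false

namespace Pool.Agent.N881.GW

open MeasureTheory Set Filter Topology
open scoped Interval

variable {Ω : Type} [MeasurableSpace Ω] {m : Measure Ω} {u : Ω → ℝ} {c : Ω → ℂ}

/-- **A continuation makes the averages small,** on a box. -/
theorem fwd_kap {A b κ : ℝ} (hA : 0 < A) (hκ : 0 < κ) (hκA : κ ≤ 2 * A) (hb : κ < b) :
    ∃ T1 : ℝ, 0 < T1 ∧ ∀ {Ω : Type} [MeasurableSpace Ω] {m : Measure Ω} {u : Ω → ℝ}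
      {c : Ω → ℂ} [SFinite m] (_ : Dat m u c) (T : ℝ) (H : ℂ → ℂ),
      DifferentiableOn ℂ H {z : ℂ | -b < z.re ∧ |z.im| < T + T1} →
      (∀ z : ℂ, 0 < z.re → |z.im| < T + T1 → H z = phi m u c z) →
      ∀ y0 : ℝ, 0 < y0 → ∃ C : ℝ, ∀ τ y : ℝ, |τ| ≤ T → y0 ≤ y →
        ‖MM m u c A y (τ * Complex.I)‖ ≤ C * Real.exp (-((κ - κ ^ 2 / (4 * A)) * y)) := by
  set k1 : ℝ := 1 + 1 / (4 * A) with hk1
  have hk10 : 0 < k1 := by positivity
  set T2 : ℝ := √(4 * A * (A + k1)) with hT2
  have hT2sq : T2 ^ 2 = 4 * A * (A + k1) := Real.sq_sqrt (by positivity)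
  have hT20 : 0 < T2 := Real.sqrt_pos.2 (by positivity)
  refine ⟨T2 + 1, by linarith, ?_⟩
  intro Ω _ m u c _ D T H hH hHphi y0 hy0
  -- the bound for `H`
  obtain ⟨S, hS⟩ : ∃ S : ℝ, ∀ z : ℂ, -κ ≤ z.re → z.re ≤ 1 → |z.im| ≤ T + T2 →
      ‖H z‖ ≤ S := by
    have hcomp : IsCompact (Icc (-κ) 1 ×ℂ Icc (-(T + T2)) (T + T2)) :=
      isCompact_Icc.reProdIm isCompact_Icc
    have hcont : ContinuousOn H (Icc (-κ) 1 ×ℂ Icc (-(T + T2)) (T + T2)) := by
      refine hH.continuousOn.mono fun z hz => ?_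
      have h1 := hz.1
      have h2 := hz.2
      simp only [mem_preimage, mem_Icc] at h1 h2
      refine ⟨by linarith, ?_⟩
      have := abs_le.2 h2
      linarith
    obtain ⟨S, hS⟩ := hcomp.exists_bound_of_continuousOn hcont
    exact ⟨S, fun z h1 h2 h3 => hS z ⟨⟨h1, h2⟩, abs_le.1 h3⟩⟩
  set S' : ℝ := max S 0 with hS'
  have hS0 : 0 ≤ S' := le_max_right _ _
  set C2 : ℝ := ∫ t : ℝ, Real.exp (-(y0 / (4 * A) * (t ^ 2 - T2 ^ 2))) * KK m u c 1 with hC2
  refine ⟨(S' * |1 - -κ| + S' * |1 - -κ| + S' * |T2 - -T2| + C2) / (2 * Real.pi),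
    fun τ y hτ hy => ?_⟩
  have hy0' : 0 < y := by linarith
  have hEA : κ - κ ^ 2 / (4 * A) ≤ A := by
    have h1 : κ - κ ^ 2 / (4 * A) = A - (κ - 2 * A) ^ 2 / (4 * A) := by
      field_simp
      ring
    have h2 : 0 ≤ (κ - 2 * A) ^ 2 / (4 * A) := by positivity
    linarith
  have hEy : -(A * y) ≤ -((κ - κ ^ 2 / (4 * A)) * y) := by
    have := mul_le_mul_of_nonneg_right hEA hy0'.le
    linarith
  set g : ℝ → ℂ := fun t => EE A y (p1 t) * phi m u c (τ * Complex.I + p1 t) with hg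
  have hrep := D.repr (z := (τ : ℂ) * Complex.I) hA hy0' (by simp)
  have hre : ∀ t : ℝ, ((τ : ℂ) * Complex.I + p1 t).re = 1 := fun t => by simp [p1]
  have him : ∀ t : ℝ, ((τ : ℂ) * Complex.I + p1 t).im = τ + t := fun t => by simp [p1]
  have hgint : Integrable g := by
    refine ((EE_integrable hA hy0').mul_const (KK m u c 1 : ℂ)).mono ?_
      (Eventually.of_forall fun t => ?_)
    · have h1 : Continuous fun t : ℝ => phi m u c (τ * Complex.I + p1 t) := by
        refine D.phi_diff.continuousOn.comp_continuous ?_ fun t => ?_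
        · exact continuous_const.add p1_cont
        · show 0 < ((τ : ℂ) * Complex.I + p1 t).re
          rw [hre]; exact one_pos
      exact (((EE_cont A y).comp p1_cont).mul h1).aestronglyMeasurable
    · rw [hg]
      simp only [norm_mul]
      refine mul_le_mul_of_nonneg_left ?_ (norm_nonneg _)
      rw [Complex.norm_real, Real.norm_of_nonneg (KK_nonneg _)]
      exact norm_phi_le D one_pos (hre t).ge
  -- the two parts
  have hsplit : ∫ t, g t = (∫ t in Ioc (-T2) T2, g t) + ∫ t in (Ioc (-T2) T2)ᶜ, g t :=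
    (integral_add_compl measurableSet_Ioc hgint).symm
  -- the outer part
  have hout : ‖∫ t in (Ioc (-T2) T2)ᶜ, g t‖ ≤ C2 * Real.exp (-((κ - κ ^ 2 / (4 * A)) * y)) := by
    have hbi : Integrable fun t : ℝ => Real.exp (-(y0 / (4 * A) * (t ^ 2 - T2 ^ 2))) *
        KK m u c 1 := by
      have h1 := (integrable_exp_neg_mul_sq (b := y0 / (4 * A)) (by positivity)).const_mul
        (Real.exp (y0 / (4 * A) * T2 ^ 2) * KK m u c 1)
      refine h1.congr (Eventually.of_forall fun t => ?_)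
      simp only
      have : Real.exp (-(y0 / (4 * A) * (t ^ 2 - T2 ^ 2))) =
          Real.exp (y0 / (4 * A) * T2 ^ 2) * Real.exp (-(y0 / (4 * A)) * t ^ 2) := by
        rw [← Real.exp_add]; congr 1; ring
      rw [this]
      ring
    have h2 : ‖∫ t in (Ioc (-T2) T2)ᶜ, g t‖ ≤ ∫ t in (Ioc (-T2) T2)ᶜ,
        (Real.exp (-(y0 / (4 * A) * (t ^ 2 - T2 ^ 2))) * KK m u c 1) * Real.exp (-((κ - κ ^ 2 / (4 * A)) * y)) := by
      refine norm_integral_le_of_norm_le (hbi.mul_const _).integrableOn ?_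
      refine (ae_restrict_iff' measurableSet_Ioc.compl).2 (Eventually.of_forall fun t ht => ?_)
      have ht2 : T2 ^ 2 ≤ t ^ 2 := by
        rw [mem_compl_iff, mem_Ioc, not_and_or, not_lt, not_le] at ht
        rcases ht with h | h
        · nlinarith
        · nlinarith
      rw [hg]
      simp only [norm_mul]
      rw [norm_EE hA.ne', p1_re, p1_im]
      have h3 : ‖phi m u c (τ * Complex.I + p1 t)‖ ≤ KK m u c 1 :=
        norm_phi_le D one_pos (hre t).ge
      have h4 : Real.exp (y * (1 + (1 ^ 2 - t ^ 2) / (4 * A))) ≤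
          Real.exp (-(y0 / (4 * A) * (t ^ 2 - T2 ^ 2))) * Real.exp (-((κ - κ ^ 2 / (4 * A)) * y)) := by
        rw [← Real.exp_add]
        apply Real.exp_le_exp.2
        have h5 : y * (1 + (1 ^ 2 - t ^ 2) / (4 * A)) =
            -(y / (4 * A) * (t ^ 2 - T2 ^ 2)) + -(A * y) := by
          rw [hT2sq, hk1]
          field_simp
          ring
        rw [h5]
        have h6 : y0 / (4 * A) ≤ y / (4 * A) := div_le_div_of_nonneg_right hy (by positivity)
        have h7 := mul_le_mul_of_nonneg_right h6 (sub_nonneg.2 ht2)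
        linarith
      calc _ ≤ (Real.exp (-(y0 / (4 * A) * (t ^ 2 - T2 ^ 2))) * Real.exp (-((κ - κ ^ 2 / (4 * A)) * y))) *
            KK m u c 1 := mul_le_mul h4 h3 (norm_nonneg _) (by positivity)
        _ = _ := by ring
    refine h2.trans ?_
    have h8 : ∫ t in (Ioc (-T2) T2)ᶜ,
        (Real.exp (-(y0 / (4 * A) * (t ^ 2 - T2 ^ 2))) * KK m u c 1) * Real.exp (-((κ - κ ^ 2 / (4 * A)) * y)) ≤
        ∫ t, (Real.exp (-(y0 / (4 * A) * (t ^ 2 - T2 ^ 2))) * KK m u c 1) *
          Real.exp (-((κ - κ ^ 2 / (4 * A)) * y)) := by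
      refine setIntegral_le_integral (hbi.mul_const _) (Eventually.of_forall fun t => ?_)
      have := KK_nonneg (m := m) (u := u) (c := c) 1
      simp only [Pi.zero_apply]
      positivity
    refine h8.trans (le_of_eq ?_)
    rw [integral_mul_const]
  -- the inner part
  have hin : ‖∫ t in Ioc (-T2) T2, g t‖ ≤
      (S' * |1 - -κ| + S' * |1 - -κ| + S' * |T2 - -T2|) * Real.exp (-((κ - κ ^ 2 / (4 * A)) * y)) := by
    set f : ℂ → ℂ := fun ζ => EE A y ζ * H (τ * Complex.I + ζ) with hf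
    have hIm : ∀ ζ : ℂ, ((τ : ℂ) * Complex.I + ζ).im = τ + ζ.im := fun ζ => by simp
    have hRe : ∀ ζ : ℂ, ((τ : ℂ) * Complex.I + ζ).re = ζ.re := fun ζ => by simp
    have hfS : ∀ ζ : ℂ, -κ ≤ ζ.re → ζ.re ≤ 1 → |ζ.im| ≤ T2 →
        ‖EE A y ζ‖ ≤ Real.exp (-((κ - κ ^ 2 / (4 * A)) * y)) → ‖f ζ‖ ≤ S' * Real.exp (-((κ - κ ^ 2 / (4 * A)) * y)) := by
      intro ζ h1 h2 h3 h4
      rw [hf]
      simp only [norm_mul]
      have h5 : ‖H (τ * Complex.I + ζ)‖ ≤ S' := by
        refine (hS _ (by rw [hRe]; exact h1) (by rw [hRe]; exact h2) ?_).trans (le_max_left _ _)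
        rw [hIm]
        exact (abs_add_le _ _).trans (by linarith)
      calc _ ≤ Real.exp (-((κ - κ ^ 2 / (4 * A)) * y)) * S' := mul_le_mul h4 h5 (norm_nonneg _) (Real.exp_pos _).le
        _ = _ := by ring
    have hhor : ∀ x : ℝ, -κ ≤ x → x ≤ 1 →
        Real.exp (y * (x + (x ^ 2 - T2 ^ 2) / (4 * A))) ≤ Real.exp (-((κ - κ ^ 2 / (4 * A)) * y)) := by
      intro x h1 h2
      apply Real.exp_le_exp.2
      have h3 : x + (x ^ 2 - T2 ^ 2) / (4 * A) = -A - (1 - x) * (4 * A + 1 + x) / (4 * A) := by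
        rw [hT2sq, hk1]
        field_simp
        ring
      have h4 : 0 ≤ (1 - x) * (4 * A + 1 + x) / (4 * A) := by
        refine div_nonneg (mul_nonneg (by linarith) (by linarith)) (by positivity)
      rw [h3]
      have h5 := mul_nonneg hy0'.le h4
      linarith
    have hcauchy := Complex.integral_boundary_rect_eq_zero_of_differentiableOn f
      (⟨-κ, -T2⟩ : ℂ) (⟨1, T2⟩ : ℂ) ?_
    · simp only at hcauchy
      have e1 : ∫ t in Ioc (-T2) T2, g t = ∫ v in (-T2)..T2, f ((1 : ℝ) + v * Complex.I) := by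
        rw [intervalIntegral.integral_of_le (by linarith)]
        refine setIntegral_congr_fun measurableSet_Ioc fun t ht => ?_
        rw [hg, hf]
        simp only
        have e2 : p1 t = ((1 : ℝ) : ℂ) + t * Complex.I := by unfold p1; push_cast; ring
        rw [e2] at *
        rw [hHphi]
        · rw [hRe]; simp
        · rw [hIm]
          have : |(((1 : ℝ) : ℂ) + t * Complex.I).im| ≤ T2 := by
            simp only [Complex.add_im, Complex.ofReal_im, Complex.mul_im, Complex.ofReal_re,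
              Complex.I_im, mul_one, Complex.I_re, mul_zero, add_zero, zero_add]
            exact abs_le.2 ⟨ht.1.le, ht.2⟩
          exact lt_of_le_of_lt ((abs_add_le _ _).trans (add_le_add hτ this)) (by linarith)
      rw [e1]
      have n1 : ‖∫ x in (-κ)..1, f (x + ((-T2 : ℝ) : ℂ) * Complex.I)‖ ≤
          (S' * Real.exp (-((κ - κ ^ 2 / (4 * A)) * y))) * |1 - -κ| := by
        refine intervalIntegral.norm_integral_le_of_norm_le_const fun x hx => ?_
        rw [uIoc_of_le (by linarith)] at hx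
        have r1 : ((x : ℂ) + ((-T2 : ℝ) : ℂ) * Complex.I).re = x := by simp
        have r2 : ((x : ℂ) + ((-T2 : ℝ) : ℂ) * Complex.I).im = -T2 := by simp
        refine hfS _ (by rw [r1]; exact hx.1.le) (by rw [r1]; exact hx.2)
          (by rw [r2, abs_neg, abs_of_pos hT20]) ?_
        rw [norm_EE hA.ne', r1, r2, neg_sq]
        exact hhor x hx.1.le hx.2
      have n2 : ‖∫ x in (-κ)..1, f (x + ((T2 : ℝ) : ℂ) * Complex.I)‖ ≤
          (S' * Real.exp (-((κ - κ ^ 2 / (4 * A)) * y))) * |1 - -κ| := by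
        refine intervalIntegral.norm_integral_le_of_norm_le_const fun x hx => ?_
        rw [uIoc_of_le (by linarith)] at hx
        have r1 : ((x : ℂ) + ((T2 : ℝ) : ℂ) * Complex.I).re = x := by simp
        have r2 : ((x : ℂ) + ((T2 : ℝ) : ℂ) * Complex.I).im = T2 := by simp
        refine hfS _ (by rw [r1]; exact hx.1.le) (by rw [r1]; exact hx.2)
          (by rw [r2, abs_of_pos hT20]) ?_
        rw [norm_EE hA.ne', r1, r2]
        exact hhor x hx.1.le hx.2
      have n3 : ‖∫ v in (-T2)..T2, f (((-κ : ℝ) : ℂ) + v * Complex.I)‖ ≤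
          (S' * Real.exp (-((κ - κ ^ 2 / (4 * A)) * y))) * |T2 - -T2| := by
        refine intervalIntegral.norm_integral_le_of_norm_le_const fun v hv => ?_
        rw [uIoc_of_le (by linarith)] at hv
        have r1 : (((-κ : ℝ) : ℂ) + (v : ℂ) * Complex.I).re = -κ := by simp
        have r2 : (((-κ : ℝ) : ℂ) + (v : ℂ) * Complex.I).im = v := by simp
        refine hfS _ (by rw [r1]) (by rw [r1]; linarith)
          (by rw [r2]; exact abs_le.2 ⟨hv.1.le, hv.2⟩) ?_
        rw [norm_EE hA.ne', r1, r2]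
        apply Real.exp_le_exp.2
        have h3 : -κ + ((-κ) ^ 2 - v ^ 2) / (4 * A) = -(κ - κ ^ 2 / (4 * A)) - v ^ 2 / (4 * A) := by
          field_simp
          ring
        have h4 : 0 ≤ v ^ 2 / (4 * A) := by positivity
        rw [h3]
        have h5 := mul_nonneg hy0'.le h4
        linarith
      have e3 : Complex.I • ∫ v in (-T2)..T2, f (((1 : ℝ) : ℂ) + v * Complex.I) =
          Complex.I • (∫ v in (-T2)..T2, f (((-κ : ℝ) : ℂ) + v * Complex.I)) -
          (∫ x in (-κ)..1, f (x + ((-T2 : ℝ) : ℂ) * Complex.I)) +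
          ∫ x in (-κ)..1, f (x + ((T2 : ℝ) : ℂ) * Complex.I) := by
        linear_combination hcauchy
      have n4 : ‖∫ v in (-T2)..T2, f (((1 : ℝ) : ℂ) + v * Complex.I)‖ =
          ‖Complex.I • ∫ v in (-T2)..T2, f (((1 : ℝ) : ℂ) + v * Complex.I)‖ := by
        rw [norm_smul, Complex.norm_I, one_mul]
      rw [n4, e3]
      refine (norm_add_le _ _).trans ?_
      have n5 := norm_sub_le (Complex.I • (∫ v in (-T2)..T2,
          f (((-κ : ℝ) : ℂ) + v * Complex.I)))
          (∫ x in (-κ)..1, f (x + ((-T2 : ℝ) : ℂ) * Complex.I))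
      rw [norm_smul, Complex.norm_I, one_mul] at n5
      calc _ ≤ ((S' * Real.exp (-((κ - κ ^ 2 / (4 * A)) * y))) * |T2 - -T2| +
            (S' * Real.exp (-((κ - κ ^ 2 / (4 * A)) * y))) * |1 - -κ|) +
            (S' * Real.exp (-((κ - κ ^ 2 / (4 * A)) * y))) * |1 - -κ| := by linarith
        _ = _ := by ring
    · -- differentiability
      rw [hf]
      refine (EE_diff A y).differentiableOn.mul ?_
      refine hH.comp ?_ ?_
      · exact (differentiable_id.const_add _).differentiableOn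
      · intro ζ hζ
        have h1 := hζ.1
        have h2 := hζ.2
        simp only [mem_preimage] at h1 h2
        rw [uIcc_of_le (by linarith)] at h1
        rw [uIcc_of_le (by linarith)] at h2
        refine ⟨?_, ?_⟩
        · show -b < ((τ : ℂ) * Complex.I + ζ).re
          rw [hRe]
          linarith [h1.1]
        · show |((τ : ℂ) * Complex.I + ζ).im| < T + (T2 + 1)
          rw [hIm]
          exact lt_of_le_of_lt ((abs_add_le _ _).trans (add_le_add hτ (abs_le.2 h2)))
            (by linarith)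
  -- the conclusion
  have h2pi : (0 : ℝ) < 2 * Real.pi := by positivity
  have hn : ‖(2 * Real.pi * MM m u c A y (τ * Complex.I) : ℂ)‖ =
      2 * Real.pi * ‖MM m u c A y (τ * Complex.I)‖ := by
    rw [norm_mul]
    congr 1
    rw [show (2 * Real.pi : ℂ) = ((2 * Real.pi : ℝ) : ℂ) by push_cast; ring, Complex.norm_real,
      Real.norm_of_nonneg h2pi.le]
  have hfin : 2 * Real.pi * ‖MM m u c A y (τ * Complex.I)‖ ≤
      (S' * |1 - -κ| + S' * |1 - -κ| + S' * |T2 - -T2| + C2) *
        Real.exp (-((κ - κ ^ 2 / (4 * A)) * y)) := by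
    rw [← hn, hrep]
    show ‖∫ t, g t‖ ≤ _
    rw [hsplit]
    calc _ ≤ ‖∫ t in Ioc (-T2) T2, g t‖ + ‖∫ t in (Ioc (-T2) T2)ᶜ, g t‖ := norm_add_le _ _
      _ ≤ _ := by rw [add_mul]; exact add_le_add hin hout
  rw [div_mul_eq_mul_div, le_div_iff₀ h2pi, mul_comm]
  exact hfin


end Pool.Agent.N881.GW
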