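import Pool.Agent.N881.GW.O2
import Pool.Agent.N881.GW.E

/-!
# The averages at one point: the criterion
-/

set_option autoImplicit false

namespace Pool.Agent.N881.GW

open MeasureTheory Set Filter Topology

variable {Ω : Type} [MeasurableSpace Ω] {m : Measure Ω} {u : Ω → ℝ} {c : Ω → ℂ}

/-- functions which agree at the positive real numbers agree -/
lemma eq_of_pos {U : Set ℂ} (hU : IsOpen U) (hUc : Convex ℝ U) {f g : ℂ → ℂ}
    (hf : DifferentiableOn ℂ f U) (hg : DifferentiableOn ℂ g U) (h1 : (1 : ℂ) ∈ U)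
    (h : ∀ x : ℝ, 0 < x → f x = g x) {z : ℂ} (hz : z ∈ U) : f z = g z := by
  have hfr : ∃ᶠ w in 𝓝[≠] (1 : ℂ), f w = g w := by
    have ht : Tendsto (fun x : ℝ => (x : ℂ)) (𝓝[≠] (1 : ℝ)) (𝓝[≠] (1 : ℂ)) := by
      rw [tendsto_nhdsWithin_iff]
      refine ⟨?_, ?_⟩
      · have := Complex.continuous_ofReal.tendsto (1 : ℝ)
        rw [Complex.ofReal_one] at this
        exact this.mono_left nhdsWithin_le_nhds
      · filter_upwards [self_mem_nhdsWithin] with x hx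
        intro hx1
        apply hx
        have : (x : ℂ) = 1 := hx1
        exact_mod_cast this
    have hev : ∀ᶠ x : ℝ in 𝓝[≠] (1 : ℝ), f x = g x := by
      have : ∀ᶠ x : ℝ in 𝓝 (1 : ℝ), 0 < x := lt_mem_nhds one_pos
      filter_upwards [nhdsWithin_le_nhds this] with x hx
      exact h x hx
    exact ht.frequently hev.frequently
  exact (hf.analyticOnNhd hU).eqOn_of_preconnected_of_frequently_eq (hg.analyticOnNhd hU)
    hUc.isPreconnected h1 hfr hz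

lemma one_mem_reg {A κ : ℝ} (hA : 0 < A) (hκ : 0 ≤ κ) : (1 : ℂ) ∈ reg A κ := by
  refine ⟨?_, ?_⟩
  · rw [Complex.one_re]
    linarith
  · unfold xr
    rw [Complex.one_re, Complex.one_im]
    have : 0 < (1 ^ 2 - 0 ^ 2) / (4 * A) := by
      norm_num
      exact hA
    linarith

/-- small averages for the parameter `A` with the exponent `κ`, at one point -/
def SP (m : Measure Ω) (u : Ω → ℝ) (c : Ω → ℂ) (A κ : ℝ) : Prop :=
  ∃ C Y : ℝ, ∀ y : ℝ, Y ≤ y → ‖MM m u c A y 0‖ ≤ C * Real.exp (-(κ * y))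

/-- **Glueing** over all hyperbolas -/
theorem Dat.one_glue [SFinite m] (D : Dat m u c) :
    ∃ H : ℂ → ℂ, (∀ z : ℂ, (∃ A κ : ℝ, 0 < A ∧ 0 ≤ κ ∧ κ ≤ A ∧
      DifferentiableOn ℂ (H1 m u c A) (reg A κ) ∧ z ∈ reg A κ) →
      DifferentiableAt ℂ H z) ∧ ∀ z : ℂ, 0 < z.re → H z = phi m u c z := by
  classical
  set P : ℂ → ℝ × ℝ → Prop := fun z p => 0 < p.1 ∧ 0 ≤ p.2 ∧ p.2 ≤ p.1 ∧
    DifferentiableOn ℂ (H1 m u c p.1) (reg p.1 p.2) ∧ z ∈ reg p.1 p.2 with hP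
  set H : ℂ → ℂ := fun z => if h : ∃ p, P z p then H1 m u c h.choose.1 z else phi m u c z with hH
  have hag : ∀ z p p', P z p → P z p' → H1 m u c p.1 z = H1 m u c p'.1 z := by
    rintro z p p' ⟨h1, h2, h3, h4, h5⟩ ⟨k1, k2, k3, k4, k5⟩
    refine eq_of_pos ((isOpen_reg p.1 p.2).inter (isOpen_reg p'.1 p'.2))
      ((convex_reg h1 h3).inter (convex_reg k1 k3)) (h4.mono inter_subset_left)
      (k4.mono inter_subset_right) ⟨one_mem_reg h1 h2, one_mem_reg k1 k2⟩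
      (fun x hx => ?_) ⟨h5, k5⟩
    rw [D.H1_pos h1 hx, D.H1_pos k1 hx]
  have hHp : ∀ z p, P z p → H z = H1 m u c p.1 z := by
    intro z p hp
    have h : ∃ p, P z p := ⟨p, hp⟩
    rw [hH]
    simp only
    rw [dif_pos h]
    exact hag z _ _ h.choose_spec hp
  refine ⟨H, ?_, fun z hz => ?_⟩
  · rintro z ⟨A, κ, h1, h2, h3, h4, h5⟩
    have h6 : DifferentiableAt ℂ (H1 m u c A) z :=
      h4.differentiableAt ((isOpen_reg A κ).mem_nhds h5)
    refine h6.congr_of_eventuallyEq ?_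
    filter_upwards [(isOpen_reg A κ).mem_nhds h5] with w hw
    exact hHp w (A, κ) ⟨h1, h2, h3, h4, hw⟩
  · by_cases h : ∃ p, P z p
    · obtain ⟨p, hp⟩ := h
      rw [hHp z p hp]
      obtain ⟨h1, h2, h3, h4, h5⟩ := hp
      have hopen : IsOpen {w : ℂ | 0 < w.re} := isOpen_lt continuous_const Complex.continuous_re
      refine eq_of_pos ((isOpen_reg p.1 p.2).inter hopen)
        ((convex_reg h1 h3).inter (convex_halfSpace_re_gt 0))
        (h4.mono inter_subset_left) (D.phi_diff.mono inter_subset_right)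
        ⟨one_mem_reg h1 h2, ?_⟩ (fun x hx => D.H1_pos h1 hx) ⟨h5, hz⟩
      show (0 : ℝ) < (1 : ℂ).re
      rw [Complex.one_re]; exact one_pos
    · rw [hH]
      simp only
      rw [dif_neg h]

lemma Dat.sp_diff [SFinite m] (D : Dat m u c) {A κ : ℝ} (hA : 0 < A) (h : SP m u c A κ) :
    DifferentiableOn ℂ (H1 m u c A) (reg A κ) := by
  obtain ⟨C, Y, h⟩ := h
  exact D.one_point hA h

lemma xr_tendsto (z : ℂ) : Tendsto (fun A : ℝ => xr A z) atTop (𝓝 z.re) := by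
  unfold xr
  have h1 : Tendsto (fun A : ℝ => 4 * A) atTop atTop :=
    tendsto_id.const_mul_atTop (by norm_num)
  have h2 : Tendsto (fun A : ℝ => (z.re ^ 2 - z.im ^ 2) / (4 * A)) atTop (𝓝 0) :=
    h1.const_div_atTop _
  simpa using tendsto_const_nhds.add h2

/-- **The criterion at one point.** -/
theorem Dat.one_iff [SFinite m] (D : Dat m u c) {S : Set ℝ} (hS : ∀ b ∈ S, 0 < b) {y0 : ℝ}
    (hy0 : 0 < y0) :
    List.TFAE [
      ∃ H : ℂ → ℂ, (∀ z : ℂ, (∃ b ∈ S, -b < z.re) → DifferentiableAt ℂ H z) ∧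
        ∀ z : ℂ, 0 < z.re → H z = phi m u c z,
      ∀ κ : ℝ, 0 < κ → (∃ b ∈ S, κ < b) → ∀ A : ℝ, κ ≤ 2 * A → ∃ C : ℝ, ∀ y : ℝ, y0 ≤ y →
        ‖MM m u c A y 0‖ ≤ C * Real.exp (-((κ - κ ^ 2 / (4 * A)) * y)),
      ∀ κ : ℝ, 0 < κ → (∃ b ∈ S, κ < b) → ∃ A0 : ℝ, ∀ A : ℝ, A0 ≤ A → ∃ C : ℝ, ∀ y : ℝ,
        y0 ≤ y → ‖MM m u c A y 0‖ ≤ C * Real.exp (-(κ * y)),
      ∀ κ : ℝ, 0 < κ → (∃ b ∈ S, κ < b) → ∀ A0 : ℝ, ∃ A : ℝ, A0 ≤ A ∧ SP m u c A κ] := by
  tfae_have 1 → 2 := by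
    rintro ⟨H, h1, h2⟩ κ hκ ⟨b, hb, hκb⟩ A hA
    have hA0 : 0 < A := by linarith
    obtain ⟨T1, hT1, hbox⟩ := fwd_kap hA0 hκ hA hκb
    obtain ⟨C, hC⟩ := hbox D 0 H (fun z hz => (h1 z ⟨b, hb, hz.1⟩).differentiableWithinAt)
      (fun z hz _ => h2 z hz) y0 hy0
    refine ⟨C, fun y hy => ?_⟩
    have := hC 0 y (by simp) hy
    simpa using this
  tfae_have 2 → 3 := by
    rintro h κ hκ ⟨b, hb, hκb⟩
    set κ' : ℝ := (κ + b) / 2 with hκ'
    have h1 : κ < κ' := by rw [hκ']; linarith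
    have h2 : κ' < b := by rw [hκ']; linarith
    have h3 : 0 < κ' - κ := by linarith
    refine ⟨max (κ' / 2) (κ' ^ 2 / (4 * (κ' - κ))), fun A hA => ?_⟩
    have h4 : κ' / 2 ≤ A := (le_max_left _ _).trans hA
    have h5 : κ' ^ 2 / (4 * (κ' - κ)) ≤ A := (le_max_right _ _).trans hA
    have hA0 : 0 < A := by linarith
    obtain ⟨C, hC⟩ := h κ' (by linarith) ⟨b, hb, h2⟩ A (by linarith)
    refine ⟨|C|, fun y hy => (hC y hy).trans ?_⟩
    refine mul_le_mul (le_abs_self C) (Real.exp_le_exp.2 ?_) (Real.exp_pos _).le (abs_nonneg _)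
    have h6 : κ ≤ κ' - κ' ^ 2 / (4 * A) := by
      rw [div_le_iff₀ (by positivity)] at h5
      have h7 : κ' ^ 2 / (4 * A) ≤ κ' - κ := by
        rw [div_le_iff₀ (by positivity)]
        linarith
      linarith
    have := mul_le_mul_of_nonneg_right h6 (by linarith : 0 ≤ y)
    linarith
  tfae_have 3 → 4 := by
    intro h κ hκ hb A0
    obtain ⟨A1, hA1⟩ := h κ hκ hb
    obtain ⟨C, hC⟩ := hA1 (max A0 A1) (le_max_right _ _)
    exact ⟨max A0 A1, le_max_left _ _, C, y0, hC⟩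
  tfae_have 4 → 1 := by
    intro h
    obtain ⟨H, h1, h2⟩ := D.one_glue
    refine ⟨H, ?_, h2⟩
    rintro z ⟨b, hb, hz⟩
    have hb0 := hS b hb
    set κ : ℝ := max ((b - z.re) / 2) (b / 2) with hκ
    have h3 : 0 < κ := lt_of_lt_of_le (by positivity) (le_max_right _ _)
    have h4 : κ < b := max_lt (by linarith) (by linarith)
    have h5 : -κ < z.re := by
      have := le_max_left ((b - z.re) / 2) (b / 2)
      linarith
    obtain ⟨A0, hA0⟩ := eventually_atTop.1 ((xr_tendsto z).eventually (lt_mem_nhds h5))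
    obtain ⟨A, hA, hSP⟩ := h κ h3 ⟨b, hb, h4⟩ (max A0 κ)
    have h6 : A0 ≤ A := (le_max_left _ _).trans hA
    have h7 : κ ≤ A := (le_max_right _ _).trans hA
    exact h1 z ⟨A, κ, by linarith, h3.le, h7, D.sp_diff (by linarith) hSP, by linarith, hA0 A h6⟩
  tfae_finish

end Pool.Agent.N881.GW
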