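import Pool.Agent.N881.GW.O3
import Pool.Agent.TH988.RB.Lan

/-!
# One-sided bounds for the averages at one point
-/

set_option autoImplicit false

namespace Pool.Agent.N881.GW

open MeasureTheory Set Filter Topology
open Pool.Agent.W263.BSD (LInt lap lapC lapC_ofReal lapC_differentiableAt lap_add)

variable {Ω : Type} [MeasurableSpace Ω] {m : Measure Ω} {u : Ω → ℝ} {c : Ω → ℂ}

/-- the average at the point `0`, for real data -/
noncomputable def hh (m : Measure Ω) (u : Ω → ℝ) (c : Ω → ℂ) (A y : ℝ) : ℝ := (MM m u c A y 0).re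

lemma MM_real (hc : ∀ ω, (c ω).im = 0) (A y : ℝ) : MM m u c A y 0 = (hh m u c A y : ℂ) := by
  have h1 : MM m u c A y 0 = ((∫ ω, (c ω).re * gk A y (u ω) ∂m : ℝ) : ℂ) := by
    unfold MM
    rw [← integral_complex_ofReal]
    refine integral_congr_ae (Eventually.of_forall fun ω => ?_)
    have h2 : c ω = ((c ω).re : ℂ) := by
      apply Complex.ext
      · simp
      · simp [hc ω]
    simp only [zero_mul, neg_zero, Complex.exp_zero, mul_one]
    nth_rewrite 1 [h2]
    push_cast
    rfl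
  unfold hh
  rw [h1, Complex.ofReal_re]

lemma Dat.hh_meas [SFinite m] (D : Dat m u c) (A : ℝ) : Measurable (hh m u c A) :=
  Complex.measurable_re.comp (D.meas_y A 0).measurable

lemma Dat.norm_meas [SFinite m] (D : Dat m u c) (A : ℝ) :
    Measurable fun y => ‖MM m u c A y 0‖ := (D.meas_y A 0).measurable.norm

/-- the trivial bound gives convergence of the Laplace transform -/
lemma Dat.norm_lint [SFinite m] (D : Dat m u c) {A w : ℝ} (hA : 0 < A)
    (hw : 1 + 1 ^ 2 / (4 * A) < w) : LInt (fun y => ‖MM m u c A y 0‖) w := by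
  unfold LInt
  have hb := integrable_bound (A := A) (Y0 := 1) (k := KK m u c 1) (C1 := √A * KK m u c 1)
    (η := w - (1 + 1 ^ 2 / (4 * A))) (by linarith) one_pos
  refine hb.mono' ?_ ?_
  · exact ((D.norm_meas A).mul (by fun_prop)).aestronglyMeasurable
  · refine (ae_restrict_iff' measurableSet_Ioi).2 (Eventually.of_forall fun y hy => ?_)
    have hy0 : (0 : ℝ) < y := hy
    rw [Real.norm_of_nonneg (by positivity)]
    have h1 := D.MM_le (σ := 1) (b := 1) hA hy0 one_pos (z := 0) (by simp)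
    have h2 : ‖MM m u c A y 0‖ * Real.exp (-(w * y)) ≤ √(A / (Real.pi * y)) * KK m u c 1 *
        Real.exp (-((w - (1 + 1 ^ 2 / (4 * A))) * y)) := by
      calc _ ≤ (√(A / (Real.pi * y)) * Real.exp (y * (1 + 1 ^ 2 / (4 * A))) * KK m u c 1) *
            Real.exp (-(w * y)) := mul_le_mul_of_nonneg_right h1 (Real.exp_pos _).le
        _ = √(A / (Real.pi * y)) * KK m u c 1 *
            (Real.exp (y * (1 + 1 ^ 2 / (4 * A))) * Real.exp (-(w * y))) := by ring
        _ = _ := by
            rw [← Real.exp_add]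
            congr 2
            ring
    refine h2.trans ?_
    have hK := KK_nonneg (m := m) (u := u) (c := c) 1
    rcases le_or_gt y 1 with h | h
    · have h3 : (Ioc (0 : ℝ) 1).indicator (fun y => √(A / (Real.pi * y)) * KK m u c 1) y =
          √(A / (Real.pi * y)) * KK m u c 1 :=
        indicator_of_mem (show y ∈ Ioc (0 : ℝ) 1 from ⟨hy0, h⟩) _
      rw [h3]
      have h4 : Real.exp (-((w - (1 + 1 ^ 2 / (4 * A))) * y)) ≤ 1 := by
        rw [Real.exp_le_one_iff]
        have : 0 ≤ (w - (1 + 1 ^ 2 / (4 * A))) * y := mul_nonneg (by linarith) hy0.le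
        linarith
      have h5 : 0 ≤ √(A / (Real.pi * y)) * KK m u c 1 := mul_nonneg (Real.sqrt_nonneg _) hK
      have h6 : 0 ≤ √A * KK m u c 1 * Real.exp (-((w - (1 + 1 ^ 2 / (4 * A))) * y)) :=
        mul_nonneg (mul_nonneg (Real.sqrt_nonneg _) hK) (Real.exp_pos _).le
      calc _ ≤ √(A / (Real.pi * y)) * KK m u c 1 * 1 := mul_le_mul_of_nonneg_left h4 h5
        _ ≤ _ := by linarith
    · have h3 : (Ioc (0 : ℝ) 1).indicator (fun y => √(A / (Real.pi * y)) * KK m u c 1) y = 0 :=
        indicator_of_notMem (fun hmem => by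
          have := hmem.2
          linarith) _
      rw [h3, zero_add]
      refine mul_le_mul_of_nonneg_right ?_ (Real.exp_pos _).le
      exact mul_le_mul_of_nonneg_right (sqrt_le_of_one_le hA h.le) hK

/-- the point of the real axis with `x + x²/(4A) = w` -/
noncomputable def xw (A w : ℝ) : ℝ := 2 * Real.exp (Real.log (A * (A + w)) / 2) - 2 * A

/-- the same for complex arguments -/
noncomputable def Xw (A : ℝ) (w : ℂ) : ℂ :=
  2 * Complex.exp (Complex.log (A * (A + w)) / 2) - 2 * A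

lemma xw_sq {A w : ℝ} (hA : 0 < A) (hw : -A < w) : (xw A w + 2 * A) ^ 2 = 4 * A * (A + w) := by
  unfold xw
  have h1 : 0 < A * (A + w) := mul_pos hA (by linarith)
  have h2 : Real.exp (Real.log (A * (A + w)) / 2) ^ 2 = A * (A + w) := by
    rw [sq, ← Real.exp_add, add_halves, Real.exp_log h1]
  have h3 : (2 * Real.exp (Real.log (A * (A + w)) / 2) - 2 * A + 2 * A) ^ 2 =
      4 * Real.exp (Real.log (A * (A + w)) / 2) ^ 2 := by ring
  rw [h3, h2]
  ring

lemma xw_gt (A w : ℝ) : -(2 * A) < xw A w := by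
  unfold xw
  have := Real.exp_pos (Real.log (A * (A + w)) / 2)
  linarith

lemma xw_eq {A w : ℝ} (hA : 0 < A) (hw : -A < w) : xw A w + xw A w ^ 2 / (4 * A) = w := by
  have h := xw_sq hA hw
  field_simp
  nlinarith

lemma xw_inv {A x : ℝ} (hA : 0 < A) (hx : -(2 * A) < x) : xw A (x + x ^ 2 / (4 * A)) = x := by
  have h1 : A + (x + x ^ 2 / (4 * A)) = (x + 2 * A) ^ 2 / (4 * A) := by
    field_simp
    ring
  have h2 : 0 < x + 2 * A := by linarith
  have hw : -A < x + x ^ 2 / (4 * A) := by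
    have : 0 < (x + 2 * A) ^ 2 / (4 * A) := by positivity
    linarith
  have h3 := xw_sq hA hw
  rw [h1] at h3
  have h4 : (xw A (x + x ^ 2 / (4 * A)) + 2 * A) ^ 2 = (x + 2 * A) ^ 2 := by
    rw [h3]
    field_simp
  have h5 := xw_gt A (x + x ^ 2 / (4 * A))
  have h6 := (pow_left_inj₀ (by linarith) h2.le two_ne_zero).1 h4
  linarith

lemma xw_mono {A w w' : ℝ} (hA : 0 < A) (hw : -A < w) (h : w < w') : xw A w < xw A w' := by
  have h1 := xw_sq hA hw
  have h2 := xw_sq hA (hw.trans h)
  have h3 := xw_gt A w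
  have h4 := xw_gt A w'
  have h5 : (xw A w + 2 * A) ^ 2 < (xw A w' + 2 * A) ^ 2 := by
    rw [h1, h2]
    have : A * w < A * w' := mul_lt_mul_of_pos_left h hA
    nlinarith
  have h6 := lt_of_pow_lt_pow_left₀ 2 (by linarith) h5
  linarith

lemma Xw_real {A w : ℝ} (hA : 0 < A) (hw : -A < w) : Xw A w = (xw A w : ℂ) := by
  unfold Xw xw
  have h1 : 0 < A * (A + w) := mul_pos hA (by linarith)
  have e : ((A : ℂ) * (A + w)) = ((A * (A + w) : ℝ) : ℂ) := by push_cast; ring
  rw [e, ← Complex.ofReal_log h1.le]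
  push_cast
  ring

lemma Xw_analytic {A w : ℝ} (hA : 0 < A) (hw : -A < w) : AnalyticAt ℂ (Xw A) w := by
  unfold Xw
  have h1 : 0 < A * (A + w) := mul_pos hA (by linarith)
  have h2 : AnalyticAt ℂ (fun w : ℂ => (A : ℂ) * (A + w)) w := by fun_prop
  have h3 : (A : ℂ) * (A + w) ∈ Complex.slitPlane := by
    have e : ((A : ℂ) * (A + w)) = ((A * (A + w) : ℝ) : ℂ) := by push_cast; ring
    rw [e]
    exact Complex.ofReal_mem_slitPlane.2 h1
  have h4 := (h2.clog h3).div_const (c := (2 : ℂ))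
  exact ((h4.cexp).const_smul (c := (2 : ℂ))).sub analyticAt_const

end Pool.Agent.N881.GW
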