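import Pool.Agent.N881.GW.O4

/-!
# One-sided bounds for the averages at one point: the theorem
-/

set_option autoImplicit false

namespace Pool.Agent.N881.GW

open MeasureTheory Set Filter Topology
open Pool.Agent.W263.BSD (LInt lap lapC lapC_ofReal lapC_differentiableAt lap_add)

variable {Ω : Type} [MeasurableSpace Ω] {m : Measure Ω} {u : Ω → ℝ} {c : Ω → ℂ}

lemma lint_exp {κ w : ℝ} (hw : -κ < w) : LInt (fun y => Real.exp (-(κ * y))) w := by
  unfold LInt
  have := exp_neg_integrableOn_Ioi 0 (b := κ + w) (by linarith)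
  refine this.congr_fun (fun y _ => ?_) measurableSet_Ioi
  simp only
  rw [← Real.exp_add]
  congr 1
  ring

lemma lap_exp {κ w : ℝ} (hw : -κ < w) : lap (fun y => Real.exp (-(κ * y))) w = 1 / (κ + w) := by
  unfold lap
  have h1 := integral_exp_mul_Ioi (a := -(κ + w)) (by linarith) 0
  rw [mul_zero, Real.exp_zero] at h1
  have h2 : ∫ y in Ioi (0 : ℝ), Real.exp (-(κ * y)) * Real.exp (-(w * y)) =
      ∫ y in Ioi (0 : ℝ), Real.exp (-(κ + w) * y) := by
    refine setIntegral_congr_fun measurableSet_Ioi fun y _ => ?_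
    rw [← Real.exp_add]
    congr 1
    ring
  rw [h2, h1]
  have : κ + w ≠ 0 := by linarith
  field_simp

/-- the part near the origin -/
lemma lint_ind {f : ℝ → ℝ} (hf : Measurable f) {w1 Y : ℝ} (h : LInt f w1) (w : ℝ) :
    LInt ((Iio Y).indicator f) w := by
  unfold LInt at *
  have hb := h.norm.mul_const (Real.exp (|w1 - w| * |Y|))
  refine hb.mono' ?_ ?_
  · exact (((hf.indicator measurableSet_Iio)).mul (by fun_prop)).aestronglyMeasurable
  · refine (ae_restrict_iff' measurableSet_Ioi).2 (Eventually.of_forall fun y hy => ?_)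
    have hy0 : (0 : ℝ) < y := hy
    by_cases hyY : y < Y
    · rw [indicator_of_mem (show y ∈ Iio Y from hyY), norm_mul, norm_mul, mul_assoc]
      refine mul_le_mul_of_nonneg_left ?_ (norm_nonneg _)
      rw [Real.norm_of_nonneg (Real.exp_pos _).le, Real.norm_of_nonneg (Real.exp_pos _).le,
        ← Real.exp_add]
      apply Real.exp_le_exp.2
      have h1 : (w1 - w) * y ≤ |w1 - w| * |Y| := by
        calc (w1 - w) * y ≤ |w1 - w| * y := mul_le_mul_of_nonneg_right (le_abs_self _) hy0.le
          _ ≤ |w1 - w| * |Y| := by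
            refine mul_le_mul_of_nonneg_left ?_ (abs_nonneg _)
            exact hyY.le.trans (le_abs_self _)
      linarith
    · rw [indicator_of_notMem (show y ∉ Iio Y from hyY), zero_mul, norm_zero]
      positivity

/-- **One-sided bounds.**  The Laplace transform of the averages at one point converges. -/
theorem Dat.one_sided_lint [SFinite m] (D : Dat m u c) (hc : ∀ ω, (c ω).im = 0) {A κ C Y : ℝ}
    (hA : 0 < A) (hκA : κ < A) {F : ℂ → ℂ}
    (hF : ∀ x : ℝ, xw A (-κ) < x → AnalyticAt ℂ F x)
    (hFphi : ∀ x : ℝ, 0 < x → F x = phi m u c x)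
    (h : ∀ y : ℝ, Y ≤ y → -(C * Real.exp (-(κ * y))) ≤ hh m u c A y) :
    ∀ w : ℝ, -κ < w → LInt (hh m u c A) w := by
  set w1 : ℝ := 1 + 1 ^ 2 / (4 * A) with hw1
  have hw10 : 0 < w1 := by positivity
  set g1 : ℝ → ℝ := fun y => ‖MM m u c A y 0‖ with hg1
  have hg1m : Measurable g1 := D.norm_meas A
  have hhm : Measurable (hh m u c A) := D.hh_meas A
  have hg1L : ∀ w : ℝ, w1 < w → LInt g1 w := fun w hw => D.norm_lint hA hw
  have hhL : ∀ w : ℝ, w1 < w → LInt (hh m u c A) w := by
    intro w hw
    have h1 := hg1L w hw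
    unfold LInt at *
    refine Integrable.mono h1 (hhm.mul (by fun_prop)).aestronglyMeasurable
      (Eventually.of_forall fun y => ?_)
    rw [norm_mul, norm_mul]
    refine mul_le_mul_of_nonneg_right ?_ (norm_nonneg _)
    rw [Real.norm_eq_abs, Real.norm_of_nonneg (norm_nonneg _)]
    exact Complex.abs_re_le_norm _
  set g2 : ℝ → ℝ := (Iio Y).indicator g1 with hg2
  have hg2m : Measurable g2 := hg1m.indicator measurableSet_Iio
  have hg2L : ∀ w : ℝ, LInt g2 w := fun w => lint_ind hg1m (hg1L (w1 + 1) (by linarith)) w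
  set g3 : ℝ → ℝ := fun y => |C| * Real.exp (-(κ * y)) with hg3
  have hg3m : Measurable g3 := by rw [hg3]; fun_prop
  have hg3L : ∀ w : ℝ, -κ < w → LInt g3 w := fun w hw => (lint_exp hw).const_mul |C|
  set f : ℝ → ℝ := fun y => (hh m u c A y + g3 y) + g2 y with hf
  have hfm : Measurable f := (hhm.add hg3m).add hg2m
  have hf0 : ∀ y, 0 < y → 0 ≤ f y := by
    intro y hy
    rw [hf]
    simp only
    by_cases hyY : y < Y
    · have h1 : g2 y = ‖MM m u c A y 0‖ := indicator_of_mem (show y ∈ Iio Y from hyY) _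
      have h2 : -‖MM m u c A y 0‖ ≤ hh m u c A y := by
        have := Complex.abs_re_le_norm (MM m u c A y 0)
        exact (abs_le.1 this).1
      have h3 : 0 ≤ g3 y := by rw [hg3]; positivity
      rw [h1]
      linarith
    · have h1 : g2 y = 0 := indicator_of_notMem (show y ∉ Iio Y from hyY) _
      have h2 := h y (not_lt.1 hyY)
      have h3 : C * Real.exp (-(κ * y)) ≤ g3 y :=
        mul_le_mul_of_nonneg_right (le_abs_self C) (Real.exp_pos _).le
      rw [h1]
      linarith
  -- the analytic function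
  set G : ℂ → ℂ := fun w => 2 * A / (2 * A + Xw A w) * F (Xw A w) + ((|C| : ℝ) : ℂ) / (κ + w) +
    lapC g2 w with hG
  have hGa : ∀ w : ℝ, -κ < w → AnalyticAt ℂ G w := by
    intro w hw
    have hwA : -A < w := by linarith
    have hX := Xw_analytic hA hwA
    have hXr := Xw_real hA hwA
    have hxgt := xw_gt A w
    have hne : (2 * A + Xw A w : ℂ) ≠ 0 := by
      rw [hXr]
      have : (2 * A + xw A w) ≠ 0 := by linarith
      exact_mod_cast this
    have hFX : AnalyticAt ℂ F (Xw A w) := by
      rw [hXr]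
      refine hF _ ?_
      exact xw_mono hA (by linarith) hw
    have a1 : AnalyticAt ℂ (fun w : ℂ => 2 * A / (2 * A + Xw A w) * F (Xw A w)) w :=
      (analyticAt_const.div (analyticAt_const.add hX) hne).mul (hFX.comp hX)
    have hne2 : (κ + (w : ℂ)) ≠ 0 := by
      have : κ + w ≠ 0 := by linarith
      exact_mod_cast this
    have a2 : AnalyticAt ℂ (fun w : ℂ => ((|C| : ℝ) : ℂ) / (κ + w)) w :=
      analyticAt_const.div (analyticAt_const.add analyticAt_id) hne2
    have a3 : AnalyticAt ℂ (lapC g2) w := by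
      have : Differentiable ℂ (lapC g2) := fun z =>
        lapC_differentiableAt hg2m (w0 := z.re - 1) (fun w _ => hg2L w) (by linarith)
      exact this.analyticAt _
    exact (a1.add a2).add a3
  have hlap : ∀ w : ℝ, w1 < w → -κ < w → lap f w = (G w).re := by
    intro w hw hwκ
    have hwA : -A < w := by linarith
    rw [hf]
    have e1 : lap (fun y => (hh m u c A y + g3 y) + g2 y) w =
        lap (hh m u c A) w + lap g3 w + lap g2 w := by
      rw [lap_add (f := fun y => hh m u c A y + g3 y) ((hhL w hw).add (hg3L w hwκ)) (hg2L w),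
        lap_add (hhL w hw) (hg3L w hwκ)]
    rw [e1]
    set x : ℝ := xw A w with hx
    have hx2 : x + x ^ 2 / (4 * A) = w := xw_eq hA hwA
    have hx0 : 0 < x := by
      by_contra hcon
      have h5 := xw_gt A w
      rw [not_lt] at hcon
      have h6 : x + x ^ 2 / (4 * A) ≤ 0 := by
        have h7 : x + x ^ 2 / (4 * A) = x * (4 * A + x) / (4 * A) := by
          field_simp
        rw [h7]
        refine div_nonpos_of_nonpos_of_nonneg ?_ (by positivity)
        exact mul_nonpos_of_nonpos_of_nonneg hcon (by linarith)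
      linarith
    have h8 := D.H1_pos hA hx0
    unfold H1 at h8
    have h9 : ∫ y in Ioi (0 : ℝ), MM m u c A y 0 *
        Complex.exp (-(y * ((x : ℂ) + (x : ℂ) ^ 2 / (4 * A)))) = (lap (hh m u c A) w : ℂ) := by
      rw [← lapC_ofReal]
      unfold lapC
      refine setIntegral_congr_fun measurableSet_Ioi fun y _ => ?_
      rw [MM_real hc]
      congr 2
      have : ((x : ℂ) + (x : ℂ) ^ 2 / (4 * A)) = w := by exact_mod_cast hx2
      rw [this]
      ring
    rw [h9] at h8
    have h10 : (lap (hh m u c A) w : ℂ) = 2 * A / (2 * A + Xw A w) * F (Xw A w) := by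
      rw [Xw_real hA hwA, ← hx, hFphi x hx0, ← h8]
      have hAc : (A : ℂ) ≠ 0 := by exact_mod_cast hA.ne'
      have hne : (2 * A + (x : ℂ)) ≠ 0 := by
        have : (2 * A + x) ≠ 0 := by positivity
        exact_mod_cast this
      field_simp
    have h11 : lap g3 w = |C| / (κ + w) := by
      rw [hg3, Pool.Agent.W263.BSD.lap_const_mul, lap_exp hwκ]
      ring
    have h12 : G w = ((lap (hh m u c A) w + lap g3 w + lap g2 w : ℝ) : ℂ) := by
      rw [hG]
      simp only
      rw [← h10, h11, lapC_ofReal]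
      push_cast
      ring
    rw [h12, Complex.ofReal_re]
  have hmain := Pool.Agent.TH988.RB.landau_lap hfm hf0 (a := -κ) (w1 := max w1 (-κ))
    (fun w hw => by
      have h1 : w1 < w := lt_of_le_of_lt (le_max_left _ _) hw
      have h2 : -κ < w := lt_of_le_of_lt (le_max_right _ _) hw
      exact ((hhL w h1).add (hg3L w h2)).add (hg2L w))
    (g := fun w => (G w).re) (fun w hw => (hGa w hw).re_ofReal)
    (fun w hw hw2 => hlap w (lt_of_le_of_lt (le_max_left _ _) hw) hw2)
  intro w hw
  have h1 := hmain.1 w hw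
  have h2 := (h1.sub (hg2L w)).sub (hg3L w hw)
  have e : (fun y => f y - g2 y - g3 y) = hh m u c A := by
    funext y
    rw [hf]
    ring
  rwa [e] at h2

end Pool.Agent.N881.GW
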