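import Pool.Agent.N881.GW.O5

/-!
# One-sided bounds for the averages at one point: the criterion
-/

set_option autoImplicit false

namespace Pool.Agent.N881.GW

open MeasureTheory Set Filter Topology
open Pool.Agent.W263.BSD (LInt lap lapC lapC_ofReal lapC_differentiableAt lap_add)

variable {Ω : Type} [MeasurableSpace Ω] {m : Measure Ω} {u : Ω → ℝ} {c : Ω → ℂ}

/-- convergence gives the continuation to the right of the hyperbola -/
theorem Dat.lint_diff [SFinite m] (D : Dat m u c) (hc : ∀ ω, (c ω).im = 0) {A κ : ℝ}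
    (hA : 0 < A) (h : ∀ w : ℝ, -κ < w → LInt (hh m u c A) w) :
    DifferentiableOn ℂ (H1 m u c A) (reg A κ) := by
  have e : H1 m u c A = fun z => (1 + z / (2 * A)) * lapC (hh m u c A) (z + z ^ 2 / (4 * A)) := by
    funext z
    unfold H1 lapC
    congr 1
    refine setIntegral_congr_fun measurableSet_Ioi fun y _ => ?_
    rw [MM_real hc]
    congr 2
    ring
  rw [e]
  intro z hz
  have h1 : DifferentiableAt ℂ (lapC (hh m u c A)) (z + z ^ 2 / (4 * A)) :=
    lapC_differentiableAt (D.hh_meas A) (w0 := -κ) h (by rw [xr_eq hA.ne']; exact hz.2)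
  have h2 : DifferentiableAt ℂ (fun z : ℂ => z + z ^ 2 / (4 * A)) z := by fun_prop
  have h3 : DifferentiableAt ℂ (fun z : ℂ => 1 + z / (2 * A)) z := by fun_prop
  exact (h3.mul (h1.comp z h2)).differentiableWithinAt

/-- **The one-sided criterion at one point.** -/
theorem Dat.one_sided_iff [SFinite m] (D : Dat m u c) (hc : ∀ ω, (c ω).im = 0) {S : Set ℝ}
    (hS : ∀ b ∈ S, 0 < b) {y0 : ℝ} (hy0 : 0 < y0) {F : ℂ → ℂ}
    (hF : ∀ x : ℝ, (∃ b ∈ S, -b < x) → AnalyticAt ℂ F x)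
    (hFphi : ∀ x : ℝ, 0 < x → F x = phi m u c x) :
    List.TFAE [
      ∃ H : ℂ → ℂ, (∀ z : ℂ, (∃ b ∈ S, -b < z.re) → DifferentiableAt ℂ H z) ∧
        ∀ z : ℂ, 0 < z.re → H z = phi m u c z,
      ∀ κ : ℝ, 0 < κ → (∃ b ∈ S, κ < b) → ∃ A0 : ℝ, ∀ A : ℝ, A0 ≤ A → ∃ C : ℝ, ∀ y : ℝ,
        y0 ≤ y → ‖MM m u c A y 0‖ ≤ C * Real.exp (-(κ * y)),
      ∀ κ : ℝ, 0 < κ → (∃ b ∈ S, κ < b) → ∀ A0 : ℝ, ∃ A : ℝ, A0 ≤ A ∧ ∃ C Y : ℝ,
        ∀ y : ℝ, Y ≤ y → -(C * Real.exp (-(κ * y))) ≤ hh m u c A y] := by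
  have key := D.one_iff hS hy0
  tfae_have 1 → 2 := fun h => (key.out 0 2).1 h
  tfae_have 2 → 3 := by
    intro h κ hκ hb A0
    obtain ⟨A1, hA1⟩ := h κ hκ hb
    obtain ⟨C, hC⟩ := hA1 (max A0 A1) (le_max_right _ _)
    refine ⟨max A0 A1, le_max_left _ _, C, y0, fun y hy => ?_⟩
    have h1 := hC y hy
    have h2 := Complex.abs_re_le_norm (MM m u c (max A0 A1) y 0)
    have h3 := (abs_le.1 (h2.trans h1)).1
    exact h3
  tfae_have 3 → 1 := by
    intro h
    obtain ⟨H, h1, h2⟩ := D.one_glue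
    refine ⟨H, ?_, h2⟩
    rintro z ⟨b, hb, hz⟩
    have hb0 := hS b hb
    set κ : ℝ := max ((b - z.re) / 2) (b / 2) with hκ
    have h3 : 0 < κ := lt_of_lt_of_le (by positivity) (le_max_right _ _)
    have h4 : κ < b := max_lt (by linarith) (by linarith)
    have h5 : -κ < z.re := by
      have := le_max_left ((b - z.re) / 2) (b / 2)
      linarith
    obtain ⟨A0, hA0⟩ := eventually_atTop.1 ((xr_tendsto z).eventually (lt_mem_nhds h5))
    set A2 : ℝ := b ^ 2 / (4 * (b - κ)) + b with hA2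
    have hbk : 0 < b - κ := by linarith
    obtain ⟨A, hA, C, Y, hCY⟩ := h κ h3 ⟨b, hb, h4⟩ (max A0 A2)
    have h6 : A0 ≤ A := (le_max_left _ _).trans hA
    have h7 : A2 ≤ A := (le_max_right _ _).trans hA
    have h8 : 0 ≤ b ^ 2 / (4 * (b - κ)) := by positivity
    have h9 : b ≤ A := by rw [hA2] at h7; linarith
    have hApos : 0 < A := by linarith
    have hκA : κ < A := by linarith
    have h10 : b ^ 2 / (4 * (b - κ)) < A := by rw [hA2] at h7; linarith
    have h11 : -b + (-b) ^ 2 / (4 * A) < -κ := by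
      rw [div_lt_iff₀ (by positivity)] at h10
      have : (-b) ^ 2 / (4 * A) < b - κ := by
        rw [div_lt_iff₀ (by positivity)]
        nlinarith
      linarith
    have h12 : -b < xw A (-κ) := by
      have h13 := xw_inv (A := A) (x := -b) hApos (by linarith)
      rw [← h13]
      refine xw_mono hApos ?_ h11
      have h14 : -b + (-b) ^ 2 / (4 * A) + A = (2 * A - b) ^ 2 / (4 * A) := by
        field_simp
        ring
      have h15 : 0 < (2 * A - b) ^ 2 / (4 * A) := by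
        have : 0 < 2 * A - b := by linarith
        positivity
      linarith
    have hL := D.one_sided_lint hc hApos hκA (F := F) (C := C) (Y := Y)
      (fun x hx => hF x ⟨b, hb, h12.trans hx⟩) hFphi hCY
    exact h1 z ⟨A, κ, hApos, h3.le, hκA.le, D.lint_diff hc hApos hL, by linarith, hA0 A h6⟩
  tfae_finish

end Pool.Agent.N881.GW
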