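import Pool.Agent.N881.GW.O6
import Pool.Agent.N881.GW.I


/-!
# Dirichlet series with real coefficients: the averages at one point
-/

set_option autoImplicit false

namespace Pool.Agent.N881.GW

open MeasureTheory Set Filter Topology

section real

lemma term_conj (a : ℕ → ℂ) (x : ℝ) (n : ℕ) :
    LSeries.term (fun n => (starRingEnd ℂ) (a n)) (x : ℂ) n =
      (starRingEnd ℂ) (LSeries.term a (x : ℂ) n) := by
  rcases eq_or_ne n 0 with rfl | hn
  · simp
  · rw [LSeries.term_of_ne_zero hn, LSeries.term_of_ne_zero hn, map_div₀]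
    congr 1
    have : ((n : ℂ) ^ (x : ℂ)) = (((n : ℝ) ^ x : ℝ) : ℂ) := by
      rw [Complex.ofReal_cpow (Nat.cast_nonneg n)]
      simp
    rw [this, Complex.conj_ofReal]

/-- a Dirichlet series with real values has real coefficients -/
lemma isDS_real {σ0 : ℝ} {L : ℂ → ℂ} (h : IsDS σ0 L) (hr : ∀ x : ℝ, σ0 < x → (L x).im = 0) :
    ∃ a : ℕ → ℝ, a 0 = 0 ∧ ∀ s : ℂ, σ0 < s.re → LSeriesHasSum (fun n => (a n : ℂ)) s (L s) := by
  obtain ⟨a, ha⟩ := h
  set b : ℕ → ℂ := fun n => (starRingEnd ℂ) (a n) with hb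
  have hb1 : ∀ x : ℝ, σ0 < x → LSeriesHasSum b x (L x) := by
    intro x hx
    have h1 := ha x (by simpa using hx)
    unfold LSeriesHasSum at h1 ⊢
    have h2 := h1.map (starRingEnd ℂ) Complex.continuous_conj
    have h3 : (starRingEnd ℂ) (L x) = L x := Complex.conj_eq_iff_im.2 (hr x hx)
    rw [h3] at h2
    refine h2.congr_fun ?_
    intro n
    exact term_conj a x n
  have habs : ∀ f : ℕ → ℂ, (∀ x : ℝ, σ0 < x → LSeriesHasSum f x (L x)) →
      LSeries.abscissaOfAbsConv f < ⊤ := by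
    intro f hf
    have h1 := (hf (σ0 + 1) (by linarith)).LSeriesSummable.abscissaOfAbsConv_le
    exact lt_of_le_of_lt h1 (EReal.coe_lt_top _)
  have hab : ∀ n : ℕ, n ≠ 0 → a n = b n := by
    intro n hn
    refine LSeries.eq_of_LSeries_eventually_eq (habs a fun x hx => ha x (by simpa using hx))
      (habs b hb1) ?_ hn
    filter_upwards [eventually_gt_atTop σ0] with x hx
    rw [(ha x (by simpa using hx)).LSeries_eq, (hb1 x hx).LSeries_eq]
  refine ⟨fun n => if n = 0 then 0 else (a n).re, by simp, fun s hs => ?_⟩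
  have h1 := ha s hs
  refine (LSeriesHasSum_congr s (L s) ?_).1 h1
  intro n hn
  have h2 : (starRingEnd ℂ) (a n) = a n := (hab n hn).symm
  have h3 := Complex.conj_eq_iff_re.1 h2
  simp only [if_neg hn]
  exact h3.symm

end real

section

variable {a : ℕ → ℝ} {e : ℝ} {L : ℂ → ℂ}

/-- the average at the point `e` -/
noncomputable def rwin (a : ℕ → ℝ) (e A x : ℝ) : ℝ :=
  √(A / (Real.pi * Real.log x)) * ∑' n : ℕ, a n * (n : ℝ) ^ (-e) *
    Real.exp (-(A * (Real.log n - Real.log x) ^ 2 / Real.log x))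

lemma term_e (he : e ≠ 0) (n : ℕ) :
    LSeries.term (fun n => (a n : ℂ)) (e : ℂ) n = ((a n * (n : ℝ) ^ (-e) : ℝ) : ℂ) := by
  rcases eq_or_ne n 0 with rfl | hn
  · rw [LSeries.term_zero, Nat.cast_zero, Real.zero_rpow (by simpa using he), mul_zero]
    simp
  · rw [LSeries.term_of_ne_zero hn, Complex.ofReal_mul, Complex.ofReal_cpow (Nat.cast_nonneg n),
      div_eq_mul_inv, Complex.ofReal_neg, Complex.cpow_neg]
    simp

lemma win_rwin (he : e ≠ 0) (A x : ℝ) : win (fun n => (a n : ℂ)) e A x 0 = rwin a e A x := by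
  unfold win rwin
  rw [Complex.ofReal_mul, Complex.ofReal_tsum]
  congr 1
  refine tsum_congr fun n => ?_
  rw [Complex.ofReal_zero, zero_mul, add_zero, term_e he]
  simp only [Complex.ofReal_mul]

lemma MM_rwin (he : e ≠ 0) (ha : ∀ s : ℂ, e < s.re → LSeriesHasSum (fun n => (a n : ℂ)) s (L s))
    {A : ℝ} (hA : 0 < A) {x : ℝ} (hx : 1 < x) :
    MM Measure.count du (dc (fun n => (a n : ℂ)) e) A (Real.log x) 0 = rwin a e A x := by
  have h := MM_dir ha hA hx 0
  rw [Complex.ofReal_zero, zero_mul] at h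
  rw [h, win_rwin he]

lemma dc_real (he : e ≠ 0) (n : ℕ) : (dc (fun n => (a n : ℂ)) e n).im = 0 := by
  unfold dc
  rw [term_e he, Complex.ofReal_im]

lemma rpow_neg_exp {x : ℝ} (hx : 0 < x) (k : ℝ) : x ^ (-k) = Real.exp (-(k * Real.log x)) := by
  rw [Real.rpow_def_of_pos hx]
  congr 1
  ring

lemma two_le_exp {y : ℝ} (hy : Real.log 2 ≤ y) : 2 ≤ Real.exp y := by
  rw [← Real.exp_log two_pos]
  exact Real.exp_le_exp.2 hy

lemma norm_MM_iff (he : e ≠ 0)
    (ha : ∀ s : ℂ, e < s.re → LSeriesHasSum (fun n => (a n : ℂ)) s (L s)) {A : ℝ} (hA : 0 < A)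
    (C k : ℝ) :
    (∀ y : ℝ, Real.log 2 ≤ y →
      ‖MM Measure.count du (dc (fun n => (a n : ℂ)) e) A y 0‖ ≤ C * Real.exp (-(k * y))) ↔
    ∀ x : ℝ, 2 ≤ x → |rwin a e A x| ≤ C * x ^ (-k) := by
  constructor
  · intro h x hx
    have h1 := h (Real.log x) (Real.log_le_log two_pos hx)
    rw [MM_rwin he ha hA (by linarith), Complex.norm_real] at h1
    rw [rpow_neg_exp (by linarith)]
    exact h1
  · intro h y hy
    have h2 := two_le_exp hy
    have h1 := h (Real.exp y) h2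
    rw [rpow_neg_exp (Real.exp_pos y), Real.log_exp] at h1
    have h3 := MM_rwin he ha hA (x := Real.exp y) (by linarith)
    rw [Real.log_exp] at h3
    rw [h3, Complex.norm_real]
    exact h1

/-- the half-planes -/
lemma cont_shift (S : Set ℝ) :
    (∃ H : ℂ → ℂ, (∀ z : ℂ, (∃ b ∈ S, -b < z.re) → DifferentiableAt ℂ H z) ∧
      ∀ z : ℂ, 0 < z.re → H z = L (e + z)) ↔
    ∃ F : ℂ → ℂ, (∀ s : ℂ, (∃ b ∈ S, e - b < s.re) → DifferentiableAt ℂ F s) ∧
      ∀ s : ℂ, e < s.re → F s = L s := by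
  constructor
  · rintro ⟨H, h1, h2⟩
    refine ⟨fun s => H (s - e), fun s hs => ?_, fun s hs => ?_⟩
    · obtain ⟨b, hb, hlt⟩ := hs
      have h3 := h1 (s - e) ⟨b, hb, by simp; linarith⟩
      exact h3.comp s ((differentiable_id.sub_const (e : ℂ)) s)
    · have h4 := h2 (s - e) (by simpa using hs)
      rw [add_sub_cancel] at h4
      exact h4
  · rintro ⟨F, h1, h2⟩
    refine ⟨fun z => F (e + z), fun z hz => ?_, fun z hz => ?_⟩
    · obtain ⟨b, hb, hlt⟩ := hz
      have h3 := h1 (e + z) ⟨b, hb, by simp; linarith⟩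
      exact h3.comp z ((differentiable_id.const_add (e : ℂ)) z)
    · exact h2 (e + z) (by simpa using hz)

/-- **The criterion at one point**, for Dirichlet series. -/
theorem ds_one (he : e ≠ 0)
    (ha : ∀ s : ℂ, e < s.re → LSeriesHasSum (fun n => (a n : ℂ)) s (L s)) {S : Set ℝ}
    (hS : ∀ b ∈ S, 0 < b) :
    List.TFAE [
      ∃ F : ℂ → ℂ, (∀ s : ℂ, (∃ b ∈ S, e - b < s.re) → DifferentiableAt ℂ F s) ∧
        ∀ s : ℂ, e < s.re → F s = L s,
      ∀ κ : ℝ, 0 < κ → (∃ b ∈ S, κ < b) → ∀ A : ℝ, κ ≤ 2 * A → ∃ C : ℝ, ∀ x : ℝ, 2 ≤ x →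
        |rwin a e A x| ≤ C * x ^ (-(κ - κ ^ 2 / (4 * A))),
      ∀ κ : ℝ, 0 < κ → (∃ b ∈ S, κ < b) → ∃ A0 : ℝ, ∀ A : ℝ, A0 ≤ A → ∃ C : ℝ, ∀ x : ℝ,
        2 ≤ x → |rwin a e A x| ≤ C * x ^ (-κ),
      ∀ κ : ℝ, 0 < κ → (∃ b ∈ S, κ < b) → ∀ A0 : ℝ, ∃ A : ℝ, A0 ≤ A ∧ ∃ C X : ℝ, ∀ x : ℝ,
        X ≤ x → |rwin a e A x| ≤ C * x ^ (-κ)] := by
  have D := dat_dir ha
  have key := D.one_iff hS (Real.log_pos one_lt_two)
  have e1 : (∃ H : ℂ → ℂ, (∀ z : ℂ, (∃ b ∈ S, -b < z.re) → DifferentiableAt ℂ H z) ∧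
      ∀ z : ℂ, 0 < z.re → H z = phi Measure.count du (dc (fun n => (a n : ℂ)) e) z) ↔
      ∃ F : ℂ → ℂ, (∀ s : ℂ, (∃ b ∈ S, e - b < s.re) → DifferentiableAt ℂ F s) ∧
        ∀ s : ℂ, e < s.re → F s = L s := by
    rw [← cont_shift S]
    refine exists_congr fun H => and_congr_right fun _ => ?_
    exact forall_congr' fun z => forall_congr' fun hz => by rw [phi_dir ha hz]
  rw [e1] at key
  have h12 := key.out 0 1
  have h13 := key.out 0 2
  have h14 := key.out 0 3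
  tfae_have 1 ↔ 2 := by
    rw [h12]
    refine forall_congr' fun κ => forall_congr' fun hκ => forall_congr' fun _ =>
      forall_congr' fun A => forall_congr' fun hA => exists_congr fun C => ?_
    exact norm_MM_iff he ha (by linarith) C _
  tfae_have 1 → 3 := by
    intro h κ hκ hb
    obtain ⟨A0, hA0⟩ := h13.1 h κ hκ hb
    refine ⟨max A0 1, fun A hA => ?_⟩
    obtain ⟨C, hC⟩ := hA0 A ((le_max_left _ _).trans hA)
    exact ⟨C, (norm_MM_iff he ha (lt_of_lt_of_le one_pos ((le_max_right _ _).trans hA)) C κ).1 hC⟩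
  tfae_have 3 → 4 := by
    intro h κ hκ hb A0
    obtain ⟨A1, hA1⟩ := h κ hκ hb
    obtain ⟨C, hC⟩ := hA1 (max A0 A1) (le_max_right _ _)
    exact ⟨max A0 A1, le_max_left _ _, C, 2, hC⟩
  tfae_have 4 → 1 := by
    intro h
    rw [h14]
    intro κ hκ hb A0
    obtain ⟨A, hA, C, X, hCX⟩ := h κ hκ hb (max A0 1)
    have hA1 : 0 < A := lt_of_lt_of_le one_pos ((le_max_right _ _).trans hA)
    refine ⟨A, (le_max_left _ _).trans hA, C, max (Real.log 2) (Real.log (max X 1)),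
      fun y hy => ?_⟩
    have h2 := two_le_exp ((le_max_left _ _).trans hy)
    have h3 : X ≤ Real.exp y := by
      have h4 : Real.log (max X 1) ≤ y := (le_max_right _ _).trans hy
      have h5 : max X 1 ≤ Real.exp y :=
        (Real.log_le_iff_le_exp (lt_of_lt_of_le one_pos (le_max_right _ _))).1 h4
      exact (le_max_left _ _).trans h5
    have h1 := hCX (Real.exp y) h3
    rw [rpow_neg_exp (Real.exp_pos y), Real.log_exp] at h1
    have h6 := MM_rwin he ha hA1 (x := Real.exp y) (by linarith)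
    rw [Real.log_exp] at h6
    rw [h6, Complex.norm_real]
    exact h1
  tfae_finish

/-- **One-sided bounds at one point**, for Dirichlet series. -/
theorem ds_one_sided (he : e ≠ 0)
    (ha : ∀ s : ℂ, e < s.re → LSeriesHasSum (fun n => (a n : ℂ)) s (L s)) {S : Set ℝ}
    (hS : ∀ b ∈ S, 0 < b) {F0 : ℂ → ℂ}
    (hF : ∀ x : ℝ, (∃ b ∈ S, e - b < x) → AnalyticAt ℂ F0 x)
    (hFL : ∀ x : ℝ, e < x → F0 x = L x) :
    (∃ F : ℂ → ℂ, (∀ s : ℂ, (∃ b ∈ S, e - b < s.re) → DifferentiableAt ℂ F s) ∧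
        ∀ s : ℂ, e < s.re → F s = L s) ↔
      ∀ κ : ℝ, 0 < κ → (∃ b ∈ S, κ < b) → ∀ A0 : ℝ, ∃ A : ℝ, A0 ≤ A ∧ ∃ C X : ℝ, ∀ x : ℝ,
        X ≤ x → -(C * x ^ (-κ)) ≤ rwin a e A x := by
  constructor
  · intro h κ hκ hb A0
    have h14 := (ds_one he ha hS).out 0 3
    obtain ⟨A, hA, C, X, hCX⟩ := h14.1 h κ hκ hb A0
    exact ⟨A, hA, C, X, fun x hx => (abs_le.1 (hCX x hx)).1⟩
  · intro h
    have D := dat_dir ha
    have hsh : ∀ z : ℂ, AnalyticAt ℂ (fun z : ℂ => (e : ℂ) + z) z := fun z =>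
      analyticAt_const.add analyticAt_id
    have key0 := D.one_sided_iff (dc_real he) hS (Real.log_pos one_lt_two)
      (F := fun z => F0 (e + z)) (fun x hx => by
        obtain ⟨b, hb, hlt⟩ := hx
        have h3 : AnalyticAt ℂ F0 ((e : ℂ) + (x : ℂ)) := by
          rw [← Complex.ofReal_add]
          exact hF (e + x) ⟨b, hb, by linarith⟩
        exact AnalyticAt.fun_comp (g := F0) (f := fun z : ℂ => (e : ℂ) + z) h3 (hsh x))
      (fun x hx => by
        show F0 (e + x) = _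
        have h3 := hFL (e + x) (by linarith)
        rw [Complex.ofReal_add] at h3
        rw [h3, phi_dir ha (by simpa using hx)])
    have key := key0.out 0 2
    rw [← cont_shift S]
    have hlow : ∀ κ : ℝ, 0 < κ → (∃ b ∈ S, κ < b) → ∀ A0 : ℝ, ∃ A : ℝ, A0 ≤ A ∧ ∃ C Y : ℝ,
        ∀ y : ℝ, Y ≤ y → -(C * Real.exp (-(κ * y))) ≤
          hh Measure.count du (dc (fun n => (a n : ℂ)) e) A y := by
      intro κ hκ hb A0
      obtain ⟨A, hA, C, X, hCX⟩ := h κ hκ hb (max A0 1)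
      have hA1 : 0 < A := lt_of_lt_of_le one_pos ((le_max_right _ _).trans hA)
      refine ⟨A, (le_max_left _ _).trans hA, C, max (Real.log 2) (Real.log (max X 1)),
        fun y hy => ?_⟩
      have h2 := two_le_exp ((le_max_left _ _).trans hy)
      have h3 : X ≤ Real.exp y := by
        have h4 : Real.log (max X 1) ≤ y := (le_max_right _ _).trans hy
        have h5 : max X 1 ≤ Real.exp y :=
          (Real.log_le_iff_le_exp (lt_of_lt_of_le one_pos (le_max_right _ _))).1 h4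
        exact (le_max_left _ _).trans h5
      have h1 := hCX (Real.exp y) h3
      rw [rpow_neg_exp (Real.exp_pos y), Real.log_exp] at h1
      have h6 := MM_rwin he ha hA1 (x := Real.exp y) (by linarith)
      rw [Real.log_exp] at h6
      unfold hh
      rw [h6, Complex.ofReal_re]
      exact h1
    obtain ⟨H, h1, h2⟩ := key.2 hlow
    exact ⟨H, h1, fun z hz => by rw [h2 z hz, phi_dir ha hz]⟩

end

end Pool.Agent.N881.GW
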