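import Pool.Agent.N881.GW.P1
import Pool.Agent.N881.GW.G
import Pool.Agent.TH339.MP.P10

/-!
# The Dirichlet series of an elliptic curve over a number field
-/

set_option autoImplicit false

namespace Pool.Agent.N881.GX

open MeasureTheory Set Filter Topology NumberField IsDedekindDomain
open Pool.Agent.TH339.MP (nm pr lv FF bb elf av S6 affc lfac PP norm_bb)
open Pool.Agent.N881.GW (IsDS isDS_FF isDS_real)

section

variable {K : Type} [Field K] [NumberField K]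

lemma lfac_ne {q : ℕ} (hq : 2 ≤ q) {a : ℝ} (ha : |a| ≤ q) {e : ℂ} (he : ‖e‖ ≤ q) {s : ℂ}
    (hs : 3 / 2 < s.re) : lfac q a e s ≠ 0 := by
  have hq0 : (0 : ℝ) < q := by exact_mod_cast (by omega : 0 < q)
  have hq1 : (1 : ℝ) ≤ q := by exact_mod_cast (by omega : 1 ≤ q)
  have hq2 : (2 : ℝ) ≤ q := by exact_mod_cast hq
  have hx : ‖(q : ℂ) ^ (-s)‖ ≤ (q : ℝ) ^ (-(3 / 2) : ℝ) := by
    rw [Complex.norm_natCast_cpow_of_pos (by omega), Complex.neg_re]
    exact Real.rpow_le_rpow_of_exponent_le hq1 (by linarith)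
  have h1 : (q : ℝ) * (q : ℝ) ^ (-(3 / 2) : ℝ) ≤ 708 / 1000 := by
    have e1 : (q : ℝ) * (q : ℝ) ^ (-(3 / 2) : ℝ) = (Real.sqrt q)⁻¹ := by
      rw [Real.sqrt_eq_rpow, ← Real.rpow_neg hq0.le]
      nth_rewrite 1 [← Real.rpow_one (q : ℝ)]
      rw [← Real.rpow_add hq0]
      norm_num
    rw [e1, inv_le_comm₀ (Real.sqrt_pos.2 hq0) (by norm_num)]
    refine Real.le_sqrt_of_sq_le ?_
    norm_num
    linarith
  have h2 : (q : ℝ) * ((q : ℝ) ^ (-(3 / 2) : ℝ)) ^ 2 ≤ 1 / 4 := by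
    have e1 : (q : ℝ) * ((q : ℝ) ^ (-(3 / 2) : ℝ)) ^ 2 = ((q : ℝ) ^ 2)⁻¹ := by
      rw [← Real.rpow_natCast, ← Real.rpow_mul hq0.le]
      nth_rewrite 1 [← Real.rpow_one (q : ℝ)]
      rw [← Real.rpow_add hq0, ← Real.rpow_natCast (q : ℝ) 2, ← Real.rpow_neg hq0.le]
      norm_num
    rw [e1, inv_le_comm₀ (by positivity) (by norm_num)]
    nlinarith
  have h3 : ‖(a : ℂ) * (q : ℂ) ^ (-s)‖ ≤ 708 / 1000 := by
    rw [norm_mul, Complex.norm_real]
    exact (mul_le_mul ha hx (norm_nonneg _) hq0.le).trans h1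
  have h4 : ‖e * (q : ℂ) ^ (-2 * s)‖ ≤ 1 / 4 := by
    rw [Pool.Agent.TH339.MP.cpow_two q (by omega), norm_mul, norm_pow]
    exact (mul_le_mul he (pow_le_pow_left₀ (norm_nonneg _) hx 2) (by positivity) hq0.le).trans h2
  unfold lfac
  apply inv_ne_zero
  intro h
  have h5 : (1 : ℂ) = (a : ℂ) * (q : ℂ) ^ (-s) - e * (q : ℂ) ^ (-2 * s) := by
    linear_combination h
  have h6 : ‖(1 : ℂ)‖ ≤ 708 / 1000 + 1 / 4 := by
    rw [h5]
    exact (norm_sub_le _ _).trans (add_le_add h3 h4)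
  rw [norm_one] at h6
  norm_num at h6

lemma elf_ne (W : HeightOneSpectrum (𝓞 K) → WeierstrassCurve (𝓞 K))
    (v : HeightOneSpectrum (𝓞 K)) {s : ℂ} (hs : 3 / 2 < s.re) : elf W v s ≠ 0 := by
  unfold elf
  refine lfac_ne (Pool.Agent.TH339.MP.two_le_nm v) (Pool.Agent.TH339.MP.av_triv W v) ?_ hs
  split_ifs
  · simp
  · simp

/-- the local factor as a Dirichlet series -/
lemma isDS_elf (W : HeightOneSpectrum (𝓞 K) → WeierstrassCurve (𝓞 K))
    (v : HeightOneSpectrum (𝓞 K)) : IsDS (3 / 2) (elf W v) := by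
  classical
  set B : Polynomial ℂ := 1 - Polynomial.C ((av W v : ℝ) : ℂ) * Polynomial.X +
    Polynomial.C (if (W v).Δ ∈ v.asIdeal then 0 else (nm v : ℂ)) * Polynomial.X ^ 2 with hB
  have h1 : ∀ s : ℂ, elf W v s = (B.eval ((nm v : ℂ) ^ (-s)))⁻¹ := by
    intro s
    unfold elf lfac
    rw [Pool.Agent.TH339.MP.cpow_two _ (by
      have := Pool.Agent.TH339.MP.two_le_nm v
      omega), hB]
    simp
  have h2 : B.eval 0 = 1 := by simp [hB]
  refine (IsDS.poly (Pool.Agent.TH339.MP.two_le_nm v) h2 fun s hs h0 => ?_).congr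
    fun s _ => h1 s
  apply elf_ne W v hs
  rw [h1 s, h0, inv_zero]

/-- **The L-series is a Dirichlet series.** -/
theorem isDS_ec (W : HeightOneSpectrum (𝓞 K) → WeierstrassCurve (𝓞 K)) :
    IsDS (3 / 2) fun s => ∏' v, elf W v s := by
  classical
  obtain ⟨β, h1, h2⟩ := Pool.Agent.TH339.MP.exists_beta W
  set β' : HeightOneSpectrum (𝓞 K) → Fin 2 → ℂ := fun v j => if v ∈ S6 then 0 else β v j with hβ'
  have hb' : ∀ v j, ‖β' v j‖ ≤ 1 := by
    intro v j
    simp only [hβ']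
    split_ifs
    · simp
    · exact h1 v j
  have hE := (isDS_FF (norm_bb hb') 1).exp
  have hed : Pool.Agent.N881.RP.ed 1 = 3 / 2 := by
    unfold Pool.Agent.N881.RP.ed
    norm_num
  rw [hed] at hE
  have h3 : IsDS (3 / 2) fun s => ∏ v ∈ (S6 : Finset (HeightOneSpectrum (𝓞 K))), elf W v s :=
    IsDS.prod _ fun v _ => isDS_elf W v
  refine (hE.mul h3).congr fun s hs => ?_
  have hs1 : 1 < (s - 1 / 2).re := by
    have : (s - 1 / 2).re = s.re - 1 / 2 := by simp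
    rw [this]
    linarith
  have h3 := Pool.Agent.TH339.MP.hasProd_L hb' hs1
  have h4 : HasProd (fun v => if v ∈ (S6 : Finset (HeightOneSpectrum (𝓞 K))) then elf W v s else 1)
      (∏ v ∈ (S6 : Finset (HeightOneSpectrum (𝓞 K))), elf W v s) := by
    have h5 := hasProd_prod_of_ne_finset_one (L := SummationFilter.unconditional _)
      (s := (S6 : Finset (HeightOneSpectrum (𝓞 K))))
      (f := fun v => if v ∈ (S6 : Finset (HeightOneSpectrum (𝓞 K))) then elf W v s else 1)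
      (fun v hv => if_neg hv)
    have h6 : ∏ v ∈ (S6 : Finset (HeightOneSpectrum (𝓞 K))),
        (if v ∈ (S6 : Finset (HeightOneSpectrum (𝓞 K))) then elf W v s else 1) =
        ∏ v ∈ (S6 : Finset (HeightOneSpectrum (𝓞 K))), elf W v s :=
      Finset.prod_congr rfl fun v hv => if_pos hv
    rwa [h6] at h5
  have h5 := h3.mul h4
  have h6 : HasProd (fun v => elf W v s) (Complex.exp (FF (bb β') (s - 1 / 2)) *
      ∏ v ∈ (S6 : Finset (HeightOneSpectrum (𝓞 K))), elf W v s) := by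
    convert h5 using 1
    funext v
    by_cases hv : v ∈ (S6 : Finset (HeightOneSpectrum (𝓞 K)))
    · simp only [hβ', if_pos hv]
      simp
    · simp only [hβ', if_neg hv]
      rw [h2 v hv s, mul_one]
  rw [h6.tprod_eq]
  norm_num

lemma elf_conj (W : HeightOneSpectrum (𝓞 K) → WeierstrassCurve (𝓞 K))
    (v : HeightOneSpectrum (𝓞 K)) (x : ℝ) : (elf W v x).im = 0 := by
  classical
  have hn : (0 : ℝ) ≤ (nm v : ℝ) := Nat.cast_nonneg _
  have h1 : elf W v x = (((1 - av W v * (nm v : ℝ) ^ (-x) +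
      (if (W v).Δ ∈ v.asIdeal then 0 else (nm v : ℝ)) * (nm v : ℝ) ^ (-2 * x))⁻¹ : ℝ) : ℂ) := by
    unfold elf lfac
    push_cast
    congr 1
    rw [Complex.ofReal_cpow hn, Complex.ofReal_cpow hn]
    push_cast
    split_ifs <;> simp
  rw [h1, Complex.ofReal_im]

lemma tprod_im (W : HeightOneSpectrum (𝓞 K) → WeierstrassCurve (𝓞 K)) (x : ℝ) :
    (∏' v, elf W v (x : ℂ)).im = 0 := by
  have h1 : ∀ v, elf W v (x : ℂ) = (((elf W v (x : ℂ)).re : ℝ) : ℂ) := by
    intro v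
    apply Complex.ext
    · simp
    · simp [elf_conj W v x]
  have h2 : (starRingEnd ℂ) (∏' v, elf W v (x : ℂ)) = ∏' v, elf W v (x : ℂ) := by
    have h3 : (starRingEnd ℂ) (∏' v, elf W v (x : ℂ)) =
        ∏' v, (starRingEnd ℂ) (elf W v (x : ℂ)) := by
      exact Function.LeftInverse.map_tprod (L := SummationFilter.unconditional _)
        (fun v => elf W v (x : ℂ)) (g := (starRingEnd ℂ)) (g' := (starRingEnd ℂ))
        Complex.continuous_conj Complex.continuous_conj (fun z => Complex.conj_conj z)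
    rw [h3]
    refine tprod_congr fun v => ?_
    exact Complex.conj_eq_iff_im.2 (elf_conj W v x)
  exact Complex.conj_eq_iff_im.1 h2

/-- **Real coefficients.** -/
theorem ec_coeff (W : HeightOneSpectrum (𝓞 K) → WeierstrassCurve (𝓞 K)) :
    ∃ a : ℕ → ℝ, a 0 = 0 ∧ ∀ s : ℂ, 3 / 2 < s.re →
      LSeriesHasSum (fun n => (a n : ℂ)) s (∏' v, elf W v s) :=
  isDS_real (isDS_ec W) fun x _ => tprod_im W x

end

end Pool.Agent.N881.GX
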