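import Pool.Agent.N881.GW.O3
import Pool.Agent.N881.GW.M4

/-!
# The explicit formula at one point, and its converse
-/

set_option autoImplicit false

namespace Pool.Agent.N881.GW

open MeasureTheory Set Filter Topology

variable {Ω : Type} [MeasurableSpace Ω] {m : Measure Ω} {u : Ω → ℝ} {c : Ω → ℂ} {L : ℂ → ℂ}

/-- the zeros and poles to the right of the hyperbola -/
def ZR (μ : ℂ → ℤ) (A κ : ℝ) : Set ℂ := {w : ℂ | μ w ≠ 0 ∧ w ∈ reg A κ}

/-- the explicit formula at the point `0` -/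
def OF (m : Measure Ω) (u : Ω → ℝ) (c : Ω → ℂ) (μ : ℂ → ℤ) (A κ y0 : ℝ) : Prop :=
  ∃ C : ℝ, ∀ y : ℝ, y0 ≤ y →
    ‖MM m u c A y 0 + ∑ᶠ w ∈ ZR μ A κ, (μ w : ℂ) * XX A y w‖ ≤ C * Real.exp (-(κ * y))

lemma norm_XX' {A : ℝ} (hA : 0 < A) (y : ℝ) (w : ℂ) : ‖XX A y w‖ = Real.exp (y * xr A w) := by
  rw [norm_XX hA]
  congr 2
  unfold xr
  field_simp
  ring

lemma reg_im {A κ : ℝ} (hA : 0 < A) (hκ : κ ≤ A) {w : ℂ} (hw : w ∈ reg A κ) (h0 : w.re ≤ 0) :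
    |w.im| < 2 * A := by
  have h1 := hw.1
  have h2 := (xr_iff hA κ w).1 hw.2
  have h3 : 0 ≤ 4 * A * (A - κ) := mul_nonneg (by positivity) (by linarith)
  have h4 : (w.re + 2 * A) ^ 2 ≤ (2 * A) ^ 2 := pow_le_pow_left₀ (by linarith) (by linarith) 2
  refine abs_lt_of_sq_lt_sq ?_ (by positivity)
  linarith

lemma reg_re {A κ' : ℝ} (hA : 0 < A) (_ : κ' ≤ 2 * A) {w : ℂ}
    (hw : w ∈ reg A (κ' - κ' ^ 2 / (4 * A))) : -κ' < w.re := by
  have h2 := hw.1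
  have h3 := (xr_iff hA _ w).1 hw.2
  have h4 : 4 * A * (A - (κ' - κ' ^ 2 / (4 * A))) = (2 * A - κ') ^ 2 := by
    field_simp
    ring
  rw [h4] at h3
  have h5 : (2 * A - κ') ^ 2 < (w.re + 2 * A) ^ 2 := by
    have := sq_nonneg w.im
    linarith
  have h6 := lt_of_pow_lt_pow_left₀ 2 (by linarith : 0 ≤ w.re + 2 * A) h5
  linarith

lemma reg_mono {A κ κ1 : ℝ} (h : κ ≤ κ1) : reg A κ ⊆ reg A κ1 := fun _ hw =>
  ⟨hw.1, lt_of_le_of_lt (neg_le_neg h) hw.2⟩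

lemma exp_le_of {A κ y : ℝ} (h : κ ≤ A) (hy : 0 ≤ y) :
    Real.exp (-(A * y)) ≤ Real.exp (-(κ * y)) := by
  apply Real.exp_le_exp.2
  have := mul_le_mul_of_nonneg_right h hy
  linarith

lemma one_conv1 {A κ y0 : ℝ} (hA : 0 < A) (hκ : κ ≤ A) (hy0 : 0 < y0) (w : ℂ) :
    ∃ C : ℝ, ∀ y : ℝ, y0 ≤ y →
      (w ∈ reg A κ → ‖NN A y w - XX A y w‖ ≤ C * Real.exp (-(κ * y))) ∧
      (w ∉ reg A κ → ‖NN A y w‖ ≤ C * Real.exp (-(κ * y))) := by
  by_cases h1 : -(2 * A) < w.re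
  · set k : ℝ := √(A / (Real.pi * y0)) / (w.re + 2 * A) with hk
    have hk0 : 0 ≤ k := div_nonneg (Real.sqrt_nonneg _) (by linarith)
    refine ⟨k + 1, fun y hy => ?_⟩
    have hyp : 0 < y := by linarith
    have hm := NN_main hA hy0 hy h1
    have he := Real.exp_pos (-(κ * y))
    have hle := exp_le_of hκ hyp.le
    have hm' : ‖NN A y w - XX A y w‖ ≤ k * Real.exp (-(κ * y)) :=
      hm.trans (mul_le_mul_of_nonneg_left hle hk0)
    refine ⟨fun _ => ?_, fun h2 => ?_⟩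
    · refine hm'.trans ?_
      rw [add_mul]
      linarith
    · have h3 : xr A w ≤ -κ := by
        by_contra h
        exact h2 ⟨h1, not_le.1 h⟩
      have h5 : ‖XX A y w‖ ≤ Real.exp (-(κ * y)) := by
        rw [norm_XX' hA]
        apply Real.exp_le_exp.2
        have := mul_le_mul_of_nonneg_left h3 hyp.le
        linarith
      calc ‖NN A y w‖ = ‖(NN A y w - XX A y w) + XX A y w‖ := by rw [sub_add_cancel]
        _ ≤ k * Real.exp (-(κ * y)) + Real.exp (-(κ * y)) :=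
            (norm_add_le _ _).trans (add_le_add hm' h5)
        _ = _ := by ring
  · refine ⟨1, fun y hy => ⟨fun h => absurd h.1 h1, fun _ => ?_⟩⟩
    rw [one_mul]
    exact (NN_small hA (by linarith) (not_lt.1 h1)).trans (exp_le_of hκ (by linarith))

open Classical in
lemma sum_conv1 {A κ y0 : ℝ} (hA : 0 < A) (hκ : κ ≤ A) (hy0 : 0 < y0) (Z : Finset ℂ)
    (μ : ℂ → ℤ) : ∃ C : ℝ, ∀ y : ℝ, y0 ≤ y →
      ‖(∑ w ∈ Z, (μ w : ℂ) * NN A y w) - ∑ w ∈ Z with w ∈ reg A κ, (μ w : ℂ) * XX A y w‖ ≤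
        C * Real.exp (-(κ * y)) := by
  choose C hC using one_conv1 (κ := κ) hA hκ hy0
  refine ⟨∑ w ∈ Z, ‖(μ w : ℂ)‖ * C w, fun y hy => ?_⟩
  rw [Finset.sum_filter, ← Finset.sum_sub_distrib, Finset.sum_mul]
  refine (norm_sum_le _ _).trans (Finset.sum_le_sum fun w _ => ?_)
  have h2 := hC w y hy
  split_ifs with h3
  · rw [← mul_sub, norm_mul, mul_assoc]
    exact mul_le_mul_of_nonneg_left (h2.1 h3) (norm_nonneg _)
  · rw [sub_zero, norm_mul, mul_assoc]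
    exact mul_le_mul_of_nonneg_left (h2.2 h3) (norm_nonneg _)

lemma kap_le {A κ' : ℝ} (hA : 0 < A) : κ' - κ' ^ 2 / (4 * A) ≤ A := by
  have h1 : κ' - κ' ^ 2 / (4 * A) = A - (κ' - 2 * A) ^ 2 / (4 * A) := by
    field_simp
    ring
  have h2 : 0 ≤ (κ' - 2 * A) ^ 2 / (4 * A) := by positivity
  linarith

/-- **From the function to the averages.** -/
theorem LD.fwd1 [SFinite m] (E : LD m u c L) {μ : ℂ → ℤ} {A b κ' : ℝ} (hA : 0 < A)
    (hκ' : 0 < κ') (hκA : κ' ≤ 2 * A) (hb : κ' < b)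
    (hμ0 : ∀ w : ℂ, 0 < w.re → μ w = 0) (hfin : ∀ R : ℝ, {w : ℂ | μ w ≠ 0 ∧ w ∈ box b R}.Finite)
    {Λ : ℂ → ℂ} (hΛ : ∀ R : ℝ, Cont L μ (box b R) Λ) {y0 : ℝ} (hy0 : 0 < y0) :
    OF m u c μ A (κ' - κ' ^ 2 / (4 * A)) y0 := by
  classical
  set κ : ℝ := κ' - κ' ^ 2 / (4 * A) with hκ
  have hκle : κ ≤ A := kap_le hA
  obtain ⟨T1, hT1, hbox⟩ := fwd_kap hA hκ' hκA hb
  set R : ℝ := max T1 (2 * A + 1) with hR
  set Z : Finset ℂ := (hfin R).toFinset with hZ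
  have hmemZ : ∀ w, w ∈ Z ↔ μ w ≠ 0 ∧ w ∈ box b R := fun w => by
    rw [hZ, Set.Finite.mem_toFinset]
    rfl
  have hZ0 : ∀ w ∈ Z, w.re ≤ 0 := by
    intro w hw
    by_contra h
    exact ((hmemZ w).1 hw).1 (hμ0 w (not_le.1 h))
  obtain ⟨H, hH1, hH2⟩ := E.reg (by linarith) (hΛ R) hZ0 fun z hz hne => (hmemZ z).2 ⟨hne, hz⟩
  have hle : T1 ≤ R := le_max_left _ _
  have hle2 : 2 * A < R := by
    have := le_max_right T1 (2 * A + 1)
    linarith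
  obtain ⟨C1, hC1⟩ := hbox (E.dat.sum (dat_poles Z μ hZ0)) 0 H
    (hH1.mono fun z hz => by
      have h2 : |z.im| < 0 + T1 := hz.2
      rw [zero_add] at h2
      exact ⟨hz.1, lt_of_lt_of_le h2 hle⟩)
    (fun z hz1 hz2 => by
      rw [zero_add] at hz2
      rw [phi_sum E.dat (dat_poles Z μ hZ0) hz1, phi_poles Z μ hZ0 hz1]
      exact hH2 z hz1 (lt_of_lt_of_le hz2 hle)) y0 hy0
  obtain ⟨C2, hC2⟩ := sum_conv1 hA hκle hy0 Z μ
  refine ⟨C1 + C2, fun y hy => ?_⟩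
  have h1 := hC1 0 y (by simp) hy
  have h2 := hC2 y hy
  have hyp : 0 < y := by linarith
  rw [Complex.ofReal_zero, zero_mul, MM_sum E.dat (dat_poles Z μ hZ0) hA hyp,
    MM_poles Z μ hA hyp] at h1
  simp only [sub_zero] at h1
  have hset : ZR μ A κ = ↑(Z.filter fun w => w ∈ GW.reg A κ) := by
    ext w
    rw [Finset.coe_filter]
    simp only [ZR, mem_ofPred_eq, hmemZ]
    constructor
    · rintro ⟨h3, h4⟩
      have h5 : w.re ≤ 0 := by
        by_contra h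
        exact h3 (hμ0 w (not_le.1 h))
      have h6 := reg_re hA hκA h4
      exact ⟨⟨h3, by linarith, (reg_im hA hκle h4 h5).trans hle2⟩, h4⟩
    · rintro ⟨⟨h3, _⟩, h4⟩
      exact ⟨h3, h4⟩
  rw [hset, finsum_mem_coe_finset]
  set S1 := ∑ w ∈ Z, (μ w : ℂ) * NN A y w
  set S2 := ∑ w ∈ Z with w ∈ GW.reg A κ, (μ w : ℂ) * XX A y w
  calc ‖MM m u c A y 0 + S2‖
      = ‖(MM m u c A y 0 + S1) - (S1 - S2)‖ := by congr 1; ring
    _ ≤ C1 * Real.exp (-(κ * y)) + C2 * Real.exp (-(κ * y)) :=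
        (norm_sub_le _ _).trans (add_le_add h1 h2)
    _ = _ := by ring

/-- the function from the regularised logarithmic derivative -/
theorem LD.back_conv (E : LD m u c L) {μ : ℂ → ℤ} {U : Set ℂ} (hU : IsOpen U)
    (hUc : Convex ℝ U) (h1U : (1 : ℂ) ∈ U) {Z : Finset ℂ} (hZ0 : ∀ w ∈ Z, w.re ≤ 0)
    (hZ : ∀ z ∈ U, z ∉ Z → μ z = 0) {H : ℂ → ℂ} (hH : DifferentiableOn ℂ H U)
    (hHphi : ∀ z ∈ U, 0 < z.re → H z = phi m u c z + ∑ w ∈ Z, (μ w : ℂ) / (z - w)) :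
    ∃ Λ : ℂ → ℂ, Cont L μ U Λ := by
  classical
  obtain ⟨P, hP⟩ := Pool.Agent.TH942.SL.convex_primitive hU hUc hH
  set Q : ℂ → ℂ := fun z => PZ Z μ z * Complex.exp (-(P z)) with hQ
  have hbox0 : Convex ℝ ({z : ℂ | 0 < z.re} ∩ U) := (convex_halfSpace_re_gt 0).inter hUc
  have hnZ : ∀ z : ℂ, 0 < z.re → z ∉ Z := fun z hz h => by
    have := hZ0 z h
    linarith
  have hQ0 : ∀ z : ℂ, 0 < z.re → Q z ≠ 0 := fun z hz =>
    mul_ne_zero (PZ_ne μ (hnZ z hz)) (Complex.exp_ne_zero _)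
  have hQd : ∀ z ∈ {z : ℂ | 0 < z.re} ∩ U, HasDerivAt Q (-(phi m u c z) * Q z) z := by
    rintro z ⟨hz0, hzb⟩
    have hz0' : 0 < z.re := hz0
    have h1 := (PZ_deriv μ (hnZ z hz0')).fun_mul ((hP z hzb).fun_neg.cexp)
    refine h1.congr_deriv ?_
    have h2 := hHphi z hzb hz0'
    rw [hQ]
    simp only
    linear_combination (-(PZ Z μ z * Complex.exp (-(P z)))) * h2
  have hconst : ∀ z ∈ {z : ℂ | 0 < z.re} ∩ U, HasDerivAt (fun z => L z * (Q z)⁻¹) 0 z := by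
    intro z hz
    have hz0' : 0 < z.re := hz.1
    have h1 := (E.der z hz0').fun_mul ((hQd z hz).fun_inv (hQ0 z hz0'))
    refine h1.congr_deriv ?_
    have := hQ0 z hz0'
    field_simp
    ring
  have h10 : (0 : ℝ) < (1 : ℂ).re := by rw [Complex.one_re]; exact one_pos
  have h1mem : (1 : ℂ) ∈ {z : ℂ | 0 < z.re} ∩ U := ⟨h10, h1U⟩
  set K : ℂ := L 1 * (Q 1)⁻¹ with hK
  have hK0 : K ≠ 0 := mul_ne_zero (E.ne 1 h10) (inv_ne_zero (hQ0 1 h10))
  refine ⟨fun z => K * Q z, fun z hz hz0 => ?_, fun z hz => ?_⟩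
  · have h2 := Pool.Agent.TH942.RZ.eq_of_deriv_zero hbox0 hconst (z := z) (w := 1) ⟨hz0, hz⟩ h1mem
    have := hQ0 z hz0
    rw [hK, ← h2]
    field_simp
  · have hPa : AnalyticAt ℂ (fun z => K * Complex.exp (-(P z))) z := by
      have h3 : DifferentiableOn ℂ P U := fun w hw =>
        (hP w hw).differentiableAt.differentiableWithinAt
      have h4 := h3.analyticAt (hU.mem_nhds hz)
      exact analyticAt_const.mul (h4.neg.cexp)
    have hPne : K * Complex.exp (-(P z)) ≠ 0 := mul_ne_zero hK0 (Complex.exp_ne_zero _)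
    have e : (fun z => K * Q z) = fun z => PZ Z μ z * (K * Complex.exp (-(P z))) := by
      funext z
      rw [hQ]
      ring
    rw [e]
    refine ⟨(PZ_mer Z μ z).fun_mul hPa.meromorphicAt, ?_⟩
    rw [fun_meromorphicOrderAt_mul (PZ_mer Z μ z) hPa.meromorphicAt, PZ_order,
      order_zero_of_ne hPa hPne, add_zero]
    congr 1
    by_cases hm : z ∈ Z
    · rw [if_pos hm]
    · rw [if_neg hm, hZ z hz hm]

/-- **From the averages to the function,** to the right of the hyperbola. -/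
theorem LD.back1 [SFinite m] (E : LD m u c L) {μ : ℂ → ℤ} (hμ0 : ∀ w : ℂ, 0 < w.re → μ w = 0)
    {A κ Y : ℝ} (hA : 0 < A) (hκ0 : 0 ≤ κ) (hκ : κ ≤ A) (hfin : (ZR μ A κ).Finite)
    (h : OF m u c μ A κ Y) : ∃ Λ : ℂ → ℂ, Cont L μ (GW.reg A κ) Λ := by
  classical
  set Z : Finset ℂ := hfin.toFinset with hZ
  have hmemZ : ∀ w, w ∈ Z ↔ w ∈ ZR μ A κ := fun w => by rw [hZ, Set.Finite.mem_toFinset]
  have hZ0 : ∀ w ∈ Z, w.re ≤ 0 := by
    intro w hw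
    by_contra h
    exact ((hmemZ w).1 hw).1 (hμ0 w (not_le.1 h))
  set y0 : ℝ := max Y 1 with hy0
  have hy00 : 0 < y0 := lt_of_lt_of_le one_pos (le_max_right _ _)
  obtain ⟨C1, hC1⟩ := h
  obtain ⟨C2, hC2⟩ := sum_conv1 hA hκ hy00 Z μ
  have D' := E.dat.sum (dat_poles Z μ hZ0)
  have hfilt : (Z.filter fun w => w ∈ GW.reg A κ) = Z := by
    rw [Finset.filter_eq_self]
    intro w hw
    exact ((hmemZ w).1 hw).2
  have hsum : ∀ y : ℝ, ∑ᶠ w ∈ ZR μ A κ, (μ w : ℂ) * XX A y w =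
      ∑ w ∈ Z, (μ w : ℂ) * XX A y w := by
    intro y
    have : ZR μ A κ = ↑Z := by
      ext w
      rw [Finset.mem_coe, hmemZ]
    rw [this, finsum_mem_coe_finset]
  have hdiff := D'.one_point (A := A) (κ := κ) (C := C1 + C2) (y0 := y0) hA (fun y hy => by
    have hyp : 0 < y := by linarith
    have h1 := hC1 y ((le_max_left _ _).trans hy)
    have h2 := hC2 y hy
    rw [hfilt] at h2
    rw [hsum] at h1
    rw [MM_sum E.dat (dat_poles Z μ hZ0) hA hyp, MM_poles Z μ hA hyp]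
    simp only [sub_zero]
    set S1 := ∑ w ∈ Z, (μ w : ℂ) * NN A y w
    set S2 := ∑ w ∈ Z, (μ w : ℂ) * XX A y w
    calc ‖MM m u c A y 0 + S1‖
        = ‖(MM m u c A y 0 + S2) + (S1 - S2)‖ := by congr 1; ring
      _ ≤ C1 * Real.exp (-(κ * y)) + C2 * Real.exp (-(κ * y)) :=
          (norm_add_le _ _).trans (add_le_add h1 h2)
      _ = _ := by ring)
  refine E.back_conv (isOpen_reg A κ) (convex_reg hA hκ) (one_mem_reg hA hκ0) hZ0
    (fun z hz hzZ => ?_) hdiff (fun z hz hz0 => ?_)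
  · by_contra hne
    exact hzZ ((hmemZ z).2 ⟨hne, hz⟩)
  · have hopen : IsOpen {w : ℂ | 0 < w.re} := isOpen_lt continuous_const Complex.continuous_re
    have h3 := eq_of_pos ((isOpen_reg A κ).inter hopen)
      ((convex_reg hA hκ).inter (convex_halfSpace_re_gt 0))
      (hdiff.mono inter_subset_left) (D'.phi_diff.mono inter_subset_right)
      ⟨one_mem_reg hA hκ0, by
        show (0 : ℝ) < (1 : ℂ).re
        rw [Complex.one_re]; exact one_pos⟩ (fun x hx => D'.H1_pos hA hx) ⟨hz, hz0⟩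
    rw [h3, phi_sum E.dat (dat_poles Z μ hZ0) hz0, phi_poles Z μ hZ0 hz0]

/-- a smaller exponent -/
lemma OF.mono {μ : ℂ → ℤ} {A κ κ1 y0 : ℝ} (hA : 0 < A) (hy0 : 0 < y0) (hκ : κ ≤ κ1)
    (hfin : (ZR μ A κ1).Finite) (h : OF m u c μ A κ1 y0) : OF m u c μ A κ y0 := by
  classical
  obtain ⟨C, hC⟩ := h
  set Z : Finset ℂ := hfin.toFinset with hZ
  have hmemZ : ∀ w, w ∈ Z ↔ w ∈ ZR μ A κ1 := fun w => by rw [hZ, Set.Finite.mem_toFinset]
  have h1 : ZR μ A κ1 = ↑Z := by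
    ext w
    rw [Finset.mem_coe, hmemZ]
  have h2 : ZR μ A κ = ↑(Z.filter fun w => w ∈ GW.reg A κ) := by
    ext w
    rw [Finset.coe_filter]
    simp only [mem_ofPred_eq, hmemZ]
    constructor
    · rintro ⟨h3, h4⟩
      exact ⟨⟨h3, reg_mono hκ h4⟩, h4⟩
    · rintro ⟨h3, h4⟩
      exact ⟨h3.1, h4⟩
  refine ⟨|C| + ∑ w ∈ Z, ‖(μ w : ℂ)‖, fun y hy => ?_⟩
  have hyp : 0 < y := by linarith
  have h3 := hC y hy
  rw [h1, finsum_mem_coe_finset] at h3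
  rw [h2, finsum_mem_coe_finset]
  have h4 : ‖(∑ w ∈ Z, (μ w : ℂ) * XX A y w) -
      ∑ w ∈ Z with w ∈ GW.reg A κ, (μ w : ℂ) * XX A y w‖ ≤
      (∑ w ∈ Z, ‖(μ w : ℂ)‖) * Real.exp (-(κ * y)) := by
    rw [Finset.sum_filter, ← Finset.sum_sub_distrib, Finset.sum_mul]
    refine (norm_sum_le _ _).trans (Finset.sum_le_sum fun w hw => ?_)
    split_ifs with h5
    · rw [sub_self, norm_zero]
      positivity
    · rw [sub_zero, norm_mul]
      refine mul_le_mul_of_nonneg_left ?_ (norm_nonneg _)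
      rw [norm_XX' hA]
      apply Real.exp_le_exp.2
      have h6 : xr A w ≤ -κ := by
        by_contra h7
        exact h5 ⟨((hmemZ w).1 hw).2.1, not_le.1 h7⟩
      have := mul_le_mul_of_nonneg_left h6 hyp.le
      linarith
  set S1 := ∑ w ∈ Z, (μ w : ℂ) * XX A y w
  set S2 := ∑ w ∈ Z with w ∈ GW.reg A κ, (μ w : ℂ) * XX A y w
  calc ‖MM m u c A y 0 + S2‖ = ‖(MM m u c A y 0 + S1) - (S1 - S2)‖ := by congr 1; ring
    _ ≤ |C| * Real.exp (-(κ * y)) + (∑ w ∈ Z, ‖(μ w : ℂ)‖) * Real.exp (-(κ * y)) := by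
        refine (norm_sub_le _ _).trans (add_le_add (h3.trans ?_) h4)
        exact mul_le_mul (le_abs_self C) (exp_le_of hκ hyp.le) (Real.exp_pos _).le (abs_nonneg _)
    _ = _ := by ring

end Pool.Agent.N881.GW
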