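import Pool.Agent.N881.GW.Q1

/-!
# The explicit formula at one point: the criterion
-/

set_option autoImplicit false

namespace Pool.Agent.N881.GW

open MeasureTheory Set Filter Topology

variable {Ω : Type} [MeasurableSpace Ω] {m : Measure Ω} {u : Ω → ℝ} {c : Ω → ℂ} {L : ℂ → ℂ}

lemma zr_fin {μ : ℂ → ℤ} (hμ0 : ∀ w : ℂ, 0 < w.re → μ w = 0) {A κ' κ : ℝ} (hA : 0 < A)
    (h2 : κ' ≤ 2 * A) (h3 : κ ≤ κ' - κ' ^ 2 / (4 * A))
    (hfin : ∀ R : ℝ, {w : ℂ | μ w ≠ 0 ∧ w ∈ box κ' R}.Finite) : (ZR μ A κ).Finite := by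
  refine (hfin (2 * A + 1)).subset ?_
  rintro w ⟨h4, h5⟩
  have h6 : w.re ≤ 0 := by
    by_contra h
    exact h4 (hμ0 w (not_le.1 h))
  have h7 := reg_mono h3 h5
  have h8 := reg_re hA h2 h7
  have h9 := reg_im hA (kap_le hA) h7 h6
  exact ⟨h4, h8, by linarith⟩

lemma large_kap {κ κ' : ℝ} (h1 : κ < κ') {A : ℝ} (hA : 0 < A)
    (h : κ' ^ 2 / (4 * (κ' - κ)) ≤ A) : κ ≤ κ' - κ' ^ 2 / (4 * A) := by
  have h2 : 0 < 4 * (κ' - κ) := by linarith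
  rw [div_le_iff₀ h2] at h
  have h3 : κ' ^ 2 / (4 * A) ≤ κ' - κ := by
    rw [div_le_iff₀ (by positivity)]
    linarith
  linarith

/-- **The criterion.** -/
theorem LD.one [SFinite m] (E : LD m u c L) {μ : ℂ → ℤ} (hμ0 : ∀ w : ℂ, 0 < w.re → μ w = 0)
    {S : Set ℝ} (hS : ∀ b ∈ S, 0 < b)
    (hfin : ∀ A : ℝ, 0 < A → (∃ b ∈ S, A < b) → ∀ R : ℝ,
      {w : ℂ | μ w ≠ 0 ∧ w ∈ box A R}.Finite) {y0 : ℝ} (hy0 : 0 < y0) :
    List.TFAE [
      ∃ Λ : ℂ → ℂ, (∀ z : ℂ, 0 < z.re → Λ z = L z) ∧ ∀ z : ℂ, (∃ b ∈ S, -b < z.re) →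
        MeromorphicAt Λ z ∧ meromorphicOrderAt Λ z = (μ z : WithTop ℤ),
      ∀ κ : ℝ, 0 < κ → (∃ b ∈ S, κ < b) → ∀ A : ℝ, κ ≤ 2 * A →
        OF m u c μ A (κ - κ ^ 2 / (4 * A)) y0,
      ∀ κ : ℝ, 0 < κ → (∃ b ∈ S, κ < b) → ∃ A0 : ℝ, ∀ A : ℝ, A0 ≤ A → OF m u c μ A κ y0,
      ∀ κ : ℝ, 0 < κ → (∃ b ∈ S, κ < b) → ∀ A0 : ℝ, ∃ A : ℝ, A0 ≤ A ∧
        ∃ Y : ℝ, OF m u c μ A κ Y] := by
  tfae_have 1 → 2 := by
    rintro ⟨Λ, h1, h2⟩ κ hκ ⟨b, hb, hκb⟩ A hA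
    have hA0 : 0 < A := by linarith
    have hb' : (κ + b) / 2 < b := by linarith
    refine E.fwd1 hA0 hκ hA (b := (κ + b) / 2) (by linarith) hμ0
      (hfin _ (by linarith) ⟨b, hb, hb'⟩) (Λ := Λ) (fun R => ⟨fun z _ hz0 => h1 z hz0,
        fun z hz => h2 z ⟨b, hb, ?_⟩⟩) hy0
    have := hz.1
    linarith
  tfae_have 2 → 3 := by
    rintro h κ hκ ⟨b, hb, hκb⟩
    set κ' : ℝ := (κ + b) / 2 with hκ'
    have h1 : κ < κ' := by rw [hκ']; linarith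
    have h2 : κ' < b := by rw [hκ']; linarith
    have hκ'0 : 0 < κ' := by linarith
    refine ⟨max (κ' / 2) (κ' ^ 2 / (4 * (κ' - κ))), fun A hA => ?_⟩
    have h4 : κ' / 2 ≤ A := (le_max_left _ _).trans hA
    have h5 : κ' ^ 2 / (4 * (κ' - κ)) ≤ A := (le_max_right _ _).trans hA
    have hA0 : 0 < A := by linarith
    have h6 := large_kap h1 hA0 h5
    exact (h κ' hκ'0 ⟨b, hb, h2⟩ A (by linarith)).mono hA0 hy0 h6
      (zr_fin hμ0 hA0 (by linarith) le_rfl (hfin κ' hκ'0 ⟨b, hb, h2⟩))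
  tfae_have 3 → 4 := by
    intro h κ hκ hb A0
    obtain ⟨A1, hA1⟩ := h κ hκ hb
    exact ⟨max A0 A1, le_max_left _ _, y0, hA1 _ (le_max_right _ _)⟩
  tfae_have 4 → 1 := by
    intro h
    set J : Type := {p : ℝ × ℝ // 0 < p.1 ∧ 0 ≤ p.2 ∧ p.2 ≤ p.1 ∧ (ZR μ p.1 p.2).Finite ∧
      ∃ Y : ℝ, OF m u c μ p.1 p.2 Y} with hJ
    have key : ∀ j : J, ∃ Λ : ℂ → ℂ, Cont L μ (GW.reg j.1.1 j.1.2) Λ := by
      rintro ⟨⟨A, κ⟩, h1, h2, h3, h4, Y, h5⟩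
      exact E.back1 hμ0 h1 h2 h3 h4 h5
    choose F hF using key
    have h1re : (0 : ℝ) < (1 : ℂ).re := by rw [Complex.one_re]; exact one_pos
    obtain ⟨Λ, hΛ1, hΛ2⟩ := mer_glue (J := J) (U := fun j => GW.reg j.1.1 j.1.2) (F := F)
      (V := {z : ℂ | 0 < z.re}) (L := L) (μ := μ)
      (isOpen_lt continuous_const Complex.continuous_re) E.an (fun j => isOpen_reg _ _)
      (fun i j => ((convex_reg i.2.1 i.2.2.2.1).inter
        (convex_reg j.2.1 j.2.2.2.1)).isPreconnected) (z1 := 1)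
      (fun j => one_mem_reg j.2.1 j.2.2.1) h1re
      (fun j z hz hzV => (hF j).1 z hz hzV) (fun j z hz => (hF j).2 z hz)
    refine ⟨Λ, hΛ1, ?_⟩
    rintro z ⟨b, hb, hz⟩
    have hb0 := hS b hb
    set κ : ℝ := max ((b - z.re) / 2) (b / 2) with hκ
    have h3 : 0 < κ := lt_of_lt_of_le (by positivity) (le_max_right _ _)
    have h4 : κ < b := max_lt (by linarith) (by linarith)
    have h5 : -κ < z.re := by
      have := le_max_left ((b - z.re) / 2) (b / 2)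
      linarith
    set κ' : ℝ := (κ + b) / 2 with hκ'
    have h1 : κ < κ' := by rw [hκ']; linarith
    have h2 : κ' < b := by rw [hκ']; linarith
    have hκ'0 : 0 < κ' := by linarith
    obtain ⟨A0, hA0⟩ := eventually_atTop.1 ((xr_tendsto z).eventually (lt_mem_nhds h5))
    obtain ⟨A, hA, Y, hOF⟩ := h κ h3 ⟨b, hb, h4⟩
      (max (max A0 κ) (max (κ' / 2) (κ' ^ 2 / (4 * (κ' - κ)))))
    have h6 : A0 ≤ A := ((le_max_left _ _).trans (le_max_left _ _)).trans hA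
    have h7 : κ ≤ A := ((le_max_right _ _).trans (le_max_left _ _)).trans hA
    have h8 : κ' / 2 ≤ A := ((le_max_left _ _).trans (le_max_right _ _)).trans hA
    have h9 : κ' ^ 2 / (4 * (κ' - κ)) ≤ A := ((le_max_right _ _).trans (le_max_right _ _)).trans hA
    have hApos : 0 < A := by linarith
    refine hΛ2 ⟨(A, κ), hApos, h3.le, h7, zr_fin hμ0 hApos (by linarith) (large_kap h1 hApos h9)
      (hfin κ' hκ'0 ⟨b, hb, h2⟩), Y, hOF⟩ z ⟨?_, hA0 A h6⟩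
    show -(2 * A) < z.re
    linarith
  tfae_finish

/-- the orders of a continuation -/
theorem LD.orders [SFinite m] (E : LD m u c L) {S : Set ℝ} (hS : ∀ b ∈ S, 0 < b) {Λ : ℂ → ℂ}
    (h1 : ∀ z : ℂ, 0 < z.re → Λ z = L z)
    (h2 : ∀ z : ℂ, (∃ b ∈ S, -b < z.re) → MeromorphicAt Λ z) :
    ∃ μ : ℂ → ℤ, (∀ w : ℂ, 0 < w.re → μ w = 0) ∧
      (∀ A : ℝ, 0 < A → (∃ b ∈ S, A < b) → ∀ R : ℝ, {w : ℂ | μ w ≠ 0 ∧ w ∈ box A R}.Finite) ∧
      ∀ z : ℂ, (∃ b ∈ S, -b < z.re) → meromorphicOrderAt Λ z = (μ z : WithTop ℤ) := by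
  set μ : ℂ → ℤ := fun z => (meromorphicOrderAt Λ z).untop₀ with hμ
  have h1re : (0 : ℝ) < (1 : ℂ).re := by rw [Complex.one_re]; exact one_pos
  have hVe : ∀ z : ℂ, 0 < z.re → Λ =ᶠ[𝓝 z] L := by
    intro z hz
    filter_upwards [(isOpen_lt continuous_const Complex.continuous_re).mem_nhds
      (show z ∈ {z : ℂ | 0 < z.re} from hz)] with w hw
    exact h1 w hw
  have hV0 : ∀ z : ℂ, 0 < z.re → meromorphicOrderAt Λ z = 0 := by
    intro z hz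
    rw [meromorphicOrderAt_congr ((hVe z hz).filter_mono nhdsWithin_le_nhds)]
    exact order_zero_of_ne (E.an z hz) (E.ne z hz)
  have hμ0 : ∀ w : ℂ, 0 < w.re → μ w = 0 := by
    intro w hw
    rw [hμ]
    simp only
    rw [hV0 w hw]
    rfl
  refine ⟨μ, hμ0, ?_, ?_⟩
  · rintro A hA ⟨b, hb, hAb⟩ R
    have hK : IsCompact (Icc (-A) 0 ×ℂ Icc (-R) R) := isCompact_Icc.reProdIm isCompact_Icc
    have hm : MeromorphicOn Λ (Icc (-A) 0 ×ℂ Icc (-R) R) := by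
      intro z hz
      have h3 := hz.1
      simp only [mem_preimage, mem_Icc] at h3
      exact h2 z ⟨b, hb, by linarith⟩
    refine ((MeromorphicOn.divisor Λ (Icc (-A) 0 ×ℂ Icc (-R) R)).finiteSupport hK).subset ?_
    rintro w ⟨h3, h4, h5⟩
    have hwK : w ∈ Icc (-A) 0 ×ℂ Icc (-R) R := by
      refine ⟨⟨h4.le, ?_⟩, abs_le.1 h5.le⟩
      by_contra h
      exact h3 (hμ0 w (not_le.1 h))
    rw [Function.mem_support, MeromorphicOn.divisor_apply hm hwK]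
    exact h3
  · rintro z ⟨b, hb, hzb⟩
    have hmb : MeromorphicOn Λ {z : ℂ | -b < z.re} := fun w hw => h2 w ⟨b, hb, hw⟩
    have h5 : meromorphicOrderAt Λ z ≠ ⊤ := by
      refine hmb.meromorphicOrderAt_ne_top_of_isPreconnected (preconn_half b) (x := 1)
        (show -b < (1 : ℂ).re by rw [Complex.one_re]; linarith [hS b hb]) hzb ?_
      rw [hV0 1 h1re]
      exact WithTop.zero_ne_top
    rw [hμ]
    simp only
    exact (WithTop.coe_untop₀_of_ne_top h5).symm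

/-- the condition in the whole plane -/
theorem LD.plane [SFinite m] (E : LD m u c L) {μ : ℂ → ℤ} (hμ0 : ∀ w : ℂ, 0 < w.re → μ w = 0)
    (hfin : ∀ A R : ℝ, {w : ℂ | μ w ≠ 0 ∧ w ∈ box A R}.Finite) {y0 : ℝ} (hy0 : 0 < y0) :
    List.TFAE [
      ∃ Λ : ℂ → ℂ, (∀ z : ℂ, 0 < z.re → Λ z = L z) ∧ ∀ z : ℂ,
        MeromorphicAt Λ z ∧ meromorphicOrderAt Λ z = (μ z : WithTop ℤ),
      ∀ A : ℝ, 0 < A → OF m u c μ A A y0,
      ∀ κ A0 : ℝ, ∃ A : ℝ, A0 ≤ A ∧ ∃ Y : ℝ, OF m u c μ A κ Y] := by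
  have hS : ∀ b ∈ Ioi (0 : ℝ), 0 < b := fun b hb => hb
  have hall : ∀ x : ℝ, ∃ b ∈ Ioi (0 : ℝ), x < b := fun x =>
    ⟨|x| + 1, by show 0 < |x| + 1; positivity, by have := le_abs_self x; linarith⟩
  have key := E.one hμ0 hS (fun A _ _ R => hfin A R) hy0
  have h12 := key.out 0 1
  have h14 := key.out 0 3
  have e1 : (∃ Λ : ℂ → ℂ, (∀ z : ℂ, 0 < z.re → Λ z = L z) ∧ ∀ z : ℂ,
      (∃ b ∈ Ioi (0 : ℝ), -b < z.re) →
      MeromorphicAt Λ z ∧ meromorphicOrderAt Λ z = (μ z : WithTop ℤ)) ↔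
      ∃ Λ : ℂ → ℂ, (∀ z : ℂ, 0 < z.re → Λ z = L z) ∧ ∀ z : ℂ,
        MeromorphicAt Λ z ∧ meromorphicOrderAt Λ z = (μ z : WithTop ℤ) := by
    refine exists_congr fun Λ => and_congr_right fun _ => ⟨fun h z => h z ?_, fun h z _ => h z⟩
    obtain ⟨b, hb, hlt⟩ := hall (-z.re)
    exact ⟨b, hb, by linarith⟩
  tfae_have 1 → 2 := by
    intro h A hA
    have h2 := h12.1 (e1.2 h) (2 * A) (by linarith) (hall _) A le_rfl
    have e2 : 2 * A - (2 * A) ^ 2 / (4 * A) = A := by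
      field_simp
      ring
    rwa [e2] at h2
  tfae_have 2 → 3 := by
    intro h κ A0
    set A : ℝ := max (max A0 κ) 1 with hA
    have hA0 : 0 < A := lt_of_lt_of_le one_pos (le_max_right _ _)
    refine ⟨A, (le_max_left _ _).trans (le_max_left _ _), y0, ?_⟩
    refine (h A hA0).mono hA0 hy0 ((le_max_right _ _).trans (le_max_left _ _)) ?_
    refine zr_fin hμ0 hA0 (κ' := 2 * A) le_rfl ?_ fun R => hfin _ R
    have e2 : 2 * A - (2 * A) ^ 2 / (4 * A) = A := by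
      field_simp
      ring
    rw [e2]
  tfae_have 3 → 1 := by
    intro h
    exact e1.1 (h14.2 fun κ _ _ A0 => h κ A0)
  tfae_finish

end Pool.Agent.N881.GW
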