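import Pool.Agent.N881.GW.Q2
import Pool.Agent.N881.GW.M5

/-!
# Euler products over an arbitrary index set
-/

set_option autoImplicit false

namespace Pool.Agent.N881.GW

open MeasureTheory Set Filter Topology

/-- the index set -/
def EI (I : Type) : Type := I × ℕ

instance (I : Type) : MeasurableSpace (EI I) := ⊤

instance (I : Type) : DiscreteMeasurableSpace (EI I) := ⟨fun _ => trivial⟩

instance (I : Type) [Countable I] : Countable (EI I) := inferInstanceAs (Countable (I × ℕ))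

section

variable {I : Type} {N : I → ℕ} {k : ℕ}

/-- the logarithm of the norm of the power -/
noncomputable def uE (N : I → ℕ) (p : EI I) : ℝ := (p.2 + 1) * Real.log (N p.1)

/-- the power sums -/
noncomputable def pE (β : I → Fin k → ℂ) (i : I) (n : ℕ) : ℂ := ∑ j, β i j ^ n

/-- the coefficients of the logarithm -/
noncomputable def c0E (N : I → ℕ) (β : I → Fin k → ℂ) (p : EI I) : ℂ :=
  pE β p.1 (p.2 + 1) / (p.2 + 1 : ℕ) * Complex.exp (-(uE N p : ℂ))

/-- the coefficients of the logarithmic derivative -/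
noncomputable def cE (N : I → ℕ) (β : I → Fin k → ℂ) (p : EI I) : ℂ :=
  pE β p.1 (p.2 + 1) * Real.log (N p.1) * Complex.exp (-(uE N p : ℂ))

/-- the norms -/
structure Nrm (N : I → ℕ) : Prop where
  two : ∀ i, 2 ≤ N i
  sum : ∀ x : ℝ, 1 < x → Summable fun i => (N i : ℝ) ^ (-x)

lemma cE_eq (β : I → Fin k → ℂ) (p : EI I) : cE N β p = uE N p * c0E N β p := by
  unfold cE c0E uE
  have : ((p.2 + 1 : ℕ) : ℂ) ≠ 0 := by exact_mod_cast Nat.succ_ne_zero p.2
  push_cast at this ⊢
  field_simp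

lemma Nrm.ge (h : Nrm N) (i : I) : (2 : ℝ) ≤ N i := by exact_mod_cast h.two i

lemma Nrm.log_pos (h : Nrm N) (i : I) : 0 < Real.log (N i) :=
  Real.log_pos (by linarith [h.ge i])

lemma Nrm.uE_pos (h : Nrm N) (p : EI I) : 0 < uE N p := by
  unfold uE
  have := h.log_pos p.1
  positivity

lemma Nrm.summable_G (h : Nrm N) {x : ℝ} (hx : 1 < x) :
    Summable fun p : EI I => Real.exp (-(x * uE N p)) := by
  have h1 : Summable fun p : I × ℕ => (N p.1 : ℝ) ^ (-x) * (1 / 2 : ℝ) ^ p.2 :=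
    (h.sum x hx).mul_of_nonneg
      (summable_geometric_of_lt_one (by norm_num) (by norm_num))
      (fun v => Real.rpow_nonneg (Nat.cast_nonneg _) _) (fun k => by positivity)
  refine Summable.of_nonneg_of_le (fun p => (Real.exp_pos _).le) (fun p => ?_) h1
  have hn : (0 : ℝ) < N p.1 := by linarith [h.ge p.1]
  have h2 : Real.exp (-(x * uE N p)) = ((N p.1 : ℝ) ^ (-x)) ^ (p.2 + 1) := by
    rw [Real.rpow_def_of_pos hn, ← Real.exp_nat_mul]
    congr 1
    unfold uE
    push_cast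
    ring
  have h4 : (N p.1 : ℝ) ^ (-x) ≤ 1 / 2 := by
    calc (N p.1 : ℝ) ^ (-x) ≤ (2 : ℝ) ^ (-x) :=
          Real.rpow_le_rpow_of_nonpos (by norm_num) (h.ge p.1) (by linarith)
      _ ≤ (2 : ℝ) ^ (-(1 : ℝ)) :=
          Real.rpow_le_rpow_of_exponent_le (by norm_num) (by linarith)
      _ = 1 / 2 := by rw [Real.rpow_neg_one]; norm_num
  have h5 : (0 : ℝ) ≤ (N p.1 : ℝ) ^ (-x) := Real.rpow_nonneg (Nat.cast_nonneg _) _
  rw [h2, pow_succ, mul_comm]
  exact mul_le_mul_of_nonneg_left (pow_le_pow_left₀ h5 h4 _) h5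

lemma norm_pE {β : I → Fin k → ℂ} (hβ : ∀ v j, ‖β v j‖ ≤ 1) (v : I) (n : ℕ) :
    ‖pE β v n‖ ≤ k := by
  unfold pE
  refine (norm_sum_le _ _).trans ?_
  calc ∑ j, ‖β v j ^ n‖ ≤ ∑ _j : Fin k, (1 : ℝ) := Finset.sum_le_sum fun j _ => by
        rw [norm_pow]
        exact pow_le_one₀ (norm_nonneg _) (hβ v j)
    _ = k := by simp

lemma norm_exp_uE (p : EI I) : ‖Complex.exp (-(uE N p : ℂ))‖ = Real.exp (-(uE N p)) := by
  rw [Complex.norm_exp]
  congr 1

lemma Nrm.dat_cE (h : Nrm N) {β : I → Fin k → ℂ} (hβ : ∀ v j, ‖β v j‖ ≤ 1) :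
    Dat Measure.count (uE N) (cE N β) where
  hu := fun p => (h.uE_pos p).le
  mu := Measurable.of_discrete
  mc := Measurable.of_discrete
  int := by
    intro σ hσ
    rw [integrable_count_iff]
    have h1 := (h.summable_G (x := 1 + σ / 2) (by linarith)).mul_left (k * (2 / σ))
    refine Summable.of_nonneg_of_le (fun p => norm_nonneg _) (fun p => ?_) h1
    have hu := (h.uE_pos p).le
    rw [Real.norm_of_nonneg (by positivity)]
    have hl := (h.log_pos p.1).le
    have h2 : ‖cE N β p‖ ≤ k * uE N p * Real.exp (-(uE N p)) := by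
      unfold cE
      rw [norm_mul, norm_mul, norm_exp_uE, Complex.norm_real, Real.norm_of_nonneg hl]
      refine mul_le_mul_of_nonneg_right ?_ (Real.exp_pos _).le
      refine mul_le_mul (norm_pE hβ _ _) ?_ hl (Nat.cast_nonneg _)
      unfold uE
      have : (0 : ℝ) ≤ p.2 := Nat.cast_nonneg _
      nlinarith
    calc ‖cE N β p‖ * Real.exp (-(σ * uE N p))
        ≤ (k * uE N p * Real.exp (-(uE N p))) * Real.exp (-(σ * uE N p)) :=
          mul_le_mul_of_nonneg_right h2 (Real.exp_pos _).le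
      _ = k * Real.exp (-(uE N p)) * (uE N p * Real.exp (-(σ * uE N p))) := by ring
      _ ≤ k * Real.exp (-(uE N p)) * (2 / σ * Real.exp (-(σ / 2 * uE N p))) :=
          mul_le_mul_of_nonneg_left (mul_exp_le hσ) (by positivity)
      _ = k * (2 / σ) * (Real.exp (-(uE N p)) * Real.exp (-(σ / 2 * uE N p))) := by ring
      _ = _ := by
          rw [← Real.exp_add]
          congr 2
          ring

lemma Nrm.dat_c0E (h : Nrm N) {β : I → Fin k → ℂ} (hβ : ∀ v j, ‖β v j‖ ≤ 1) :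
    Dat Measure.count (uE N) (c0E N β) where
  hu := fun p => (h.uE_pos p).le
  mu := Measurable.of_discrete
  mc := Measurable.of_discrete
  int := by
    intro σ hσ
    rw [integrable_count_iff]
    have h1 := (h.summable_G (x := 1 + σ) (by linarith)).mul_left (k : ℝ)
    refine Summable.of_nonneg_of_le (fun p => norm_nonneg _) (fun p => ?_) h1
    have hu := (h.uE_pos p).le
    rw [Real.norm_of_nonneg (by positivity)]
    have h2 : ‖c0E N β p‖ ≤ k * Real.exp (-(uE N p)) := by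
      unfold c0E
      rw [norm_mul, norm_div, norm_exp_uE]
      refine mul_le_mul_of_nonneg_right ?_ (Real.exp_pos _).le
      have h3 : (1 : ℝ) ≤ ‖((p.2 + 1 : ℕ) : ℂ)‖ := by
        rw [Complex.norm_natCast]
        exact_mod_cast Nat.succ_pos _
      exact (div_le_self (norm_nonneg _) h3).trans (norm_pE hβ _ _)
    calc ‖c0E N β p‖ * Real.exp (-(σ * uE N p))
        ≤ (k * Real.exp (-(uE N p))) * Real.exp (-(σ * uE N p)) :=
          mul_le_mul_of_nonneg_right h2 (Real.exp_pos _).le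
      _ = k * (Real.exp (-(uE N p)) * Real.exp (-(σ * uE N p))) := by ring
      _ = _ := by
          rw [← Real.exp_add]
          congr 2
          ring

lemma Nrm.exp_uE (h : Nrm N) (v : I) (n : ℕ) (z : ℂ) :
    Complex.exp (-(uE N (v, n) : ℂ)) * Complex.exp (-(z * uE N (v, n))) =
      ((N v : ℂ) ^ (-(1 + z))) ^ (n + 1) := by
  have hn : (N v : ℂ) ≠ 0 := by
    have := h.two v
    have h2 : N v ≠ 0 := by omega
    exact_mod_cast h2
  rw [← Complex.exp_add, Complex.cpow_def_of_ne_zero hn, ← Complex.exp_nat_mul]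
  congr 1
  unfold uE
  rw [Complex.natCast_log.symm]
  push_cast
  ring

lemma Nrm.norm_cpow_lt (h : Nrm N) (v : I) {z : ℂ} (hz : 0 < z.re) :
    ‖(N v : ℂ) ^ (-(1 + z))‖ < 1 := by
  have h2 := h.ge v
  rw [Complex.norm_natCast_cpow_of_pos (by have := h.two v; omega)]
  refine Real.rpow_lt_one_of_one_lt_of_neg (by linarith) ?_
  rw [Complex.neg_re, Complex.add_re, Complex.one_re]
  linarith

/-- the logarithm of the local factor -/
noncomputable def lE (N : I → ℕ) (β : I → Fin k → ℂ) (v : I) (z : ℂ) : ℂ :=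
  ∑ j, -Complex.log (1 - β v j * (N v : ℂ) ^ (-(1 + z)))

lemma Nrm.norm_lt (h : Nrm N) {β : I → Fin k → ℂ} (hβ : ∀ v j, ‖β v j‖ ≤ 1) (v : I) (j : Fin k)
    {z : ℂ} (hz : 0 < z.re) : ‖β v j * (N v : ℂ) ^ (-(1 + z))‖ < 1 := by
  rw [norm_mul]
  have h3 := h.norm_cpow_lt v hz
  have h4 := hβ v j
  nlinarith [norm_nonneg (β v j), norm_nonneg ((N v : ℂ) ^ (-(1 + z)))]

lemma Nrm.exp_lE (h : Nrm N) {β : I → Fin k → ℂ} (hβ : ∀ v j, ‖β v j‖ ≤ 1) (v : I)
    {z : ℂ} (hz : 0 < z.re) :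
    Complex.exp (lE N β v z) = ∏ j, (1 - β v j * (N v : ℂ) ^ (-(1 + z)))⁻¹ := by
  unfold lE
  rw [Complex.exp_sum]
  refine Finset.prod_congr rfl fun j _ => ?_
  rw [Complex.exp_neg, Complex.exp_log]
  intro h0
  have h1 := h.norm_lt hβ v j hz
  have h2 : β v j * (N v : ℂ) ^ (-(1 + z)) = 1 := by linear_combination -h0
  rw [h2, norm_one] at h1
  exact lt_irrefl _ h1

lemma Nrm.hasSum_fib (h : Nrm N) {β : I → Fin k → ℂ} (hβ : ∀ v j, ‖β v j‖ ≤ 1)
    (v : I) {z : ℂ} (hz : 0 < z.re) :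
    HasSum (fun n : ℕ => c0E N β (v, n) * Complex.exp (-(z * uE N (v, n)))) (lE N β v z) := by
  set X : ℂ := (N v : ℂ) ^ (-(1 + z)) with hX
  have h1 : ∀ j, HasSum (fun n : ℕ => (β v j * X) ^ (n + 1) / ((n + 1 : ℕ) : ℂ))
      (-Complex.log (1 - β v j * X)) := by
    intro j
    have h1 := Complex.hasSum_taylorSeries_neg_log (h.norm_lt hβ v j hz)
    rw [← hasSum_nat_add_iff' 1] at h1
    simpa only [Finset.range_one, Finset.sum_singleton, pow_zero, CharP.cast_eq_zero, div_zero,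
      sub_zero] using h1
  have h3 := hasSum_sum (s := (Finset.univ : Finset (Fin k))) fun j _ => h1 j
  unfold lE
  convert h3 using 1
  funext n
  unfold c0E pE
  simp only
  rw [mul_assoc, h.exp_uE, ← hX, div_mul_eq_mul_div, Finset.sum_mul, Finset.sum_div]
  refine Finset.sum_congr rfl fun j _ => ?_
  rw [mul_pow]

lemma Nrm.phi_c0E [Countable I] (h : Nrm N) {β : I → Fin k → ℂ} (hβ : ∀ v j, ‖β v j‖ ≤ 1) {z : ℂ}
    (hz : 0 < z.re) :
    HasSum (fun v => lE N β v z) (phi Measure.count (uE N) (c0E N β) z) := by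
  have h1 := phi_integrable (h.dat_c0E hβ) hz
  have h2 := integrable_count_iff.1 h1
  unfold phi
  rw [integral_count_eq h2]
  have h3 : Summable fun p : I × ℕ => c0E N β p * Complex.exp (-(z * uE N p)) :=
    h2.of_norm
  exact h3.hasSum.prod_fiberwise fun v => h.hasSum_fib hβ v hz

/-- **The Euler product.** -/
theorem Nrm.ld [Countable I] (h : Nrm N) {β : I → Fin k → ℂ} (hβ : ∀ v j, ‖β v j‖ ≤ 1)
    {L : ℂ → ℂ} (hL : ∀ z : ℂ, 0 < z.re →
      L z = ∏' v : I, ∏ j, (1 - β v j * (N v : ℂ) ^ (-(1 + z)))⁻¹) :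
    LD Measure.count (uE N) (cE N β) L ∧
      ∀ z : ℂ, 0 < z.re → Multipliable fun v : I => ∏ j, (1 - β v j * (N v : ℂ) ^ (-(1 + z)))⁻¹ := by
  have hP : ∀ z : ℂ, 0 < z.re → HasProd
      (fun v => ∏ j, (1 - β v j * (N v : ℂ) ^ (-(1 + z)))⁻¹)
      (Complex.exp (phi Measure.count (uE N) (c0E N β) z)) := by
    intro z hz
    have h1 := (h.phi_c0E hβ hz).cexp
    have h2 : (Complex.exp ∘ fun v => lE N β v z) =
        fun v => ∏ j, (1 - β v j * (N v : ℂ) ^ (-(1 + z)))⁻¹ := by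
      funext v
      exact h.exp_lE hβ v hz
    rw [h2] at h1
    exact h1
  have hLe : ∀ z : ℂ, 0 < z.re →
      L z = Complex.exp (phi Measure.count (uE N) (c0E N β) z) := by
    intro z hz
    rw [hL z hz]
    exact (hP z hz).tprod_eq
  refine ⟨⟨h.dat_cE hβ, fun z hz => ?_, fun z hz => ?_⟩, fun z hz => (hP z hz).multipliable⟩
  · have h1 := ((h.dat_c0E hβ).hasDerivAt (h.dat_cE hβ) (cE_eq β) hz).cexp
    have hop : IsOpen {w : ℂ | 0 < w.re} := isOpen_lt continuous_const Complex.continuous_re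
    have h2 : L =ᶠ[𝓝 z] fun z => Complex.exp (phi Measure.count (uE N) (c0E N β) z) := by
      filter_upwards [hop.mem_nhds (show z ∈ {w : ℂ | 0 < w.re} from hz)] with w hw
      exact hLe w hw
    refine (h1.congr_of_eventuallyEq h2).congr_deriv ?_
    rw [hLe z hz]
    ring
  · rw [hLe z hz]
    exact Complex.exp_ne_zero _

/-- the primes -/
lemma nrm_primes : Nrm (fun p : Nat.Primes => (p : ℕ)) where
  two := fun p => p.2.two_le
  sum := fun x hx => Nat.Primes.summable_rpow.2 (by linarith)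

end

end Pool.Agent.N881.GW
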