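import Pool.Agent.N881.GW.R1
import Pool.Agent.Helper605.TraceR

/-!
# Euler products attached to matrices
-/

set_option autoImplicit false

namespace Pool.Agent.N881.GW

open MeasureTheory Set Filter Topology

lemma exists_fin {k : ℕ} {s : Multiset ℂ} (h : s.card = k) :
    ∃ l : Fin k → ℂ, (Finset.univ : Finset (Fin k)).val.map l = s := by
  obtain ⟨L, rfl⟩ := Quot.exists_rep s
  have hL : L.length = k := h
  subst hL
  refine ⟨L.get, ?_⟩
  rw [Fin.univ_val_map, List.ofFn_get]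
  rfl

/-- **Eigenvalues.** -/
theorem eigen {k : ℕ} (M : Matrix (Fin k) (Fin k) ℂ) :
    ∃ l : Fin k → ℂ, (∀ x : ℂ, (1 - x • M).det = ∏ j, (1 - l j * x)) ∧
      (∀ n : ℕ, (M ^ n).trace = ∑ j, l j ^ n) ∧ ∀ j, M.charpoly.IsRoot (l j) := by
  have hne : M.charpoly ≠ 0 := (Matrix.charpoly_monic M).ne_zero
  have hsp := IsAlgClosed.splits M.charpoly
  have hcard : M.charpoly.roots.card = k := by
    rw [← hsp.natDegree_eq_card_roots, Matrix.charpoly_natDegree_eq_dim, Fintype.card_fin]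
  obtain ⟨l, hl⟩ := exists_fin hcard
  have hev : ∀ t : ℂ, M.charpoly.eval t = ∏ j, (t - l j) := by
    intro t
    have h1 := hsp.eq_prod_roots
    rw [(Matrix.charpoly_monic M).leadingCoeff, Polynomial.C_1, one_mul] at h1
    conv_lhs => rw [h1]
    rw [Polynomial.eval_multiset_prod, Multiset.map_map, ← hl, Multiset.map_map,
      Finset.prod_eq_multiset_prod]
    congr 1
    refine Multiset.map_congr rfl fun j _ => ?_
    simp
  refine ⟨l, fun x => ?_, fun n => ?_, fun j => ?_⟩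
  · rcases eq_or_ne x 0 with rfl | hx
    · simp
    · have h1 : (1 - x • M) = x • (Matrix.scalar (Fin k) x⁻¹ - M) := by
        rw [smul_sub]
        congr 1
        rw [Matrix.scalar_apply, ← Matrix.smul_one_eq_diagonal, smul_smul, mul_inv_cancel₀ hx,
          one_smul]
      have h2 : x ^ k = ∏ _j : Fin k, x := by simp
      rw [h1, Matrix.det_smul, ← Matrix.eval_charpoly, hev, Fintype.card_fin, h2,
        ← Finset.prod_mul_distrib]
      refine Finset.prod_congr rfl fun j _ => ?_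
      field_simp
  · rw [Pool.Agent.Helper605.trace_pow_roots, ← hl, Multiset.map_map]
    rfl
  · have h1 : l j ∈ M.charpoly.roots := by
      rw [← hl]
      exact Multiset.mem_map_of_mem l (Finset.mem_univ_val j)
    exact (Polynomial.mem_roots hne).1 h1

section

variable {k : ℕ}

open Classical in
/-- the Euler product -/
noncomputable def mprod (M : Nat.Primes → Matrix (Fin k) (Fin k) ℂ) (S : Finset Nat.Primes)
    (s : ℂ) : ℂ :=
  ∏' p : Nat.Primes, if p ∈ S then 1 else ((1 - ((p : ℕ) : ℂ) ^ (-s) • M p).det)⁻¹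

open Classical in
/-- the average at the point `e` -/
noncomputable def mavg (M : Nat.Primes → Matrix (Fin k) (Fin k) ℂ) (S : Finset Nat.Primes)
    (e A x : ℝ) : ℂ :=
  (√(A / (Real.pi * Real.log x)) : ℂ) *
    ∑' q : Nat.Primes × ℕ, if q.1 ∈ S then 0 else
      (M q.1 ^ (q.2 + 1)).trace * (Real.log ((q.1 : ℕ) : ℝ) : ℂ) *
        ((((q.1 : ℕ) : ℝ) ^ (-((q.2 + 1) * e)) : ℝ) : ℂ) *
        (Real.exp (-(A * ((q.2 + 1) * Real.log ((q.1 : ℕ) : ℝ) - Real.log x) ^ 2
          / Real.log x)) : ℂ)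

/-- **The Euler product of matrices.** -/
theorem mprod_data (M : Nat.Primes → Matrix (Fin k) (Fin k) ℂ) (S : Finset Nat.Primes) {κ : ℝ}
    (hκ : ∀ p : Nat.Primes, p ∉ S → ∀ l : ℂ, (M p).charpoly.IsRoot l → ‖l‖ ≤ ((p : ℕ) : ℝ) ^ κ) :
    ∃ c : EI Nat.Primes → ℂ,
      LD Measure.count (uE fun p : Nat.Primes => (p : ℕ)) c
        (fun z => mprod M S (((κ + 1 : ℝ) : ℂ) + z)) ∧
      (∀ A x : ℝ, 0 < A → 1 < x →
        MM Measure.count (uE fun p : Nat.Primes => (p : ℕ)) c A (Real.log x) 0 =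
          mavg M S (κ + 1) A x) ∧
      ∀ s : ℂ, κ + 1 < s.re → Multipliable fun p : Nat.Primes =>
        (open Classical in if p ∈ S then (1 : ℂ) else
          ((1 - ((p : ℕ) : ℂ) ^ (-s) • M p).det)⁻¹) := by
  classical
  choose l h1 h2 h3 using fun p => eigen (M p)
  have hp0 : ∀ p : Nat.Primes, (0 : ℝ) < ((p : ℕ) : ℝ) := fun p => by exact_mod_cast p.2.pos
  have hpc : ∀ p : Nat.Primes, (((p : ℕ)) : ℂ) ≠ 0 := fun p => by exact_mod_cast p.2.ne_zero
  set β : Nat.Primes → Fin k → ℂ := fun p j =>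
    if p ∈ S then 0 else l p j * ((((p : ℕ) : ℝ) ^ (-κ) : ℝ) : ℂ) with hβ
  have hβ1 : ∀ p j, ‖β p j‖ ≤ 1 := by
    intro p j
    simp only [hβ]
    split_ifs with hp
    · simp
    · rw [norm_mul, Complex.norm_real, Real.norm_of_nonneg (Real.rpow_nonneg (hp0 p).le _),
        Real.rpow_neg (hp0 p).le, ← div_eq_mul_inv, div_le_one (Real.rpow_pos_of_pos (hp0 p) _)]
      exact hκ p hp _ (h3 p j)
  have hloc : ∀ (p : Nat.Primes) (z : ℂ), (if p ∈ S then (1 : ℂ) else
      ((1 - ((p : ℕ) : ℂ) ^ (-(((κ + 1 : ℝ) : ℂ) + z)) • M p).det)⁻¹) =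
      ∏ j, (1 - β p j * ((p : ℕ) : ℂ) ^ (-(1 + z)))⁻¹ := by
    intro p z
    by_cases hp : p ∈ S
    · simp [hβ, hp]
    · rw [if_neg hp, h1, ← Finset.prod_inv_distrib]
      refine Finset.prod_congr rfl fun j _ => ?_
      simp only [hβ, if_neg hp]
      congr 2
      rw [mul_assoc]
      congr 1
      rw [Complex.ofReal_cpow (hp0 p).le, Complex.ofReal_natCast, ← Complex.cpow_add _ _ (hpc p)]
      congr 1
      push_cast
      ring
  have hld := nrm_primes.ld hβ1 (L := fun z => mprod M S (((κ + 1 : ℝ) : ℂ) + z))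
    fun z _ => by
      unfold mprod
      exact tprod_congr fun p => hloc p z
  refine ⟨cE (fun p : Nat.Primes => (p : ℕ)) β, hld.1, fun A x hA hx => ?_, fun s hs => ?_⟩
  · have hy : 0 < Real.log x := Real.log_pos hx
    have hint := integrable_count_iff.1 ((nrm_primes.dat_cE hβ1).ker_integrable hA hy 0)
    unfold MM
    rw [integral_count_eq hint]
    unfold mavg
    rw [← tsum_mul_left]
    refine tsum_congr fun q => ?_
    obtain ⟨p, n⟩ := q
    by_cases hp : p ∈ S
    · have h4 : cE (fun p : Nat.Primes => (p : ℕ)) β (p, n) = 0 := by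
        unfold cE pE
        simp [hβ, hp]
      rw [h4, if_pos hp]
      simp
    · rw [if_neg hp, h2]
      unfold cE pE gk
      simp only [hβ, if_neg hp]
      have e1 : (∑ j, (l p j * ((((p : ℕ) : ℝ) ^ (-κ) : ℝ) : ℂ)) ^ (n + 1)) =
          (∑ j, l p j ^ (n + 1)) * ((((p : ℕ) : ℝ) ^ (-κ) : ℝ) : ℂ) ^ (n + 1) := by
        rw [Finset.sum_mul]
        exact Finset.sum_congr rfl fun j _ => mul_pow _ _ _
      have e2 : ((((p : ℕ) : ℝ) ^ (-κ) : ℝ) : ℂ) ^ (n + 1) *
          Complex.exp (-(uE (fun p : Nat.Primes => (p : ℕ)) (p, n) : ℂ)) =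
          ((((p : ℕ) : ℝ) ^ (-(((n : ℝ) + 1) * (κ + 1))) : ℝ) : ℂ) := by
        have h5 : Complex.exp (-(uE (fun p : Nat.Primes => (p : ℕ)) (p, n) : ℂ)) =
            ((Real.exp (-(uE (fun p : Nat.Primes => (p : ℕ)) (p, n))) : ℝ) : ℂ) := by
          push_cast
          rfl
        rw [h5, ← Complex.ofReal_pow, ← Complex.ofReal_mul]
        congr 1
        unfold uE
        rw [Real.rpow_def_of_pos (hp0 p), Real.rpow_def_of_pos (hp0 p), ← Real.exp_nat_mul,
          ← Real.exp_add]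
        congr 1
        push_cast
        ring
      have e3 : uE (fun p : Nat.Primes => (p : ℕ)) (p, n) =
          ((n : ℝ) + 1) * Real.log ((p : ℕ) : ℝ) := rfl
      rw [e1, e3]
      simp only [zero_mul, neg_zero, Complex.exp_zero, mul_one]
      rw [Complex.ofReal_mul (√(A / (Real.pi * Real.log x))) (Real.exp _)]
      rw [e3] at e2
      linear_combination ((√(A / (Real.pi * Real.log x)) : ℂ) * (∑ j, l p j ^ (n + 1)) *
        (Real.log ((p : ℕ) : ℝ) : ℂ) *
        (Real.exp (-(A * (((n : ℝ) + 1) * Real.log ((p : ℕ) : ℝ) - Real.log x) ^ 2 /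
          Real.log x)) : ℂ)) * e2
  · have h4 := hld.2 (s - ((κ + 1 : ℝ) : ℂ)) (by
      rw [Complex.sub_re, Complex.ofReal_re]
      linarith)
    refine h4.congr fun p => ?_
    rw [← hloc, add_sub_cancel]

end

end Pool.Agent.N881.GW
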