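import Pool.Agent.N881.GW.Q2

/-!
# The explicit formula at one point, in the usual coordinates
-/

set_option autoImplicit false

namespace Pool.Agent.N881.GW

open MeasureTheory Set Filter Topology

variable {Ω : Type} [MeasurableSpace Ω] {m : Measure Ω} {u : Ω → ℝ} {c : Ω → ℂ} {L : ℂ → ℂ}
  {e : ℝ} {avg : ℝ → ℝ → ℂ}

/-- the contribution of the zeros and poles -/
noncomputable def ctr (μ : ℂ → ℤ) (e A κ x : ℝ) : ℂ :=
  ∑ᶠ r ∈ {r : ℂ | μ r ≠ 0 ∧ -(2 * A) < (r - e).re ∧ -κ < ((r - e) + (r - e) ^ 2 / (4 * A)).re},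
    (μ r : ℂ) * (x : ℂ) ^ ((r - e) + (r - e) ^ 2 / (4 * A))

/-- the formula -/
def Fm (avg : ℝ → ℝ → ℂ) (μ : ℂ → ℤ) (e A κ X : ℝ) : Prop :=
  ∃ C : ℝ, ∀ x : ℝ, X ≤ x → ‖avg A x + ctr μ e A κ x‖ ≤ C * x ^ (-κ)

lemma ctr_eq (μ : ℂ → ℤ) {A κ x : ℝ} (hA : 0 < A) (hx : 0 < x) :
    ctr μ e A κ x = ∑ᶠ w ∈ ZR (fun w => μ (w + e)) A κ,
      ((μ (w + e) : ℤ) : ℂ) * XX A (Real.log x) w := by
  unfold ctr
  refine finsum_mem_eq_of_bijOn (fun r => r - e) ⟨?_, ?_, ?_⟩ ?_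
  · rintro r ⟨h1, h2, h3⟩
    refine ⟨?_, h2, ?_⟩
    · simpa using h1
    · rw [← xr_eq hA.ne']
      exact h3
  · intro a _ b _ hab
    simpa using hab
  · rintro w ⟨h1, h2, h3⟩
    refine ⟨w + e, ⟨h1, ?_, ?_⟩, by simp⟩
    · rw [add_sub_cancel_right]
      exact h2
    · rw [add_sub_cancel_right, xr_eq hA.ne']
      exact h3
  · intro r _
    have hx0 : (x : ℂ) ≠ 0 := by exact_mod_cast hx.ne'
    simp only [sub_add_cancel]
    congr 1
    unfold XX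
    rw [Complex.cpow_def_of_ne_zero hx0, Complex.ofReal_log hx.le]

lemma Fm_iff (havg : ∀ A x : ℝ, 0 < A → 1 < x → MM m u c A (Real.log x) 0 = avg A x)
    (μ : ℂ → ℤ) {A κ X : ℝ} (hA : 0 < A) (hX : 1 < X) :
    Fm avg μ e A κ X ↔ OF m u c (fun w => μ (w + e)) A κ (Real.log X) := by
  have hX0 : 0 < X := by linarith
  unfold Fm OF
  refine exists_congr fun C => ⟨fun h y hy => ?_, fun h x hx => ?_⟩
  · have h2 : X ≤ Real.exp y := (Real.log_le_iff_le_exp hX0).1 hy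
    have h1 := h (Real.exp y) h2
    rw [ctr_eq μ hA (Real.exp_pos y), ← havg A (Real.exp y) hA (by linarith), Real.log_exp,
      Real.rpow_def_of_pos (Real.exp_pos y), Real.log_exp] at h1
    have e1 : y * -κ = -(κ * y) := by ring
    rwa [e1] at h1
  · have hx0 : 0 < x := by linarith
    have h1 := h (Real.log x) (Real.log_le_log hX0 hx)
    rw [ctr_eq μ hA hx0, ← havg A x hA (by linarith), Real.rpow_def_of_pos hx0]
    have e1 : Real.log x * -κ = -(κ * Real.log x) := by ring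
    rwa [e1]

lemma Fm_iff' (havg : ∀ A x : ℝ, 0 < A → 1 < x → MM m u c A (Real.log x) 0 = avg A x)
    (μ : ℂ → ℤ) {A κ : ℝ} (hA : 0 < A) :
    (∃ X : ℝ, Fm avg μ e A κ X) ↔ ∃ Y : ℝ, OF m u c (fun w => μ (w + e)) A κ Y := by
  constructor
  · rintro ⟨X, C, hC⟩
    have h2 : (1 : ℝ) < max X 2 := lt_of_lt_of_le one_lt_two (le_max_right _ _)
    exact ⟨Real.log (max X 2), (Fm_iff havg μ hA h2).1
      ⟨C, fun x hx => hC x ((le_max_left _ _).trans hx)⟩⟩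
  · rintro ⟨Y, C, hC⟩
    have h2 : (1 : ℝ) < max (Real.exp Y) 2 := lt_of_lt_of_le one_lt_two (le_max_right _ _)
    refine ⟨max (Real.exp Y) 2, (Fm_iff havg μ hA h2).2 ⟨C, fun y hy => hC y ?_⟩⟩
    refine le_trans ?_ hy
    rw [Real.le_log_iff_exp_le (by positivity)]
    exact le_max_left _ _

lemma shift_fin {μ : ℂ → ℤ} {A R : ℝ}
    (h : {r : ℂ | μ r ≠ 0 ∧ e - A < r.re ∧ |r.im| < R}.Finite) :
    {w : ℂ | μ (w + e) ≠ 0 ∧ w ∈ box A R}.Finite := by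
  refine (h.image fun r : ℂ => r - (e : ℂ)).subset ?_
  rintro w ⟨h1, h2, h3⟩
  refine ⟨w + e, ⟨h1, ?_, ?_⟩, by simp⟩
  · simp
    linarith
  · simpa using h3

lemma shift_mer (μ : ℂ → ℤ) (P : ℝ → Prop) :
    (∃ Λ : ℂ → ℂ, (∀ z : ℂ, 0 < z.re → Λ z = L (e + z)) ∧ ∀ z : ℂ, P (z.re) →
        MeromorphicAt Λ z ∧ meromorphicOrderAt Λ z = (μ (z + e) : WithTop ℤ)) ↔
    ∃ F : ℂ → ℂ, (∀ s : ℂ, e < s.re → F s = L s) ∧ ∀ s : ℂ, P (s.re - e) →
        MeromorphicAt F s ∧ meromorphicOrderAt F s = (μ s : WithTop ℤ) := by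
  constructor
  · rintro ⟨Λ, h1, h2⟩
    refine ⟨fun s => Λ (s - e), fun s hs => ?_, fun s hs => ?_⟩
    · have := h1 (s - e) (by simpa using hs)
      show Λ (s - e) = _
      rw [this, add_sub_cancel]
    · obtain ⟨h3, h4⟩ := h2 (s - e) (by simpa using hs)
      refine ⟨meromorphicAt_fun_comp_sub_const_iff_meromorphicAt.2 h3, ?_⟩
      rw [meromorphicOrderAt_fun_comp_sub_const_eq_meromorphicOrderAt, h4, sub_add_cancel]
  · rintro ⟨F, h1, h2⟩
    refine ⟨fun z => F (z + e), fun z hz => ?_, fun z hz => ?_⟩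
    · show F (z + e) = _
      rw [h1 _ (by simpa using hz), add_comm]
    · obtain ⟨h3, h4⟩ := h2 (z + e) (by simpa using hz)
      refine ⟨meromorphicAt_fun_comp_add_const_iff_meromorphicAt.2 h3, ?_⟩
      rw [meromorphicOrderAt_fun_comp_add_const_eq_meromorphicOrderAt, h4]

/-- **The criterion for a half-plane.** -/
theorem LD.half [SFinite m] (E : LD m u c fun z => L (e + z))
    (havg : ∀ A x : ℝ, 0 < A → 1 < x → MM m u c A (Real.log x) 0 = avg A x) {μ : ℂ → ℤ}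
    (hμ0 : ∀ r : ℂ, e < r.re → μ r = 0) {S : Set ℝ} (hS : ∀ b ∈ S, 0 < b)
    (hfin : ∀ A : ℝ, 0 < A → (∃ b ∈ S, A < b) → ∀ R : ℝ,
      {r : ℂ | μ r ≠ 0 ∧ e - A < r.re ∧ |r.im| < R}.Finite) :
    List.TFAE [
      ∃ F : ℂ → ℂ, (∀ s : ℂ, e < s.re → F s = L s) ∧ ∀ s : ℂ, (∃ b ∈ S, -b < s.re - e) →
        MeromorphicAt F s ∧ meromorphicOrderAt F s = (μ s : WithTop ℤ),
      ∀ κ : ℝ, 0 < κ → (∃ b ∈ S, κ < b) → ∀ A : ℝ, κ ≤ 2 * A →
        Fm avg μ e A (κ - κ ^ 2 / (4 * A)) 2,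
      ∀ κ : ℝ, 0 < κ → (∃ b ∈ S, κ < b) → ∃ A0 : ℝ, ∀ A : ℝ, A0 ≤ A → Fm avg μ e A κ 2,
      ∀ κ : ℝ, 0 < κ → (∃ b ∈ S, κ < b) → ∀ A0 : ℝ, ∃ A : ℝ, A0 ≤ A ∧
        ∃ X : ℝ, Fm avg μ e A κ X] := by
  have hμ0' : ∀ w : ℂ, 0 < w.re → (fun w => μ (w + e)) w = 0 := fun w hw =>
    hμ0 _ (by simpa using hw)
  have key := E.one (μ := fun w => μ (w + e)) hμ0' hS (fun A hA hb R => shift_fin (hfin A hA hb R))
    (Real.log_pos one_lt_two)
  have h0 := shift_mer (L := L) (e := e) μ fun t => ∃ b ∈ S, -b < t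
  have h12 := key.out 0 1
  have h13 := key.out 0 2
  have h14 := key.out 0 3
  tfae_have 1 ↔ 2 := by
    rw [← h0, h12]
    refine forall_congr' fun κ => forall_congr' fun hκ => forall_congr' fun _ =>
      forall_congr' fun A => forall_congr' fun hA => ?_
    exact (Fm_iff havg μ (by linarith) one_lt_two).symm
  tfae_have 1 → 3 := by
    intro h κ hκ hb
    obtain ⟨A0, hA0⟩ := h13.1 (h0.2 h) κ hκ hb
    refine ⟨max A0 1, fun A hA => (Fm_iff havg μ ?_ one_lt_two).2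
      (hA0 A ((le_max_left _ _).trans hA))⟩
    exact lt_of_lt_of_le one_pos ((le_max_right _ _).trans hA)
  tfae_have 3 → 4 := by
    intro h κ hκ hb A0
    obtain ⟨A1, hA1⟩ := h κ hκ hb
    exact ⟨max A0 A1, le_max_left _ _, 2, hA1 _ (le_max_right _ _)⟩
  tfae_have 4 → 1 := by
    intro h
    rw [← h0, h14]
    intro κ hκ hb A0
    obtain ⟨A, hA, hX⟩ := h κ hκ hb (max A0 1)
    have hA1 : 0 < A := lt_of_lt_of_le one_pos ((le_max_right _ _).trans hA)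
    exact ⟨A, (le_max_left _ _).trans hA, (Fm_iff' havg μ hA1).1 hX⟩
  tfae_finish

/-- **The criterion for the plane.** -/
theorem LD.whole [SFinite m] (E : LD m u c fun z => L (e + z))
    (havg : ∀ A x : ℝ, 0 < A → 1 < x → MM m u c A (Real.log x) 0 = avg A x) {μ : ℂ → ℤ}
    (hμ0 : ∀ r : ℂ, e < r.re → μ r = 0)
    (hfin : ∀ A R : ℝ, {r : ℂ | μ r ≠ 0 ∧ e - A < r.re ∧ |r.im| < R}.Finite) :
    List.TFAE [
      ∃ F : ℂ → ℂ, (∀ s : ℂ, e < s.re → F s = L s) ∧ ∀ s : ℂ,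
        MeromorphicAt F s ∧ meromorphicOrderAt F s = (μ s : WithTop ℤ),
      ∀ A : ℝ, 0 < A → Fm avg μ e A A 2,
      ∀ κ A0 : ℝ, ∃ A : ℝ, A0 ≤ A ∧ ∃ X : ℝ, Fm avg μ e A κ X] := by
  have hμ0' : ∀ w : ℂ, 0 < w.re → (fun w => μ (w + e)) w = 0 := fun w hw =>
    hμ0 _ (by simpa using hw)
  have key := E.plane (μ := fun w => μ (w + e)) hμ0' (fun A R => shift_fin (hfin A R))
    (Real.log_pos one_lt_two)
  have h0 := shift_mer (L := L) (e := e) μ fun _ => True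
  simp only [true_imp_iff] at h0
  have h12 := key.out 0 1
  have h13 := key.out 0 2
  tfae_have 1 ↔ 2 := by
    rw [← h0, h12]
    refine forall_congr' fun A => forall_congr' fun hA => ?_
    exact (Fm_iff havg μ hA one_lt_two).symm
  tfae_have 2 → 3 := by
    intro h κ A0
    have h1 := h13.1 (h12.2 fun A hA => (Fm_iff havg μ hA one_lt_two).1 (h A hA)) κ (max A0 1)
    obtain ⟨A, hA, hY⟩ := h1
    have hA1 : 0 < A := lt_of_lt_of_le one_pos ((le_max_right _ _).trans hA)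
    exact ⟨A, (le_max_left _ _).trans hA, (Fm_iff' havg μ hA1).2 hY⟩
  tfae_have 3 → 1 := by
    intro h
    rw [← h0, h13]
    intro κ A0
    obtain ⟨A, hA, hX⟩ := h κ (max A0 1)
    have hA1 : 0 < A := lt_of_lt_of_le one_pos ((le_max_right _ _).trans hA)
    exact ⟨A, (le_max_left _ _).trans hA, (Fm_iff' havg μ hA1).1 hX⟩
  tfae_finish

/-- the orders of a continuation to the plane -/
theorem LD.exists_orders [SFinite m] (E : LD m u c fun z => L (e + z)) {F : ℂ → ℂ}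
    (h1 : ∀ s : ℂ, e < s.re → F s = L s) (h2 : ∀ s : ℂ, MeromorphicAt F s) :
    ∃ μ : ℂ → ℤ, (∀ r : ℂ, e < r.re → μ r = 0) ∧
      (∀ A R : ℝ, {r : ℂ | μ r ≠ 0 ∧ e - A < r.re ∧ |r.im| < R}.Finite) ∧
      ∀ s : ℂ, meromorphicOrderAt F s = (μ s : WithTop ℤ) := by
  obtain ⟨μ, k1, k2, k3⟩ := E.orders (S := Ioi (0 : ℝ)) (fun b hb => hb)
    (Λ := fun z => F (z + e)) (fun z hz => by
      show F (z + e) = _
      rw [h1 _ (by simpa using hz), add_comm])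
    (fun z _ => meromorphicAt_fun_comp_add_const_iff_meromorphicAt.2 (h2 (z + e)))
  have hall : ∀ x : ℝ, ∃ b ∈ Ioi (0 : ℝ), x < b := fun x =>
    ⟨|x| + 1, by show 0 < |x| + 1; positivity, by have := le_abs_self x; linarith⟩
  refine ⟨fun r => μ (r - e), fun r hr => k1 _ (by simpa using hr), fun A R => ?_, fun s => ?_⟩
  · refine ((k2 (max A 1) (by positivity) (hall _) R).image fun w : ℂ => w + (e : ℂ)).subset ?_
    rintro r ⟨h3, h4, h5⟩
    refine ⟨r - e, ⟨h3, ?_, ?_⟩, by simp⟩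
    · have := le_max_left A 1
      simp
      linarith
    · simpa using h5
  · obtain ⟨b, hb, hlt⟩ := hall (-(s.re - e))
    have h3 := k3 (s - e) ⟨b, hb, by simp; linarith⟩
    rw [meromorphicOrderAt_fun_comp_add_const_eq_meromorphicOrderAt, sub_add_cancel] at h3
    exact h3

end Pool.Agent.N881.GW
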