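import Pool.Agent.N881.GW.O2
import Pool.Agent.TH942.SL.Prim

/-!
# From the function to the averages, for a fixed parameter, along a hyperbola
-/

set_option autoImplicit false

namespace Pool.Agent.N881.GW

open MeasureTheory Set Filter Topology

/-- the hyperbola -/
noncomputable def hyp (A k θ : ℝ) : ℂ :=
  ((-(2 * A) + k * Real.cosh θ : ℝ) : ℂ) + ((k * Real.sinh θ : ℝ) : ℂ) * Complex.I

lemma re_mk (x y : ℝ) : ((x : ℂ) + (y : ℂ) * Complex.I).re = x := by simp

lemma im_mk (x y : ℝ) : ((x : ℂ) + (y : ℂ) * Complex.I).im = y := by simp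

lemma hyp_re (A k θ : ℝ) : (hyp A k θ).re = -(2 * A) + k * Real.cosh θ := re_mk _ _

lemma hyp_im (A k θ : ℝ) : (hyp A k θ).im = k * Real.sinh θ := im_mk _ _

lemma hyp_xr {A κ : ℝ} (hA : 0 < A) (hκ : κ ≤ A) (θ : ℝ) :
    xr A (hyp A (√(4 * A * (A - κ))) θ) = -κ := by
  have hk : √(4 * A * (A - κ)) ^ 2 = 4 * A * (A - κ) :=
    Real.sq_sqrt (mul_nonneg (by positivity) (by linarith))
  set k := √(4 * A * (A - κ))
  have hc := Real.cosh_sq θ
  unfold xr
  rw [hyp_re, hyp_im]
  have h1 : -(2 * A) + k * Real.cosh θ + ((-(2 * A) + k * Real.cosh θ) ^ 2 -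
      (k * Real.sinh θ) ^ 2) / (4 * A) =
      (k ^ 2 * (Real.cosh θ ^ 2 - Real.sinh θ ^ 2) - 4 * A * A) / (4 * A) := by
    field_simp
    ring
  rw [h1, hc, hk]
  field_simp
  ring

/-- the derivative -/
noncomputable def hyp' (k θ : ℝ) : ℂ :=
  ((k * Real.sinh θ : ℝ) : ℂ) + ((k * Real.cosh θ : ℝ) : ℂ) * Complex.I

lemma hyp_deriv (A k θ : ℝ) : HasDerivAt (hyp A k) (hyp' k θ) θ := by
  unfold hyp hyp'
  have h1 : HasDerivAt (fun θ : ℝ => -(2 * A) + k * Real.cosh θ) (k * Real.sinh θ) θ :=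
    ((Real.hasDerivAt_cosh θ).const_mul k).const_add _
  have h2 : HasDerivAt (fun θ : ℝ => k * Real.sinh θ) (k * Real.cosh θ) θ :=
    (Real.hasDerivAt_sinh θ).const_mul k
  exact h1.ofReal_comp.add (h2.ofReal_comp.mul_const _)

lemma hyp_cont (A k : ℝ) : Continuous (hyp A k) :=
  continuous_iff_continuousAt.2 fun θ => (hyp_deriv A k θ).continuousAt

lemma hyp'_cont (k : ℝ) : Continuous (hyp' k) := by
  unfold hyp'
  have h1 : Continuous fun θ : ℝ => k * Real.sinh θ := Real.continuous_sinh.const_mul k |>.congr fun _ => rfl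
  have h2 : Continuous fun θ : ℝ => k * Real.cosh θ := Real.continuous_cosh.const_mul k |>.congr fun _ => rfl
  exact (Complex.continuous_ofReal.comp h1).add
    ((Complex.continuous_ofReal.comp h2).mul continuous_const)

/-- **A continuation makes the averages small,** to the right of a hyperbola. -/
theorem fwd_hyp {Ω : Type} [MeasurableSpace Ω] {m : Measure Ω} {u : Ω → ℝ} {c : Ω → ℂ}
    [SFinite m] (D : Dat m u c) {A κ κ0 : ℝ} (hA : 0 < A) (hκ : 0 ≤ κ) (hκκ : κ < κ0)
    (hκ0 : κ0 ≤ A) {H : ℂ → ℂ} (hH : DifferentiableOn ℂ H (reg A κ0))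
    (hHphi : ∀ z ∈ reg A κ0, 0 < z.re → H z = phi m u c z) {y0 : ℝ} (hy0 : 0 < y0) :
    ∃ C : ℝ, ∀ y : ℝ, y0 ≤ y → ‖MM m u c A y 0‖ ≤ C * Real.exp (-(κ * y)) := by
  set k : ℝ := √(4 * A * (A - κ)) with hk
  have hkpos : 0 < 4 * A * (A - κ) := mul_pos (by positivity) (by linarith)
  have hk0 : 0 < k := Real.sqrt_pos.2 hkpos
  have hksq : k ^ 2 = 4 * A * (A - κ) := Real.sq_sqrt hkpos.le
  set T : ℝ := √(1 + 4 * A + 4 * A * κ) with hT
  have hTsq : T ^ 2 = 1 + 4 * A + 4 * A * κ := Real.sq_sqrt (by positivity)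
  have hT0 : 0 < T := Real.sqrt_pos.2 (by positivity)
  set Θ : ℝ := Real.arsinh (T / k) with hΘ
  have hsinh : k * Real.sinh Θ = T := by
    rw [hΘ, Real.sinh_arsinh]
    field_simp
  have hcosh : -(2 * A) + k * Real.cosh Θ = 1 := by
    have h1 : (k * Real.cosh Θ) ^ 2 = (1 + 2 * A) ^ 2 := by
      have h2 := Real.cosh_sq Θ
      have h3 : (k * Real.cosh Θ) ^ 2 = (k * Real.sinh Θ) ^ 2 + k ^ 2 := by
        rw [mul_pow, h2]
        ring
      rw [h3, hsinh, hTsq, hksq]
      ring
    have h4 : k * Real.cosh Θ = 1 + 2 * A :=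
      (pow_left_inj₀ (mul_nonneg hk0.le (Real.cosh_pos _).le) (by positivity) two_ne_zero).1 h1
    linarith
  have hend : hyp A k Θ = 1 + T * Complex.I := by
    unfold hyp
    rw [hcosh, hsinh]
    push_cast
    ring
  have hend' : hyp A k (-Θ) = 1 + ((-T : ℝ) : ℂ) * Complex.I := by
    unfold hyp
    rw [Real.cosh_neg, Real.sinh_neg, hcosh, mul_neg, hsinh]
    push_cast
    ring
  have hmem : ∀ θ : ℝ, hyp A k θ ∈ reg A κ0 := by
    intro θ
    refine ⟨?_, ?_⟩
    · rw [hyp_re]
      have : 0 < k * Real.cosh θ := mul_pos hk0 (Real.cosh_pos θ)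
      linarith
    · rw [hk, hyp_xr hA (by linarith) θ]
      linarith
  have hmem1 : ∀ t : ℝ, |t| ≤ T → (1 : ℂ) + t * Complex.I ∈ reg A κ0 := by
    intro t ht
    have hr : ((1 : ℂ) + t * Complex.I).re = 1 := by simp
    have hi : ((1 : ℂ) + t * Complex.I).im = t := by simp
    refine ⟨by rw [hr]; linarith, ?_⟩
    unfold xr
    rw [hr, hi]
    have h1 : t ^ 2 ≤ T ^ 2 := by
      rw [← sq_abs t]
      exact pow_le_pow_left₀ (abs_nonneg t) ht 2
    have h2 : (1 : ℝ) + (1 ^ 2 - t ^ 2) / (4 * A) = -κ + (T ^ 2 - t ^ 2) / (4 * A) := by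
      rw [hTsq]
      field_simp
      ring
    rw [h2]
    have h3 : 0 ≤ (T ^ 2 - t ^ 2) / (4 * A) := div_nonneg (by linarith) (by positivity)
    linarith
  -- the bound on the hyperbola
  obtain ⟨S, hS⟩ : ∃ S : ℝ, ∀ θ ∈ Icc (-Θ) Θ, ‖H (hyp A k θ) * hyp' k θ‖ ≤ S := by
    have hcont : ContinuousOn (fun θ => H (hyp A k θ) * hyp' k θ) (Icc (-Θ) Θ) := by
      refine ContinuousOn.mul ?_ (hyp'_cont k).continuousOn
      exact hH.continuousOn.comp (hyp_cont A k).continuousOn fun θ _ => hmem θ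
    exact isCompact_Icc.exists_bound_of_continuousOn hcont
  set C2 : ℝ := ∫ t : ℝ, Real.exp (-(y0 / (4 * A) * (t ^ 2 - T ^ 2))) * KK m u c 1 with hC2
  refine ⟨(S * |Θ - -Θ| + C2) / (2 * Real.pi), fun y hy => ?_⟩
  have hy0' : 0 < y := by linarith
  set g : ℝ → ℂ := fun t => EE A y (p1 t) * phi m u c (p1 t) with hg
  have hrep := D.repr (z := 0) hA hy0' (by simp)
  simp only [zero_add] at hrep
  have hre : ∀ t : ℝ, (p1 t).re = 1 := fun t => by simp [p1]
  have hgint : Integrable g := by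
    refine ((EE_integrable hA hy0').mul_const (KK m u c 1 : ℂ)).mono ?_
      (Eventually.of_forall fun t => ?_)
    · have h1 : Continuous fun t : ℝ => phi m u c (p1 t) := by
        refine D.phi_diff.continuousOn.comp_continuous p1_cont fun t => ?_
        show 0 < (p1 t).re
        rw [hre]; exact one_pos
      exact (((EE_cont A y).comp p1_cont).mul h1).aestronglyMeasurable
    · rw [hg]
      simp only [norm_mul]
      refine mul_le_mul_of_nonneg_left ?_ (norm_nonneg _)
      rw [Complex.norm_real, Real.norm_of_nonneg (KK_nonneg _)]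
      exact norm_phi_le D one_pos (hre t).ge
  have hsplit : ∫ t, g t = (∫ t in Ioc (-T) T, g t) + ∫ t in (Ioc (-T) T)ᶜ, g t :=
    (integral_add_compl measurableSet_Ioc hgint).symm
  -- the outer part
  have hout : ‖∫ t in (Ioc (-T) T)ᶜ, g t‖ ≤ C2 * Real.exp (-(κ * y)) := by
    have hbi : Integrable fun t : ℝ => Real.exp (-(y0 / (4 * A) * (t ^ 2 - T ^ 2))) *
        KK m u c 1 := by
      have h1 := (integrable_exp_neg_mul_sq (b := y0 / (4 * A)) (by positivity)).const_mul
        (Real.exp (y0 / (4 * A) * T ^ 2) * KK m u c 1)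
      refine h1.congr (Eventually.of_forall fun t => ?_)
      simp only
      have : Real.exp (-(y0 / (4 * A) * (t ^ 2 - T ^ 2))) =
          Real.exp (y0 / (4 * A) * T ^ 2) * Real.exp (-(y0 / (4 * A)) * t ^ 2) := by
        rw [← Real.exp_add]; congr 1; ring
      rw [this]
      ring
    have h2 : ‖∫ t in (Ioc (-T) T)ᶜ, g t‖ ≤ ∫ t in (Ioc (-T) T)ᶜ,
        (Real.exp (-(y0 / (4 * A) * (t ^ 2 - T ^ 2))) * KK m u c 1) * Real.exp (-(κ * y)) := by
      refine norm_integral_le_of_norm_le (hbi.mul_const _).integrableOn ?_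
      refine (ae_restrict_iff' measurableSet_Ioc.compl).2 (Eventually.of_forall fun t ht => ?_)
      have ht2 : T ^ 2 ≤ t ^ 2 := by
        rw [mem_compl_iff, mem_Ioc, not_and_or, not_lt, not_le] at ht
        rcases ht with h | h
        · nlinarith
        · nlinarith
      rw [hg]
      simp only [norm_mul]
      rw [norm_EE hA.ne', p1_re, p1_im]
      have h3 : ‖phi m u c (p1 t)‖ ≤ KK m u c 1 := norm_phi_le D one_pos (hre t).ge
      have h4 : Real.exp (y * (1 + (1 ^ 2 - t ^ 2) / (4 * A))) ≤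
          Real.exp (-(y0 / (4 * A) * (t ^ 2 - T ^ 2))) * Real.exp (-(κ * y)) := by
        rw [← Real.exp_add]
        apply Real.exp_le_exp.2
        have h5 : y * (1 + (1 ^ 2 - t ^ 2) / (4 * A)) =
            -(y / (4 * A) * (t ^ 2 - T ^ 2)) + -(κ * y) := by
          rw [hTsq]
          field_simp
          ring
        rw [h5]
        have h6 : y0 / (4 * A) ≤ y / (4 * A) := div_le_div_of_nonneg_right hy (by positivity)
        have h7 := mul_le_mul_of_nonneg_right h6 (sub_nonneg.2 ht2)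
        linarith
      calc _ ≤ (Real.exp (-(y0 / (4 * A) * (t ^ 2 - T ^ 2))) * Real.exp (-(κ * y))) *
            KK m u c 1 := mul_le_mul h4 h3 (norm_nonneg _) (by positivity)
        _ = _ := by ring
    refine h2.trans ?_
    have h8 : ∫ t in (Ioc (-T) T)ᶜ,
        (Real.exp (-(y0 / (4 * A) * (t ^ 2 - T ^ 2))) * KK m u c 1) * Real.exp (-(κ * y)) ≤
        ∫ t, (Real.exp (-(y0 / (4 * A) * (t ^ 2 - T ^ 2))) * KK m u c 1) *
          Real.exp (-(κ * y)) := by
      refine setIntegral_le_integral (hbi.mul_const _) (Eventually.of_forall fun t => ?_)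
      have := KK_nonneg (m := m) (u := u) (c := c) 1
      simp only [Pi.zero_apply]
      positivity
    refine h8.trans (le_of_eq ?_)
    rw [integral_mul_const]
  -- the inner part
  have hin : ‖∫ t in Ioc (-T) T, g t‖ ≤ (S * |Θ - -Θ|) * Real.exp (-(κ * y)) := by
    set f : ℂ → ℂ := fun ζ => EE A y ζ * H ζ with hf
    have hfd : DifferentiableOn ℂ f (reg A κ0) := (EE_diff A y).differentiableOn.mul hH
    obtain ⟨P, hP⟩ := Pool.Agent.TH942.SL.convex_primitive (isOpen_reg A κ0) (convex_reg hA hκ0) hfd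
    have e1 : ∫ t in Ioc (-T) T, g t = ∫ t in (-T)..T, f (1 + t * Complex.I) := by
      rw [intervalIntegral.integral_of_le (by linarith)]
      refine setIntegral_congr_fun measurableSet_Ioc fun t ht => ?_
      rw [hg, hf]
      simp only
      have e2 : p1 t = 1 + t * Complex.I := rfl
      rw [e2, hHphi _ (hmem1 t (abs_le.2 ⟨ht.1.le, ht.2⟩)) (by simp)]
    have e3 : ∫ t in (-T)..T, f (1 + t * Complex.I) * Complex.I =
        P (1 + T * Complex.I) - P (1 + ((-T : ℝ) : ℂ) * Complex.I) := by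
      have hd : ∀ t ∈ uIcc (-T) T, HasDerivAt (fun t : ℝ => P (1 + t * Complex.I))
          (f (1 + t * Complex.I) * Complex.I) t := by
        intro t ht
        rw [uIcc_of_le (by linarith)] at ht
        have h1 := hP _ (hmem1 t (abs_le.2 ht))
        have h2 : HasDerivAt (fun t : ℝ => (1 : ℂ) + t * Complex.I) Complex.I t := by
          have h3 := ((Complex.ofRealCLM.hasDerivAt (x := t)).mul_const Complex.I).const_add
            (1 : ℂ)
          simpa using h3
        exact h1.comp t h2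
      refine intervalIntegral.integral_eq_sub_of_hasDerivAt hd ?_
      refine ContinuousOn.intervalIntegrable ?_
      rw [uIcc_of_le (by linarith)]
      refine ContinuousOn.mul ?_ continuousOn_const
      refine hfd.continuousOn.comp (by fun_prop) fun t ht => hmem1 t (abs_le.2 ht)
    have e4 : ∫ θ in (-Θ)..Θ, f (hyp A k θ) * hyp' k θ =
        P (hyp A k Θ) - P (hyp A k (-Θ)) := by
      refine intervalIntegral.integral_eq_sub_of_hasDerivAt
        (fun θ _ => (hP _ (hmem θ)).comp θ (hyp_deriv A k θ)) ?_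
      refine Continuous.intervalIntegrable ?_ _ _
      refine Continuous.mul ?_ (hyp'_cont k)
      exact hfd.continuousOn.comp_continuous (hyp_cont A k) hmem
    rw [hend, hend'] at e4
    have e5 : ‖∫ t in (-T)..T, f (1 + t * Complex.I)‖ =
        ‖∫ θ in (-Θ)..Θ, f (hyp A k θ) * hyp' k θ‖ := by
      rw [e4, ← e3, intervalIntegral.integral_mul_const, norm_mul, Complex.norm_I, mul_one]
    rw [e1, e5]
    have n1 : ‖∫ θ in (-Θ)..Θ, f (hyp A k θ) * hyp' k θ‖ ≤
        (S * Real.exp (-(κ * y))) * |Θ - -Θ| := by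
      refine intervalIntegral.norm_integral_le_of_norm_le_const fun θ hθ => ?_
      have hΘ0 : 0 ≤ Θ := by
        rw [hΘ, Real.arsinh_nonneg_iff]
        positivity
      rw [uIoc_of_le (by linarith)] at hθ
      have h1 := hS θ ⟨hθ.1.le, hθ.2⟩
      rw [hf]
      simp only
      rw [mul_assoc, norm_mul]
      have h2 : ‖EE A y (hyp A k θ)‖ = Real.exp (-(κ * y)) := by
        rw [norm_EE hA.ne']
        congr 1
        have h3 := hyp_xr hA (by linarith : κ ≤ A) θ
        unfold xr at h3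
        rw [← hk] at h3
        rw [h3]
        ring
      rw [h2, mul_comm]
      exact mul_le_mul_of_nonneg_right h1 (Real.exp_pos _).le
    refine n1.trans (le_of_eq ?_)
    ring
  -- the conclusion
  have h2pi : (0 : ℝ) < 2 * Real.pi := by positivity
  have hn : ‖(2 * Real.pi * MM m u c A y 0 : ℂ)‖ = 2 * Real.pi * ‖MM m u c A y 0‖ := by
    rw [norm_mul]
    congr 1
    rw [show (2 * Real.pi : ℂ) = ((2 * Real.pi : ℝ) : ℂ) by push_cast; ring, Complex.norm_real,
      Real.norm_of_nonneg h2pi.le]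
  have hfin : 2 * Real.pi * ‖MM m u c A y 0‖ ≤ (S * |Θ - -Θ| + C2) * Real.exp (-(κ * y)) := by
    rw [← hn, hrep]
    show ‖∫ t, g t‖ ≤ _
    rw [hsplit]
    calc _ ≤ ‖∫ t in Ioc (-T) T, g t‖ + ‖∫ t in (Ioc (-T) T)ᶜ, g t‖ := norm_add_le _ _
      _ ≤ _ := by rw [add_mul]; exact add_le_add hin hout
  rw [div_mul_eq_mul_div, le_div_iff₀ h2pi, mul_comm]
  exact hfin

end Pool.Agent.N881.GW
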