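import Pool.Agent.N881.GW.S1
import Pool.Agent.N881.GW.Q2

/-!
# The criterion for a fixed parameter
-/

set_option autoImplicit false

namespace Pool.Agent.N881.GW

open MeasureTheory Set Filter Topology

variable {Ω : Type} [MeasurableSpace Ω] {m : Measure Ω} {u : Ω → ℝ} {c : Ω → ℂ} {L : ℂ → ℂ}

/-- **The regularised logarithmic derivative,** on an open set. -/
lemma LD.reg_open (E : LD m u c L) {μ : ℂ → ℤ} {Λ : ℂ → ℂ} {U : Set ℂ} (hU : IsOpen U)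
    (hΛ : Cont L μ U Λ) {Z : Finset ℂ} (hZ0 : ∀ w ∈ Z, w.re ≤ 0)
    (hZ : ∀ z ∈ U, μ z ≠ 0 → z ∈ Z) :
    ∃ H : ℂ → ℂ, DifferentiableOn ℂ H U ∧ ∀ z ∈ U, 0 < z.re →
      H z = phi m u c z + ∑ w ∈ Z, (μ w : ℂ) / (z - w) := by
  classical
  obtain ⟨hΛ1, hΛ2⟩ := hΛ
  set G : ℂ → ℂ := fun z => Λ z * (PZ Z μ z)⁻¹ with hG
  have hGm : MeromorphicOn G U := fun z hz => (hΛ2 z hz).1.fun_mul (PZ_mer Z μ z).fun_inv
  have hGo : ∀ z ∈ U, meromorphicOrderAt G z = 0 := by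
    intro z hz
    have h1 := fun_meromorphicOrderAt_mul (hΛ2 z hz).1 (PZ_mer Z μ z).fun_inv
    rw [hG, h1, (hΛ2 z hz).2]
    have h2 : meromorphicOrderAt (fun w => (PZ Z μ w)⁻¹) z = -meromorphicOrderAt (PZ Z μ) z :=
      fun_meromorphicOrderAt_inv
    rw [h2, PZ_order]
    by_cases hm : z ∈ Z
    · rw [if_pos hm, ← WithTop.LinearOrderedAddCommGroup.coe_neg, ← WithTop.coe_add,
        add_neg_cancel, WithTop.coe_zero]
    · have h3 : μ z = 0 := by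
        by_contra hne
        exact hm (hZ z hz hne)
      rw [if_neg hm, h3]
      simp
  set N : ℂ → ℂ := toMeromorphicNFOn G U with hN
  have hNF : ∀ z ∈ U, MeromorphicNFAt N z := fun z hz => meromorphicNFOn_toMeromorphicNFOn G U hz
  have hNG : ∀ z ∈ U, N =ᶠ[𝓝[≠] z] G := fun z hz => hGm.toMeromorphicNFOn_eq_self_on_nhdsNE hz
  have hNo : ∀ z ∈ U, meromorphicOrderAt N z = 0 := fun z hz => by
    rw [meromorphicOrderAt_congr (hNG z hz), hGo z hz]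
  have hNa : ∀ z ∈ U, AnalyticAt ℂ N z := fun z hz =>
    ((hNF z hz).meromorphicOrderAt_nonneg_iff_analyticAt).1 (hNo z hz).ge
  have hN0 : ∀ z ∈ U, N z ≠ 0 := fun z hz =>
    ((hNF z hz).meromorphicOrderAt_eq_zero_iff).1 (hNo z hz)
  refine ⟨fun z => -(deriv N z / N z), fun z hz => ?_, fun z hzb hz0 => ?_⟩
  · have h1 := (hNa z hz).deriv.differentiableAt
    have h2 := (hNa z hz).differentiableAt
    exact ((h1.div h2 (hN0 z hz)).neg).differentiableWithinAt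
  · have hzZ : z ∉ Z := fun h => by
      have := hZ0 z h
      linarith
    have hP0 := PZ_ne μ hzZ
    have hLd := E.der z hz0
    have hPd := PZ_deriv μ hzZ
    have hQ := hLd.mul (hPd.inv hP0)
    have hev : N =ᶠ[𝓝 z] fun z => L z * (PZ Z μ z)⁻¹ := by
      have h1 : G =ᶠ[𝓝 z] fun z => L z * (PZ Z μ z)⁻¹ := by
        have hop : IsOpen ({z : ℂ | 0 < z.re} ∩ U) :=
          (isOpen_lt continuous_const Complex.continuous_re).inter hU
        filter_upwards [hop.mem_nhds ⟨hz0, hzb⟩] with w hw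
        rw [hG]
        simp only
        rw [hΛ1 w hw.2 hw.1]
      have h2 : N =ᶠ[𝓝[≠] z] fun z => L z * (PZ Z μ z)⁻¹ :=
        (hNG z hzb).trans (h1.filter_mono nhdsWithin_le_nhds)
      exact ((hNa z hzb).continuousAt.eventuallyEq_nhds_iff_eventuallyEq_nhdsNE
        hQ.continuousAt).1 h2
    have hNd := (hQ.congr_of_eventuallyEq hev).deriv
    have hNz : N z = L z * (PZ Z μ z)⁻¹ := hev.eq_of_nhds
    have hL0 := E.ne z hz0
    simp only
    rw [hNd, hNz, Pi.inv_apply]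
    field_simp
    ring

lemma reg_union {A κ0 : ℝ} (hκ0 : 0 < κ0) {z : ℂ} (hz : z ∈ GW.reg A κ0) :
    ∃ κ : ℝ, 0 ≤ κ ∧ κ < κ0 ∧ z ∈ GW.reg A κ := by
  obtain ⟨h1, h2⟩ := hz
  refine ⟨max 0 ((κ0 + -xr A z) / 2), le_max_left _ _, max_lt hκ0 (by linarith), h1, ?_⟩
  have := le_max_right 0 ((κ0 + -xr A z) / 2)
  linarith

/-- **The criterion for a fixed parameter.** -/
theorem LD.fixed [SFinite m] (E : LD m u c L) {μ : ℂ → ℤ} (hμ0 : ∀ w : ℂ, 0 < w.re → μ w = 0)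
    {A κ0 : ℝ} (hA : 0 < A) (hκ0 : 0 < κ0) (hκA : κ0 ≤ A)
    (hfin : ∀ κ : ℝ, κ < κ0 → (ZR μ A κ).Finite) {y0 : ℝ} (hy0 : 0 < y0) :
    List.TFAE [
      ∃ Λ : ℂ → ℂ, Cont L μ (GW.reg A κ0) Λ,
      ∀ κ : ℝ, κ < κ0 → OF m u c μ A κ y0,
      ∀ κ : ℝ, 0 ≤ κ → κ < κ0 → ∃ Y : ℝ, OF m u c μ A κ Y] := by
  classical
  tfae_have 1 → 2 := by
    rintro ⟨Λ, hΛ⟩ κ hκ
    set κ1 : ℝ := (max κ 0 + κ0) / 2 with hκ1
    have h0 : max κ 0 < κ0 := max_lt hκ hκ0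
    have h1 : max κ 0 < κ1 := by rw [hκ1]; linarith
    have h2 : κ1 < κ0 := by rw [hκ1]; linarith
    set Z : Finset ℂ := (hfin κ1 h2).toFinset with hZ
    have hmemZ : ∀ w, w ∈ Z ↔ w ∈ ZR μ A κ1 := fun w => by rw [hZ, Set.Finite.mem_toFinset]
    have hZ0 : ∀ w ∈ Z, w.re ≤ 0 := by
      intro w hw
      by_contra h
      exact ((hmemZ w).1 hw).1 (hμ0 w (not_le.1 h))
    have hΛ' : Cont L μ (GW.reg A κ1) Λ := ⟨fun z hz => hΛ.1 z (reg_mono h2.le hz),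
      fun z hz => hΛ.2 z (reg_mono h2.le hz)⟩
    obtain ⟨H, hH1, hH2⟩ := E.reg_open (isOpen_reg A κ1) hΛ' hZ0
      fun z hz hne => (hmemZ z).2 ⟨hne, hz⟩
    obtain ⟨C1, hC1⟩ := fwd_hyp (E.dat.sum (dat_poles Z μ hZ0)) hA (le_max_right κ 0) h1
      (h2.le.trans hκA) hH1 (fun z hz hz0 => by
        rw [phi_sum E.dat (dat_poles Z μ hZ0) hz0, phi_poles Z μ hZ0 hz0]
        exact hH2 z hz hz0) hy0
    have hκ'A : max κ 0 ≤ A := h0.le.trans hκA
    obtain ⟨C2, hC2⟩ := sum_conv1 hA hκ'A hy0 Z μ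
    have hOF : OF m u c μ A (max κ 0) y0 := by
      refine ⟨C1 + C2, fun y hy => ?_⟩
      have h3 := hC1 y hy
      have h4 := hC2 y hy
      have hyp : 0 < y := by linarith
      rw [MM_sum E.dat (dat_poles Z μ hZ0) hA hyp, MM_poles Z μ hA hyp] at h3
      simp only [sub_zero] at h3
      have hset : ZR μ A (max κ 0) = ↑(Z.filter fun w => w ∈ GW.reg A (max κ 0)) := by
        ext w
        rw [Finset.coe_filter]
        simp only [mem_ofPred_eq, hmemZ]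
        constructor
        · rintro ⟨h5, h6⟩
          exact ⟨⟨h5, reg_mono h1.le h6⟩, h6⟩
        · rintro ⟨h5, h6⟩
          exact ⟨h5.1, h6⟩
      rw [hset, finsum_mem_coe_finset]
      set S1 := ∑ w ∈ Z, (μ w : ℂ) * NN A y w
      set S2 := ∑ w ∈ Z with w ∈ GW.reg A (max κ 0), (μ w : ℂ) * XX A y w
      calc ‖MM m u c A y 0 + S2‖
          = ‖(MM m u c A y 0 + S1) - (S1 - S2)‖ := by congr 1; ring
        _ ≤ C1 * Real.exp (-(max κ 0 * y)) + C2 * Real.exp (-(max κ 0 * y)) :=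
            (norm_sub_le _ _).trans (add_le_add h3 h4)
        _ = _ := by ring
    exact hOF.mono hA hy0 (le_max_left _ _) (hfin _ h0)
  tfae_have 2 → 3 := fun h κ _ hκ => ⟨y0, h κ hκ⟩
  tfae_have 3 → 1 := by
    intro h
    set J : Type := {κ : ℝ // 0 ≤ κ ∧ κ < κ0} with hJ
    have key : ∀ j : J, ∃ Λ : ℂ → ℂ, Cont L μ (GW.reg A j.1) Λ := by
      rintro ⟨κ, h1, h2⟩
      obtain ⟨Y, hY⟩ := h κ h1 h2
      exact E.back1 hμ0 hA h1 (h2.le.trans hκA) (hfin κ h2) hY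
    choose F hF using key
    have h1re : (0 : ℝ) < (1 : ℂ).re := by rw [Complex.one_re]; exact one_pos
    obtain ⟨Λ, hΛ1, hΛ2⟩ := mer_glue (J := J) (U := fun j => GW.reg A j.1) (F := F)
      (V := {z : ℂ | 0 < z.re}) (L := L) (μ := μ)
      (isOpen_lt continuous_const Complex.continuous_re) E.an (fun j => isOpen_reg _ _)
      (fun i j => ((convex_reg hA (i.2.2.le.trans hκA)).inter
        (convex_reg hA (j.2.2.le.trans hκA))).isPreconnected) (z1 := 1)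
      (fun j => one_mem_reg hA j.2.1) h1re
      (fun j z hz hzV => (hF j).1 z hz hzV) (fun j z hz => (hF j).2 z hz)
    refine ⟨Λ, fun z _ hz0 => hΛ1 z hz0, fun z hz => ?_⟩
    obtain ⟨κ, h1, h2, h3⟩ := reg_union hκ0 hz
    exact hΛ2 ⟨κ, h1, h2⟩ z h3
  tfae_finish

end Pool.Agent.N881.GW
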