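import Pool.Agent.N881.GW.S2
import Pool.Agent.N881.GW.R3

/-!
# The criterion for a fixed parameter, at a point to the left of the edge
-/

set_option autoImplicit false

namespace Pool.Agent.N881.GW

open MeasureTheory Set Filter Topology

variable {Ω : Type} [MeasurableSpace Ω] {m : Measure Ω} {u : Ω → ℝ} {c : Ω → ℂ} {L : ℂ → ℂ}

/-- the new exponent -/
noncomputable def ks (b A κ : ℝ) : ℝ := (κ + b + b ^ 2 / (4 * A)) * (A / (A + b / 2))

lemma xr_shift {A b : ℝ} (hA : 0 < A) (hb : 0 ≤ b) (z : ℂ) :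
    xr A (z + b) = (b + b ^ 2 / (4 * A)) + (A + b / 2) / A * xr (A + b / 2) z := by
  have hA' : 0 < A + b / 2 := by linarith
  unfold xr
  have h1 : (z + (b : ℂ)).re = z.re + b := by simp
  have h2 : (z + (b : ℂ)).im = z.im := by simp
  rw [h1, h2]
  field_simp
  ring

lemma reg_shift {A b : ℝ} (hA : 0 < A) (hb : 0 ≤ b) (κ : ℝ) (z : ℂ) :
    z + (b : ℂ) ∈ reg A κ ↔ z ∈ reg (A + b / 2) (ks b A κ) := by
  have hA' : 0 < A + b / 2 := by linarith
  have h1 : (z + (b : ℂ)).re = z.re + b := by simp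
  have hpos : 0 < (A + b / 2) / A := by positivity
  have e1 : -(ks b A κ) < xr (A + b / 2) z ↔ -κ < xr A (z + b) := by
    rw [xr_shift hA hb, ← mul_lt_mul_iff_right₀ hpos]
    have e2 : (A + b / 2) / A * -(ks b A κ) = -(κ + b + b ^ 2 / (4 * A)) := by
      unfold ks
      field_simp
    rw [e2]
    constructor <;> intro h <;> linarith
  constructor
  · rintro ⟨h2, h3⟩
    refine ⟨?_, e1.2 h3⟩
    rw [h1] at h2
    linarith
  · rintro ⟨h2, h3⟩
    refine ⟨?_, e1.1 h3⟩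
    rw [h1]
    linarith

lemma ks_le {A b κ : ℝ} (hA : 0 < A) (hb : 0 ≤ b) (hκ : κ ≤ A) : ks b A κ ≤ A + b / 2 := by
  have hA' : 0 < A + b / 2 := by linarith
  unfold ks
  rw [mul_div_assoc', div_le_iff₀ hA']
  have h1 : (κ + b + b ^ 2 / (4 * A)) * A ≤ (A + b + b ^ 2 / (4 * A)) * A :=
    mul_le_mul_of_nonneg_right (by linarith) hA.le
  have h2 : (A + b + b ^ 2 / (4 * A)) * A = (A + b / 2) * (A + b / 2) := by
    field_simp
    ring
  linarith

lemma ks_pos {A b κ : ℝ} (hA : 0 < A) (hb : 0 ≤ b) (hκ : 0 < κ) : 0 < ks b A κ := by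
  unfold ks
  positivity

lemma ks_lt {A b κ κ1 : ℝ} (hA : 0 < A) (hb : 0 ≤ b) (h : κ < κ1) : ks b A κ < ks b A κ1 := by
  unfold ks
  have : 0 < A / (A + b / 2) := by positivity
  exact mul_lt_mul_of_pos_right (by linarith) this

lemma ks_surj {A b : ℝ} (hA : 0 < A) (hb : 0 ≤ b) (κ' : ℝ) : ∃ κ : ℝ, ks b A κ = κ' := by
  have hA' : 0 < A + b / 2 := by linarith
  refine ⟨κ' * ((A + b / 2) / A) - b - b ^ 2 / (4 * A), ?_⟩
  unfold ks
  field_simp
  ring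

lemma ks_mul {A b : ℝ} (hA : 0 < A) (hb : 0 ≤ b) (κ y : ℝ) :
    ks b A κ * (y * ((A + b / 2) / A)) = κ * y + y * (b + b ^ 2 / (4 * A)) := by
  have hA' : 0 < A + b / 2 := by linarith
  unfold ks
  field_simp
  ring

/-- the factor -/
noncomputable def fs (b A y : ℝ) : ℝ := Real.exp (y * (b + b ^ 2 / (4 * A)))

lemma fs_pos (b A y : ℝ) : 0 < fs b A y := Real.exp_pos _

lemma MM_fs {A b y : ℝ} (hA : 0 < A) (hb : 0 ≤ b) (hy : 0 < y) :
    MM m u c A y (-b) = (fs b A y : ℂ) * MM m u c (A + b / 2) (y * ((A + b / 2) / A)) 0 := by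
  have hA' : 0 < A + b / 2 := by linarith
  have h := MM_shift (m := m) (u := u) (c := c) (A := A) (A' := A + b / 2) (b := b)
    (y' := y * ((A + b / 2) / A)) hA rfl hA' hy (by ring) 0
  rw [zero_sub] at h
  rw [h]
  congr 2
  unfold fs
  congr 1
  field_simp
  ring

lemma XX_fs {A b : ℝ} (hA : 0 < A) (hb : 0 ≤ b) (y : ℝ) (z : ℂ) :
    XX A y (z + b) = (fs b A y : ℂ) * XX (A + b / 2) (y * ((A + b / 2) / A)) z := by
  have hA' : 0 < A + b / 2 := by linarith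
  have hAc : (A : ℂ) ≠ 0 := by exact_mod_cast hA.ne'
  have hne : (2 * (A : ℂ) + b) ≠ 0 := by
    have h1 : (2 * A + b : ℝ) ≠ 0 := by positivity
    exact_mod_cast h1
  unfold XX fs
  rw [Complex.ofReal_exp, ← Complex.exp_add]
  congr 1
  push_cast
  obtain ⟨D, hD⟩ : ∃ D : ℂ, D = 2 * A + b := ⟨_, rfl⟩
  rw [← hD] at hne
  have e1 : (A : ℂ) + b / 2 = D / 2 := by rw [hD]; ring
  have e2 : (b : ℂ) = D - 2 * A := by rw [hD]; ring
  rw [e1, e2]
  field_simp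
  ring

/-- the explicit formula at the point `-b` -/
def OC (m : Measure Ω) (u : Ω → ℝ) (c : Ω → ℂ) (μ : ℂ → ℤ) (b A κ y0 : ℝ) : Prop :=
  ∃ C : ℝ, ∀ y : ℝ, y0 ≤ y →
    ‖MM m u c A y (-b) + ∑ᶠ z ∈ {z : ℂ | μ z ≠ 0 ∧ z + (b : ℂ) ∈ reg A κ},
      (μ z : ℂ) * XX A y (z + b)‖ ≤ C * Real.exp (-(κ * y))

lemma OC_iff (μ : ℂ → ℤ) {b A κ y0 : ℝ} (hA : 0 < A) (hb : 0 ≤ b) (hy0 : 0 < y0)
    (hfin : {z : ℂ | μ z ≠ 0 ∧ z + (b : ℂ) ∈ reg A κ}.Finite) :
    OC m u c μ b A κ y0 ↔ OF m u c μ (A + b / 2) (ks b A κ) (y0 * ((A + b / 2) / A)) := by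
  classical
  have hA' : 0 < A + b / 2 := by linarith
  have hpos : 0 < (A + b / 2) / A := by positivity
  have hset : ZR μ (A + b / 2) (ks b A κ) = {z : ℂ | μ z ≠ 0 ∧ z + (b : ℂ) ∈ reg A κ} := by
    ext z
    simp only [ZR, mem_ofPred_eq, reg_shift hA hb]
  have key : ∀ y : ℝ, 0 < y → MM m u c A y (-b) +
      ∑ᶠ z ∈ {z : ℂ | μ z ≠ 0 ∧ z + (b : ℂ) ∈ reg A κ}, (μ z : ℂ) * XX A y (z + b) =
      (fs b A y : ℂ) * (MM m u c (A + b / 2) (y * ((A + b / 2) / A)) 0 +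
        ∑ᶠ w ∈ ZR μ (A + b / 2) (ks b A κ),
          (μ w : ℂ) * XX (A + b / 2) (y * ((A + b / 2) / A)) w) := by
    intro y hy
    rw [MM_fs hA hb hy, hset, mul_add]
    congr 1
    rw [finsum_mem_eq_finite_toFinset_sum _ hfin, finsum_mem_eq_finite_toFinset_sum _ hfin,
      Finset.mul_sum]
    refine Finset.sum_congr rfl fun z _ => ?_
    rw [XX_fs hA hb]
    ring
  have kexp : ∀ y : ℝ, fs b A y * Real.exp (-(ks b A κ * (y * ((A + b / 2) / A)))) =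
      Real.exp (-(κ * y)) := by
    intro y
    unfold fs
    rw [ks_mul hA hb, ← Real.exp_add]
    congr 1
    ring
  unfold OC OF
  refine exists_congr fun C => ⟨fun h y' hy' => ?_, fun h y hy => ?_⟩
  · set y : ℝ := y' / ((A + b / 2) / A) with hyd
    have hyy : y * ((A + b / 2) / A) = y' := by rw [hyd]; field_simp
    have hy1 : y0 ≤ y := by
      rw [hyd, le_div_iff₀ hpos]
      exact hy'
    have hy0' : 0 < y := by linarith
    have h1 := h y hy1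
    rw [key y hy0', norm_mul, Complex.norm_real, Real.norm_of_nonneg (fs_pos _ _ _).le, hyy,
      ← kexp y, hyy] at h1
    have h2 : fs b A y * ‖MM m u c (A + b / 2) y' 0 +
        ∑ᶠ w ∈ ZR μ (A + b / 2) (ks b A κ), (μ w : ℂ) * XX (A + b / 2) y' w‖ ≤
        fs b A y * (C * Real.exp (-(ks b A κ * y'))) := by
      refine h1.trans (le_of_eq ?_)
      ring
    exact le_of_mul_le_mul_left h2 (fs_pos _ _ _)
  · have hy0' : 0 < y := by linarith
    have h1 := h (y * ((A + b / 2) / A)) (mul_le_mul_of_nonneg_right hy hpos.le)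
    rw [key y hy0', norm_mul, Complex.norm_real, Real.norm_of_nonneg (fs_pos _ _ _).le,
      ← kexp y]
    have h2 := mul_le_mul_of_nonneg_left h1 (fs_pos b A y).le
    refine h2.trans (le_of_eq ?_)
    ring

/-- **The criterion at the point `-b`.** -/
theorem LD.fixed_shift [SFinite m] (E : LD m u c L) {μ : ℂ → ℤ}
    (hμ0 : ∀ w : ℂ, 0 < w.re → μ w = 0) {b A κ0 : ℝ} (hb : 0 ≤ b) (hA : 0 < A) (hκ0 : 0 < κ0)
    (hκA : κ0 ≤ A)
    (hfin : ∀ κ : ℝ, κ < κ0 → {z : ℂ | μ z ≠ 0 ∧ z + (b : ℂ) ∈ GW.reg A κ}.Finite) {y0 : ℝ}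
    (hy0 : 0 < y0) :
    List.TFAE [
      ∃ Λ : ℂ → ℂ, Cont L μ {z : ℂ | z + (b : ℂ) ∈ GW.reg A κ0} Λ,
      ∀ κ : ℝ, κ < κ0 → OC m u c μ b A κ y0,
      ∀ κ : ℝ, 0 ≤ κ → κ < κ0 → ∃ Y : ℝ, 0 < Y ∧ OC m u c μ b A κ Y] := by
  have hA' : 0 < A + b / 2 := by linarith
  have hpos : 0 < (A + b / 2) / A := by positivity
  have hset : ∀ κ : ℝ, ZR μ (A + b / 2) (ks b A κ) =
      {z : ℂ | μ z ≠ 0 ∧ z + (b : ℂ) ∈ GW.reg A κ} := by
    intro κ
    ext z
    simp only [ZR, mem_ofPred_eq, reg_shift hA hb]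
  have hfin' : ∀ κ' : ℝ, κ' < ks b A κ0 → (ZR μ (A + b / 2) κ').Finite := by
    intro κ' hκ'
    obtain ⟨κ, rfl⟩ := ks_surj hA hb κ'
    rw [hset]
    refine hfin κ ?_
    by_contra h
    rcases (not_lt.1 h).eq_or_lt with h1 | h1
    · rw [h1] at hκ'
      exact lt_irrefl _ hκ'
    · exact lt_asymm hκ' (ks_lt hA hb h1)
  have key := E.fixed hμ0 hA' (ks_pos hA hb hκ0) (ks_le hA hb hκA) hfin'
    (y0 := y0 * ((A + b / 2) / A)) (by positivity)
  have hreg : {z : ℂ | z + (b : ℂ) ∈ GW.reg A κ0} = GW.reg (A + b / 2) (ks b A κ0) := by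
    ext z
    exact reg_shift hA hb κ0 z
  rw [hreg]
  have h12 := key.out 0 1
  have h13 := key.out 0 2
  tfae_have 1 → 2 := by
    intro h κ hκ
    rw [OC_iff μ hA hb hy0 (hfin κ hκ)]
    exact h12.1 h _ (ks_lt hA hb hκ)
  tfae_have 2 → 3 := fun h κ _ hκ => ⟨y0, hy0, h κ hκ⟩
  tfae_have 3 → 1 := by
    intro h
    rw [h13]
    intro κ' hκ'0 hκ'
    obtain ⟨κ, rfl⟩ := ks_surj hA hb κ'
    have hκ : κ < κ0 := by
      by_contra h1
      rcases (not_lt.1 h1).eq_or_lt with h2 | h2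
      · rw [h2] at hκ'
        exact lt_irrefl _ hκ'
      · exact lt_asymm hκ' (ks_lt hA hb h2)
    have h0 : max κ 0 < κ0 := max_lt hκ hκ0
    obtain ⟨Y, hY0, hY⟩ := h (max κ 0) (le_max_right _ _) h0
    rw [OC_iff μ hA hb hY0 (hfin _ h0)] at hY
    refine ⟨Y * ((A + b / 2) / A), hY.mono hA' (by positivity) ?_ ?_⟩
    · rcases (le_max_left κ 0).eq_or_lt with h2 | h2
      · rw [← h2]
      · exact (ks_lt hA hb h2).le
    · rw [hset]
      exact hfin _ h0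
  tfae_finish

end Pool.Agent.N881.GW
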