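import Pool.Agent.N881.GW.S3

/-!
# The criterion for a fixed parameter, in the usual coordinates
-/

set_option autoImplicit false

namespace Pool.Agent.N881.GW

open MeasureTheory Set Filter Topology

variable {Ω : Type} [MeasurableSpace Ω] {m : Measure Ω} {u : Ω → ℝ} {c : Ω → ℂ} {L : ℂ → ℂ}
  {e e' : ℝ} {avg : ℝ → ℝ → ℂ}

lemma shift_pt (e e' : ℝ) (z : ℂ) : z + (e : ℂ) - (e' : ℂ) = z + ((e - e' : ℝ) : ℂ) := by
  push_cast
  ring

lemma ctr_eq' (μ : ℂ → ℤ) {A κ x : ℝ} (hA : 0 < A) (hx : 0 < x) :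
    ctr μ e' A κ x = ∑ᶠ z ∈ {z : ℂ | μ (z + e) ≠ 0 ∧ z + ((e - e' : ℝ) : ℂ) ∈ reg A κ},
      ((μ (z + e) : ℤ) : ℂ) * XX A (Real.log x) (z + ((e - e' : ℝ) : ℂ)) := by
  unfold ctr
  refine finsum_mem_eq_of_bijOn (fun r => r - e) ⟨?_, ?_, ?_⟩ ?_
  · rintro r ⟨h1, h2, h3⟩
    have e1 : r - (e : ℂ) + ((e - e' : ℝ) : ℂ) = r - e' := by
      push_cast
      ring
    refine ⟨?_, ?_⟩
    · simpa using h1
    · show r - (e : ℂ) + ((e - e' : ℝ) : ℂ) ∈ reg A κ
      rw [e1]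
      refine ⟨h2, ?_⟩
      rw [← xr_eq hA.ne']
      exact h3
  · intro a _ b _ hab
    simpa using hab
  · rintro w ⟨h1, h2, h3⟩
    refine ⟨w + e, ⟨h1, ?_, ?_⟩, by simp⟩
    · rw [shift_pt]
      exact h2
    · rw [shift_pt, xr_eq hA.ne']
      exact h3
  · intro r _
    have hx0 : (x : ℂ) ≠ 0 := by exact_mod_cast hx.ne'
    have e1 : r - (e : ℂ) + ((e - e' : ℝ) : ℂ) = r - e' := by
      push_cast
      ring
    simp only [sub_add_cancel, e1]
    congr 1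
    unfold XX
    rw [Complex.cpow_def_of_ne_zero hx0, Complex.ofReal_log hx.le]

lemma Fm_OC (havg : ∀ A x : ℝ, 0 < A → 1 < x →
      MM m u c A (Real.log x) (-((e - e' : ℝ) : ℂ)) = avg A x)
    (μ : ℂ → ℤ) {A κ X : ℝ} (hA : 0 < A) (hX : 1 < X) :
    Fm avg μ e' A κ X ↔ OC m u c (fun w => μ (w + e)) (e - e') A κ (Real.log X) := by
  have hX0 : 0 < X := by linarith
  unfold Fm OC
  refine exists_congr fun C => ⟨fun h y hy => ?_, fun h x hx => ?_⟩
  · have h2 : X ≤ Real.exp y := (Real.log_le_iff_le_exp hX0).1 hy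
    have h1 := h (Real.exp y) h2
    rw [ctr_eq' (e := e) μ hA (Real.exp_pos y), ← havg A (Real.exp y) hA (by linarith),
      Real.log_exp, Real.rpow_def_of_pos (Real.exp_pos y), Real.log_exp] at h1
    have e1 : y * -κ = -(κ * y) := by ring
    rwa [e1] at h1
  · have hx0 : 0 < x := by linarith
    have h1 := h (Real.log x) (Real.log_le_log hX0 hx)
    rw [ctr_eq' (e := e) μ hA hx0, ← havg A x hA (by linarith), Real.rpow_def_of_pos hx0]
    have e1 : Real.log x * -κ = -(κ * Real.log x) := by ring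
    rwa [e1]

/-- **The criterion for a fixed parameter.** -/
theorem LD.centre [SFinite m] (E : LD m u c fun z => L (e + z)) (he : e' ≤ e)
    (havg : ∀ A x : ℝ, 0 < A → 1 < x →
      MM m u c A (Real.log x) (-((e - e' : ℝ) : ℂ)) = avg A x) {μ : ℂ → ℤ}
    (hμ0 : ∀ r : ℂ, e < r.re → μ r = 0) {A κ0 : ℝ} (hA : 0 < A) (hκ0 : 0 < κ0) (hκA : κ0 ≤ A)
    (hfin : ∀ κ : ℝ, κ < κ0 → {r : ℂ | μ r ≠ 0 ∧ r - (e' : ℂ) ∈ GW.reg A κ}.Finite) :
    List.TFAE [
      ∃ F : ℂ → ℂ, (∀ s : ℂ, s - (e' : ℂ) ∈ GW.reg A κ0 → e < s.re → F s = L s) ∧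
        ∀ s : ℂ, s - (e' : ℂ) ∈ GW.reg A κ0 →
          MeromorphicAt F s ∧ meromorphicOrderAt F s = (μ s : WithTop ℤ),
      ∀ κ : ℝ, κ < κ0 → Fm avg μ e' A κ 2,
      ∀ κ : ℝ, 0 ≤ κ → κ < κ0 → ∃ X : ℝ, Fm avg μ e' A κ X] := by
  have hμ0' : ∀ w : ℂ, 0 < w.re → (fun w => μ (w + e)) w = 0 := fun w hw =>
    hμ0 _ (by simpa using hw)
  have hfin' : ∀ κ : ℝ, κ < κ0 →
      {z : ℂ | (fun w => μ (w + e)) z ≠ 0 ∧ z + ((e - e' : ℝ) : ℂ) ∈ GW.reg A κ}.Finite := by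
    intro κ hκ
    refine ((hfin κ hκ).image fun r : ℂ => r - (e : ℂ)).subset ?_
    rintro z ⟨h1, h2⟩
    refine ⟨z + e, ⟨h1, ?_⟩, by simp⟩
    rw [shift_pt]
    exact h2
  have key := E.fixed_shift (μ := fun w => μ (w + e)) hμ0' (b := e - e') (by linarith) hA hκ0 hκA
    hfin' (Real.log_pos one_lt_two)
  have h12 := key.out 0 1
  have h13 := key.out 0 2
  have h0 : (∃ Λ : ℂ → ℂ, Cont (fun z => L (e + z)) (fun w => μ (w + e))
      {z : ℂ | z + ((e - e' : ℝ) : ℂ) ∈ GW.reg A κ0} Λ) ↔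
      ∃ F : ℂ → ℂ, (∀ s : ℂ, s - (e' : ℂ) ∈ GW.reg A κ0 → e < s.re → F s = L s) ∧
        ∀ s : ℂ, s - (e' : ℂ) ∈ GW.reg A κ0 →
          MeromorphicAt F s ∧ meromorphicOrderAt F s = (μ s : WithTop ℤ) := by
    constructor
    · rintro ⟨Λ, h1, h2⟩
      have hs : ∀ s : ℂ, s - (e' : ℂ) ∈ GW.reg A κ0 →
          s - (e : ℂ) ∈ {z : ℂ | z + ((e - e' : ℝ) : ℂ) ∈ GW.reg A κ0} := by
        intro s hs
        show s - (e : ℂ) + ((e - e' : ℝ) : ℂ) ∈ GW.reg A κ0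
        rw [← shift_pt, sub_add_cancel]
        exact hs
      refine ⟨fun s => Λ (s - e), fun s hsr hs0 => ?_, fun s hsr => ?_⟩
      · have := h1 (s - e) (hs s hsr) (by simpa using hs0)
        show Λ (s - e) = _
        rw [this]
        show L ((e : ℂ) + (s - e)) = L s
        rw [add_sub_cancel]
      · obtain ⟨h3, h4⟩ := h2 (s - e) (hs s hsr)
        refine ⟨meromorphicAt_fun_comp_sub_const_iff_meromorphicAt.2 h3, ?_⟩
        rw [meromorphicOrderAt_fun_comp_sub_const_eq_meromorphicOrderAt, h4]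
        show ((μ (s - e + e) : ℤ) : WithTop ℤ) = _
        rw [sub_add_cancel]
    · rintro ⟨F, h1, h2⟩
      have hz : ∀ z ∈ {z : ℂ | z + ((e - e' : ℝ) : ℂ) ∈ GW.reg A κ0},
          z + (e : ℂ) - (e' : ℂ) ∈ GW.reg A κ0 := by
        intro z hz
        rw [shift_pt]
        exact hz
      refine ⟨fun z => F (z + e), fun z hzr hz0 => ?_, fun z hzr => ?_⟩
      · show F (z + e) = _
        rw [h1 _ (hz z hzr) (by simpa using hz0), add_comm]
      · obtain ⟨h3, h4⟩ := h2 (z + e) (hz z hzr)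
        refine ⟨meromorphicAt_fun_comp_add_const_iff_meromorphicAt.2 h3, ?_⟩
        rw [meromorphicOrderAt_fun_comp_add_const_eq_meromorphicOrderAt, h4]
  tfae_have 1 → 2 := by
    intro h κ hκ
    exact (Fm_OC havg μ hA one_lt_two).2 (h12.1 (h0.2 h) κ hκ)
  tfae_have 2 → 3 := fun h κ _ hκ => ⟨2, h κ hκ⟩
  tfae_have 3 → 1 := by
    intro h
    rw [← h0, h13]
    intro κ hκ0' hκ
    obtain ⟨X, C, hC⟩ := h κ hκ0' hκ
    have h2 : (1 : ℝ) < max X 2 := lt_of_lt_of_le one_lt_two (le_max_right _ _)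
    exact ⟨Real.log (max X 2), Real.log_pos h2, (Fm_OC havg μ hA h2).1
      ⟨C, fun x hx => hC x ((le_max_left _ _).trans hx)⟩⟩
  tfae_finish

/-- the divisor with one point -/
noncomputable def pt (e' : ℝ) (r : ℤ) (s : ℂ) : ℤ := open Classical in if s = (e' : ℂ) then r else 0

lemma zero_mem_reg {A κ : ℝ} (hA : 0 < A) (hκ : 0 < κ) : (0 : ℂ) ∈ reg A κ := by
  refine ⟨?_, ?_⟩
  · rw [Complex.zero_re]
    linarith
  · unfold xr
    rw [Complex.zero_re, Complex.zero_im]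
    simp
    exact hκ

lemma ctr_pt (e' : ℝ) (r : ℤ) {A κ x : ℝ} (hA : 0 < A) (hκ : 0 < κ) :
    ctr (pt e' r) e' A κ x = r := by
  classical
  unfold ctr
  rcases eq_or_ne r 0 with rfl | hr
  · have h1 : {r : ℂ | pt e' 0 r ≠ 0 ∧ -(2 * A) < (r - e').re ∧
        -κ < ((r - e') + (r - e') ^ 2 / (4 * A)).re} = ∅ := by
      ext s
      simp [pt]
    rw [h1, finsum_mem_empty]
    simp
  · have h1 : {r' : ℂ | pt e' r r' ≠ 0 ∧ -(2 * A) < (r' - e').re ∧
        -κ < ((r' - e') + (r' - e') ^ 2 / (4 * A)).re} = {(e' : ℂ)} := by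
      ext s
      simp only [mem_ofPred_eq, mem_singleton_iff]
      constructor
      · rintro ⟨h2, _⟩
        by_contra h3
        apply h2
        unfold pt
        rw [if_neg h3]
      · rintro rfl
        refine ⟨?_, ?_, ?_⟩
        · unfold pt
          rw [if_pos rfl]
          exact hr
        · simp
          linarith
        · simp
          exact hκ
    rw [h1, finsum_mem_singleton]
    simp [pt]

lemma pt_fin (e' : ℝ) (r : ℤ) (P : ℂ → Prop) : {s : ℂ | pt e' r s ≠ 0 ∧ P s}.Finite := by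
  refine (Set.finite_singleton (e' : ℂ)).subset ?_
  rintro s ⟨h1, _⟩
  by_contra h3
  apply h1
  unfold pt
  exact if_neg h3

/-- **The criterion with one zero.** -/
theorem LD.centre_one [SFinite m] (E : LD m u c fun z => L (e + z)) (he : e' ≤ e)
    (havg : ∀ A x : ℝ, 0 < A → 1 < x →
      MM m u c A (Real.log x) (-((e - e' : ℝ) : ℂ)) = avg A x) (r : ℤ)
    {A κ0 : ℝ} (hA : 0 < A) (hκ0 : 0 < κ0) (hκA : κ0 ≤ A) :
    List.TFAE [
      ∃ F : ℂ → ℂ, (∀ s : ℂ, s - (e' : ℂ) ∈ GW.reg A κ0 → e < s.re → F s = L s) ∧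
        ∀ s : ℂ, s - (e' : ℂ) ∈ GW.reg A κ0 →
          MeromorphicAt F s ∧ meromorphicOrderAt F s = (pt e' r s : WithTop ℤ),
      ∀ κ : ℝ, κ < κ0 → ∃ C : ℝ, ∀ x : ℝ, 2 ≤ x → ‖avg A x + r‖ ≤ C * x ^ (-κ),
      ∀ κ : ℝ, 0 < κ → κ < κ0 → ∃ C X : ℝ, ∀ x : ℝ, X ≤ x → ‖avg A x + r‖ ≤ C * x ^ (-κ)] := by
  have hμ0 : ∀ s : ℂ, e < s.re → pt e' r s = 0 := by
    intro s hs
    unfold pt
    refine if_neg ?_
    rintro rfl
    rw [Complex.ofReal_re] at hs
    linarith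
  have key := E.centre he havg hμ0 hA hκ0 hκA (fun κ _ => pt_fin e' r _)
  have h12 := key.out 0 1
  have h13 := key.out 0 2
  have hF : ∀ κ X : ℝ, 0 < κ → (Fm avg (pt e' r) e' A κ X ↔
      ∃ C : ℝ, ∀ x : ℝ, X ≤ x → ‖avg A x + r‖ ≤ C * x ^ (-κ)) := by
    intro κ X hκ
    unfold Fm
    refine exists_congr fun C => forall_congr' fun x => forall_congr' fun _ => ?_
    rw [ctr_pt e' r hA hκ]
  tfae_have 1 → 2 := by
    intro h κ hκ
    set κ1 : ℝ := (max κ 0 + κ0) / 2 with hκ1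
    have h0 : max κ 0 < κ0 := max_lt hκ hκ0
    have hm0 := le_max_right κ 0
    have hm1 := le_max_left κ 0
    have h2 : κ1 < κ0 := by rw [hκ1]; linarith
    have h3 : 0 < κ1 := by rw [hκ1]; linarith
    obtain ⟨C, hC⟩ := (hF κ1 2 h3).1 (h12.1 h κ1 h2)
    refine ⟨|C|, fun x hx => (hC x hx).trans ?_⟩
    refine mul_le_mul (le_abs_self C) ?_ (Real.rpow_nonneg (by linarith) _) (abs_nonneg C)
    exact Real.rpow_le_rpow_of_exponent_le (by linarith) (by rw [hκ1]; linarith)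
  tfae_have 2 → 3 := by
    intro h κ _ hκ
    obtain ⟨C, hC⟩ := h κ hκ
    exact ⟨C, 2, hC⟩
  tfae_have 3 → 1 := by
    intro h
    rw [h13]
    intro κ hκ0' hκ
    rcases hκ0'.eq_or_lt with h0 | h0
    · -- the exponent `0`
      obtain ⟨C, X, hC⟩ := h (κ0 / 2) (by linarith) (by linarith)
      refine ⟨max X 1, |C| + ‖(r : ℂ)‖, fun x hx => ?_⟩
      have hx1 : 1 ≤ x := (le_max_right _ _).trans hx
      have h1 := hC x ((le_max_left _ _).trans hx)
      have h2 : ctr (pt e' r) e' A κ x = 0 := by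
        unfold ctr
        have h3 : {r' : ℂ | pt e' r r' ≠ 0 ∧ -(2 * A) < (r' - e').re ∧
            -κ < ((r' - e') + (r' - e') ^ 2 / (4 * A)).re} = ∅ := by
          rw [Set.eq_empty_iff_forall_notMem]
          rintro s ⟨h4, _, h5⟩
          by_cases h6 : s = e'
          · rw [h6, ← h0] at h5
            simp at h5
          · apply h4
            unfold pt
            rw [if_neg h6]
        rw [h3, finsum_mem_empty]
      rw [h2, add_zero, ← h0, neg_zero, Real.rpow_zero, mul_one]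
      have h3 : x ^ (-(κ0 / 2)) ≤ 1 := Real.rpow_le_one_of_one_le_of_nonpos hx1 (by linarith)
      calc ‖avg A x‖ = ‖(avg A x + r) - r‖ := by rw [add_sub_cancel_right]
        _ ≤ ‖avg A x + r‖ + ‖(r : ℂ)‖ := norm_sub_le _ _
        _ ≤ |C| + ‖(r : ℂ)‖ := by
            refine add_le_add (h1.trans ?_) le_rfl
            have h4 : 0 ≤ x ^ (-(κ0 / 2)) := Real.rpow_nonneg (by linarith) _
            calc C * x ^ (-(κ0 / 2)) ≤ |C| * x ^ (-(κ0 / 2)) :=
                  mul_le_mul_of_nonneg_right (le_abs_self C) h4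
              _ ≤ |C| * 1 := mul_le_mul_of_nonneg_left h3 (abs_nonneg C)
              _ = |C| := mul_one _
    · obtain ⟨C, X, hC⟩ := h κ h0 hκ
      exact ⟨X, (hF κ X h0).2 ⟨C, hC⟩⟩
  tfae_finish

end Pool.Agent.N881.GW
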