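import Pool.Agent.N881.GW.S4

/-!
# Neighbourhoods of closed regions bounded by a branch of a hyperbola
-/

set_option autoImplicit false

namespace Pool.Agent.N881.GW

open MeasureTheory Set Filter Topology

variable {Ω : Type} [MeasurableSpace Ω] {m : Measure Ω} {u : Ω → ℝ} {c : Ω → ℂ} {L : ℂ → ℂ}
  {e e' : ℝ} {avg : ℝ → ℝ → ℂ}

/-- the closed region -/
def clr (A : ℝ) : Set ℂ := {w : ℂ | -(2 * A) < w.re ∧ 0 ≤ xr A w}

lemma clr_re {A : ℝ} (hA : 0 < A) {w : ℂ} (hw : w ∈ clr A) : 0 < w.re ∨ w = 0 := by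
  obtain ⟨h1, h2⟩ := hw
  unfold xr at h2
  have h4 : (0 : ℝ) < 4 * A := by positivity
  have h3 : 0 ≤ w.re * (4 * A) + (w.re ^ 2 - w.im ^ 2) := by
    have h5 := mul_nonneg h2 h4.le
    have h6 : (w.re + (w.re ^ 2 - w.im ^ 2) / (4 * A)) * (4 * A) =
        w.re * (4 * A) + (w.re ^ 2 - w.im ^ 2) := by field_simp
    rwa [h6] at h5
  rcases lt_trichotomy 0 w.re with h | h | h
  · exact Or.inl h
  · right
    rw [← h] at h3
    have h5 : w.im ^ 2 ≤ 0 := by linarith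
    have h6 : w.im = 0 := by
      have := le_antisymm h5 (sq_nonneg _)
      exact pow_eq_zero_iff (two_ne_zero) |>.1 this
    exact Complex.ext h.symm h6
  · exfalso
    nlinarith [sq_nonneg w.im]

lemma zero_mem_clr {A : ℝ} (hA : 0 < A) : (0 : ℂ) ∈ clr A := by
  refine ⟨?_, ?_⟩
  · rw [Complex.zero_re]
    linarith
  · unfold xr
    rw [Complex.zero_re, Complex.zero_im]
    simp

lemma clr_sub_reg {A κ : ℝ} (hκ : 0 < κ) : clr A ⊆ reg A κ := fun _ hw =>
  ⟨hw.1, lt_of_lt_of_le (neg_lt_zero.2 hκ) hw.2⟩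

lemma compact_part {A : ℝ} (hA : 0 < A) (b : ℝ) :
    IsCompact {w : ℂ | -(2 * A) ≤ w.re ∧ w.re ≤ b ∧ -A ≤ xr A w} := by
  refine Metric.isCompact_of_isClosed_isBounded ?_ ?_
  · exact (isClosed_le continuous_const Complex.continuous_re).inter
      ((isClosed_le Complex.continuous_re continuous_const).inter
        (isClosed_le continuous_const (xr_cont A)))
  · refine (isBounded_iff_forall_norm_le).2 ⟨2 * (|b| + 2 * A), ?_⟩
    rintro w ⟨h1, h2, h3⟩
    have h4 : (0 : ℝ) < 4 * A := by positivity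
    unfold xr at h3
    have h5 := mul_le_mul_of_nonneg_right h3 h4.le
    have h6 : (w.re + (w.re ^ 2 - w.im ^ 2) / (4 * A)) * (4 * A) =
        w.re * (4 * A) + (w.re ^ 2 - w.im ^ 2) := by field_simp
    rw [h6] at h5
    have h7 : w.im ^ 2 ≤ (w.re + 2 * A) ^ 2 := by nlinarith
    have hb := le_abs_self b
    have h8 : |w.im| ≤ w.re + 2 * A := abs_le_of_sq_le_sq h7 (by linarith)
    have h9 : |w.re| ≤ |b| + 2 * A := abs_le.2 ⟨by linarith [abs_nonneg b], by linarith⟩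
    have h10 := Complex.norm_le_abs_re_add_abs_im w
    linarith

/-- **Neighbourhoods of the closed region.** -/
theorem clr_nbhd {A b : ℝ} (hA : 0 < A) {V : Set ℂ} (hV : IsOpen V) (h : clr A ⊆ V)
    (hb : ∀ w : ℂ, b < w.re → w ∈ V) : ∃ κ0 : ℝ, 0 < κ0 ∧ κ0 ≤ A ∧ reg A κ0 ⊆ V := by
  set K1 : Set ℂ := {w : ℂ | -(2 * A) ≤ w.re ∧ w.re ≤ b ∧ -A ≤ xr A w} ∩ Vᶜ with hK1
  have hcomp : IsCompact K1 := (compact_part hA b).inter_right hV.isClosed_compl
  have hneg : ∀ w ∈ K1, xr A w < 0 := by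
    rintro w ⟨⟨h1, h2, h3⟩, h4⟩
    by_contra h5
    rw [not_lt] at h5
    rcases h1.eq_or_lt with h6 | h6
    · unfold xr at h5
      rw [← h6] at h5
      have h7 : -(2 * A) + ((-(2 * A)) ^ 2 - w.im ^ 2) / (4 * A) = -A - w.im ^ 2 / (4 * A) := by
        field_simp
        ring
      rw [h7] at h5
      have h8 : 0 ≤ w.im ^ 2 / (4 * A) := by positivity
      linarith
    · exact h4 (h ⟨h6, h5⟩)
  have hsub : ∀ κ : ℝ, κ ≤ A → ∀ w ∈ reg A κ, w ∉ V → w ∈ K1 := by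
    rintro κ hκ w ⟨h1, h2⟩ h3
    refine ⟨⟨h1.le, ?_, by linarith⟩, h3⟩
    by_contra h4
    exact h3 (hb w (not_le.1 h4))
  rcases K1.eq_empty_or_nonempty with hE | hE
  · refine ⟨A, hA, le_rfl, fun w hw => ?_⟩
    by_contra h3
    have := hsub A le_rfl w hw h3
    rw [hE] at this
    exact this
  · obtain ⟨w0, hw0, hmax⟩ := hcomp.exists_isMaxOn hE (xr_cont A).continuousOn
    have h0 := hneg w0 hw0
    refine ⟨min A (-xr A w0), lt_min hA (by linarith), min_le_left _ _, fun w hw => ?_⟩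
    by_contra h3
    have h4 : xr A w ≤ xr A w0 := hmax (hsub _ (min_le_left _ _) w hw h3)
    have h5 := hw.2
    have h6 := min_le_right A (-xr A w0)
    linarith

lemma order_near {F : ℂ → ℂ} {r : ℤ} {s : ℂ} (hm : MeromorphicAt F s)
    (ho : meromorphicOrderAt F s = (pt e' r s : WithTop ℤ)) :
    ∀ᶠ z in 𝓝 s, MeromorphicAt F z ∧ meromorphicOrderAt F z = (pt e' r z : WithTop ℤ) := by
  have h1 : ∀ᶠ z in 𝓝[≠] s, AnalyticAt ℂ F z := hm.eventually_analyticAt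
  have h2 : ∀ᶠ z in 𝓝[≠] s, F z ≠ 0 := by
    refine (meromorphicOrderAt_ne_top_iff_eventually_ne_zero hm).1 ?_
    rw [ho]
    exact WithTop.coe_ne_top
  have h3 : ∀ᶠ z in 𝓝[≠] s, z ≠ (e' : ℂ) := by
    by_cases h : s = e'
    · rw [← h]
      exact eventually_mem_nhdsWithin
    · have h5 : ∀ᶠ z in 𝓝 s, z ≠ (e' : ℂ) := isOpen_ne.mem_nhds h
      exact h5.filter_mono nhdsWithin_le_nhds
  have h4 : ∀ᶠ z in 𝓝[≠] s, MeromorphicAt F z ∧
      meromorphicOrderAt F z = (pt e' r z : WithTop ℤ) := by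
    filter_upwards [h1, h2, h3] with z k1 k2 k3
    refine ⟨k1.meromorphicAt, ?_⟩
    rw [order_zero_of_ne k1 k2]
    unfold pt
    rw [if_neg k3]
    rfl
  rw [eventually_nhdsWithin_iff] at h4
  filter_upwards [h4] with z hz
  by_cases h : z = s
  · rw [h]
    exact ⟨hm, ho⟩
  · exact hz h

/-- a meromorphic continuation with the right orders on a neighbourhood of `H` -/
def MC (L : ℂ → ℂ) (e e' : ℝ) (r : ℤ) (H : Set ℂ) : Prop :=
  ∃ (V : Set ℂ) (F : ℂ → ℂ), IsOpen V ∧ H ⊆ V ∧ (∀ s ∈ V, MeromorphicAt F s) ∧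
    (∀ s ∈ V, e < s.re → F s = L s) ∧
    ∀ s ∈ H, meromorphicOrderAt F s = (pt e' r s : WithTop ℤ)

lemma LD.an_s (E : LD m u c fun z => L (e + z)) {s : ℂ} (hs : e < s.re) :
    AnalyticAt ℂ L s ∧ L s ≠ 0 := by
  have h0 : (0 : ℝ) < (s - e).re := by simpa using hs
  have h1 := E.an (s - e) h0
  have h2 := E.ne (s - e) h0
  have h3 : (fun s : ℂ => L ((e : ℂ) + (s - e))) = L := by
    funext s
    rw [add_sub_cancel]
  have h4 : AnalyticAt ℂ ((fun z => L ((e : ℂ) + z)) ∘ fun s : ℂ => s - e) s :=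
    AnalyticAt.comp (f := fun s : ℂ => s - e) (by exact h1) (by fun_prop)
  refine ⟨?_, ?_⟩
  · have h5 : ((fun z => L ((e : ℂ) + z)) ∘ fun s : ℂ => s - e) = L := h3
    rwa [h5] at h4
  · have h5 : L ((e : ℂ) + (s - e)) ≠ 0 := h2
    rwa [add_sub_cancel] at h5

/-- an open set with the right orders -/
lemma MC.exists_open (E : LD m u c fun z => L (e + z)) (he : e' ≤ e) {r : ℤ} {H : Set ℂ}
    (h : MC L e e' r H) : ∃ (V : Set ℂ) (F : ℂ → ℂ), IsOpen V ∧ H ⊆ V ∧ (∀ s : ℂ, e < s.re → s ∈ V) ∧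
      (∀ s ∈ V, e < s.re → F s = L s) ∧
      ∀ s ∈ V, MeromorphicAt F s ∧ meromorphicOrderAt F s = (pt e' r s : WithTop ℤ) := by
  classical
  obtain ⟨V, F, hV, hHV, hm, hF, ho⟩ := h
  set V1 : Set ℂ := {s | s ∈ V ∧ meromorphicOrderAt F s = (pt e' r s : WithTop ℤ)} with hV1
  have hV1o : IsOpen V1 := by
    rw [isOpen_iff_mem_nhds]
    rintro s ⟨h1, h2⟩
    filter_upwards [order_near (hm s h1) h2, hV.mem_nhds h1] with z hz hzV
    exact ⟨hzV, hz.2⟩
  have hEo : IsOpen {s : ℂ | e < s.re} := isOpen_lt continuous_const Complex.continuous_re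
  refine ⟨V1 ∪ {s | e < s.re}, fun s => if e < s.re then L s else F s, hV1o.union hEo,
    fun s hs => Or.inl ⟨hHV hs, ho s hs⟩, fun s hs => Or.inr hs, fun s _ hs => if_pos hs,
    fun s hs => ?_⟩
  rcases hs with hs | hs
  · have h1 : (fun s : ℂ => if e < s.re then L s else F s) =ᶠ[𝓝 s] F := by
      filter_upwards [hV.mem_nhds hs.1] with z hz
      split_ifs with h
      · exact (hF z hz h).symm
      · rfl
    refine ⟨(hm s hs.1).congr (h1.symm.filter_mono nhdsWithin_le_nhds), ?_⟩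
    rw [meromorphicOrderAt_congr (h1.filter_mono nhdsWithin_le_nhds)]
    exact hs.2
  · have h1 : (fun s : ℂ => if e < s.re then L s else F s) =ᶠ[𝓝 s] L := by
      filter_upwards [hEo.mem_nhds hs] with z hz
      exact if_pos hz
    obtain ⟨h2, h3⟩ := E.an_s hs
    refine ⟨h2.meromorphicAt.congr (h1.symm.filter_mono nhdsWithin_le_nhds), ?_⟩
    rw [meromorphicOrderAt_congr (h1.filter_mono nhdsWithin_le_nhds), order_zero_of_ne h2 h3]
    unfold pt
    rw [if_neg]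
    · rfl
    · rintro rfl
      have h4 : e < ((e' : ℂ)).re := hs
      rw [Complex.ofReal_re] at h4
      linarith

/-- **The power saving criterion.** -/
theorem LD.saving [SFinite m] (E : LD m u c fun z => L (e + z)) (he : e' ≤ e)
    (havg : ∀ A x : ℝ, 0 < A → 1 < x →
      MM m u c A (Real.log x) (-((e - e' : ℝ) : ℂ)) = avg A x) (r : ℤ) {A : ℝ} (hA : 0 < A) :
    List.TFAE [
      MC L e e' r {s : ℂ | s - (e' : ℂ) ∈ GW.clr A},
      ∃ η : ℝ, 0 < η ∧ ∃ C : ℝ, ∀ x : ℝ, 2 ≤ x → ‖avg A x + r‖ ≤ C * x ^ (-η),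
      ∃ η : ℝ, 0 < η ∧ ∃ C X : ℝ, ∀ x : ℝ, X ≤ x → ‖avg A x + r‖ ≤ C * x ^ (-η)] := by
  tfae_have 1 → 2 := by
    intro h
    obtain ⟨V, F, hV, hHV, hVe, hF, ho⟩ := h.exists_open E he
    have hsh : Continuous fun w : ℂ => w + (e' : ℂ) := by fun_prop
    obtain ⟨κ0, h1, h2, h3⟩ := clr_nbhd (b := e - e') hA (hV.preimage hsh)
      (fun w hw => hHV (show w + (e' : ℂ) - e' ∈ GW.clr A by rwa [add_sub_cancel_right]))
      (fun w hw => hVe (w + e') (by
        rw [Complex.add_re, Complex.ofReal_re]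
        linarith))
    have h3' : ∀ s : ℂ, s - (e' : ℂ) ∈ GW.reg A κ0 → s ∈ V := by
      intro s hs
      have h4 : s - (e' : ℂ) + e' ∈ V := h3 hs
      rwa [sub_add_cancel] at h4
    have key := E.centre_one he havg r hA h1 h2
    have h01 := key.out 0 1
    obtain ⟨C, hC⟩ := h01.1 ⟨F, fun s hs hse => hF s (h3' s hs) hse,
      fun s hs => ho s (h3' s hs)⟩ (κ0 / 2) (by linarith)
    exact ⟨κ0 / 2, by linarith, C, hC⟩
  tfae_have 2 → 3 := by
    rintro ⟨η, h1, C, hC⟩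
    exact ⟨η, h1, C, 2, hC⟩
  tfae_have 3 → 1 := by
    rintro ⟨η, hη, C, X, hC⟩
    set κ0 : ℝ := min η A with hκ0
    have h1 : 0 < κ0 := lt_min hη hA
    have key := E.centre_one he havg r hA h1 (min_le_right _ _)
    have h02 := key.out 0 2
    obtain ⟨F, hF1, hF2⟩ := h02.2 fun κ hκ hκ' => ⟨|C|, max X 1, fun x hx => by
      have hx1 : 1 ≤ x := (le_max_right _ _).trans hx
      refine (hC x ((le_max_left _ _).trans hx)).trans ?_
      refine mul_le_mul (le_abs_self C) ?_ (Real.rpow_nonneg (by linarith) _) (abs_nonneg C)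
      refine Real.rpow_le_rpow_of_exponent_le hx1 ?_
      have := min_le_left η A
      linarith⟩
    refine ⟨{s : ℂ | s - (e' : ℂ) ∈ GW.reg A κ0}, F, ?_, fun s hs => clr_sub_reg h1 hs,
      fun s hs => (hF2 s hs).1, fun s hs hse => hF1 s hs hse,
      fun s hs => (hF2 s (clr_sub_reg h1 hs)).2⟩
    have hsh : Continuous fun s : ℂ => s - (e' : ℂ) := by fun_prop
    exact (isOpen_reg A κ0).preimage hsh
  tfae_finish

end Pool.Agent.N881.GW
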