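import Pool.Agent.N881.GW.S6
import Pool.Agent.N881.GW.O3

/-!
# All parameters; analytic continuation
-/

set_option autoImplicit false

namespace Pool.Agent.N881.GW

open MeasureTheory Set Filter Topology

variable {Ω : Type} [MeasurableSpace Ω] {m : Measure Ω} {u : Ω → ℝ} {c : Ω → ℂ} {L : ℂ → ℂ}
  {e e' : ℝ} {avg : ℝ → ℝ → ℂ}

lemma MC.mono {r : ℤ} {H H' : Set ℂ} (hH : H' ⊆ H) (h : MC L e e' r H) : MC L e e' r H' := by
  obtain ⟨V, F, h1, h2, h3, h4, h5⟩ := h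
  exact ⟨V, F, h1, hH.trans h2, h3, h4, fun s hs => h5 s (hH hs)⟩

lemma ofReal_mem_reg {A κ t : ℝ} (hA : 0 < A) (hκ : 0 < κ) (ht : 0 ≤ t) :
    (t : ℂ) ∈ reg A κ := by
  refine ⟨?_, ?_⟩
  · rw [Complex.ofReal_re]
    linarith
  · unfold xr
    rw [Complex.ofReal_re, Complex.ofReal_im]
    have : 0 ≤ (t ^ 2 - 0 ^ 2) / (4 * A) := by
      apply div_nonneg
      · nlinarith
      · positivity
    linarith

lemma convex_sh {A κ : ℝ} (hA : 0 < A) (hκ : κ ≤ A) (e' : ℝ) :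
    Convex ℝ {s : ℂ | s - (e' : ℂ) ∈ reg A κ} := by
  have h1 := (convex_reg hA hκ).translate_preimage_right (-(e' : ℂ))
  have h2 : {s : ℂ | s - (e' : ℂ) ∈ reg A κ} = (fun x => -(e' : ℂ) + x) ⁻¹' reg A κ := by
    ext s
    rw [mem_preimage, neg_add_eq_sub]
    rfl
  rw [h2]
  exact h1

/-- **The criterion for all parameters.** -/
theorem LD.all [SFinite m] (E : LD m u c fun z => L (e + z)) (he : e' ≤ e)
    (havg : ∀ A x : ℝ, 0 < A → 1 < x →
      MM m u c A (Real.log x) (-((e - e' : ℝ) : ℂ)) = avg A x) (r : ℤ) :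
    List.TFAE [
      MC L e e' r {s : ℂ | e' < s.re ∨ s = e'},
      ∀ A : ℝ, 0 < A → ∃ η : ℝ, 0 < η ∧ ∃ C : ℝ, ∀ x : ℝ, 2 ≤ x → ‖avg A x + r‖ ≤ C * x ^ (-η),
      ∀ A0 : ℝ, ∃ A : ℝ, A0 ≤ A ∧ ∃ η : ℝ, 0 < η ∧ ∃ C X : ℝ, ∀ x : ℝ, X ≤ x →
        ‖avg A x + r‖ ≤ C * x ^ (-η)] := by
  tfae_have 1 → 2 := by
    intro h A hA
    have key := E.saving he havg r hA
    have h01 := key.out 0 1
    refine h01.1 (h.mono fun s hs => ?_)
    have hs' : s - (e' : ℂ) ∈ GW.clr A := hs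
    rcases clr_re hA hs' with h1 | h1
    · left
      rw [Complex.sub_re, Complex.ofReal_re] at h1
      linarith
    · right
      exact sub_eq_zero.1 h1
  tfae_have 2 → 3 := by
    intro h A0
    obtain ⟨η, hη, C, hC⟩ := h (max A0 1) (lt_of_lt_of_le one_pos (le_max_right _ _))
    exact ⟨_, le_max_left _ _, η, hη, C, 2, hC⟩
  tfae_have 3 → 1 := by
    intro h
    set J : Type := {q : ℝ × ℝ // 0 < q.1 ∧ 0 < q.2 ∧ q.2 ≤ q.1 ∧
      ∃ F : ℂ → ℂ, (∀ s : ℂ, s - (e' : ℂ) ∈ GW.reg q.1 q.2 → e < s.re → F s = L s) ∧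
        ∀ s : ℂ, s - (e' : ℂ) ∈ GW.reg q.1 q.2 →
          MeromorphicAt F s ∧ meromorphicOrderAt F s = (pt e' r s : WithTop ℤ)} with hJ
    choose F hF using fun j : J => j.2.2.2.2
    have hsh : Continuous fun s : ℂ => s - (e' : ℂ) := by fun_prop
    obtain ⟨Λ, hΛ1, hΛ2⟩ := mer_glue (J := J)
      (U := fun j => {s : ℂ | s - (e' : ℂ) ∈ GW.reg j.1.1 j.1.2}) (F := F)
      (V := {s : ℂ | e < s.re}) (L := L) (μ := pt e' r)
      (isOpen_lt continuous_const Complex.continuous_re) (fun s hs => (E.an_s hs).1)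
      (fun j => (isOpen_reg _ _).preimage hsh)
      (fun i j => ((convex_sh i.2.1 i.2.2.2.1 e').inter
        (convex_sh j.2.1 j.2.2.2.1 e')).isPreconnected) (z1 := ((e + 1 : ℝ) : ℂ))
      (fun j => by
        show ((e + 1 : ℝ) : ℂ) - (e' : ℂ) ∈ GW.reg j.1.1 j.1.2
        have h1 : ((e + 1 : ℝ) : ℂ) - (e' : ℂ) = ((e + 1 - e' : ℝ) : ℂ) := by push_cast; ring
        rw [h1]
        exact ofReal_mem_reg j.2.1 j.2.2.1 (by linarith))
      (by
        show e < ((e + 1 : ℝ) : ℂ).re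
        rw [Complex.ofReal_re]
        linarith)
      (fun j z hz hzV => (hF j).1 z hz hzV) (fun j z hz => (hF j).2 z hz)
    have key : ∀ A η C X : ℝ, 0 < A → 0 < η →
        (∀ x : ℝ, X ≤ x → ‖avg A x + r‖ ≤ C * x ^ (-η)) →
        ∃ j : J, j.1.1 = A := by
      intro A η C X hA hη hC
      have h1 : 0 < min η A := lt_min hη hA
      have key := E.centre_one he havg r hA h1 (min_le_right _ _)
      have h02 := key.out 0 2
      refine ⟨⟨(A, min η A), hA, h1, min_le_right _ _, h02.2 fun κ hκ hκ' =>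
        ⟨|C|, max X 1, fun x hx => ?_⟩⟩, rfl⟩
      have hx1 : 1 ≤ x := (le_max_right _ _).trans hx
      refine (hC x ((le_max_left _ _).trans hx)).trans ?_
      refine mul_le_mul (le_abs_self C) ?_ (Real.rpow_nonneg (by linarith) _) (abs_nonneg C)
      refine Real.rpow_le_rpow_of_exponent_le hx1 ?_
      have := min_le_left η A
      linarith
    have hcov : ∀ s : ℂ, e' < s.re ∨ s = e' → ∃ j : J, s - (e' : ℂ) ∈ GW.reg j.1.1 j.1.2 := by
      rintro s (hs | hs)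
      · have h1 : 0 < (s - (e' : ℂ)).re := by
          rw [Complex.sub_re, Complex.ofReal_re]
          linarith
        have h2 : ∀ᶠ A : ℝ in atTop, 0 < xr A (s - (e' : ℂ)) :=
          (xr_tendsto (s - (e' : ℂ))).eventually (lt_mem_nhds h1)
        obtain ⟨A1, hA1⟩ := eventually_atTop.1 h2
        obtain ⟨A, hA, η, hη, C, X, hC⟩ := h (max A1 1)
        have hA0 : 0 < A := lt_of_lt_of_le one_pos ((le_max_right _ _).trans hA)
        obtain ⟨j, hj⟩ := key A η C X hA0 hη hC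
        refine ⟨j, ?_, ?_⟩
        · have := j.2.1
          linarith
        · have h3 := hA1 A ((le_max_left _ _).trans hA)
          have h4 := j.2.2.1
          rw [hj]
          linarith
      · obtain ⟨A, hA, η, hη, C, X, hC⟩ := h 1
        obtain ⟨j, hj⟩ := key A η C X (by linarith) hη hC
        refine ⟨j, ?_⟩
        rw [hs, sub_self]
        exact zero_mem_reg j.2.1 j.2.2.1
    refine ⟨{s : ℂ | ∃ j : J, s - (e' : ℂ) ∈ GW.reg j.1.1 j.1.2}, Λ, ?_, hcov, ?_, ?_, ?_⟩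
    · have h1 : {s : ℂ | ∃ j : J, s - (e' : ℂ) ∈ GW.reg j.1.1 j.1.2} =
          ⋃ j : J, {s : ℂ | s - (e' : ℂ) ∈ GW.reg j.1.1 j.1.2} := by
        ext s
        simp only [mem_iUnion, mem_ofPred_eq]
      rw [h1]
      exact isOpen_iUnion fun j => (isOpen_reg _ _).preimage hsh
    · rintro s ⟨j, hj⟩
      exact (hΛ2 j s hj).1
    · rintro s _ hse
      exact hΛ1 s hse
    · intro s hs
      obtain ⟨j, hj⟩ := hcov s hs
      exact (hΛ2 j s hj).2
  tfae_finish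

/-- the analytic form of a continuation -/
lemma nf_form (hL : ∀ s : ℂ, e < s.re → AnalyticAt ℂ L s) {V : Set ℂ} (hV : IsOpen V)
    {F : ℂ → ℂ} {r : ℕ}
    (hF : ∀ s ∈ V, MeromorphicAt F s ∧ meromorphicOrderAt F s = (pt e' r s : WithTop ℤ))
    (hFL : ∀ s ∈ V, e < s.re → F s = L s) :
    ∃ G : ℂ → ℂ, AnalyticOnNhd ℂ G V ∧ (∀ s ∈ V, e < s.re → G s = L s) ∧
      (∀ s ∈ V, s ≠ e' → G s ≠ 0) ∧ ((e' : ℂ) ∈ V → analyticOrderAt G e' = r) := by
  have hm : MeromorphicOn F V := fun s hs => (hF s hs).1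
  set N : ℂ → ℂ := toMeromorphicNFOn F V with hN
  have hNF : ∀ z ∈ V, MeromorphicNFAt N z := fun z hz => meromorphicNFOn_toMeromorphicNFOn F V hz
  have hNG : ∀ z ∈ V, N =ᶠ[𝓝[≠] z] F := fun z hz => hm.toMeromorphicNFOn_eq_self_on_nhdsNE hz
  have hNo : ∀ z ∈ V, meromorphicOrderAt N z = (pt e' r z : WithTop ℤ) := fun z hz => by
    rw [meromorphicOrderAt_congr (hNG z hz), (hF z hz).2]
  have hpt : ∀ z : ℂ, 0 ≤ pt e' r z := by
    intro z
    unfold pt
    split_ifs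
    · exact Int.natCast_nonneg r
    · exact le_rfl
  have hNa : ∀ z ∈ V, AnalyticAt ℂ N z := fun z hz =>
    ((hNF z hz).meromorphicOrderAt_nonneg_iff_analyticAt).1 (by
      rw [hNo z hz]
      exact_mod_cast hpt z)
  refine ⟨N, hNa, fun s hs hse => ?_, fun s hs hse => ?_, fun hs => ?_⟩
  · have h1 : F =ᶠ[𝓝 s] L := by
      have hEo : IsOpen {s : ℂ | e < s.re} := isOpen_lt continuous_const Complex.continuous_re
      filter_upwards [(hV.inter hEo).mem_nhds ⟨hs, hse⟩] with z hz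
      exact hFL z hz.1 hz.2
    have h2 : N =ᶠ[𝓝[≠] s] L := (hNG s hs).trans (h1.filter_mono nhdsWithin_le_nhds)
    exact (((hNa s hs).continuousAt.eventuallyEq_nhds_iff_eventuallyEq_nhdsNE
      (hL s hse).continuousAt).1 h2).eq_of_nhds
  · refine ((hNF s hs).meromorphicOrderAt_eq_zero_iff).1 ?_
    rw [hNo s hs]
    unfold pt
    rw [if_neg hse]
    rfl
  · have h1 := hNo _ hs
    have h2 := (hNa _ hs).meromorphicOrderAt_eq
    rw [h2] at h1
    unfold pt at h1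
    rw [if_pos rfl] at h1
    cases h3 : analyticOrderAt N e' with
    | top =>
      rw [h3] at h1
      simp at h1
    | coe n =>
      rw [h3] at h1
      have h4 : ((n : ℤ) : WithTop ℤ) = ((r : ℤ) : WithTop ℤ) := h1
      have h5 : (n : ℤ) = r := by exact_mod_cast h4
      have h6 : n = r := by exact_mod_cast h5
      rw [h6]

lemma nf_back {G : ℂ → ℂ} {r : ℕ} {s : ℂ} (h1 : AnalyticAt ℂ G s) (h2 : s ≠ e' → G s ≠ 0)
    (h3 : analyticOrderAt G e' = r) :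
    MeromorphicAt G s ∧ meromorphicOrderAt G s = (pt e' r s : WithTop ℤ) := by
  refine ⟨h1.meromorphicAt, ?_⟩
  by_cases h : s = e'
  · unfold pt
    rw [if_pos h, h1.meromorphicOrderAt_eq, h, h3]
    rfl
  · unfold pt
    rw [if_neg h, order_zero_of_ne h1 (h2 h)]
    rfl

/-- an analytic continuation, with a zero of order `r` at `e'`, without other zeros in `H` -/
def AC (L : ℂ → ℂ) (e e' : ℝ) (r : ℕ) (H : Set ℂ) : Prop :=
  ∃ (V : Set ℂ) (F : ℂ → ℂ), IsOpen V ∧ H ⊆ V ∧ AnalyticOnNhd ℂ F V ∧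
    (∀ s ∈ V, e < s.re → F s = L s) ∧ analyticOrderAt F e' = r ∧ ∀ s ∈ H, s ≠ e' → F s ≠ 0

lemma AC_iff (E : LD m u c fun z => L (e + z)) (he : e' ≤ e) {r : ℕ} {H : Set ℂ}
    (hH : (e' : ℂ) ∈ H) : AC L e e' r H ↔ MC L e e' r H := by
  constructor
  · rintro ⟨V, F, h1, h2, h3, h4, h5, h6⟩
    exact ⟨V, F, h1, h2, fun s hs => (h3 s hs).meromorphicAt, h4,
      fun s hs => (nf_back (h3 s (h2 hs)) (h6 s hs) h5).2⟩
  · intro h
    obtain ⟨V, F, hV, hHV, hVe, hF, ho⟩ := h.exists_open E he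
    obtain ⟨G, h1, h2, h3, h4⟩ := nf_form (fun s hs => (E.an_s hs).1) hV ho hF
    exact ⟨V, G, hV, hHV, h1, h2, h4 (hHV hH), fun s hs => h3 s (hHV hs)⟩

end Pool.Agent.N881.GW
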