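import Pool.Agent.N881.GW.M5
import Pool.Agent.N881.GW.S7

/-!
# Euler products with Frobenius eigenvalues over number fields: the sums at a real point
-/

set_option autoImplicit false

namespace Pool.Agent.N881.GW

open MeasureTheory Set Filter Topology NumberField IsDedekindDomain
open Pool.Agent.TH339.MP (nm pr lv)

section

variable {K : Type} [Field K] [NumberField K] {N : ℕ}

/-- the term of the sum at the real point `e'` -/
noncomputable def xterm (α : HeightOneSpectrum (𝓞 K) → Fin N → ℂ) (e' A x : ℝ)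
    (p : HeightOneSpectrum (𝓞 K) × ℕ) : ℂ :=
  (∑ j, α p.1 j ^ (p.2 + 1)) * (Real.log (nm p.1) : ℂ) *
    (((nm p.1 : ℝ) ^ (-(((p.2 : ℝ) + 1) * e')) *
      Real.exp (-(A * (((p.2 : ℝ) + 1) * Real.log (nm p.1) - Real.log x) ^ 2 / Real.log x)) : ℝ)
        : ℂ)

open Classical in
/-- the sum at the real point `e'` -/
noncomputable def xavg (α : HeightOneSpectrum (𝓞 K) → Fin N → ℂ)
    (S : Finset (HeightOneSpectrum (𝓞 K))) (e' A x : ℝ) : ℂ :=
  (√(A / (Real.pi * Real.log x)) : ℂ) *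
    ∑' p : HeightOneSpectrum (𝓞 K) × ℕ, if p.1 ∈ S then 0 else xterm α e' A x p

open Classical in
/-- the Euler product over the places outside `S` -/
noncomputable def xL (α : HeightOneSpectrum (𝓞 K) → Fin N → ℂ)
    (S : Finset (HeightOneSpectrum (𝓞 K))) (s : ℂ) : ℂ :=
  ∏' v : HeightOneSpectrum (𝓞 K), if v ∈ S then 1 else
    ∏ j, (1 - α v j * ((nm v : ℕ) : ℂ) ^ (-s))⁻¹

open Classical in
/-- **The Euler product of the Frobenius eigenvalues.** -/
theorem x_data {α : HeightOneSpectrum (𝓞 K) → Fin N → ℂ}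
    {S : Finset (HeightOneSpectrum (𝓞 K))} {w : ℝ}
    (hα : ∀ v ∉ S, ∀ j, ‖α v j‖ ≤ (nm v : ℝ) ^ w) :
    ∃ β : HeightOneSpectrum (𝓞 K) → Fin N → ℂ, (∀ v j, ‖β v j‖ ≤ 1) ∧
      (∀ v j, β v j = if v ∈ S then 0 else α v j / (((nm v : ℝ) ^ w : ℝ) : ℂ)) ∧
      LD Measure.count (uu (K := K)) (cc β) (fun z => xL α S (((w + 1 : ℝ) : ℂ) + z)) ∧
      ∀ e' A x : ℝ, 0 < A → 1 < x →
        MM Measure.count (uu (K := K)) (cc β) A (Real.log x) (-((w + 1 - e' : ℝ) : ℂ)) =
          xavg α S e' A x := by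
  have hn0 : ∀ v : HeightOneSpectrum (𝓞 K), (0 : ℝ) < nm v := fun v => by linarith [nm_ge v]
  have hnw : ∀ v : HeightOneSpectrum (𝓞 K), (0 : ℝ) < (nm v : ℝ) ^ w := fun v =>
    Real.rpow_pos_of_pos (hn0 v) w
  set β' : HeightOneSpectrum (𝓞 K) → Fin N → ℂ :=
    fun v j => if v ∈ S then 0 else α v j / (((nm v : ℝ) ^ w : ℝ) : ℂ) with hβ'
  have hb' : ∀ v j, ‖β' v j‖ ≤ 1 := by
    intro v j
    simp only [hβ']
    split_ifs with h
    · simp
    · rw [norm_div, Complex.norm_real, Real.norm_of_nonneg (hnw v).le, div_le_one (hnw v)]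
      exact hα v h j
  refine ⟨β', hb', fun v j => rfl, ld_euler hb' fun z _ => ?_, fun e' A x hA hx => ?_⟩
  · unfold xL
    refine tprod_congr fun v => ?_
    by_cases hv : v ∈ S
    · simp [hβ', hv]
    · rw [if_neg hv]
      refine Finset.prod_congr rfl fun j _ => ?_
      simp only [hβ', if_neg hv]
      congr 2
      have hc : ((nm v : ℕ) : ℂ) ≠ 0 := by
        have := (hn0 v).ne'
        exact_mod_cast this
      have h1 : (((nm v : ℝ) ^ w : ℝ) : ℂ) = ((nm v : ℕ) : ℂ) ^ (w : ℂ) := by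
        rw [Complex.ofReal_cpow (hn0 v).le]
        push_cast
        rfl
      have h2 : ((nm v : ℕ) : ℂ) ^ (-(((w + 1 : ℝ) : ℂ) + z)) =
          ((nm v : ℕ) : ℂ) ^ (-(w : ℂ)) * ((nm v : ℕ) : ℂ) ^ (-(1 + z)) := by
        rw [← Complex.cpow_add _ _ hc]
        congr 1
        push_cast
        ring
      rw [h1, h2, Complex.cpow_neg _ (w : ℂ)]
      ring
  · have hy : 0 < Real.log x := Real.log_pos hx
    have hint := integrable_count_iff.1 ((dat_cc hb').ker_integrable hA hy
      (-((w + 1 - e' : ℝ) : ℂ)))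
    unfold MM
    rw [integral_count_eq hint]
    unfold xavg
    rw [← tsum_mul_left]
    refine tsum_congr fun p => ?_
    obtain ⟨v, k⟩ := p
    by_cases hv : v ∈ S
    · rw [if_pos hv, mul_zero]
      unfold cc ps
      simp [hβ', hv]
    · rw [if_neg hv]
      unfold xterm
      unfold cc ps gk
      simp only [hβ', if_neg hv]
      have e0 : ∑ j, (α v j / (((nm v : ℝ) ^ w : ℝ) : ℂ)) ^ (k + 1) =
          (∑ j, α v j ^ (k + 1)) * Complex.exp (-((w * uu (v, k) : ℝ) : ℂ)) := by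
        rw [Finset.sum_mul]
        refine Finset.sum_congr rfl fun j _ => ?_
        rw [div_pow, div_eq_mul_inv]
        congr 1
        rw [Real.rpow_def_of_pos (hn0 v), Complex.ofReal_exp, ← Complex.exp_nat_mul,
          ← Complex.exp_neg]
        congr 1
        unfold uu
        push_cast
        ring
      have e1 : (((nm v : ℝ) ^ (-(((k : ℝ) + 1) * e')) : ℝ) : ℂ) =
          Complex.exp (-((w * uu (v, k) : ℝ) : ℂ)) * Complex.exp (-(uu (v, k) : ℂ)) *
            Complex.exp (-(-((w + 1 - e' : ℝ) : ℂ) * uu (v, k))) := by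
        rw [Real.rpow_def_of_pos (hn0 v), Complex.ofReal_exp, ← Complex.exp_add,
          ← Complex.exp_add]
        congr 1
        unfold uu
        push_cast
        ring
      have e2 : ((k : ℝ) + 1) * Real.log (nm v) = uu (v, k) := rfl
      rw [e0, e2]
      simp only [Complex.ofReal_mul] at e1 ⊢
      rw [e1]
      ring

end

end Pool.Agent.N881.GW
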