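import Pool.Agent.N881.GW.T1

/-!
# Dropping the prime powers
-/

set_option autoImplicit false

namespace Pool.Agent.N881.GW

open MeasureTheory Set Filter Topology NumberField IsDedekindDomain
open Pool.Agent.TH339.MP (nm pr lv)

section gen

variable {ι : Type} {u : ι → ℝ} {c : ι → ℂ}

/-- coefficients which are summable to the left of the edge -/
lemma tail_bound {A σ0 : ℝ} (hA : 0 < A) (hσ0 : 0 < σ0) (hu : ∀ p, 0 ≤ u p)
    (hs : Summable fun p => ‖c p‖ * Real.exp (σ0 * u p)) :
    ∃ κ C : ℝ, 0 < κ ∧ ∀ y : ℝ, Real.log 2 ≤ y →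
      ‖∑' p, c p * (gk A y (u p) : ℂ)‖ ≤ C * Real.exp (-(κ * y)) := by
  set σ : ℝ := min σ0 (2 * A) with hσ
  have hσpos : 0 < σ := lt_min hσ0 (by linarith)
  have hσ1 : σ ≤ σ0 := min_le_left _ _
  have hσ2 : σ ≤ 2 * A := min_le_right _ _
  have hl : 0 < Real.log 2 := Real.log_pos one_lt_two
  refine ⟨σ / 2, √(A / (Real.pi * Real.log 2)) * ∑' p, ‖c p‖ * Real.exp (σ0 * u p), by linarith,
    fun y hy => ?_⟩
  have hy0 : 0 < y := by linarith
  have hexp : -σ + (-σ) ^ 2 / (4 * A) ≤ -(σ / 2) := by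
    have h1 : (-σ) ^ 2 / (4 * A) ≤ σ / 2 := by
      rw [div_le_iff₀ (by positivity)]
      nlinarith
    linarith
  have hpt : ∀ p, ‖c p * (gk A y (u p) : ℂ)‖ ≤
      √(A / (Real.pi * Real.log 2)) * Real.exp (-(σ / 2 * y)) *
        (‖c p‖ * Real.exp (σ0 * u p)) := by
    intro p
    rw [norm_mul, Complex.norm_real, Real.norm_of_nonneg (gk_nonneg _ _ _)]
    have h1 : gk A y (u p) ≤ √(A / (Real.pi * Real.log 2)) *
        (Real.exp (-(σ / 2 * y)) * Real.exp (σ * u p)) := by
      unfold gk
      have h2 := quad_le (u := u p) (b := -σ) hA hy0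
      have h3 : Real.exp (-(A * (u p - y) ^ 2 / y)) ≤
          Real.exp (-(σ / 2 * y)) * Real.exp (σ * u p) := by
        rw [← Real.exp_add]
        apply Real.exp_le_exp.2
        have h4 := mul_le_mul_of_nonneg_left hexp hy0.le
        nlinarith
      have h5 : √(A / (Real.pi * y)) ≤ √(A / (Real.pi * Real.log 2)) := by
        apply Real.sqrt_le_sqrt
        apply div_le_div_of_nonneg_left hA.le
        · positivity
        · exact mul_le_mul_of_nonneg_left hy Real.pi_pos.le
      exact mul_le_mul h5 h3 (Real.exp_pos _).le (Real.sqrt_nonneg _)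
    have h6 : Real.exp (σ * u p) ≤ Real.exp (σ0 * u p) :=
      Real.exp_le_exp.2 (mul_le_mul_of_nonneg_right hσ1 (hu p))
    calc ‖c p‖ * gk A y (u p) ≤ ‖c p‖ * (√(A / (Real.pi * Real.log 2)) *
          (Real.exp (-(σ / 2 * y)) * Real.exp (σ * u p))) :=
          mul_le_mul_of_nonneg_left h1 (norm_nonneg _)
      _ ≤ ‖c p‖ * (√(A / (Real.pi * Real.log 2)) *
          (Real.exp (-(σ / 2 * y)) * Real.exp (σ0 * u p))) := by gcongr
      _ = _ := by ring
  have h7 := tsum_of_norm_bounded (hs.mul_left (√(A / (Real.pi * Real.log 2)) *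
    Real.exp (-(σ / 2 * y)))).hasSum hpt
  rw [tsum_mul_left] at h7
  refine h7.trans (le_of_eq ?_)
  ring

end gen

section

variable {K : Type} [Field K] [NumberField K] {N : ℕ}

/-- the part of the prime powers -/
noncomputable def ccR (β : HeightOneSpectrum (𝓞 K) → Fin N → ℂ)
    (p : HeightOneSpectrum (𝓞 K) × ℕ) : ℂ := if p.2 = 0 then 0 else cc β p

/-- the part of the primes -/
noncomputable def ccP (β : HeightOneSpectrum (𝓞 K) → Fin N → ℂ)
    (p : HeightOneSpectrum (𝓞 K) × ℕ) : ℂ := if p.2 = 0 then cc β p else 0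

lemma cc_split (β : HeightOneSpectrum (𝓞 K) → Fin N → ℂ) (p : HeightOneSpectrum (𝓞 K) × ℕ) :
    cc β p = ccP β p + ccR β p := by
  unfold ccP ccR
  split_ifs <;> simp

lemma summable_nm {x : ℝ} (hx : 1 < x) :
    Summable fun v : HeightOneSpectrum (𝓞 K) => Real.exp (-(x * Real.log (nm v))) := by
  have h1 := summable_G (K := K) hx
  have hinj : Function.Injective fun v : HeightOneSpectrum (𝓞 K) => ((v, 0) :
      HeightOneSpectrum (𝓞 K) × ℕ) := fun a b h => (Prod.mk.inj h).1
  refine (h1.comp_injective hinj).congr fun v => ?_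
  simp only [Function.comp_apply]
  unfold uu
  push_cast
  ring_nf

lemma summable_ccR {β : HeightOneSpectrum (𝓞 K) → Fin N → ℂ} (hβ : ∀ v j, ‖β v j‖ ≤ 1) :
    Summable fun p : HeightOneSpectrum (𝓞 K) × ℕ =>
      ‖ccR β p‖ * Real.exp (1 / 16 * uu p) := by
  have h1 : Summable fun p : HeightOneSpectrum (𝓞 K) × ℕ =>
      Real.exp (-(3 / 2 * Real.log (nm p.1))) * Real.exp (-(3 / 4 * Real.log 2)) ^ p.2 := by
    refine (summable_nm (K := K) (x := 3 / 2) (by norm_num)).mul_of_nonneg
      (summable_geometric_of_lt_one (Real.exp_pos _).le ?_) (fun v => (Real.exp_pos _).le)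
      (fun k => by positivity)
    rw [Real.exp_lt_one_iff]
    have := Real.log_pos one_lt_two
    linarith
  have h2 := h1.mul_left ((N : ℝ) * (32 / 3) * Real.exp (3 / 4 * Real.log 2))
  refine Summable.of_nonneg_of_le (fun p => by positivity) (fun p => ?_) h2
  obtain ⟨v, k⟩ := p
  unfold ccR
  by_cases hk : k = 0
  · rw [if_pos hk, norm_zero, zero_mul]
    positivity
  rw [if_neg hk]
  have hu := (uu_pos (v, k)).le
  have hl := (log_nm_pos v).le
  have h3 : ‖cc β (v, k)‖ ≤ N * uu (v, k) * Real.exp (-(uu (v, k))) := by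
    unfold cc
    rw [norm_mul, norm_mul, norm_exp_uu, Complex.norm_real, Real.norm_of_nonneg hl]
    refine mul_le_mul_of_nonneg_right ?_ (Real.exp_pos _).le
    refine mul_le_mul (norm_ps hβ _ _) ?_ hl (Nat.cast_nonneg _)
    unfold uu
    have : (0 : ℝ) ≤ k := Nat.cast_nonneg _
    simp only
    nlinarith
  have h4 := mul_exp_le (t := uu (v, k)) (σ := 3 / 16) (by norm_num)
  have h5 : Real.exp (-(3 / 16 / 2 * uu (v, k))) ≤ 1 :=
    Real.exp_le_one_iff.2 (by nlinarith)
  have h6 : uu (v, k) * Real.exp (-(3 / 16 * uu (v, k))) ≤ 32 / 3 := by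
    refine h4.trans ?_
    calc 2 / (3 / 16) * Real.exp (-(3 / 16 / 2 * uu (v, k))) ≤ 2 / (3 / 16) * 1 :=
          mul_le_mul_of_nonneg_left h5 (by norm_num)
      _ = 32 / 3 := by norm_num
  have h7 : Real.exp (-(3 / 4 * uu (v, k))) ≤ Real.exp (-(3 / 2 * Real.log (nm v))) *
      (Real.exp (3 / 4 * Real.log 2) * Real.exp (-(3 / 4 * Real.log 2)) ^ k) := by
    rw [← Real.exp_nat_mul, ← Real.exp_add, ← Real.exp_add]
    apply Real.exp_le_exp.2
    unfold uu
    simp only
    have hk1 : (1 : ℝ) ≤ k := by exact_mod_cast Nat.one_le_iff_ne_zero.2 hk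
    have hl2 : Real.log 2 ≤ Real.log (nm v) := Real.log_le_log (by norm_num) (nm_ge v)
    nlinarith
  calc ‖cc β (v, k)‖ * Real.exp (1 / 16 * uu (v, k))
      ≤ (N * uu (v, k) * Real.exp (-(uu (v, k)))) * Real.exp (1 / 16 * uu (v, k)) :=
        mul_le_mul_of_nonneg_right h3 (Real.exp_pos _).le
    _ = N * (uu (v, k) * Real.exp (-(3 / 16 * uu (v, k)))) * Real.exp (-(3 / 4 * uu (v, k))) := by
        have e1 : Real.exp (-(uu (v, k))) * Real.exp (1 / 16 * uu (v, k)) =
            Real.exp (-(3 / 16 * uu (v, k))) * Real.exp (-(3 / 4 * uu (v, k))) := by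
          rw [← Real.exp_add, ← Real.exp_add]
          congr 1
          ring
        calc _ = N * uu (v, k) * (Real.exp (-(uu (v, k))) * Real.exp (1 / 16 * uu (v, k))) := by
              ring
          _ = _ := by
              rw [e1]
              ring
    _ ≤ N * (32 / 3) * (Real.exp (-(3 / 2 * Real.log (nm v))) *
      (Real.exp (3 / 4 * Real.log 2) * Real.exp (-(3 / 4 * Real.log 2)) ^ k)) := by gcongr
    _ = _ := by ring

open Classical in
/-- the sum over the primes -/
noncomputable def uavg (α : HeightOneSpectrum (𝓞 K) → Fin N → ℂ)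
    (S : Finset (HeightOneSpectrum (𝓞 K))) (e A x : ℝ) : ℂ :=
  (√(A / (Real.pi * Real.log x)) : ℂ) *
    ∑' v : HeightOneSpectrum (𝓞 K), if v ∈ S then 0 else
      (∑ j, α v j) * ((Real.log (nm v) * (nm v : ℝ) ^ (-e) *
        Real.exp (-(A * (Real.log (nm v) - Real.log x) ^ 2 / Real.log x)) : ℝ) : ℂ)

open Classical in
/-- **The prime powers are negligible.** -/
theorem drop_powers {α : HeightOneSpectrum (𝓞 K) → Fin N → ℂ}
    {S : Finset (HeightOneSpectrum (𝓞 K))} {w : ℝ}
    (hα : ∀ v ∉ S, ∀ j, ‖α v j‖ ≤ (nm v : ℝ) ^ w) {A : ℝ} (hA : 0 < A) :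
    ∃ κ C : ℝ, 0 < κ ∧ ∀ x : ℝ, 2 ≤ x →
      ‖xavg α S (w + 1) A x - uavg α S (w + 1) A x‖ ≤ C * x ^ (-κ) := by
  obtain ⟨β, hβ, hβ', _, hMM⟩ := x_data hα
  obtain ⟨κ, C, hκ, hC⟩ := tail_bound (ι := HeightOneSpectrum (𝓞 K) × ℕ) (u := uu) (c := ccR β)
    hA (by norm_num : (0 : ℝ) < 1 / 16) (fun p => (uu_pos p).le) (summable_ccR hβ)
  refine ⟨κ, C, hκ, fun x hx => ?_⟩
  have hx0 : 0 < x := by linarith
  have hy : 0 < Real.log x := Real.log_pos (by linarith)
  have h1 := hC (Real.log x) (Real.log_le_log (by norm_num) hx)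
  have e1 : Real.exp (-(κ * Real.log x)) = x ^ (-κ) := by
    rw [Real.rpow_def_of_pos hx0]
    congr 1
    ring
  rw [e1] at h1
  have h2 : xavg α S (w + 1) A x - uavg α S (w + 1) A x =
      ∑' p, ccR β p * (gk A (Real.log x) (uu p) : ℂ) := by
    have h3 := hMM (w + 1) A x hA (by linarith)
    have h4 : Summable fun p : HeightOneSpectrum (𝓞 K) × ℕ =>
        cc β p * (gk A (Real.log x) (uu p) : ℂ) := by
      have h5 := (integrable_count_iff.1 ((dat_cc hβ).ker_integrable hA hy 0)).of_norm
      refine h5.congr fun p => ?_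
      simp
    have h6 : xavg α S (w + 1) A x = ∑' p, cc β p * (gk A (Real.log x) (uu p) : ℂ) := by
      rw [← h3]
      unfold MM
      have h7 := integrable_count_iff.1 ((dat_cc hβ).ker_integrable hA hy
        (-((w + 1 - (w + 1) : ℝ) : ℂ)))
      rw [integral_count_eq h7]
      refine tsum_congr fun p => ?_
      simp
    have h8 : Summable fun p : HeightOneSpectrum (𝓞 K) × ℕ =>
        ccP β p * (gk A (Real.log x) (uu p) : ℂ) := by
      refine Summable.of_norm_bounded h4.norm fun p => ?_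
      unfold ccP
      split_ifs
      · exact le_rfl
      · rw [zero_mul, norm_zero]
        exact norm_nonneg _
    have h9 : Summable fun p : HeightOneSpectrum (𝓞 K) × ℕ =>
        ccR β p * (gk A (Real.log x) (uu p) : ℂ) := by
      refine Summable.of_norm_bounded h4.norm fun p => ?_
      unfold ccR
      split_ifs
      · rw [zero_mul, norm_zero]
        exact norm_nonneg _
      · exact le_rfl
    have h10 : uavg α S (w + 1) A x = ∑' p, ccP β p * (gk A (Real.log x) (uu p) : ℂ) := by
      have hinj : Function.Injective fun v : HeightOneSpectrum (𝓞 K) => ((v, 0) :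
        HeightOneSpectrum (𝓞 K) × ℕ) := fun a b h => (Prod.mk.inj h).1
      rw [← hinj.tsum_eq (f := fun p => ccP β p * (gk A (Real.log x) (uu p) : ℂ))]
      · unfold uavg
        rw [← tsum_mul_left]
        refine tsum_congr fun v => ?_
        unfold ccP
        simp only [if_true]
        unfold cc ps
        by_cases hv : v ∈ S
        · rw [if_pos hv, mul_zero]
          simp [hβ', hv]
        · rw [if_neg hv]
          have hn0 : (0 : ℝ) < nm v := by linarith [nm_ge v]
          have k0 : uu (v, 0) = Real.log (nm v) := by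
            unfold uu
            push_cast
            ring
          simp only [hβ', if_neg hv, zero_add, pow_one]
          rw [k0]
          unfold gk
          rw [← Finset.sum_div]
          have k1 : (nm v : ℝ) ^ (-(w + 1)) = ((nm v : ℝ) ^ w)⁻¹ * Real.exp (-Real.log (nm v)) := by
            rw [← Real.rpow_neg hn0.le, Real.rpow_def_of_pos hn0, Real.rpow_def_of_pos hn0,
              ← Real.exp_add]
            congr 1
            ring
          rw [k1]
          simp only [Complex.ofReal_mul, Complex.ofReal_inv, Complex.ofReal_exp,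
            Complex.ofReal_neg]
          rw [div_eq_mul_inv (∑ j, α v j)]
          ring
      · intro p hp
        rw [Function.mem_support] at hp
        refine ⟨p.1, ?_⟩
        by_contra h
        apply hp
        unfold ccP
        rw [if_neg, zero_mul]
        intro h0
        exact h (Prod.ext rfl h0.symm)
    have h11 : (fun p : HeightOneSpectrum (𝓞 K) × ℕ => cc β p * (gk A (Real.log x) (uu p) : ℂ)) =
        fun p => ccP β p * (gk A (Real.log x) (uu p) : ℂ) +
          ccR β p * (gk A (Real.log x) (uu p) : ℂ) := by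
      funext p
      rw [← add_mul, ← cc_split]
    rw [h6, h10, h11, h8.tsum_add h9]
    ring
  rw [h2]
  exact h1

end

end Pool.Agent.N881.GW
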