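import Pool.Agent.N881.GW.T2

/-!
# Poles at the edge
-/

set_option autoImplicit false

namespace Pool.Agent.N881.GW

open MeasureTheory Set Filter Topology

variable {Ω : Type} [MeasurableSpace Ω] {m : Measure Ω} {u : Ω → ℝ} {c : Ω → ℂ} {L : ℂ → ℂ}
  {e : ℝ} {avg : ℝ → ℝ → ℂ}

/-- `L` has a meromorphic continuation to a neighbourhood of `e`, of order `r` -/
def EO (L : ℂ → ℂ) (e : ℝ) (r : ℤ) : Prop :=
  ∃ F : ℂ → ℂ, MeromorphicAt F e ∧ meromorphicOrderAt F e = (r : WithTop ℤ) ∧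
    ∀ᶠ s : ℂ in 𝓝 (e : ℂ), e < s.re → F s = L s

lemma EO_iff_MC (E : LD m u c fun z => L (e + z)) {r : ℤ} {H : Set ℂ} (heH : (e : ℂ) ∈ H)
    (hH : ∀ s ∈ H, e < s.re ∨ s = e) : EO L e r ↔ MC L e e r H := by
  classical
  constructor
  · rintro ⟨F, h1, h2, h3⟩
    have h4 : ∀ᶠ s in 𝓝 (e : ℂ), MeromorphicAt F s := by
      have h5 := h1.eventually_analyticAt
      rw [eventually_nhdsWithin_iff] at h5
      filter_upwards [h5] with s hs
      by_cases h : s = e
      · rw [h]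
        exact h1
      · exact (hs h).meromorphicAt
    obtain ⟨V0, hV0, hV0o, heV0⟩ := eventually_nhds_iff.1 (h3.and h4)
    have hEo : IsOpen {s : ℂ | e < s.re} := isOpen_lt continuous_const Complex.continuous_re
    have hF : ∀ s ∈ V0, (fun s : ℂ => if e < s.re then L s else F s) =ᶠ[𝓝 s] F := by
      intro s hs
      filter_upwards [hV0o.mem_nhds hs] with z hz
      split_ifs with h
      · exact ((hV0 z hz).1 h).symm
      · rfl
    have hL : ∀ s : ℂ, e < s.re → (fun s : ℂ => if e < s.re then L s else F s) =ᶠ[𝓝 s] L := by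
      intro s hs
      filter_upwards [hEo.mem_nhds hs] with z hz
      exact if_pos hz
    refine ⟨V0 ∪ {s : ℂ | e < s.re}, fun s => if e < s.re then L s else F s, hV0o.union hEo, ?_,
      ?_, fun s _ hs => if_pos hs, ?_⟩
    · intro s hs
      rcases hH s hs with h | h
      · exact Or.inr h
      · rw [h]
        exact Or.inl heV0
    · rintro s (hs | hs)
      · exact (hV0 s hs).2.congr ((hF s hs).symm.filter_mono nhdsWithin_le_nhds)
      · exact (E.an_s hs).1.meromorphicAt.congr ((hL s hs).symm.filter_mono nhdsWithin_le_nhds)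
    · intro s hs
      rcases hH s hs with h | h
      · obtain ⟨h5, h6⟩ := E.an_s h
        rw [meromorphicOrderAt_congr ((hL s h).filter_mono nhdsWithin_le_nhds),
          order_zero_of_ne h5 h6]
        unfold pt
        rw [if_neg]
        · rfl
        · rintro rfl
          rw [Complex.ofReal_re] at h
          exact lt_irrefl _ h
      · rw [h, meromorphicOrderAt_congr ((hF e heV0).filter_mono nhdsWithin_le_nhds), h2]
        unfold pt
        rw [if_pos rfl]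
  · rintro ⟨V, F, hV, hHV, hm, hF, ho⟩
    refine ⟨F, hm e (hHV heH), ?_, ?_⟩
    · rw [ho e heH]
      unfold pt
      rw [if_pos rfl]
    · filter_upwards [hV.mem_nhds (hHV heH)] with s hs
      exact hF s hs

/-- **The criterion at the edge.** -/
theorem LD.edge [SFinite m] (E : LD m u c fun z => L (e + z))
    (havg : ∀ A x : ℝ, 0 < A → 1 < x →
      MM m u c A (Real.log x) (-((e - e : ℝ) : ℂ)) = avg A x) (r : ℤ) :
    List.TFAE [
      EO L e r,
      ∀ A : ℝ, 0 < A → ∃ η : ℝ, 0 < η ∧ ∃ C : ℝ, ∀ x : ℝ, 2 ≤ x → ‖avg A x + r‖ ≤ C * x ^ (-η),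
      ∃ A : ℝ, 0 < A ∧ ∃ η : ℝ, 0 < η ∧ ∃ C X : ℝ, ∀ x : ℝ, X ≤ x →
        ‖avg A x + r‖ ≤ C * x ^ (-η)] := by
  have h0 : ∀ A : ℝ, 0 < A → (EO L e r ↔ MC L e e r {s : ℂ | s - (e : ℂ) ∈ GW.clr A}) := by
    intro A hA
    refine EO_iff_MC E ?_ fun s hs => ?_
    · show (e : ℂ) - e ∈ GW.clr A
      rw [sub_self]
      exact zero_mem_clr hA
    · have hs' : s - (e : ℂ) ∈ GW.clr A := hs
      rcases clr_re hA hs' with h | h
      · left
        rw [Complex.sub_re, Complex.ofReal_re] at h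
        linarith
      · right
        exact sub_eq_zero.1 h
  tfae_have 1 → 2 := by
    intro h A hA
    have h12 := (E.saving le_rfl havg r hA).out 0 1
    exact h12.1 ((h0 A hA).1 h)
  tfae_have 2 → 3 := by
    intro h
    obtain ⟨η, hη, C, hC⟩ := h 1 one_pos
    exact ⟨1, one_pos, η, hη, C, 2, hC⟩
  tfae_have 3 → 1 := by
    rintro ⟨A, hA, h⟩
    have h13 := (E.saving le_rfl havg r hA).out 0 2
    exact (h0 A hA).2 (h13.2 h)
  tfae_finish

/-- the pole in the usual form -/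
def PO (L : ℂ → ℂ) (e : ℝ) (ρ : ℤ) : Prop :=
  ∃ F : ℂ → ℂ, AnalyticAt ℂ F e ∧ F e ≠ 0 ∧
    ∀ᶠ s : ℂ in 𝓝 (e : ℂ), e < s.re → (s - e) ^ ρ * L s = F s

lemma ne_of_re {s : ℂ} (h : e < s.re) : s - (e : ℂ) ≠ 0 := by
  intro h0
  rw [sub_eq_zero.1 h0, Complex.ofReal_re] at h
  exact lt_irrefl _ h

lemma PO_iff (L : ℂ → ℂ) (e : ℝ) (ρ : ℤ) : PO L e ρ ↔ EO L e (-ρ) := by
  have hid : AnalyticAt ℂ (fun s : ℂ => s - (e : ℂ)) e := by fun_prop
  have hm : ∀ k : ℤ, MeromorphicAt (fun s : ℂ => (s - (e : ℂ)) ^ k) e := fun k =>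
    hid.meromorphicAt.fun_zpow k
  have ho : ∀ k : ℤ, meromorphicOrderAt (fun s : ℂ => (s - (e : ℂ)) ^ k) e = (k : WithTop ℤ) := by
    intro k
    rw [meromorphicOrderAt_eq_int_iff (hm k)]
    refine ⟨fun _ => 1, analyticAt_const, one_ne_zero, ?_⟩
    filter_upwards with z
    simp
  constructor
  · rintro ⟨F, h1, h2, h3⟩
    refine ⟨fun s => (s - (e : ℂ)) ^ (-ρ) * F s, (hm (-ρ)).fun_mul h1.meromorphicAt, ?_, ?_⟩
    · rw [fun_meromorphicOrderAt_mul (hm (-ρ)) h1.meromorphicAt, ho, order_zero_of_ne h1 h2,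
        add_zero]
    · filter_upwards [h3] with s hs hse
      rw [← hs hse, ← mul_assoc, ← zpow_add₀ (ne_of_re hse), neg_add_cancel, zpow_zero, one_mul]
  · rintro ⟨F, h1, h2, h3⟩
    set G : ℂ → ℂ := fun s => (s - (e : ℂ)) ^ ρ * F s with hG
    have hGm : MeromorphicAt G e := (hm ρ).fun_mul h1
    have hGo : meromorphicOrderAt G e = 0 := by
      rw [hG, fun_meromorphicOrderAt_mul (hm ρ) h1, ho, h2]
      rw [← WithTop.coe_add, add_neg_cancel, WithTop.coe_zero]
    obtain ⟨g, hg1, hg2, hg3⟩ := (meromorphicOrderAt_eq_int_iff hGm (n := 0)).1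
      (by rw [hGo]; rfl)
    refine ⟨g, hg1, hg2, ?_⟩
    rw [eventually_nhdsWithin_iff] at hg3
    filter_upwards [h3, hg3] with s hs hgs hse
    have hne : s ≠ e := fun h => ne_of_re hse (sub_eq_zero.2 h)
    have h4 := hgs hne
    rw [zpow_zero, one_smul] at h4
    rw [← h4, hG]
    simp only
    rw [hs hse]

lemma PO_congr {L1 L2 P : ℂ → ℂ} (hP : AnalyticAt ℂ P e) (hP0 : P e ≠ 0)
    (h : ∀ᶠ s : ℂ in 𝓝 (e : ℂ), e < s.re → L1 s = L2 s * P s) (ρ : ℤ) :
    PO L1 e ρ ↔ PO L2 e ρ := by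
  have hPne : ∀ᶠ s : ℂ in 𝓝 (e : ℂ), P s ≠ 0 := hP.continuousAt.eventually_ne hP0
  constructor
  · rintro ⟨F, h1, h2, h3⟩
    refine ⟨fun s => F s * (P s)⁻¹, h1.mul (hP.inv hP0), mul_ne_zero h2 (inv_ne_zero hP0), ?_⟩
    filter_upwards [h, h3, hPne] with s hs hs3 hPs hse
    rw [← hs3 hse, hs hse]
    field_simp
  · rintro ⟨F, h1, h2, h3⟩
    refine ⟨fun s => F s * P s, h1.mul hP, mul_ne_zero h2 hP0, ?_⟩
    filter_upwards [h, h3] with s hs hs3 hse
    rw [← hs3 hse, hs hse]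
    ring

/-- the limit, if a continuation exists -/
theorem LD.edge_lim [SFinite m] (E : LD m u c fun z => L (e + z))
    (havg : ∀ A x : ℝ, 0 < A → 1 < x →
      MM m u c A (Real.log x) (-((e - e : ℝ) : ℂ)) = avg A x)
    (hex : ∃ F : ℂ → ℂ, MeromorphicAt F e ∧ ∀ᶠ s : ℂ in 𝓝 (e : ℂ), e < s.re → F s = L s) :
    ∃ r : ℤ, EO L e r ∧ ∀ A : ℝ, 0 < A → Tendsto (fun x => avg A x) atTop (𝓝 (-(r : ℂ))) := by
  obtain ⟨F, h1, h2⟩ := hex
  have hne : meromorphicOrderAt F e ≠ ⊤ := by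
    intro htop
    rw [meromorphicOrderAt_eq_top_iff] at htop
    have h3 : ∃ᶠ s in 𝓝[≠] (e : ℂ), e < s.re := by
      have h4 : Tendsto (fun n : ℕ => (e : ℂ) + ((1 / ((n : ℝ) + 1) : ℝ) : ℂ)) atTop
          (𝓝[≠] (e : ℂ)) := by
        rw [tendsto_nhdsWithin_iff]
        constructor
        · have h5 : Tendsto (fun n : ℕ => (1 / ((n : ℝ) + 1) : ℝ)) atTop (𝓝 0) :=
            tendsto_one_div_add_atTop_nhds_zero_nat
          have h6 : Tendsto (fun n : ℕ => (((1 / ((n : ℝ) + 1) : ℝ)) : ℂ)) atTop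
              (𝓝 ((0 : ℝ) : ℂ)) := (Complex.continuous_ofReal.tendsto 0).comp h5
          have h7 := h6.const_add (e : ℂ)
          simpa using h7
        · refine Eventually.of_forall fun n => ?_
          intro h
          have h8 : (((1 / ((n : ℝ) + 1) : ℝ)) : ℂ) = 0 := by
            have h9 : (e : ℂ) + (((1 / ((n : ℝ) + 1) : ℝ)) : ℂ) = e := h
            linear_combination h9
          rw [Complex.ofReal_eq_zero] at h8
          have : (0 : ℝ) < 1 / ((n : ℝ) + 1) := by positivity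
          linarith
      refine h4.frequently (Eventually.frequently (Eventually.of_forall fun n => ?_))
      rw [Complex.add_re, Complex.ofReal_re, Complex.ofReal_re]
      have : (0 : ℝ) < 1 / ((n : ℝ) + 1) := by positivity
      linarith
    obtain ⟨s, hs, hs2, hs3⟩ := (h3.and_eventually
      (htop.and (h2.filter_mono nhdsWithin_le_nhds))).exists
    have h4 := hs3 hs
    rw [hs2] at h4
    exact (E.an_s hs).2 h4.symm
  obtain ⟨r, hr⟩ := WithTop.ne_top_iff_exists.1 hne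
  have hEO : EO L e r := ⟨F, h1, hr.symm, h2⟩
  refine ⟨r, hEO, fun A hA => ?_⟩
  have h12 := (E.edge havg r).out 0 1
  obtain ⟨η, hη, C, hC⟩ := h12.1 hEO A hA
  have h3 : Tendsto (fun x : ℝ => avg A x + r) atTop (𝓝 0) := by
    rw [tendsto_zero_iff_norm_tendsto_zero]
    have h4 : Tendsto (fun x : ℝ => C * x ^ (-η)) atTop (𝓝 0) := by
      have := (tendsto_rpow_neg_atTop hη).const_mul C
      rwa [mul_zero] at this
    refine squeeze_zero' (Eventually.of_forall fun x => norm_nonneg _) ?_ h4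
    filter_upwards [eventually_ge_atTop 2] with x hx
    exact hC x hx
  have h5 := h3.sub_const (r : ℂ)
  simpa using h5

end Pool.Agent.N881.GW
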