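import Pool.Agent.N881.GW.T3
import Pool.Agent.TH958.BV.Defs

/-!
# The L-functions of varieties at the edge
-/

set_option autoImplicit false

namespace Pool.Agent.N881.GW

open MeasureTheory Set Filter Topology NumberField IsDedekindDomain Polynomial
open Pool.Agent.TH339.MP (nm pr lv)
open Pool.Agent.TH958.BV

section

variable {K : Type} [Field K] [NumberField K] {N : ℕ}

lemma frob_norm {n : ℕ} {X : Set (MvPolynomial (Fin n) (𝓞 K))} {d i : ℕ}
    {v : HeightOneSpectrum (𝓞 K)} {α : Fin N → ℂ} (h : IsFrobenius X d i v α) (j : Fin N) :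
    ‖α j‖ = (nm v : ℝ) ^ ((i : ℝ) / 2) := by
  obtain ⟨β, h1, h2, _⟩ := h
  refine h2 i (α j) ?_
  rw [h1]
  exact Multiset.mem_map_of_mem α (Finset.mem_univ_val j)

/-- the Euler product converges -/
lemma mult_euler {β : HeightOneSpectrum (𝓞 K) → Fin N → ℂ} (hβ : ∀ v j, ‖β v j‖ ≤ 1) {z : ℂ}
    (hz : 0 < z.re) : Multipliable fun v : HeightOneSpectrum (𝓞 K) =>
      ∏ j, (1 - β v j * ((nm v : ℕ) : ℂ) ^ (-(1 + z)))⁻¹ := by
  have hs : 1 ≤ (1 + z).re := by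
    rw [Complex.add_re, Complex.one_re]
    linarith
  have h1 := (phi_c0 hβ hz).cexp
  have h2 : (Complex.exp ∘ fun v => lv β v (1 + z)) =
      fun v => ∏ j, (1 - β v j * ((nm v : ℕ) : ℂ) ^ (-(1 + z)))⁻¹ := by
    funext v
    exact Pool.Agent.TH339.MP.exp_lv hβ v hs
  rw [h2] at h1
  exact h1.multipliable

open Classical in
/-- the full Euler product -/
theorem LFun_eq {α : HeightOneSpectrum (𝓞 K) → Fin N → ℂ}
    {S : Finset (HeightOneSpectrum (𝓞 K))} {w : ℝ}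
    (hα : ∀ v ∉ S, ∀ j, ‖α v j‖ ≤ (nm v : ℝ) ^ w) {B : HeightOneSpectrum (𝓞 K) → ℂ[X]}
    (hB : ∀ v ∉ S, ∀ z : ℂ, (B v).eval z = ∏ j, (1 - α v j * z)) {s : ℂ} (hs : w + 1 < s.re) :
    LFun B s = xL α S s * ∏ v ∈ S, localFactor B v s := by
  obtain ⟨β, hβ, hβ', _, _⟩ := x_data hα
  have hn0 : ∀ v : HeightOneSpectrum (𝓞 K), (0 : ℝ) < nm v := fun v => by linarith [nm_ge v]
  have hz : 0 < (s - ((w + 1 : ℝ) : ℂ)).re := by
    rw [Complex.sub_re, Complex.ofReal_re]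
    linarith
  have h1 := mult_euler hβ hz
  have h2 : (fun v : HeightOneSpectrum (𝓞 K) =>
      ∏ j, (1 - β v j * ((nm v : ℕ) : ℂ) ^ (-(1 + (s - ((w + 1 : ℝ) : ℂ)))))⁻¹) =
      fun v => if v ∈ S then 1 else ∏ j, (1 - α v j * ((nm v : ℕ) : ℂ) ^ (-s))⁻¹ := by
    funext v
    by_cases hv : v ∈ S
    · simp [hβ', hv]
    · rw [if_neg hv]
      refine Finset.prod_congr rfl fun j _ => ?_
      rw [hβ', if_neg hv]
      congr 2
      have hc : ((nm v : ℕ) : ℂ) ≠ 0 := by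
        have := (hn0 v).ne'
        exact_mod_cast this
      have k1 : (((nm v : ℝ) ^ w : ℝ) : ℂ) = ((nm v : ℕ) : ℂ) ^ (w : ℂ) := by
        rw [Complex.ofReal_cpow (hn0 v).le]
        push_cast
        rfl
      have k2 : ((nm v : ℕ) : ℂ) ^ (-s) =
          ((nm v : ℕ) : ℂ) ^ (-(w : ℂ)) *
            ((nm v : ℕ) : ℂ) ^ (-(1 + (s - ((w + 1 : ℝ) : ℂ)))) := by
        rw [← Complex.cpow_add _ _ hc]
        congr 1
        push_cast
        ring
      rw [k1, k2, Complex.cpow_neg _ (w : ℂ)]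
      ring
  rw [h2] at h1
  have h4 : HasProd (fun v => if v ∈ S then localFactor B v s else 1)
      (∏ v ∈ S, localFactor B v s) := by
    have h5 := hasProd_prod_of_ne_finset_one (L := SummationFilter.unconditional _)
      (s := S) (f := fun v => if v ∈ S then localFactor B v s else 1) (fun v hv => if_neg hv)
    have h6 : ∏ v ∈ S, (if v ∈ S then localFactor B v s else 1) = ∏ v ∈ S, localFactor B v s :=
      Finset.prod_congr rfl fun v hv => if_pos hv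
    rwa [h6] at h5
  have h7 := h1.tprod_mul h4.multipliable
  rw [h4.tprod_eq] at h7
  unfold xL
  rw [← h7]
  unfold LFun
  refine tprod_congr fun v => ?_
  by_cases hv : v ∈ S
  · rw [if_pos hv, if_pos hv, one_mul]
  · rw [if_neg hv, if_neg hv, mul_one]
    unfold localFactor
    rw [hB v hv, ← Finset.prod_inv_distrib]
    rfl

lemma lf_an (B : HeightOneSpectrum (𝓞 K) → ℂ[X]) (v : HeightOneSpectrum (𝓞 K)) {s : ℂ}
    (h : (B v).eval ((Ideal.absNorm v.asIdeal : ℂ) ^ (-s)) ≠ 0) :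
    AnalyticAt ℂ (localFactor B v) s ∧ localFactor B v s ≠ 0 := by
  have hn : (Ideal.absNorm v.asIdeal : ℂ) ≠ 0 := by
    have := nm_ge v
    have h : (nm v : ℝ) ≠ 0 := by linarith
    exact_mod_cast h
  have h1 : Differentiable ℂ fun s : ℂ => (Ideal.absNorm v.asIdeal : ℂ) ^ (-s) :=
    differentiable_id.neg.const_cpow (Or.inl hn)
  have h2 : Differentiable ℂ fun s : ℂ => (B v).eval ((Ideal.absNorm v.asIdeal : ℂ) ^ (-s)) :=
    (B v).differentiable.comp h1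
  exact ⟨(h2.analyticAt s).inv h, inv_ne_zero h⟩

open Classical in
/-- **The criterion for the pole at the edge.** -/
theorem x_edge {α : HeightOneSpectrum (𝓞 K) → Fin N → ℂ}
    {S : Finset (HeightOneSpectrum (𝓞 K))} {w : ℝ}
    (hα : ∀ v ∉ S, ∀ j, ‖α v j‖ ≤ (nm v : ℝ) ^ w) {B : HeightOneSpectrum (𝓞 K) → ℂ[X]}
    (hB : ∀ v ∉ S, ∀ z : ℂ, (B v).eval z = ∏ j, (1 - α v j * z))
    (hbad : ∀ v ∈ S, (B v).eval ((Ideal.absNorm v.asIdeal : ℂ) ^ (-((w + 1 : ℝ) : ℂ))) ≠ 0) :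
    (∀ ρ : ℤ, List.TFAE [
      PO (LFun B) (w + 1) ρ,
      ∀ A : ℝ, 0 < A → ∃ η : ℝ, 0 < η ∧ ∃ C : ℝ, ∀ x : ℝ, 2 ≤ x →
        ‖uavg α S (w + 1) A x - ρ‖ ≤ C * x ^ (-η),
      ∃ A : ℝ, 0 < A ∧ ∃ η : ℝ, 0 < η ∧ ∃ C X : ℝ, ∀ x : ℝ, X ≤ x →
        ‖uavg α S (w + 1) A x - ρ‖ ≤ C * x ^ (-η)]) ∧
    ((∃ F : ℂ → ℂ, MeromorphicAt F ((w + 1 : ℝ) : ℂ) ∧
      ∀ᶠ s : ℂ in 𝓝 ((w + 1 : ℝ) : ℂ), w + 1 < s.re → F s = LFun B s) →
      ∃ ρ : ℤ, PO (LFun B) (w + 1) ρ ∧ ∀ A : ℝ, 0 < A →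
        Tendsto (fun x => uavg α S (w + 1) A x) atTop (𝓝 (ρ : ℂ))) := by
  obtain ⟨β, hβ, hβ', hLD, hMM⟩ := x_data hα
  have hav : ∀ A x : ℝ, 0 < A → 1 < x →
      MM Measure.count (uu (K := K)) (cc β) A (Real.log x)
        (-((w + 1 - (w + 1) : ℝ) : ℂ)) = xavg α S (w + 1) A x := fun A x hA hx =>
    hMM (w + 1) A x hA hx
  set P : ℂ → ℂ := fun s => ∏ v ∈ S, localFactor B v s with hP
  have hPan : AnalyticAt ℂ P ((w + 1 : ℝ) : ℂ) :=
    Finset.analyticAt_fun_prod S fun v hv => (lf_an B v (hbad v hv)).1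
  have hP0 : P ((w + 1 : ℝ) : ℂ) ≠ 0 :=
    Finset.prod_ne_zero_iff.2 fun v hv => (lf_an B v (hbad v hv)).2
  have hfull : ∀ᶠ s : ℂ in 𝓝 ((w + 1 : ℝ) : ℂ), w + 1 < s.re → LFun B s = xL α S s * P s :=
    Eventually.of_forall fun s hs => LFun_eq hα hB hs
  have hdrop := fun A (hA : 0 < A) => drop_powers hα hA
  have hxu : ∀ (ρ : ℤ) (A X : ℝ), 0 < A →
      (∃ η : ℝ, 0 < η ∧ ∃ C : ℝ, ∀ x : ℝ, max X 2 ≤ x →
        ‖uavg α S (w + 1) A x - ρ‖ ≤ C * x ^ (-η)) →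
      ∃ η : ℝ, 0 < η ∧ ∃ C : ℝ, ∀ x : ℝ, max X 2 ≤ x →
        ‖xavg α S (w + 1) A x + ((-ρ : ℤ) : ℂ)‖ ≤ C * x ^ (-η) := by
    rintro ρ A X hA ⟨η, hη, C, hC⟩
    obtain ⟨κ, C', hκ, hC'⟩ := hdrop A hA
    refine ⟨min η κ, lt_min hη hκ, |C| + |C'|, fun x hx => ?_⟩
    have hx2 : 2 ≤ x := (le_max_right _ _).trans hx
    have hx1 : 1 ≤ x := by linarith
    have h1 : x ^ (-η) ≤ x ^ (-min η κ) :=
      Real.rpow_le_rpow_of_exponent_le hx1 (neg_le_neg (min_le_left _ _))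
    have h2 : x ^ (-κ) ≤ x ^ (-min η κ) :=
      Real.rpow_le_rpow_of_exponent_le hx1 (neg_le_neg (min_le_right _ _))
    have h3 : 0 ≤ x ^ (-η) := Real.rpow_nonneg (by linarith) _
    have h4 : 0 ≤ x ^ (-κ) := Real.rpow_nonneg (by linarith) _
    have e1 : xavg α S (w + 1) A x + ((-ρ : ℤ) : ℂ) = (uavg α S (w + 1) A x - ρ) +
        (xavg α S (w + 1) A x - uavg α S (w + 1) A x) := by
      push_cast
      ring
    rw [e1]
    calc _ ≤ C * x ^ (-η) + C' * x ^ (-κ) :=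
          (norm_add_le _ _).trans (add_le_add (hC x hx) (hC' x hx2))
      _ ≤ |C| * x ^ (-min η κ) + |C'| * x ^ (-min η κ) := by
          refine add_le_add ?_ ?_
          · exact (mul_le_mul_of_nonneg_right (le_abs_self C) h3).trans
              (mul_le_mul_of_nonneg_left h1 (abs_nonneg C))
          · exact (mul_le_mul_of_nonneg_right (le_abs_self C') h4).trans
              (mul_le_mul_of_nonneg_left h2 (abs_nonneg C'))
      _ = _ := by ring
  have hux : ∀ (ρ : ℤ) (A X : ℝ), 0 < A →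
      (∃ η : ℝ, 0 < η ∧ ∃ C : ℝ, ∀ x : ℝ, max X 2 ≤ x →
        ‖xavg α S (w + 1) A x + ((-ρ : ℤ) : ℂ)‖ ≤ C * x ^ (-η)) →
      ∃ η : ℝ, 0 < η ∧ ∃ C : ℝ, ∀ x : ℝ, max X 2 ≤ x →
        ‖uavg α S (w + 1) A x - ρ‖ ≤ C * x ^ (-η) := by
    rintro ρ A X hA ⟨η, hη, C, hC⟩
    obtain ⟨κ, C', hκ, hC'⟩ := hdrop A hA
    refine ⟨min η κ, lt_min hη hκ, |C| + |C'|, fun x hx => ?_⟩
    have hx2 : 2 ≤ x := (le_max_right _ _).trans hx
    have hx1 : 1 ≤ x := by linarith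
    have h1 : x ^ (-η) ≤ x ^ (-min η κ) :=
      Real.rpow_le_rpow_of_exponent_le hx1 (neg_le_neg (min_le_left _ _))
    have h2 : x ^ (-κ) ≤ x ^ (-min η κ) :=
      Real.rpow_le_rpow_of_exponent_le hx1 (neg_le_neg (min_le_right _ _))
    have h3 : 0 ≤ x ^ (-η) := Real.rpow_nonneg (by linarith) _
    have h4 : 0 ≤ x ^ (-κ) := Real.rpow_nonneg (by linarith) _
    have e1 : uavg α S (w + 1) A x - ρ = (xavg α S (w + 1) A x + ((-ρ : ℤ) : ℂ)) -
        (xavg α S (w + 1) A x - uavg α S (w + 1) A x) := by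
      push_cast
      ring
    rw [e1]
    calc _ ≤ C * x ^ (-η) + C' * x ^ (-κ) :=
          (norm_sub_le _ _).trans (add_le_add (hC x hx) (hC' x hx2))
      _ ≤ |C| * x ^ (-min η κ) + |C'| * x ^ (-min η κ) := by
          refine add_le_add ?_ ?_
          · exact (mul_le_mul_of_nonneg_right (le_abs_self C) h3).trans
              (mul_le_mul_of_nonneg_left h1 (abs_nonneg C))
          · exact (mul_le_mul_of_nonneg_right (le_abs_self C') h4).trans
              (mul_le_mul_of_nonneg_left h2 (abs_nonneg C'))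
      _ = _ := by ring
  refine ⟨fun ρ => ?_, ?_⟩
  · have h0 : PO (LFun B) (w + 1) ρ ↔ EO (xL α S) (w + 1) (-ρ) := by
      rw [PO_congr hPan hP0 hfull ρ, PO_iff]
    have key := hLD.edge hav (-ρ)
    have h12 := key.out 0 1
    have h13 := key.out 0 2
    tfae_have 1 → 2 := by
      intro h A hA
      obtain ⟨η, hη, C, hC⟩ := h12.1 (h0.1 h) A hA
      obtain ⟨η', hη', C', hC'⟩ := hux ρ A 2 hA ⟨η, hη, C, fun x hx =>
        hC x ((le_max_left _ _).trans hx)⟩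
      exact ⟨η', hη', C', fun x hx => hC' x (max_le hx hx)⟩
    tfae_have 2 → 3 := by
      intro h
      obtain ⟨η, hη, C, hC⟩ := h 1 one_pos
      exact ⟨1, one_pos, η, hη, C, 2, hC⟩
    tfae_have 3 → 1 := by
      rintro ⟨A, hA, η, hη, C, X, hC⟩
      obtain ⟨η', hη', C', hC'⟩ := hxu ρ A X hA ⟨η, hη, C, fun x hx =>
        hC x ((le_max_left _ _).trans hx)⟩
      exact h0.2 (h13.2 ⟨A, hA, η', hη', C', max X 2, hC'⟩)
    tfae_finish
  · rintro ⟨F, hF1, hF2⟩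
    have hex : ∃ F : ℂ → ℂ, MeromorphicAt F ((w + 1 : ℝ) : ℂ) ∧
        ∀ᶠ s : ℂ in 𝓝 ((w + 1 : ℝ) : ℂ), w + 1 < s.re → F s = xL α S s := by
      refine ⟨fun s => F s * (P s)⁻¹, hF1.fun_mul hPan.meromorphicAt.fun_inv, ?_⟩
      filter_upwards [hF2, hPan.continuousAt.eventually_ne hP0] with s hs hPs hse
      rw [hs hse, LFun_eq hα hB hse, mul_assoc]
      rw [show (∏ v ∈ S, localFactor B v s) * (P s)⁻¹ = 1 from mul_inv_cancel₀ hPs, mul_one]
    obtain ⟨r, hr1, hr2⟩ := hLD.edge_lim hav hex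
    refine ⟨-r, ?_, fun A hA => ?_⟩
    · rw [PO_congr hPan hP0 hfull, PO_iff, neg_neg]
      exact hr1
    · obtain ⟨κ, C', hκ, hC'⟩ := hdrop A hA
      have h3 : Tendsto (fun x => xavg α S (w + 1) A x - uavg α S (w + 1) A x) atTop (𝓝 0) := by
        rw [tendsto_zero_iff_norm_tendsto_zero]
        have h4 : Tendsto (fun x : ℝ => C' * x ^ (-κ)) atTop (𝓝 0) := by
          have := (tendsto_rpow_neg_atTop hκ).const_mul C'
          rwa [mul_zero] at this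
        refine squeeze_zero' (Eventually.of_forall fun x => norm_nonneg _) ?_ h4
        filter_upwards [eventually_ge_atTop 2] with x hx
        exact hC' x hx
      have h5 := (hr2 A hA).sub h3
      rw [sub_zero] at h5
      have h6 : (fun x => xavg α S (w + 1) A x - (xavg α S (w + 1) A x - uavg α S (w + 1) A x)) =
          fun x => uavg α S (w + 1) A x := by
        funext x
        ring
      rw [h6] at h5
      push_cast
      exact h5

end

end Pool.Agent.N881.GW
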