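import Pool.Agent.N881.GW.R1

/-!
# Euler products over an arbitrary index set with an arbitrary abscissa
-/

set_option autoImplicit false

namespace Pool.Agent.N881.GW

open MeasureTheory Set Filter Topology

section

variable {I : Type} {N : I → ℕ} {k : ℕ} {e : ℝ}

/-- the coefficients of the logarithm -/
noncomputable def c0V (N : I → ℕ) (e : ℝ) (β : I → Fin k → ℂ) (p : EI I) : ℂ :=
  pE β p.1 (p.2 + 1) / (p.2 + 1 : ℕ) * ((Real.exp (-(e * uE N p)) : ℝ) : ℂ)

/-- the coefficients of the logarithmic derivative -/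
noncomputable def cV (N : I → ℕ) (e : ℝ) (β : I → Fin k → ℂ) (p : EI I) : ℂ :=
  pE β p.1 (p.2 + 1) * Real.log (N p.1) * ((Real.exp (-(e * uE N p)) : ℝ) : ℂ)

/-- the norms -/
structure NrmE (N : I → ℕ) (e : ℝ) : Prop where
  two : ∀ i, 2 ≤ N i
  nonneg : 0 ≤ e
  sum : ∀ x : ℝ, e < x → Summable fun i => (N i : ℝ) ^ (-x)

lemma cV_eq (β : I → Fin k → ℂ) (p : EI I) : cV N e β p = uE N p * c0V N e β p := by
  unfold cV c0V uE
  have : ((p.2 + 1 : ℕ) : ℂ) ≠ 0 := by exact_mod_cast Nat.succ_ne_zero p.2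
  push_cast at this ⊢
  field_simp

lemma NrmE.ge (h : NrmE N e) (i : I) : (2 : ℝ) ≤ N i := by exact_mod_cast h.two i

lemma NrmE.log_pos (h : NrmE N e) (i : I) : 0 < Real.log (N i) :=
  Real.log_pos (by linarith [h.ge i])

lemma NrmE.uE_pos (h : NrmE N e) (p : EI I) : 0 < uE N p := by
  unfold uE
  have := h.log_pos p.1
  positivity

lemma NrmE.summable_G (h : NrmE N e) {x : ℝ} (hx : e < x) :
    Summable fun p : EI I => Real.exp (-(x * uE N p)) := by
  have hx0 : 0 < x := h.nonneg.trans_lt hx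
  have hr0 : (0 : ℝ) ≤ (2 : ℝ) ^ (-x) := by positivity
  have hr1 : (2 : ℝ) ^ (-x) < 1 :=
    Real.rpow_lt_one_of_one_lt_of_neg (by norm_num) (by linarith)
  have h1 : Summable fun p : I × ℕ => (N p.1 : ℝ) ^ (-x) * ((2 : ℝ) ^ (-x)) ^ p.2 :=
    (h.sum x hx).mul_of_nonneg
      (summable_geometric_of_lt_one hr0 hr1)
      (fun v => Real.rpow_nonneg (Nat.cast_nonneg _) _) (fun k => by positivity)
  refine Summable.of_nonneg_of_le (fun p => (Real.exp_pos _).le) (fun p => ?_) h1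
  have hn : (0 : ℝ) < N p.1 := by linarith [h.ge p.1]
  have h2 : Real.exp (-(x * uE N p)) = ((N p.1 : ℝ) ^ (-x)) ^ (p.2 + 1) := by
    rw [Real.rpow_def_of_pos hn, ← Real.exp_nat_mul]
    congr 1
    unfold uE
    push_cast
    ring
  have h4 : (N p.1 : ℝ) ^ (-x) ≤ (2 : ℝ) ^ (-x) :=
    Real.rpow_le_rpow_of_nonpos (by norm_num) (h.ge p.1) (by linarith)
  have h5 : (0 : ℝ) ≤ (N p.1 : ℝ) ^ (-x) := Real.rpow_nonneg (Nat.cast_nonneg _) _
  rw [h2, pow_succ, mul_comm]
  exact mul_le_mul_of_nonneg_left (pow_le_pow_left₀ h5 h4 _) h5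

lemma norm_expe (p : EI I) :
    ‖((Real.exp (-(e * uE N p)) : ℝ) : ℂ)‖ = Real.exp (-(e * uE N p)) := by
  rw [Complex.norm_real, Real.norm_of_nonneg (Real.exp_pos _).le]

lemma NrmE.dat_cV (h : NrmE N e) {β : I → Fin k → ℂ} (hβ : ∀ v j, ‖β v j‖ ≤ 1) :
    Dat Measure.count (uE N) (cV N e β) where
  hu := fun p => (h.uE_pos p).le
  mu := Measurable.of_discrete
  mc := Measurable.of_discrete
  int := by
    intro σ hσ
    rw [integrable_count_iff]
    have h1 := (h.summable_G (x := e + σ / 2) (by linarith)).mul_left (k * (2 / σ))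
    refine Summable.of_nonneg_of_le (fun p => norm_nonneg _) (fun p => ?_) h1
    have hu := (h.uE_pos p).le
    rw [Real.norm_of_nonneg (by positivity)]
    have hl := (h.log_pos p.1).le
    have h2 : ‖cV N e β p‖ ≤ k * uE N p * Real.exp (-(e * uE N p)) := by
      unfold cV
      rw [norm_mul, norm_mul, norm_expe, Complex.norm_real, Real.norm_of_nonneg hl]
      refine mul_le_mul_of_nonneg_right ?_ (Real.exp_pos _).le
      refine mul_le_mul (norm_pE hβ _ _) ?_ hl (Nat.cast_nonneg _)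
      unfold uE
      have : (0 : ℝ) ≤ p.2 := Nat.cast_nonneg _
      nlinarith
    calc ‖cV N e β p‖ * Real.exp (-(σ * uE N p))
        ≤ (k * uE N p * Real.exp (-(e * uE N p))) * Real.exp (-(σ * uE N p)) :=
          mul_le_mul_of_nonneg_right h2 (Real.exp_pos _).le
      _ = k * Real.exp (-(e * uE N p)) * (uE N p * Real.exp (-(σ * uE N p))) := by ring
      _ ≤ k * Real.exp (-(e * uE N p)) * (2 / σ * Real.exp (-(σ / 2 * uE N p))) :=
          mul_le_mul_of_nonneg_left (mul_exp_le hσ) (by positivity)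
      _ = k * (2 / σ) * (Real.exp (-(e * uE N p)) * Real.exp (-(σ / 2 * uE N p))) := by ring
      _ = _ := by
          rw [← Real.exp_add]
          congr 2
          ring

lemma NrmE.dat_c0V (h : NrmE N e) {β : I → Fin k → ℂ} (hβ : ∀ v j, ‖β v j‖ ≤ 1) :
    Dat Measure.count (uE N) (c0V N e β) where
  hu := fun p => (h.uE_pos p).le
  mu := Measurable.of_discrete
  mc := Measurable.of_discrete
  int := by
    intro σ hσ
    rw [integrable_count_iff]
    have h1 := (h.summable_G (x := e + σ) (by linarith)).mul_left (k : ℝ)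
    refine Summable.of_nonneg_of_le (fun p => norm_nonneg _) (fun p => ?_) h1
    have hu := (h.uE_pos p).le
    rw [Real.norm_of_nonneg (by positivity)]
    have h2 : ‖c0V N e β p‖ ≤ k * Real.exp (-(e * uE N p)) := by
      unfold c0V
      rw [norm_mul, norm_div, norm_expe]
      refine mul_le_mul_of_nonneg_right ?_ (Real.exp_pos _).le
      have h3 : (1 : ℝ) ≤ ‖((p.2 + 1 : ℕ) : ℂ)‖ := by
        rw [Complex.norm_natCast]
        exact_mod_cast Nat.succ_pos _
      exact (div_le_self (norm_nonneg _) h3).trans (norm_pE hβ _ _)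
    calc ‖c0V N e β p‖ * Real.exp (-(σ * uE N p))
        ≤ (k * Real.exp (-(e * uE N p))) * Real.exp (-(σ * uE N p)) :=
          mul_le_mul_of_nonneg_right h2 (Real.exp_pos _).le
      _ = k * (Real.exp (-(e * uE N p)) * Real.exp (-(σ * uE N p))) := by ring
      _ = _ := by
          rw [← Real.exp_add]
          congr 2
          ring

lemma NrmE.exp_uE (h : NrmE N e) (v : I) (n : ℕ) (z : ℂ) :
    ((Real.exp (-(e * uE N (v, n))) : ℝ) : ℂ) * Complex.exp (-(z * uE N (v, n))) =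
      ((N v : ℂ) ^ (-(e + z))) ^ (n + 1) := by
  have hn : (N v : ℂ) ≠ 0 := by
    have := h.two v
    have h2 : N v ≠ 0 := by omega
    exact_mod_cast h2
  rw [Complex.ofReal_exp, ← Complex.exp_add, Complex.cpow_def_of_ne_zero hn, ← Complex.exp_nat_mul]
  congr 1
  unfold uE
  rw [Complex.natCast_log.symm]
  push_cast
  ring

lemma NrmE.norm_cpow_lt (h : NrmE N e) (v : I) {z : ℂ} (hz : 0 < z.re) :
    ‖(N v : ℂ) ^ (-(e + z))‖ < 1 := by
  have h2 := h.ge v
  have h3 := h.nonneg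
  rw [Complex.norm_natCast_cpow_of_pos (by have := h.two v; omega)]
  refine Real.rpow_lt_one_of_one_lt_of_neg (by linarith) ?_
  rw [Complex.neg_re, Complex.add_re, Complex.ofReal_re]
  linarith

/-- the logarithm of the local factor -/
noncomputable def lV (N : I → ℕ) (e : ℝ) (β : I → Fin k → ℂ) (v : I) (z : ℂ) : ℂ :=
  ∑ j, -Complex.log (1 - β v j * (N v : ℂ) ^ (-(e + z)))

lemma NrmE.norm_lt (h : NrmE N e) {β : I → Fin k → ℂ} (hβ : ∀ v j, ‖β v j‖ ≤ 1) (v : I) (j : Fin k)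
    {z : ℂ} (hz : 0 < z.re) : ‖β v j * (N v : ℂ) ^ (-(e + z))‖ < 1 := by
  rw [norm_mul]
  have h3 := h.norm_cpow_lt v hz
  have h4 := hβ v j
  nlinarith [norm_nonneg (β v j), norm_nonneg ((N v : ℂ) ^ (-(e + z)))]

lemma NrmE.exp_lV (h : NrmE N e) {β : I → Fin k → ℂ} (hβ : ∀ v j, ‖β v j‖ ≤ 1) (v : I)
    {z : ℂ} (hz : 0 < z.re) :
    Complex.exp (lV N e β v z) = ∏ j, (1 - β v j * (N v : ℂ) ^ (-(e + z)))⁻¹ := by
  unfold lV
  rw [Complex.exp_sum]
  refine Finset.prod_congr rfl fun j _ => ?_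
  rw [Complex.exp_neg, Complex.exp_log]
  intro h0
  have h1 := h.norm_lt hβ v j hz
  have h2 : β v j * (N v : ℂ) ^ (-(e + z)) = 1 := by linear_combination -h0
  rw [h2, norm_one] at h1
  exact lt_irrefl _ h1

lemma NrmE.hasSum_fib (h : NrmE N e) {β : I → Fin k → ℂ} (hβ : ∀ v j, ‖β v j‖ ≤ 1)
    (v : I) {z : ℂ} (hz : 0 < z.re) :
    HasSum (fun n : ℕ => c0V N e β (v, n) * Complex.exp (-(z * uE N (v, n)))) (lV N e β v z) := by
  set X : ℂ := (N v : ℂ) ^ (-(e + z)) with hX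
  have h1 : ∀ j, HasSum (fun n : ℕ => (β v j * X) ^ (n + 1) / ((n + 1 : ℕ) : ℂ))
      (-Complex.log (1 - β v j * X)) := by
    intro j
    have h1 := Complex.hasSum_taylorSeries_neg_log (h.norm_lt hβ v j hz)
    rw [← hasSum_nat_add_iff' 1] at h1
    simpa only [Finset.range_one, Finset.sum_singleton, pow_zero, CharP.cast_eq_zero, div_zero,
      sub_zero] using h1
  have h3 := hasSum_sum (s := (Finset.univ : Finset (Fin k))) fun j _ => h1 j
  unfold lV
  convert h3 using 1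
  funext n
  unfold c0V pE
  simp only
  rw [mul_assoc, h.exp_uE, ← hX, div_mul_eq_mul_div, Finset.sum_mul, Finset.sum_div]
  refine Finset.sum_congr rfl fun j _ => ?_
  rw [mul_pow]

lemma NrmE.phi_c0V [Countable I] (h : NrmE N e) {β : I → Fin k → ℂ} (hβ : ∀ v j, ‖β v j‖ ≤ 1)
    {z : ℂ} (hz : 0 < z.re) :
    HasSum (fun v => lV N e β v z) (phi Measure.count (uE N) (c0V N e β) z) := by
  have h1 := phi_integrable (h.dat_c0V hβ) hz
  have h2 := integrable_count_iff.1 h1
  unfold phi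
  rw [integral_count_eq h2]
  have h3 : Summable fun p : I × ℕ => c0V N e β p * Complex.exp (-(z * uE N p)) :=
    h2.of_norm
  exact h3.hasSum.prod_fiberwise fun v => h.hasSum_fib hβ v hz

/-- **The Euler product.** -/
theorem NrmE.ld [Countable I] (h : NrmE N e) {β : I → Fin k → ℂ} (hβ : ∀ v j, ‖β v j‖ ≤ 1)
    {L : ℂ → ℂ} (hL : ∀ z : ℂ, 0 < z.re →
      L z = ∏' v : I, ∏ j, (1 - β v j * (N v : ℂ) ^ (-(e + z)))⁻¹) :
    LD Measure.count (uE N) (cV N e β) L ∧
      ∀ z : ℂ, 0 < z.re → Multipliable fun v : I => ∏ j, (1 - β v j * (N v : ℂ) ^ (-(e + z)))⁻¹ := by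
  have hP : ∀ z : ℂ, 0 < z.re → HasProd
      (fun v => ∏ j, (1 - β v j * (N v : ℂ) ^ (-(e + z)))⁻¹)
      (Complex.exp (phi Measure.count (uE N) (c0V N e β) z)) := by
    intro z hz
    have h1 := (h.phi_c0V hβ hz).cexp
    have h2 : (Complex.exp ∘ fun v => lV N e β v z) =
        fun v => ∏ j, (1 - β v j * (N v : ℂ) ^ (-(e + z)))⁻¹ := by
      funext v
      exact h.exp_lV hβ v hz
    rw [h2] at h1
    exact h1
  have hLe : ∀ z : ℂ, 0 < z.re →
      L z = Complex.exp (phi Measure.count (uE N) (c0V N e β) z) := by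
    intro z hz
    rw [hL z hz]
    exact (hP z hz).tprod_eq
  refine ⟨⟨h.dat_cV hβ, fun z hz => ?_, fun z hz => ?_⟩, fun z hz => (hP z hz).multipliable⟩
  · have h1 := ((h.dat_c0V hβ).hasDerivAt (h.dat_cV hβ) (cV_eq β) hz).cexp
    have hop : IsOpen {w : ℂ | 0 < w.re} := isOpen_lt continuous_const Complex.continuous_re
    have h2 : L =ᶠ[𝓝 z] fun z => Complex.exp (phi Measure.count (uE N) (c0V N e β) z) := by
      filter_upwards [hop.mem_nhds (show z ∈ {w : ℂ | 0 < w.re} from hz)] with w hw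
      exact hLe w hw
    refine (h1.congr_of_eventuallyEq h2).congr_deriv ?_
    rw [hLe z hz]
    ring
  · rw [hLe z hz]
    exact Complex.exp_ne_zero _

/-- **The average.** -/
lemma NrmE.MM_eq [Countable I] (h : NrmE N e) {β : I → Fin k → ℂ} (hβ : ∀ v j, ‖β v j‖ ≤ 1)
    {A x : ℝ} (hA : 0 < A) (hx : 1 < x) :
    MM Measure.count (uE N) (cV N e β) A (Real.log x) 0 =
      (√(A / (Real.pi * Real.log x)) : ℂ) *
        ∑' q : I × ℕ, pE β q.1 (q.2 + 1) * (Real.log (N q.1) : ℂ) *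
          (((N q.1 : ℝ) ^ (-((q.2 + 1) * e)) : ℝ) : ℂ) *
          (Real.exp (-(A * ((q.2 + 1) * Real.log (N q.1) - Real.log x) ^ 2 / Real.log x)) : ℂ) := by
  have hy : 0 < Real.log x := Real.log_pos hx
  have hint := integrable_count_iff.1 ((h.dat_cV hβ).ker_integrable hA hy 0)
  unfold MM
  rw [integral_count_eq hint, ← tsum_mul_left]
  refine tsum_congr fun q => ?_
  obtain ⟨p, n⟩ := q
  have hp : (0 : ℝ) < N p := by linarith [h.ge p]
  unfold cV gk
  have e3 : uE N (p, n) = ((n : ℝ) + 1) * Real.log (N p) := rfl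
  have e2 : Real.exp (-(e * (((n : ℝ) + 1) * Real.log (N p)))) =
      (N p : ℝ) ^ (-(((n : ℝ) + 1) * e)) := by
    rw [Real.rpow_def_of_pos hp]
    congr 1
    ring
  rw [e3, e2]
  simp only [zero_mul, neg_zero, Complex.exp_zero, mul_one]
  rw [Complex.ofReal_mul (√(A / (Real.pi * Real.log x))) (Real.exp _)]
  ring

end

end Pool.Agent.N881.GW
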