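import Pool.Agent.N881.GW.V1
import Pool.Agent.Q193.Zeta.Dir

/-!
# Zeta functions of schemes of finite type over the integers
-/

set_option autoImplicit false

open CategoryTheory AlgebraicGeometry

namespace Pool.Agent.N881.GW

open MeasureTheory Set Filter Topology Pool.Agent.Q193.Zeta

/-- the number of points over the field with `p ^ n` elements -/
noncomputable def pcount (X : Scheme.{0}) (p : Nat.Primes) (n : ℕ) : ℕ :=
  haveI : Fact (p : ℕ).Prime := ⟨p.2⟩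
  Nat.card (Spec (CommRingCat.of (GaloisField (p : ℕ) n)) ⟶ X)

/-- the average of the numbers of points -/
noncomputable def pavg (X : Scheme.{0}) (e A x : ℝ) : ℂ :=
  (√(A / (Real.pi * Real.log x)) : ℂ) *
    ∑' q : Nat.Primes × ℕ, (pcount X q.1 (q.2 + 1) : ℂ) * (Real.log ((q.1 : ℕ) : ℝ) : ℂ) *
      ((((q.1 : ℕ) : ℝ) ^ (-((q.2 + 1) * e)) : ℝ) : ℂ) *
      (Real.exp (-(A * ((q.2 + 1) * Real.log ((q.1 : ℕ) : ℝ) - Real.log x) ^ 2
        / Real.log x)) : ℂ)

lemma log_pcount {X : Scheme.{0}} {C k : ℕ} (hX : Bounded X C k) (p : Nat.Primes) (n : ℕ) :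
    Real.log (((p : ℕ) ^ (n + 1) : ℕ) : ℝ) * cf (nm X) ((p : ℕ) ^ (n + 1)) =
      Real.log ((p : ℕ) : ℝ) * pcount X p (n + 1) := by
  have : Fact (p : ℕ).Prime := ⟨p.2⟩
  have hK : Nat.card (GaloisField (p : ℕ) (n + 1)) = (p : ℕ) ^ (n + 1) :=
    GaloisField.card _ _ (Nat.succ_ne_zero n)
  have : Finite (GaloisField (p : ℕ) (n + 1)) := inferInstance
  have h1 := (hX (GaloisField (p : ℕ) (n + 1))).1
  have h2 := card_pt X (GaloisField (p : ℕ) (n + 1)) p.2 hK
  rw [hK] at h2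
  have h3 : (pcount X p (n + 1) : ℝ) = Nat.card (Pt X (GaloisField (p : ℕ) (n + 1))) := by
    unfold pcount
    rw [Nat.card_congr (Scheme.SpecToEquivOfField (GaloisField (p : ℕ) (n + 1)) X)]
  rw [h3, ← h2]
  push_cast
  rw [Real.log_pow]
  push_cast
  ring

/-- **The sum over the closed points is the sum of the numbers of points.** -/
lemma sum_points {X : Scheme.{0}} {C k : ℕ} (hX : Bounded X C k) (G : ℕ → ℂ)
    (hs : Summable fun q : FP X × ℕ => (Real.log (nm X q.1) : ℂ) * G (nm X q.1 ^ (q.2 + 1))) :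
    ∑' q : FP X × ℕ, (Real.log (nm X q.1) : ℂ) * G (nm X q.1 ^ (q.2 + 1)) =
      ∑' q : Nat.Primes × ℕ, (pcount X q.1 (q.2 + 1) : ℂ) * (Real.log ((q.1 : ℕ) : ℝ) : ℂ) *
        G ((q.1 : ℕ) ^ (q.2 + 1)) := by
  have h1 : HasSum (fun m : ℕ => (Real.log m : ℂ) * (cf (nm X) m : ℂ) * G m)
      (∑' q : FP X × ℕ, (Real.log (nm X q.1) : ℂ) * G (nm X q.1 ^ (q.2 + 1))) := by
    have h2 : HasSum ((fun q : FP X × ℕ => (Real.log (nm X q.1) : ℂ) * G (nm X q.1 ^ (q.2 + 1))) ∘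
        (Equiv.sigmaFiberEquiv fun q : FP X × ℕ => nm X q.1 ^ (q.2 + 1)))
        (∑' q : FP X × ℕ, (Real.log (nm X q.1) : ℂ) * G (nm X q.1 ^ (q.2 + 1))) :=
      (Equiv.hasSum_iff _).2 hs.hasSum
    refine h2.sigma fun m => ?_
    have hf : Finite (Fib (nm X) m) := finite_fib' hX m
    have h4 : ∀ j : Fib (nm X) m, (Real.log (nm X j.1.1) : ℂ) * G (nm X j.1.1 ^ (j.1.2 + 1)) =
        (((((j.1.2 : ℝ) + 1)⁻¹ : ℝ)) : ℂ) * ((Real.log m : ℂ) * G m) := by
      intro j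
      have h5 : Real.log ((m : ℕ) : ℝ) = ((j.1.2 : ℝ) + 1) * Real.log (nm X j.1.1) := by
        have hj : m = nm X j.1.1 ^ (j.1.2 + 1) := j.2.symm
        have h6 : Real.log (((nm X j.1.1 ^ (j.1.2 + 1) : ℕ)) : ℝ) =
            ((j.1.2 : ℝ) + 1) * Real.log (nm X j.1.1) := by
          push_cast
          rw [Real.log_pow]
          push_cast
          ring
        rw [← h6]
        exact congrArg (fun t : ℕ => Real.log (t : ℝ)) hj
      rw [j.2, h5]
      have h6 : ((j.1.2 : ℝ) + 1) ≠ 0 := by positivity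
      have h7 : (((j.1.2 : ℝ) : ℂ) + 1) ≠ 0 := by exact_mod_cast h6
      push_cast at h7 ⊢
      field_simp
    have h5 : HasSum (fun j : Fib (nm X) m =>
        (((((j.1.2 : ℝ) + 1)⁻¹ : ℝ)) : ℂ) * ((Real.log m : ℂ) * G m))
        ((cf (nm X) m : ℂ) * ((Real.log m : ℂ) * G m)) := by
      have h6 : Summable fun j : Fib (nm X) m => ((j.1.2 : ℝ) + 1)⁻¹ := Summable.of_finite
      exact (Complex.hasSum_ofReal.mpr h6.hasSum).mul_right _
    have h7 : (Real.log m : ℂ) * (cf (nm X) m : ℂ) * G m =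
        (cf (nm X) m : ℂ) * ((Real.log m : ℂ) * G m) := by ring
    rw [h7]
    have h8 : (fun j : Fib (nm X) m => (Real.log (nm X j.1.1) : ℂ) *
        G (nm X j.1.1 ^ (j.1.2 + 1))) = fun j : Fib (nm X) m =>
        (((((j.1.2 : ℝ) + 1)⁻¹ : ℝ)) : ℂ) * ((Real.log m : ℂ) * G m) := funext h4
    rw [← h8] at h5
    exact h5
  rw [← h1.tsum_eq]
  have h8 : Function.support (fun m : ℕ => (Real.log m : ℂ) * (cf (nm X) m : ℂ) * G m) ⊆
      {n : ℕ | IsPrimePow n} := by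
    intro m hm
    by_contra hn
    apply hm
    have h9 : IsEmpty (Fib (nm X) m) := cf_eq_zero X fun ⟨p, n, hp, hn0, h⟩ =>
      hn ((isPrimePow_nat_iff _).2 ⟨p, n, hp, Nat.pos_of_ne_zero hn0, h.symm⟩)
    have h10 : cf (nm X) m = 0 := tsum_empty
    show (Real.log m : ℂ) * (cf (nm X) m : ℂ) * G m = 0
    rw [h10]
    simp
  rw [← tsum_subtype_eq_of_support_subset h8]
  refine Eq.trans (Nat.Primes.prodNatEquiv.tsum_eq (fun n : {n : ℕ // IsPrimePow n} =>
    (Real.log ((n : ℕ) : ℝ) : ℂ) * (cf (nm X) (n : ℕ) : ℂ) * G (n : ℕ))).symm ?_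
  refine tsum_congr fun q => ?_
  have h11 := log_pcount hX q.1 q.2
  have h12 : ((Nat.Primes.prodNatEquiv q : {n : ℕ // IsPrimePow n}) : ℕ) =
      (q.1 : ℕ) ^ (q.2 + 1) := rfl
  show (Real.log ((Nat.Primes.prodNatEquiv q : {n : ℕ // IsPrimePow n}) : ℕ) : ℂ) *
    (cf (nm X) ((Nat.Primes.prodNatEquiv q : {n : ℕ // IsPrimePow n}) : ℕ) : ℂ) *
    G ((Nat.Primes.prodNatEquiv q : {n : ℕ // IsPrimePow n}) : ℕ) = _
  rw [h12, ← Complex.ofReal_mul, h11]
  push_cast
  ring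

/-- the weight of a prime power -/
noncomputable def wt (e A x : ℝ) (m : ℕ) : ℂ :=
  (((m : ℝ) ^ (-e) * Real.exp (-(A * (Real.log m - Real.log x) ^ 2 / Real.log x)) : ℝ) : ℂ)

lemma wt_pow (e A x : ℝ) {N : ℕ} (hN : 0 < N) (n : ℕ) :
    wt e A x (N ^ (n + 1)) = ((((N : ℝ)) ^ (-((n + 1) * e)) : ℝ) : ℂ) *
      (Real.exp (-(A * ((n + 1) * Real.log N - Real.log x) ^ 2 / Real.log x)) : ℂ) := by
  have hN0 : (0 : ℝ) < N := by exact_mod_cast hN
  unfold wt
  rw [← Complex.ofReal_mul]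
  congr 2
  · push_cast
    rw [← Real.rpow_natCast, ← Real.rpow_mul hN0.le]
    congr 1
    push_cast
    ring
  · push_cast
    rw [Real.log_pow]
    push_cast
    rfl

/-- **The zeta function of a scheme.** -/
theorem scheme_data (X : Scheme.{0}) (f : X ⟶ Spec (CommRingCat.of ℤ)) [LocallyOfFiniteType f]
    [QuasiCompact f] {e : ℝ} (he : 0 ≤ e)
    (hsum : ∀ σ : ℝ, e < σ → Summable fun x : {x : X // IsClosed ({x} : Set X)} =>
      (Nat.card (X.residueField x.1) : ℝ) ^ (-σ)) :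
    Countable (FP X) ∧ ∃ c : EI (FP X) → ℂ,
      LD Measure.count (uE (nm X)) c (fun z => zeta X ((e : ℂ) + z)) ∧
      (∀ A x : ℝ, 0 < A → 1 < x →
        MM Measure.count (uE (nm X)) c A (Real.log x) 0 = pavg X e A x) ∧
      ∀ s : ℂ, e < s.re → Multipliable fun x : {x : X // IsClosed ({x} : Set X)} =>
        (1 - ((Nat.card (X.residueField x.1) : ℂ) ^ (-s)))⁻¹ := by
  obtain ⟨C, k, hX⟩ := bounded f
  set E : {x : X // IsClosed ({x} : Set X)} ≃ FP X :=
    Equiv.subtypeEquivRight fun x => ⟨fun h => finite_of_closed f h, fun h => closed_of_finite f h⟩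
    with hE
  have hN : NrmE (nm X) e :=
    { two := fun i => one_lt_nm X i
      nonneg := he
      sum := fun x hx => by
        rw [← E.summable_iff]
        exact hsum x hx }
  have hcount : Countable (FP X) := by
    have h1 := (hN.sum (e + 1) (by linarith)).countable_support
    have h2 : Function.support (fun i : FP X => (nm X i : ℝ) ^ (-(e + 1))) = Set.univ := by
      refine Set.eq_univ_of_forall fun i => ?_
      have h3 : (0 : ℝ) < nm X i := by linarith [hN.ge i]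
      exact (Real.rpow_pos_of_pos h3 _).ne'
    rw [h2] at h1
    exact Set.countable_univ_iff.1 h1
  refine ⟨hcount, ?_⟩
  have hβ : ∀ (v : FP X) (j : Fin 1), ‖(fun (_ : FP X) (_ : Fin 1) => (1 : ℂ)) v j‖ ≤ 1 :=
    fun v j => by simp
  have hz : ∀ s : ℂ, zeta X s = ∏' i : FP X, (1 - (nm X i : ℂ) ^ (-s))⁻¹ := fun s =>
    E.tprod_eq (fun x : FP X => (1 - (nm X x : ℂ) ^ (-s))⁻¹)
  have hld := hN.ld hβ (L := fun z => zeta X ((e : ℂ) + z)) fun z _ => by
    rw [hz]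
    refine tprod_congr fun i => ?_
    rw [Fin.prod_univ_one, one_mul]
  refine ⟨cV (nm X) e (fun _ _ => 1), hld.1, fun A x hA hx => ?_, fun s hs => ?_⟩
  · rw [hN.MM_eq hβ hA hx]
    unfold pavg
    congr 1
    have h1 : ∀ q : FP X × ℕ, pE (fun (_ : FP X) (_ : Fin 1) => (1 : ℂ)) q.1 (q.2 + 1) *
        (Real.log (nm X q.1) : ℂ) * ((((nm X q.1 : ℕ) : ℝ) ^ (-((q.2 + 1) * e)) : ℝ) : ℂ) *
        (Real.exp (-(A * ((q.2 + 1) * Real.log (nm X q.1) - Real.log x) ^ 2 /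
          Real.log x)) : ℂ) =
        (Real.log (nm X q.1) : ℂ) * wt e A x (nm X q.1 ^ (q.2 + 1)) := by
      intro q
      rw [wt_pow e A x (zero_lt_one.trans (one_lt_nm X q.1))]
      unfold pE
      rw [Fin.sum_univ_one, one_pow, one_mul]
      ring
    have h2 : ∀ q : Nat.Primes × ℕ, (pcount X q.1 (q.2 + 1) : ℂ) *
        (Real.log ((q.1 : ℕ) : ℝ) : ℂ) *
        ((((q.1 : ℕ) : ℝ) ^ (-((q.2 + 1) * e)) : ℝ) : ℂ) *
        (Real.exp (-(A * ((q.2 + 1) * Real.log ((q.1 : ℕ) : ℝ) - Real.log x) ^ 2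
          / Real.log x)) : ℂ) =
        (pcount X q.1 (q.2 + 1) : ℂ) * (Real.log ((q.1 : ℕ) : ℝ) : ℂ) *
          wt e A x ((q.1 : ℕ) ^ (q.2 + 1)) := by
      intro q
      rw [wt_pow e A x q.1.2.pos]
      ring
    rw [tsum_congr h1, tsum_congr h2]
    refine sum_points hX (wt e A x) ?_
    have hy : 0 < Real.log x := Real.log_pos hx
    have hint := (integrable_count_iff.1 ((hN.dat_cV hβ).ker_integrable hA hy 0)).of_norm
    have hc : (√(A / (Real.pi * Real.log x)) : ℂ) ≠ 0 := by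
      have : 0 < √(A / (Real.pi * Real.log x)) := by positivity
      exact_mod_cast this.ne'
    have h3 := hint.mul_left ((√(A / (Real.pi * Real.log x)) : ℂ)⁻¹)
    refine (show Summable fun q : FP X × ℕ => _ from h3).congr fun q => ?_
    rw [← h1 q]
    obtain ⟨p, n⟩ := q
    have hp : (0 : ℝ) < nm X p := by linarith [hN.ge p]
    unfold cV gk
    have e3 : uE (nm X) (p, n) = ((n : ℝ) + 1) * Real.log (nm X p) := rfl
    have e2 : Real.exp (-(e * (((n : ℝ) + 1) * Real.log (nm X p)))) =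
        (nm X p : ℝ) ^ (-(((n : ℝ) + 1) * e)) := by
      rw [Real.rpow_def_of_pos hp]
      congr 1
      ring
    rw [e3, e2]
    simp only [zero_mul, neg_zero, Complex.exp_zero, mul_one]
    rw [Complex.ofReal_mul (√(A / (Real.pi * Real.log x))) (Real.exp _)]
    field_simp
  · have h4 := hld.2 (s - (e : ℂ)) (by
      rw [Complex.sub_re, Complex.ofReal_re]
      linarith)
    have h5 : Multipliable fun i : FP X => (1 - (nm X i : ℂ) ^ (-s))⁻¹ := by
      refine h4.congr fun i => ?_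
      rw [Fin.prod_univ_one, one_mul, add_sub_cancel]
    exact (E.multipliable_iff (f := fun i : FP X => (1 - (nm X i : ℂ) ^ (-s))⁻¹)).2 h5

/-- **Convergence.** -/
theorem scheme_conv (X : Scheme.{0}) (f : X ⟶ Spec (CommRingCat.of ℤ)) [LocallyOfFiniteType f]
    [QuasiCompact f] :
    ∃ e : ℝ, 0 ≤ e ∧ ∀ σ : ℝ, e < σ → Summable fun x : {x : X // IsClosed ({x} : Set X)} =>
      (Nat.card (X.residueField x.1) : ℝ) ^ (-σ) := by
  obtain ⟨C, k, hX⟩ := bounded f
  set E : {x : X // IsClosed ({x} : Set X)} ≃ FP X :=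
    Equiv.subtypeEquivRight fun x => ⟨fun h => finite_of_closed f h, fun h => closed_of_finite f h⟩
    with hE
  refine ⟨(k : ℝ) + 1, by positivity, fun σ hσ => ?_⟩
  have h1 := (summable_tm (one_lt_nm X) (finite_fib' hX) (fun m _ => cf_le hX m)
    (s := (σ : ℂ)) (by simpa using hσ)).norm
  have h2 : Summable fun i : FP X => ‖tm (nm X) (σ : ℂ) (i, 0)‖ :=
    h1.comp_injective (i := fun i : FP X => (i, 0)) fun a b hab => (Prod.ext_iff.1 hab).1
  have h3 : Summable fun i : FP X => (nm X i : ℝ) ^ (-σ) := by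
    refine h2.congr fun i => ?_
    rw [norm_tm (one_lt_nm X)]
    simp
  exact (E.summable_iff (f := fun i : FP X => (nm X i : ℝ) ^ (-σ))).2 h3

end Pool.Agent.N881.GW
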