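import Pool.Agent.N881.GW.T4

/-!
# Averages over the primes of bounded functions
-/

set_option autoImplicit false

namespace Pool.Agent.N881.GW

open MeasureTheory Set Filter Topology NumberField IsDedekindDomain Polynomial
open Pool.Agent.TH339.MP (nm pr lv)
open Pool.Agent.TH958.BV

section

variable {K : Type} [Field K] [NumberField K]

/-- the weight -/
noncomputable def wv (A x : ℝ) (v : HeightOneSpectrum (𝓞 K)) : ℝ :=
  Real.log (nm v) / nm v * Real.exp (-(A * (Real.log (nm v) - Real.log x) ^ 2 / Real.log x))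

lemma wv_nonneg (A x : ℝ) (v : HeightOneSpectrum (𝓞 K)) : 0 ≤ wv A x v := by
  unfold wv
  have h1 := nm_ge v
  have h2 := (log_nm_pos v).le
  positivity

lemma wv_summable {A x : ℝ} (hA : 0 < A) (hx : 1 < x) :
    Summable fun v : HeightOneSpectrum (𝓞 K) => wv A x v := by
  have hy : 0 < Real.log x := Real.log_pos hx
  have h1 := (summable_nm (K := K) (x := 3 / 2) (by norm_num)).mul_left
    (4 * Real.exp ((1 + 1 / (4 * A)) * Real.log x))
  refine Summable.of_nonneg_of_le (fun v => wv_nonneg A x v) (fun v => ?_) h1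
  have hn : (0 : ℝ) < nm v := by linarith [nm_ge v]
  have hl := (log_nm_pos v).le
  set u := Real.log (nm v) with hu
  have h2 : Real.exp (-(A * (u - Real.log x) ^ 2 / Real.log x)) ≤
      Real.exp ((1 + 1 / (4 * A)) * Real.log x) * Real.exp (-u) := by
    rw [← Real.exp_add]
    apply Real.exp_le_exp.2
    have h3 : 0 ≤ (2 * A * (u - Real.log x) - Real.log x) ^ 2 / (4 * A * Real.log x) := by
      positivity
    have h4 : (2 * A * (u - Real.log x) - Real.log x) ^ 2 / (4 * A * Real.log x) =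
        A * (u - Real.log x) ^ 2 / Real.log x - (u - Real.log x) + Real.log x / (4 * A) := by
      field_simp
      ring
    have h5 : (1 + 1 / (4 * A)) * Real.log x = Real.log x + Real.log x / (4 * A) := by
      field_simp
    rw [h5]
    linarith
  have h6 : ((nm v : ℝ))⁻¹ = Real.exp (-u) := by
    rw [hu, Real.exp_neg, Real.exp_log hn]
  have h7 : u * Real.exp (-(1 / 2 * u)) ≤ 4 := by
    have h8 := mul_exp_le (t := u) (σ := 1 / 2) (by norm_num)
    refine h8.trans ?_
    have h9 : Real.exp (-(1 / 2 / 2 * u)) ≤ 1 := Real.exp_le_one_iff.2 (by linarith)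
    calc 2 / (1 / 2) * Real.exp (-(1 / 2 / 2 * u)) ≤ 2 / (1 / 2) * 1 :=
          mul_le_mul_of_nonneg_left h9 (by norm_num)
      _ = 4 := by norm_num
  unfold wv
  rw [div_eq_mul_inv, h6]
  calc u * Real.exp (-u) * Real.exp (-(A * (u - Real.log x) ^ 2 / Real.log x))
      ≤ u * Real.exp (-u) * (Real.exp ((1 + 1 / (4 * A)) * Real.log x) * Real.exp (-u)) :=
        mul_le_mul_of_nonneg_left h2 (by positivity)
    _ = (u * Real.exp (-(1 / 2 * u))) * Real.exp ((1 + 1 / (4 * A)) * Real.log x) *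
        Real.exp (-(3 / 2 * u)) := by
        have e1 : Real.exp (-u) * Real.exp (-u) =
            Real.exp (-(1 / 2 * u)) * Real.exp (-(3 / 2 * u)) := by
          rw [← Real.exp_add, ← Real.exp_add]
          congr 1
          ring
        calc _ = u * Real.exp ((1 + 1 / (4 * A)) * Real.log x) *
              (Real.exp (-u) * Real.exp (-u)) := by ring
          _ = _ := by
            rw [e1]
            ring
    _ ≤ 4 * Real.exp ((1 + 1 / (4 * A)) * Real.log x) * Real.exp (-(3 / 2 * u)) := by gcongr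

open Classical in
/-- the average of a real function -/
noncomputable def ravg (f : HeightOneSpectrum (𝓞 K) → ℝ) (S : Finset (HeightOneSpectrum (𝓞 K)))
    (A x : ℝ) : ℝ :=
  √(A / (Real.pi * Real.log x)) * ∑' v : HeightOneSpectrum (𝓞 K), if v ∈ S then 0 else
    f v * wv A x v

open Classical in
/-- the average of a complex function -/
noncomputable def cavg (f : HeightOneSpectrum (𝓞 K) → ℂ) (S : Finset (HeightOneSpectrum (𝓞 K)))
    (A x : ℝ) : ℂ :=
  √(A / (Real.pi * Real.log x)) * ∑' v : HeightOneSpectrum (𝓞 K), if v ∈ S then 0 else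
    f v * ((wv A x v : ℝ) : ℂ)

variable {S : Finset (HeightOneSpectrum (𝓞 K))}

lemma cavg_ofReal (f : HeightOneSpectrum (𝓞 K) → ℝ) (A x : ℝ) :
    cavg (fun v => (f v : ℂ)) S A x = (ravg f S A x : ℂ) := by
  classical
  unfold cavg ravg
  rw [Complex.ofReal_mul, Complex.ofReal_tsum]
  congr 1
  refine tsum_congr fun v => ?_
  split_ifs <;> simp

lemma cavg_congr {f g : HeightOneSpectrum (𝓞 K) → ℂ} (h : ∀ v ∉ S, f v = g v) (A x : ℝ) :
    cavg f S A x = cavg g S A x := by
  classical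
  unfold cavg
  congr 1
  refine tsum_congr fun v => ?_
  split_ifs with hv
  · rfl
  · rw [h v hv]

lemma ravg_congr {f g : HeightOneSpectrum (𝓞 K) → ℝ} (h : ∀ v ∉ S, f v = g v) (A x : ℝ) :
    ravg f S A x = ravg g S A x := by
  classical
  unfold ravg
  congr 1
  refine tsum_congr fun v => ?_
  split_ifs with hv
  · rfl
  · rw [h v hv]

open Classical in
lemma rsum {f : HeightOneSpectrum (𝓞 K) → ℝ} {B A x : ℝ} (hf : ∀ v ∉ S, |f v| ≤ B) (hA : 0 < A)
    (hx : 1 < x) : Summable fun v : HeightOneSpectrum (𝓞 K) =>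
      if v ∈ S then 0 else f v * wv A x v := by
  have h1 := (wv_summable (K := K) hA hx).mul_left (max B 0)
  refine Summable.of_norm_bounded h1 fun v => ?_
  split_ifs with hv
  · rw [norm_zero]
    exact mul_nonneg (le_max_right _ _) (wv_nonneg A x v)
  · rw [norm_mul, Real.norm_eq_abs, Real.norm_of_nonneg (wv_nonneg A x v)]
    exact mul_le_mul_of_nonneg_right ((hf v hv).trans (le_max_left _ _)) (wv_nonneg A x v)

lemma ravg_add {f g : HeightOneSpectrum (𝓞 K) → ℝ} {B B' A x : ℝ} (hf : ∀ v ∉ S, |f v| ≤ B)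
    (hg : ∀ v ∉ S, |g v| ≤ B') (hA : 0 < A) (hx : 1 < x) :
    ravg (fun v => f v + g v) S A x = ravg f S A x + ravg g S A x := by
  classical
  have h1 := (rsum (S := S) hf hA hx).tsum_add (rsum (S := S) hg hA hx)
  unfold ravg
  rw [← mul_add, ← h1]
  congr 1
  refine tsum_congr fun v => ?_
  split_ifs
  · simp
  · ring

lemma ravg_smul (a : ℝ) (f : HeightOneSpectrum (𝓞 K) → ℝ) (A x : ℝ) :
    ravg (fun v => a * f v) S A x = a * ravg f S A x := by
  classical
  have h1 : ∑' v : HeightOneSpectrum (𝓞 K), (if v ∈ S then 0 else a * f v * wv A x v) =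
      a * ∑' v : HeightOneSpectrum (𝓞 K), (if v ∈ S then 0 else f v * wv A x v) := by
    rw [← tsum_mul_left]
    refine tsum_congr fun v => ?_
    split_ifs
    · simp
    · ring
  unfold ravg
  rw [h1]
  ring

lemma ravg_mono {f g : HeightOneSpectrum (𝓞 K) → ℝ} {B A x : ℝ} (hfg : ∀ v ∉ S, |f v| ≤ g v)
    (hg : ∀ v ∉ S, |g v| ≤ B) (hA : 0 < A) (hx : 1 < x) :
    |ravg f S A x| ≤ ravg g S A x := by
  classical
  have hf : ∀ v ∉ S, |f v| ≤ B := fun v hv => (hfg v hv).trans ((le_abs_self _).trans (hg v hv))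
  unfold ravg
  rw [abs_mul, abs_of_nonneg (Real.sqrt_nonneg _)]
  refine mul_le_mul_of_nonneg_left ?_ (Real.sqrt_nonneg _)
  have h1 := (rsum hg hA hx).hasSum
  rw [← Real.norm_eq_abs]
  refine tsum_of_norm_bounded h1 fun v => ?_
  split_ifs with hv
  · simp
  · rw [norm_mul, Real.norm_eq_abs, Real.norm_of_nonneg (wv_nonneg A x v)]
    exact mul_le_mul_of_nonneg_right (hfg v hv) (wv_nonneg A x v)

/-! ### L-functions -/

variable {J : Type} [Fintype J]

open Classical in
/-- the Euler product -/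
noncomputable def jL (β : HeightOneSpectrum (𝓞 K) → J → ℂ) (S : Finset (HeightOneSpectrum (𝓞 K)))
    (s : ℂ) : ℂ :=
  ∏' v : HeightOneSpectrum (𝓞 K), if v ∈ S then 1 else
    ∏ j, (1 - β v j * (Ideal.absNorm v.asIdeal : ℂ) ^ (-s))⁻¹

/-- **The criterion.** -/
theorem jedge {β : HeightOneSpectrum (𝓞 K) → J → ℂ} (hβ : ∀ v ∉ S, ∀ j, ‖β v j‖ ≤ 1) (ρ : ℤ) :
    List.TFAE [
      PO (jL β S) 1 ρ,
      ∀ A : ℝ, 0 < A → ∃ η : ℝ, 0 < η ∧ ∃ C : ℝ, ∀ x : ℝ, 2 ≤ x →
        ‖cavg (fun v => ∑ j, β v j) S A x - ρ‖ ≤ C * x ^ (-η),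
      ∃ A : ℝ, 0 < A ∧ ∃ η : ℝ, 0 < η ∧ ∃ C X : ℝ, ∀ x : ℝ, X ≤ x →
        ‖cavg (fun v => ∑ j, β v j) S A x - ρ‖ ≤ C * x ^ (-η)] := by
  classical
  set e := Fintype.equivFin J with he
  set α : HeightOneSpectrum (𝓞 K) → Fin (Fintype.card J) → ℂ := fun v j => β v (e.symm j) with hα
  set B : HeightOneSpectrum (𝓞 K) → ℂ[X] := fun v =>
    if v ∈ S then 1 else ∏ j, (1 - C (α v j) * X) with hB
  have hα1 : ∀ v ∉ S, ∀ j, ‖α v j‖ ≤ (nm v : ℝ) ^ (0 : ℝ) := fun v hv j => by
    rw [Real.rpow_zero]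
    exact hβ v hv _
  have hB1 : ∀ v ∉ S, ∀ z : ℂ, (B v).eval z = ∏ j, (1 - α v j * z) := by
    intro v hv z
    simp only [hB, if_neg hv, Polynomial.eval_prod, Polynomial.eval_sub, Polynomial.eval_one,
      Polynomial.eval_mul, Polynomial.eval_C, Polynomial.eval_X]
  have hB2 : ∀ v ∈ S, (B v).eval ((Ideal.absNorm v.asIdeal : ℂ) ^ (-((0 + 1 : ℝ) : ℂ))) ≠ 0 := by
    intro v hv
    simp only [hB, if_pos hv, Polynomial.eval_one]
    exact one_ne_zero
  have key := (x_edge (w := 0) hα1 hB1 hB2).1 ρ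
  have hL : LFun B = jL β S := by
    funext s
    unfold LFun jL
    refine tprod_congr fun v => ?_
    unfold localFactor
    by_cases hv : v ∈ S
    · rw [if_pos hv]
      simp only [hB, if_pos hv, Polynomial.eval_one, inv_one]
    · rw [if_neg hv, hB1 v hv, ← Finset.prod_inv_distrib]
      exact e.symm.prod_comp (fun j => (1 - β v j * (Ideal.absNorm v.asIdeal : ℂ) ^ (-s))⁻¹)
  have hU : ∀ A x : ℝ, uavg α S (0 + 1) A x = cavg (fun v => ∑ j, β v j) S A x := by
    intro A x
    unfold uavg cavg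
    congr 1
    refine tsum_congr fun v => ?_
    split_ifs
    · rfl
    · have h1 : ∑ j, α v j = ∑ j, β v j := e.symm.sum_comp (fun j => β v j)
      rw [h1]
      congr 2
      unfold wv
      rw [zero_add, Real.rpow_neg_one, ← div_eq_mul_inv]
  rw [hL] at key
  simp only [hU] at key
  rwa [zero_add] at key

end

end Pool.Agent.N881.GW
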