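import Pool.Agent.N881.GW.R1
import Pool.Agent.N881.GW.T3

/-!
# Dirichlet series over an index set and their residue at the edge
-/

set_option autoImplicit false

namespace Pool.Agent.N881.GW

open MeasureTheory Set Filter Topology

/-- the index set -/
def EJ (I : Type) : Type := I

instance (I : Type) : MeasurableSpace (EJ I) := ⊤

instance (I : Type) : DiscreteMeasurableSpace (EJ I) := ⟨fun _ => trivial⟩

instance (I : Type) [Countable I] : Countable (EJ I) := inferInstanceAs (Countable I)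

section

variable {I : Type} {N : I → ℕ} {e : ℝ} {a : I → ℂ}

/-- absolute convergence to the right of `e` -/
structure Sm (N : I → ℕ) (e : ℝ) (a : I → ℂ) : Prop where
  two : ∀ i, 2 ≤ N i
  sum : ∀ x : ℝ, e < x → Summable fun i => ‖a i‖ * (N i : ℝ) ^ (-x)

/-- the logarithm of the norm -/
noncomputable def uJ (N : I → ℕ) (i : EJ I) : ℝ := Real.log (N i)

/-- the coefficients -/
noncomputable def c0J (N : I → ℕ) (e : ℝ) (a : I → ℂ) (i : EJ I) : ℂ :=
  a i * ((Real.exp (-(e * uJ N i)) : ℝ) : ℂ)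

/-- the coefficients of the derivative -/
noncomputable def cJ (N : I → ℕ) (e : ℝ) (a : I → ℂ) (i : EJ I) : ℂ :=
  uJ N i * c0J N e a i

lemma Sm.uJ_pos (h : Sm N e a) (i : EJ I) : 0 < uJ N i := by
  have : (2 : ℝ) ≤ N i := by exact_mod_cast h.two i
  exact Real.log_pos (by linarith)

lemma norm_c0J (i : EJ I) : ‖c0J N e a i‖ = ‖a i‖ * Real.exp (-(e * uJ N i)) := by
  unfold c0J
  rw [norm_mul, Complex.norm_real, Real.norm_of_nonneg (Real.exp_pos _).le]

lemma Sm.sum' (h : Sm N e a) {x : ℝ} (hx : e < x) :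
    Summable fun i : EJ I => ‖a i‖ * Real.exp (-(x * uJ N i)) := by
  refine (h.sum x hx).congr fun i => ?_
  have hn : (0 : ℝ) < N i := by
    have : (2 : ℝ) ≤ N i := by exact_mod_cast h.two i
    linarith
  rw [Real.rpow_def_of_pos hn]
  unfold uJ
  congr 2
  ring

lemma Sm.dat_c0 (h : Sm N e a) : Dat Measure.count (uJ N) (c0J N e a) where
  hu := fun p => (h.uJ_pos p).le
  mu := Measurable.of_discrete
  mc := Measurable.of_discrete
  int := by
    intro σ hσ
    rw [integrable_count_iff]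
    refine (h.sum' (x := e + σ) (by linarith)).congr fun i => ?_
    rw [Real.norm_of_nonneg (by positivity), norm_c0J, mul_assoc, ← Real.exp_add]
    congr 2
    ring

lemma Sm.dat_c (h : Sm N e a) : Dat Measure.count (uJ N) (cJ N e a) where
  hu := fun p => (h.uJ_pos p).le
  mu := Measurable.of_discrete
  mc := Measurable.of_discrete
  int := by
    intro σ hσ
    rw [integrable_count_iff]
    have h1 := (h.sum' (x := e + σ / 2) (by linarith)).mul_left (2 / σ)
    refine Summable.of_nonneg_of_le (fun p => norm_nonneg _) (fun i => ?_) h1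
    have hu := (h.uJ_pos i).le
    rw [Real.norm_of_nonneg (by positivity)]
    unfold cJ
    rw [norm_mul, norm_c0J, Complex.norm_real, Real.norm_of_nonneg hu]
    calc uJ N i * (‖a i‖ * Real.exp (-(e * uJ N i))) * Real.exp (-(σ * uJ N i))
        = ‖a i‖ * Real.exp (-(e * uJ N i)) * (uJ N i * Real.exp (-(σ * uJ N i))) := by ring
      _ ≤ ‖a i‖ * Real.exp (-(e * uJ N i)) * (2 / σ * Real.exp (-(σ / 2 * uJ N i))) :=
          mul_le_mul_of_nonneg_left (mul_exp_le hσ) (by positivity)
      _ = 2 / σ * (‖a i‖ * (Real.exp (-(e * uJ N i)) * Real.exp (-(σ / 2 * uJ N i)))) := by ring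
      _ = _ := by
          rw [← Real.exp_add]
          congr 3
          ring

/-- the function whose logarithmic derivative is minus the series -/
noncomputable def LJ (N : I → ℕ) (e : ℝ) (a : I → ℂ) (s : ℂ) : ℂ :=
  Complex.exp (phi Measure.count (uJ N) (c0J N e a) (s - e))

lemma Sm.ld (h : Sm N e a) :
    LD Measure.count (uJ N) (cJ N e a) fun z => LJ N e a (e + z) := by
  have h0 : (fun z : ℂ => LJ N e a (e + z)) =
      fun z => Complex.exp (phi Measure.count (uJ N) (c0J N e a) z) := by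
    funext z
    unfold LJ
    rw [add_sub_cancel_left]
  rw [h0]
  refine ⟨h.dat_c, fun z hz => ?_, fun z hz => Complex.exp_ne_zero _⟩
  have h1 := (h.dat_c0.hasDerivAt h.dat_c (fun p => rfl) hz).cexp
  refine h1.congr_deriv ?_
  ring

/-- the series -/
noncomputable def DJ (N : I → ℕ) (a : I → ℂ) (s : ℂ) : ℂ :=
  ∑' i, a i * (Real.log (N i) : ℂ) * (N i : ℂ) ^ (-s)

lemma Sm.phi_eq [Countable I] (h : Sm N e a) {z : ℂ} (hz : 0 < z.re) :
    phi Measure.count (uJ N) (cJ N e a) z = DJ N a (e + z) := by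
  have h1 := integrable_count_iff.1 (phi_integrable h.dat_c hz)
  unfold phi
  rw [integral_count_eq h1]
  unfold DJ
  refine tsum_congr fun i => ?_
  have hn : (N i : ℂ) ≠ 0 := by
    have := h.two i
    have h2 : N i ≠ 0 := by omega
    exact_mod_cast h2
  unfold cJ c0J uJ
  rw [Complex.cpow_def_of_ne_zero hn, Complex.ofReal_exp, ← Complex.natCast_log]
  have e1 : Complex.exp (((-(e * Real.log (N i)) : ℝ) : ℂ)) *
      Complex.exp (-(z * (Real.log (N i) : ℂ))) =
      Complex.exp ((Real.log (N i) : ℂ) * -(e + z)) := by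
    rw [← Complex.exp_add]
    congr 1
    push_cast
    ring
  rw [← e1]
  ring

/-- the series has the residue `r` at the edge -/
def RE (D : ℂ → ℂ) (e : ℝ) (r : ℤ) : Prop :=
  ∃ F : ℂ → ℂ, AnalyticAt ℂ F e ∧
    ∀ᶠ s : ℂ in 𝓝 (e : ℂ), e < s.re → D s = r / (s - e) + F s

lemma Sm.hasDerivAt_LJ [Countable I] (h : Sm N e a) {s : ℂ} (hs : e < s.re) :
    HasDerivAt (LJ N e a) (-(DJ N a s) * LJ N e a s) s := by
  have hz : 0 < (s - e).re := by simpa using hs
  have h1 := h.ld.der (s - e) hz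
  rw [h.phi_eq hz, add_sub_cancel] at h1
  have h2 := HasDerivAt.comp_sub_const (f := fun z => LJ N e a (e + z)) s (e : ℂ) h1
  refine h2.congr_of_eventuallyEq (Eventually.of_forall fun z => ?_)
  simp

/-- **The residue and the order.** -/
theorem Sm.res_iff [Countable I] (h : Sm N e a) (r : ℤ) :
    RE (DJ N a) e r ↔ PO (LJ N e a) e r := by
  have hopen : IsOpen {s : ℂ | e < s.re} := isOpen_lt continuous_const Complex.continuous_re
  have hLne : ∀ s : ℂ, LJ N e a s ≠ 0 := fun s => Complex.exp_ne_zero _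
  constructor
  · rintro ⟨F, hF, hD⟩
    obtain ⟨ε1, hε1, hb1⟩ := Metric.eventually_nhds_iff_ball.1 hD
    obtain ⟨ε2, hε2, hb2⟩ := Metric.eventually_nhds_iff_ball.1 hF.eventually_analyticAt
    set ε := min ε1 ε2 with hε
    have hε0 : 0 < ε := lt_min hε1 hε2
    have hdiff : DifferentiableOn ℂ F (Metric.ball (e : ℂ) ε) := fun s hs =>
      (hb2 s (Metric.ball_subset_ball (min_le_right _ _) hs)).differentiableAt.differentiableWithinAt
    obtain ⟨G, hG⟩ := hdiff.isExactOn_ball
    have hGan : AnalyticAt ℂ G e := by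
      have h3 : DifferentiableOn ℂ G (Metric.ball (e : ℂ) ε) := fun s hs =>
        (hG s hs).differentiableAt.differentiableWithinAt
      exact h3.analyticAt (Metric.ball_mem_nhds _ hε0)
    set U : Set ℂ := Metric.ball (e : ℂ) ε ∩ {s : ℂ | e < s.re} with hU
    have hUo : IsOpen U := Metric.isOpen_ball.inter hopen
    have hUc : Convex ℝ U := (convex_ball _ _).inter (convex_halfSpace_re_gt e)
    set H : ℂ → ℂ := fun s => (s - e) ^ r * LJ N e a s * Complex.exp (G s) with hH
    have hHd : ∀ s ∈ U, HasDerivAt H 0 s := by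
      rintro s ⟨hs1, hs2⟩
      have hne : s - (e : ℂ) ≠ 0 := ne_of_re hs2
      have d1 : HasDerivAt (fun s : ℂ => (s - (e : ℂ)) ^ r) (r * (s - e) ^ (r - 1)) s := by
        have := (hasDerivAt_zpow r (s - (e : ℂ)) (Or.inl hne)).comp_sub_const s (e : ℂ)
        exact this
      have d2 := h.hasDerivAt_LJ (a := a) (N := N) hs2
      have d3 := (hG s hs1).cexp
      refine ((d1.mul d2).mul d3).congr_deriv ?_
      simp only [Pi.mul_apply]
      rw [hb1 s (Metric.ball_subset_ball (min_le_left _ _) hs1) hs2, zpow_sub_one₀ hne]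
      field_simp
      ring
    have hconst : ∀ s ∈ U, ∀ t ∈ U, H s = H t := by
      intro s hs t ht
      refine hUo.is_const_of_deriv_eq_zero hUc.isPreconnected
        (fun x hx => (hHd x hx).differentiableAt.differentiableWithinAt)
        (fun x hx => (hHd x hx).deriv) hs ht
    set t0 : ℂ := ((e + ε / 2 : ℝ) : ℂ) with ht0
    have ht0U : t0 ∈ U := by
      refine ⟨?_, ?_⟩
      · rw [Metric.mem_ball, ht0, dist_eq_norm, ← Complex.ofReal_sub, add_sub_cancel_left,
          Complex.norm_real, Real.norm_of_nonneg (by linarith)]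
        linarith
      · show e < t0.re
        rw [ht0, Complex.ofReal_re]
        linarith
    have hH0 : H t0 ≠ 0 := by
      have hne : t0 - (e : ℂ) ≠ 0 := ne_of_re ht0U.2
      exact mul_ne_zero (mul_ne_zero (zpow_ne_zero _ hne) (hLne _)) (Complex.exp_ne_zero _)
    refine ⟨fun s => H t0 * Complex.exp (-(G s)), analyticAt_const.mul hGan.neg.cexp,
      mul_ne_zero hH0 (Complex.exp_ne_zero _), ?_⟩
    filter_upwards [Metric.ball_mem_nhds (e : ℂ) hε0] with s hs hse
    have h4 := hconst s ⟨hs, hse⟩ t0 ht0U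
    rw [← h4, hH]
    simp only
    rw [mul_assoc, ← Complex.exp_add, add_neg_cancel, Complex.exp_zero, mul_one]
  · rintro ⟨F, hF, hF0, hL⟩
    refine ⟨fun s => -(deriv F s / F s), (hF.deriv.div hF hF0).neg, ?_⟩
    have hF1 : ∀ᶠ s : ℂ in 𝓝 (e : ℂ), F s ≠ 0 := hF.continuousAt.eventually_ne hF0
    filter_upwards [hL.eventually_nhds, hF.eventually_analyticAt, hF1] with s hs hFs hFn hse
    have hne : s - (e : ℂ) ≠ 0 := ne_of_re hse
    have h5 : F =ᶠ[𝓝 s] fun z => (z - (e : ℂ)) ^ r * LJ N e a z := by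
      filter_upwards [hs, hopen.mem_nhds hse] with z hz hze
      exact (hz hze).symm
    have d1 : HasDerivAt (fun s : ℂ => (s - (e : ℂ)) ^ r) (r * (s - e) ^ (r - 1)) s :=
      (hasDerivAt_zpow r (s - (e : ℂ)) (Or.inl hne)).comp_sub_const s (e : ℂ)
    have d2 := h.hasDerivAt_LJ (a := a) (N := N) hse
    have h6 : deriv F s = r * (s - e) ^ (r - 1) * LJ N e a s +
        (s - (e : ℂ)) ^ r * (-(DJ N a s) * LJ N e a s) := by
      rw [h5.deriv_eq]
      exact (d1.mul d2).deriv
    have h7 := h5.eq_of_nhds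
    rw [h6, h7, zpow_sub_one₀ hne]
    have h8 : (s - (e : ℂ)) ^ r ≠ 0 := zpow_ne_zero _ hne
    have h9 := hLne s
    field_simp
    ring

/-- **The criterion for the residue.** -/
theorem Sm.edge [Countable I] (h : Sm N e a) (r : ℤ) : List.TFAE [
      RE (DJ N a) e r,
      ∀ A : ℝ, 0 < A → ∃ η : ℝ, 0 < η ∧ ∃ C : ℝ, ∀ x : ℝ, 2 ≤ x →
        ‖(√(A / (Real.pi * Real.log x)) : ℂ) * (∑' i, a i * ((Real.log (N i) *
          (N i : ℝ) ^ (-e) * Real.exp (-(A * (Real.log (N i) - Real.log x) ^ 2 /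
          Real.log x)) : ℝ) : ℂ)) - r‖ ≤ C * x ^ (-η),
      ∃ A : ℝ, 0 < A ∧ ∃ η : ℝ, 0 < η ∧ ∃ C X : ℝ, ∀ x : ℝ, X ≤ x →
        ‖(√(A / (Real.pi * Real.log x)) : ℂ) * (∑' i, a i * ((Real.log (N i) *
          (N i : ℝ) ^ (-e) * Real.exp (-(A * (Real.log (N i) - Real.log x) ^ 2 /
          Real.log x)) : ℝ) : ℂ)) - r‖ ≤ C * x ^ (-η)] := by
  have havg : ∀ A x : ℝ, 0 < A → 1 < x →
      MM Measure.count (uJ N) (cJ N e a) A (Real.log x) (-((e - e : ℝ) : ℂ)) =
      (√(A / (Real.pi * Real.log x)) : ℂ) * (∑' i, a i * ((Real.log (N i) *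
          (N i : ℝ) ^ (-e) * Real.exp (-(A * (Real.log (N i) - Real.log x) ^ 2 /
          Real.log x)) : ℝ) : ℂ)) := by
    intro A x hA hx
    have hy : 0 < Real.log x := Real.log_pos hx
    have hint := integrable_count_iff.1 (h.dat_c.ker_integrable hA hy (-((e - e : ℝ) : ℂ)))
    unfold MM
    rw [integral_count_eq hint, ← tsum_mul_left]
    refine tsum_congr fun i => ?_
    have hn : (0 : ℝ) < N i := by
      have : (2 : ℝ) ≤ N i := by exact_mod_cast h.two i
      linarith
    unfold cJ c0J gk uJ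
    rw [sub_self, Complex.ofReal_zero, neg_zero, zero_mul, neg_zero, Complex.exp_zero, mul_one,
      Real.rpow_def_of_pos hn]
    have e1 : -(e * Real.log (N i)) = Real.log (N i) * -e := by ring
    rw [e1]
    push_cast
    ring
  have key := h.ld.edge (e := e) (L := LJ N e a) havg (-r)
  rw [← PO_iff, ← h.res_iff] at key
  simpa only [Int.cast_neg, ← sub_eq_add_neg] using key

end

end Pool.Agent.N881.GW
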