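import Pool.Agent.N881.GW.V6
import Pool.Agent.N881.GW.V3

/-!
# Residues of sums over the primes of a number field
-/

set_option autoImplicit false

namespace Pool.Agent.N881.GW

open MeasureTheory Set Filter Topology NumberField IsDedekindDomain
open Pool.Agent.TH339.MP (nm pr lv)

section

variable {K : Type} [Field K] [NumberField K]

instance : Countable (HeightOneSpectrum (𝓞 K)) := by
  have h1 := (summable_nm (K := K) (x := 2) (by norm_num)).countable_support
  have h2 : Function.support (fun v : HeightOneSpectrum (𝓞 K) =>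
      Real.exp (-(2 * Real.log (nm v)))) = Set.univ :=
    Set.eq_univ_of_forall fun v => (Real.exp_pos _).ne'
  rw [h2] at h1
  exact Set.countable_univ_iff.1 h1

open Classical in
/-- the series -/
noncomputable def Dser (c : HeightOneSpectrum (𝓞 K) → ℝ) (R : Finset (HeightOneSpectrum (𝓞 K)))
    (s : ℂ) : ℂ :=
  ∑' v : HeightOneSpectrum (𝓞 K), if v ∈ R then 0 else
    (c v : ℂ) * (Real.log (Ideal.absNorm v.asIdeal) : ℂ) * (Ideal.absNorm v.asIdeal : ℂ) ^ (-s)

open Classical in
/-- the average -/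
noncomputable def Davg (c : HeightOneSpectrum (𝓞 K) → ℝ) (R : Finset (HeightOneSpectrum (𝓞 K)))
    (e A x : ℝ) : ℝ :=
  √(A / (Real.pi * Real.log x)) * ∑' v : HeightOneSpectrum (𝓞 K), if v ∈ R then 0 else
    c v * (Real.log (Ideal.absNorm v.asIdeal) * (Ideal.absNorm v.asIdeal : ℝ) ^ (-e) *
      Real.exp (-(A * (Real.log (Ideal.absNorm v.asIdeal) - Real.log x) ^ 2 / Real.log x)))

/-- **The residue.** -/
theorem res_crit {c : HeightOneSpectrum (𝓞 K) → ℝ} {R : Finset (HeightOneSpectrum (𝓞 K))}
    {e C₀ : ℝ} (hc : ∀ v ∉ R, |c v| ≤ C₀ * (Ideal.absNorm v.asIdeal : ℝ) ^ (e - 1)) (r : ℤ) :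
    List.TFAE [
      RE (Dser c R) e r,
      ∀ A : ℝ, 0 < A → ∃ η : ℝ, 0 < η ∧ ∃ C : ℝ, ∀ x : ℝ, 2 ≤ x →
        |Davg c R e A x - r| ≤ C * x ^ (-η),
      ∃ A : ℝ, 0 < A ∧ ∃ η : ℝ, 0 < η ∧ ∃ C X : ℝ, ∀ x : ℝ, X ≤ x →
        |Davg c R e A x - r| ≤ C * x ^ (-η)] := by
  classical
  set a : HeightOneSpectrum (𝓞 K) → ℂ := fun v => if v ∈ R then 0 else (c v : ℂ) with ha
  have hn : ∀ v : HeightOneSpectrum (𝓞 K), (0 : ℝ) < nm v := fun v => by linarith [nm_ge v]
  have hS : Sm (fun v : HeightOneSpectrum (𝓞 K) => nm v) e a :=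
    { two := fun v => by exact_mod_cast nm_ge v
      sum := fun x hx => by
        have h1 := (summable_nm (K := K) (x := x - e + 1) (by linarith)).mul_left |C₀|
        refine Summable.of_nonneg_of_le (fun v => by positivity) (fun v => ?_) h1
        by_cases hv : v ∈ R
        · simp only [ha, if_pos hv, norm_zero, zero_mul]
          positivity
        · simp only [ha, if_neg hv, Complex.norm_real, Real.norm_eq_abs]
          have h2 : |c v| ≤ |C₀| * (nm v : ℝ) ^ (e - 1) :=
            (hc v hv).trans (mul_le_mul_of_nonneg_right (le_abs_self _)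
              (Real.rpow_nonneg (hn v).le _))
          calc |c v| * (nm v : ℝ) ^ (-x) ≤ |C₀| * (nm v : ℝ) ^ (e - 1) * (nm v : ℝ) ^ (-x) :=
                mul_le_mul_of_nonneg_right h2 (Real.rpow_nonneg (hn v).le _)
            _ = |C₀| * (nm v : ℝ) ^ (e - 1 + -x) := by
                rw [mul_assoc, ← Real.rpow_add (hn v)]
            _ = |C₀| * Real.exp (-((x - e + 1) * Real.log (nm v))) := by
                rw [Real.rpow_def_of_pos (hn v)]
                congr 2
                ring }
  have key := hS.edge r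
  have h1 : DJ (fun v : HeightOneSpectrum (𝓞 K) => nm v) a = Dser c R := by
    funext s
    unfold DJ Dser
    refine tsum_congr fun v => ?_
    by_cases hv : v ∈ R
    · simp only [ha, if_pos hv, zero_mul]
    · simp only [ha, if_neg hv]
      rfl
  have h2 : ∀ A x : ℝ, ‖(√(A / (Real.pi * Real.log x)) : ℂ) *
      (∑' v, a v * ((Real.log (nm v) * (nm v : ℝ) ^ (-e) *
        Real.exp (-(A * (Real.log (nm v) - Real.log x) ^ 2 / Real.log x)) : ℝ) : ℂ)) - r‖ =
      |Davg c R e A x - r| := by
    intro A x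
    have h3 : (√(A / (Real.pi * Real.log x)) : ℂ) *
      (∑' v, a v * ((Real.log (nm v) * (nm v : ℝ) ^ (-e) *
        Real.exp (-(A * (Real.log (nm v) - Real.log x) ^ 2 / Real.log x)) : ℝ) : ℂ)) =
        (Davg c R e A x : ℂ) := by
      unfold Davg
      rw [Complex.ofReal_mul, Complex.ofReal_tsum]
      congr 1
      refine tsum_congr fun v => ?_
      by_cases hv : v ∈ R
      · simp only [ha, if_pos hv, zero_mul, Complex.ofReal_zero]
      · simp only [ha, if_neg hv]
        rw [Complex.ofReal_mul (c v)]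
        rfl
    rw [h3]
    have h4 : (Davg c R e A x : ℂ) - (r : ℂ) = ((Davg c R e A x - r : ℝ) : ℂ) := by
      push_cast
      rfl
    rw [h4, Complex.norm_real, Real.norm_eq_abs]
  rw [h1] at key
  simp only [h2] at key
  exact key

end

end Pool.Agent.N881.GW
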