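import Mathlib

/-!
# The logarithmic derivative of a Dirichlet series with Hecke relations: coefficients
-/

set_option autoImplicit false

namespace Pool.Agent.N881.GW

open Finset ArithmeticFunction

/-- the relations satisfied by the coefficients -/
structure HeckeRel (t : ℕ → ℝ) (w : ℕ) : Prop where
  zero : t 0 = 0
  one : t 1 = 1
  mul : ∀ m n : ℕ, Nat.Coprime m n → t (m * n) = t m * t n
  pow : ∀ p j : ℕ, p.Prime → t (p ^ (j + 2)) = t p * t (p ^ (j + 1)) - (p : ℝ) ^ w * t (p ^ j)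

/-- the coefficients of the logarithmic derivative -/
noncomputable def lc (t : ℕ → ℝ) (w : ℕ) (n : ℕ) : ℝ :=
  vonMangoldt n * (t n - (n.minFac : ℝ) ^ w * t (n / n.minFac ^ 2))

/-- the local power sums -/
lemma newton_sum (u : ℕ → ℝ) (l q : ℝ) (h0 : u 0 = 1) (h1 : u 1 = l)
    (h : ∀ j, u (j + 2) = l * u (j + 1) - q * u j) (s : ℕ → ℝ) (hs1 : s 1 = l)
    (hs : ∀ j, s (j + 2) = u (j + 2) - q * u j) (a : ℕ) :
    ∑ j ∈ range a, s (j + 1) * u (a - (j + 1)) = a * u a := by
  induction a using Nat.strong_induction_on with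
  | _ a ih =>
    rcases a with _ | _ | a
    · simp
    · simp [hs1, h0, h1]
    · have i1 := ih (a + 1) (by omega)
      have i0 := ih a (by omega)
      rw [sum_range_succ] at i1
      rw [sum_range_succ, sum_range_succ]
      have e1 : a + 1 - (a + 1) = 0 := by omega
      have e2 : a + 1 + 1 - (a + 1) = 1 := by omega
      have e3 : a + 1 + 1 - (a + 1 + 1) = 0 := by omega
      rw [e1, h0] at i1
      rw [e2, e3, h0, h1]
      have e4 : ∑ j ∈ range a, s (j + 1) * u (a + 1 + 1 - (j + 1)) =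
          l * ∑ j ∈ range a, s (j + 1) * u (a + 1 - (j + 1)) -
            q * ∑ j ∈ range a, s (j + 1) * u (a - (j + 1)) := by
        rw [mul_sum, mul_sum, ← sum_sub_distrib]
        refine sum_congr rfl fun j hj => ?_
        rw [mem_range] at hj
        obtain ⟨b, hb⟩ : ∃ b, a = j + 1 + b := ⟨a - (j + 1), by omega⟩
        have f1 : a + 1 + 1 - (j + 1) = b + 2 := by omega
        have f2 : a + 1 - (j + 1) = b + 1 := by omega
        have f3 : a - (j + 1) = b := by omega
        rw [f1, f2, f3, h b]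
        ring
      have e5 : s (a + 1 + 1) = u (a + 2) - q * u a := hs a
      rw [e4, i0, e5, h a]
      have e6 : ∑ j ∈ range a, s (j + 1) * u (a + 1 - (j + 1)) =
          ((a + 1 : ℕ) : ℝ) * u (a + 1) - s (a + 1) * 1 := by linarith
      rw [e6]
      push_cast
      ring

lemma sum_anti_mul {m n : ℕ} (cop : m.Coprime n) (F : ℕ → ℕ → ℝ) :
    ∑ x ∈ (m * n).divisorsAntidiagonal, F x.1 x.2 =
      ∑ y ∈ m.divisorsAntidiagonal ×ˢ n.divisorsAntidiagonal,
        F (y.1.1 * y.2.1) (y.1.2 * y.2.2) := by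
  symm
  apply sum_nbij fun ((i, j), k, l) ↦ (i * k, j * l)
  · rintro ⟨⟨a1, a2⟩, ⟨b1, b2⟩⟩ h
    simp only [Nat.mem_divisorsAntidiagonal, Ne, mem_product] at h
    rcases h with ⟨⟨rfl, ha⟩, ⟨rfl, hb⟩⟩
    simp only [Nat.mem_divisorsAntidiagonal, mul_eq_zero, Ne]
    constructor
    · ring
    rw [mul_eq_zero] at *
    exact not_or_intro ha hb
  · simp only [Set.InjOn, mem_coe, Nat.mem_divisorsAntidiagonal, mem_product, Prod.mk_inj]
    rintro ⟨⟨a1, a2⟩, ⟨b1, b2⟩⟩ ⟨⟨rfl, ha⟩, ⟨rfl, hb⟩⟩ ⟨⟨c1, c2⟩, ⟨d1, d2⟩⟩ hcd h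
    ext
    · trans Nat.gcd (a1 * a2) (a1 * b1)
      · rw [Nat.gcd_mul_left, cop.coprime_mul_left.coprime_mul_right_right.gcd_eq_one, mul_one]
      · rw [← hcd.1.1, ← hcd.2.1] at cop
        rw [← hcd.1.1, h.1, Nat.gcd_mul_left,
          cop.coprime_mul_left.coprime_mul_right_right.gcd_eq_one, mul_one]
    · trans Nat.gcd (a1 * a2) (a2 * b2)
      · rw [mul_comm, Nat.gcd_mul_left, cop.coprime_mul_right.coprime_mul_left_right.gcd_eq_one,
          mul_one]
      · rw [← hcd.1.1, ← hcd.2.1] at cop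
        rw [← hcd.1.1, h.2, mul_comm, Nat.gcd_mul_left,
          cop.coprime_mul_right.coprime_mul_left_right.gcd_eq_one, mul_one]
    · trans Nat.gcd (b1 * b2) (a1 * b1)
      · rw [mul_comm, Nat.gcd_mul_right,
          cop.coprime_mul_right.coprime_mul_left_right.symm.gcd_eq_one, one_mul]
      · rw [← hcd.1.1, ← hcd.2.1] at cop
        rw [← hcd.2.1, h.1, mul_comm c1 d1, Nat.gcd_mul_left,
          cop.coprime_mul_right.coprime_mul_left_right.symm.gcd_eq_one, mul_one]
    · trans Nat.gcd (b1 * b2) (a2 * b2)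
      · rw [Nat.gcd_mul_right, cop.coprime_mul_left.coprime_mul_right_right.symm.gcd_eq_one,
          one_mul]
      · rw [← hcd.1.1, ← hcd.2.1] at cop
        rw [← hcd.2.1, h.2, Nat.gcd_mul_right,
          cop.coprime_mul_left.coprime_mul_right_right.symm.gcd_eq_one, one_mul]
  · simp only [Set.SurjOn, Set.subset_def, mem_coe, Nat.mem_divisorsAntidiagonal, mem_product,
      Set.mem_image]
    rintro ⟨b1, b2⟩ h
    use ((b1.gcd m, b2.gcd m), (b1.gcd n, b2.gcd n))
    rw [← cop.gcd_mul _, ← cop.gcd_mul _, ← h.1, Nat.gcd_mul_gcd_of_coprime_of_mul_eq_mul cop h.1,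
      Nat.gcd_mul_gcd_of_coprime_of_mul_eq_mul cop.symm _]
    · rw [Ne, mul_eq_zero, not_or] at h
      simp [h.2.1, h.2.2]
    rw [mul_comm n m, h.1]
  · intro y _
    rfl

lemma lc_zero (t : ℕ → ℝ) (w : ℕ) : lc t w 0 = 0 := by
  unfold lc
  simp

lemma lc_one (t : ℕ → ℝ) (w : ℕ) : lc t w 1 = 0 := by
  unfold lc
  simp

lemma lc_not {t : ℕ → ℝ} {w n : ℕ} (h : ¬ IsPrimePow n) : lc t w n = 0 := by
  unfold lc
  rw [vonMangoldt_eq_zero_iff.2 h, zero_mul]

lemma lc_coprime (t : ℕ → ℝ) (w : ℕ) {m n : ℕ} (h : m.Coprime n) :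
    lc t w (m * n) = (if n = 1 then lc t w m else 0) + (if m = 1 then lc t w n else 0) := by
  by_cases hm : m = 1
  · by_cases hn : n = 1
    · rw [hm, hn]
      simp [lc_one]
    · rw [hm, one_mul, if_neg hn, if_pos rfl, zero_add]
  · by_cases hn : n = 1
    · rw [hn, mul_one, if_pos rfl, if_neg hm, add_zero]
    · rw [if_neg hm, if_neg hn, add_zero]
      apply lc_not
      rintro hp
      rcases (Nat.Coprime.isPrimePow_dvd_mul h hp).1 dvd_rfl with h1 | h1
      · by_cases hm0 : m = 0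
        · rw [hm0] at h
          exact hn (Nat.coprime_zero_left n |>.1 h)
        · have h2 : n ∣ 1 := Nat.dvd_of_mul_dvd_mul_left (Nat.pos_of_ne_zero hm0) (by simpa using h1)
          exact hn (Nat.dvd_one.1 h2)
      · by_cases hn0 : n = 0
        · rw [hn0] at h
          exact hm (Nat.coprime_zero_right m |>.1 h)
        · have h2 : m ∣ 1 := Nat.dvd_of_mul_dvd_mul_right (Nat.pos_of_ne_zero hn0) (by simpa using h1)
          exact hm (Nat.dvd_one.1 h2)

/-- the convolution identity -/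
theorem lc_conv {t : ℕ → ℝ} {w : ℕ} (h : HeckeRel t w) (n : ℕ) (hn : n ≠ 0) :
    ∑ x ∈ n.divisorsAntidiagonal, lc t w x.1 * t x.2 = t n * Real.log n := by
  induction n using Nat.recOnPosPrimePosCoprime with
  | prime_pow p a hp ha =>
    have hp1 : (p : ℕ) ≠ 0 := hp.ne_zero
    rw [Nat.sum_divisorsAntidiagonal (fun i j => lc t w i * t j), Nat.sum_divisors_prime_pow hp,
      sum_range_succ']
    simp only [pow_zero]
    rw [lc_one, zero_mul, add_zero]
    set s : ℕ → ℝ := fun j => t (p ^ j) - (p : ℝ) ^ w * (if 2 ≤ j then t (p ^ (j - 2)) else 0)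
      with hsdef
    have e1 : ∀ j ∈ range a, lc t w (p ^ (j + 1)) * t (p ^ a / p ^ (j + 1)) =
        Real.log p * (s (j + 1) * t (p ^ (a - (j + 1)))) := by
      intro j hj
      rw [mem_range] at hj
      unfold lc
      have e0 : p ^ a / p ^ (j + 1) = p ^ (a - (j + 1)) := Nat.pow_div (by omega) hp.pos
      rw [vonMangoldt_apply_pow (by omega), vonMangoldt_apply_prime hp, hp.pow_minFac (by omega),
        e0]
      have e2 : t (p ^ (j + 1) / p ^ 2) = if 2 ≤ j + 1 then t (p ^ (j + 1 - 2)) else 0 := by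
        split_ifs with h2
        · rw [Nat.pow_div h2 hp.pos]
        · have hj0 : j = 0 := by omega
          rw [hj0, zero_add, pow_one, Nat.div_eq_of_lt, h.zero]
          have := hp.one_lt
          nlinarith
      rw [e2, hsdef]
      ring
    rw [sum_congr rfl e1, ← mul_sum]
    have key := newton_sum (fun j => t (p ^ j)) (t p) ((p : ℝ) ^ w) (by simp [h.one]) (by simp)
      (fun j => h.pow p j hp) s (by rw [hsdef]; simp) (fun j => by
        rw [hsdef]
        simp only
        rw [if_pos (by omega)]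
        rfl) a
    rw [key, Nat.cast_pow, Real.log_pow]
    ring
  | zero => exact absurd rfl hn
  | one => simp [lc_one]
  | coprime a b ha hb hab iha ihb =>
    have ha0 : a ≠ 0 := by omega
    have hb0 : b ≠ 0 := by omega
    rw [sum_anti_mul hab (fun i j => lc t w i * t j), sum_product]
    have e1 : ∀ x ∈ a.divisorsAntidiagonal, ∀ y ∈ b.divisorsAntidiagonal,
        lc t w (x.1 * y.1) * t (x.2 * y.2) =
          (if y.1 = 1 then lc t w x.1 * t x.2 * t b else 0) +
            (if x.1 = 1 then lc t w y.1 * t y.2 * t a else 0) := by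
      rintro ⟨x1, x2⟩ hx ⟨y1, y2⟩ hy
      rw [Nat.mem_divisorsAntidiagonal] at hx hy
      simp only at hx hy ⊢
      have hx1 : x1 ∣ a := ⟨x2, hx.1.symm⟩
      have hx2 : x2 ∣ a := ⟨x1, by rw [← hx.1, mul_comm]⟩
      have hy1 : y1 ∣ b := ⟨y2, hy.1.symm⟩
      have hy2 : y2 ∣ b := ⟨y1, by rw [← hy.1, mul_comm]⟩
      have hc1 : x1.Coprime y1 := Nat.Coprime.coprime_dvd_left hx1 (Nat.Coprime.coprime_dvd_right hy1 hab)
      have hc2 : x2.Coprime y2 := Nat.Coprime.coprime_dvd_left hx2 (Nat.Coprime.coprime_dvd_right hy2 hab)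
      rw [lc_coprime t w hc1, h.mul x2 y2 hc2]
      by_cases hx1' : x1 = 1
      · have hx2' : x2 = a := by rw [← hx.1, hx1', one_mul]
        by_cases hy1' : y1 = 1
        · have hy2' : y2 = b := by rw [← hy.1, hy1', one_mul]
          rw [if_pos hy1', if_pos hx1', if_pos hy1', if_pos hx1', hx1', hy1', lc_one]
          ring
        · rw [if_neg hy1', if_pos hx1', if_neg hy1', if_pos hx1', hx2']
          ring
      · by_cases hy1' : y1 = 1
        · have hy2' : y2 = b := by rw [← hy.1, hy1', one_mul]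
          rw [if_pos hy1', if_neg hx1', if_pos hy1', if_neg hx1', hy2']
          ring
        · rw [if_neg hy1', if_neg hx1', if_neg hy1', if_neg hx1']
          ring
    rw [sum_congr rfl fun x hx => sum_congr rfl fun y hy => e1 x hx y hy]
    simp only [sum_add_distrib]
    have hdel : ∀ (c : ℕ) (_ : c ≠ 0) (v : ℝ),
        ∑ y ∈ c.divisorsAntidiagonal, (if y.1 = 1 then v else 0) = v := by
      intro c hc v
      rw [Nat.sum_divisorsAntidiagonal (fun i _ => if i = 1 then v else 0), sum_ite_eq']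
      rw [if_pos (Nat.one_mem_divisors.2 hc)]
    have e2 : ∑ x ∈ a.divisorsAntidiagonal, ∑ y ∈ b.divisorsAntidiagonal,
        (if y.1 = 1 then lc t w x.1 * t x.2 * t b else 0) = t a * Real.log a * t b := by
      rw [← iha ha0, sum_mul]
      refine sum_congr rfl fun x _ => ?_
      exact hdel b hb0 _
    have e3 : ∑ x ∈ a.divisorsAntidiagonal, ∑ y ∈ b.divisorsAntidiagonal,
        (if x.1 = 1 then lc t w y.1 * t y.2 * t a else 0) = t b * Real.log b * t a := by
      rw [sum_comm, ← ihb hb0, sum_mul]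
      refine sum_congr rfl fun y _ => ?_
      exact hdel a ha0 _
    rw [e2, e3, h.mul a b hab, Nat.cast_mul, Real.log_mul (by exact_mod_cast ha0)
      (by exact_mod_cast hb0)]
    ring

end Pool.Agent.N881.GW
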