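import Pool.Agent.N881.GW.X1

/-!
# The logarithmic derivative of a Dirichlet series with Hecke relations: analytic part
-/

set_option autoImplicit false

namespace Pool.Agent.N881.GW

open Finset ArithmeticFunction

/-- growth of the coefficients -/
lemma lc_le {t : ℕ → ℝ} {w : ℕ} (h : HeckeRel t w) {C b : ℝ} (hC : 0 ≤ C) (hb : 0 < b)
    (hwb : (w : ℝ) ≤ 2 * b) (ht : ∀ n : ℕ, 1 ≤ n → |t n| ≤ C * (n : ℝ) ^ b) (n : ℕ) (hn : 1 ≤ n) :
    |lc t w n| ≤ 2 * C * (vonMangoldt n * (n : ℝ) ^ b) := by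
  unfold lc
  rw [abs_mul, abs_of_nonneg vonMangoldt_nonneg]
  have hn0 : (0 : ℝ) < n := by exact_mod_cast hn
  have h0 : ∀ m : ℕ, |t m| ≤ C * (m : ℝ) ^ b := by
    intro m
    rcases Nat.eq_zero_or_pos m with rfl | hm
    · rw [h.zero, abs_zero]
      positivity
    · exact ht m hm
  rcases eq_or_ne n 1 with rfl | hn1
  · rw [vonMangoldt_apply_one, zero_mul, zero_mul, mul_zero]
  have hp : (n.minFac).Prime := Nat.minFac_prime hn1
  have hp0 : (0 : ℝ) < n.minFac := by exact_mod_cast hp.pos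
  have hp1 : (1 : ℝ) ≤ n.minFac := by exact_mod_cast hp.one_lt.le
  have e1 : |t n - (n.minFac : ℝ) ^ w * t (n / n.minFac ^ 2)| ≤ 2 * C * (n : ℝ) ^ b := by
    have h1 := h0 n
    have h2 := h0 (n / n.minFac ^ 2)
    have h3 : ((n / n.minFac ^ 2 : ℕ) : ℝ) ≤ n / (n.minFac : ℝ) ^ 2 := by
      have := @Nat.cast_div_le ℝ _ _ _ n (n.minFac ^ 2)
      rwa [Nat.cast_pow] at this
    have h4 : ((n / n.minFac ^ 2 : ℕ) : ℝ) ^ b ≤ (n : ℝ) ^ b / (n.minFac : ℝ) ^ (2 * b) := by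
      refine (Real.rpow_le_rpow (Nat.cast_nonneg _) h3 hb.le).trans (le_of_eq ?_)
      rw [Real.div_rpow hn0.le (by positivity), ← Real.rpow_natCast, ← Real.rpow_mul hp0.le]
      norm_num
    have h5 : (n.minFac : ℝ) ^ w ≤ (n.minFac : ℝ) ^ (2 * b) := by
      rw [← Real.rpow_natCast]
      exact Real.rpow_le_rpow_of_exponent_le hp1 hwb
    have h6 : 0 < (n.minFac : ℝ) ^ (2 * b) := Real.rpow_pos_of_pos hp0 _
    have h7 : (n.minFac : ℝ) ^ w * |t (n / n.minFac ^ 2)| ≤ C * (n : ℝ) ^ b := by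
      calc (n.minFac : ℝ) ^ w * |t (n / n.minFac ^ 2)|
          ≤ (n.minFac : ℝ) ^ (2 * b) * (C * ((n : ℝ) ^ b / (n.minFac : ℝ) ^ (2 * b))) := by
            refine mul_le_mul h5 (h2.trans (mul_le_mul_of_nonneg_left h4 hC)) (abs_nonneg _) h6.le
        _ = C * (n : ℝ) ^ b := by field_simp
    have h8 : |(n.minFac : ℝ) ^ w * t (n / n.minFac ^ 2)| ≤ C * (n : ℝ) ^ b := by
      rw [abs_mul, abs_of_pos (pow_pos hp0 w)]
      exact h7
    have h9 := abs_sub (t n) ((n.minFac : ℝ) ^ w * t (n / n.minFac ^ 2))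
    linarith
  calc vonMangoldt n * |t n - (n.minFac : ℝ) ^ w * t (n / n.minFac ^ 2)|
      ≤ vonMangoldt n * (2 * C * (n : ℝ) ^ b) := mul_le_mul_of_nonneg_left e1 vonMangoldt_nonneg
    _ = _ := by ring

lemma lc_summable {t : ℕ → ℝ} {w : ℕ} (h : HeckeRel t w) {C b : ℝ} (hC : 0 ≤ C) (hb : 0 < b)
    (hwb : (w : ℝ) ≤ 2 * b) (ht : ∀ n : ℕ, 1 ≤ n → |t n| ≤ C * (n : ℝ) ^ b) {s : ℂ}
    (hs : b + 1 < s.re) : LSeriesSummable (fun n => (lc t w n : ℂ)) s := by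
  have h1 : 1 < (s - b).re := by simp; linarith
  have h2 := LSeriesSummable_vonMangoldt h1
  unfold LSeriesSummable at h2 ⊢
  have h3 := h2.norm.mul_left (2 * C)
  refine Summable.of_norm_bounded h3 fun n => ?_
  rcases Nat.eq_zero_or_pos n with rfl | hn
  · simp
  · have hn0 : (0 : ℝ) < n := by exact_mod_cast hn
    rw [LSeries.norm_term_eq, LSeries.norm_term_eq, if_neg hn.ne', if_neg hn.ne']
    rw [Complex.norm_real, Real.norm_eq_abs, Complex.norm_real, Real.norm_eq_abs,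
      abs_of_nonneg vonMangoldt_nonneg]
    have e1 : (n : ℝ) ^ (s - (b : ℂ)).re = (n : ℝ) ^ s.re / (n : ℝ) ^ b := by
      rw [Complex.sub_re, Complex.ofReal_re, Real.rpow_sub hn0]
    rw [e1]
    have h4 := lc_le h hC hb hwb ht n hn
    have h5 : 0 < (n : ℝ) ^ s.re := Real.rpow_pos_of_pos hn0 _
    have h6 : 0 < (n : ℝ) ^ b := Real.rpow_pos_of_pos hn0 _
    rw [div_le_iff₀ h5]
    refine h4.trans (le_of_eq ?_)
    field_simp

lemma t_summable {t : ℕ → ℝ} {C b : ℝ} (ht : ∀ n : ℕ, 1 ≤ n → |t n| ≤ C * (n : ℝ) ^ b) {s : ℂ}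
    (hs : b + 1 < s.re) : LSeriesSummable (fun n => (t n : ℂ)) s := by
  refine LSeriesSummable_of_le_const_mul_rpow (x := b + 1) hs ⟨C, fun n hn => ?_⟩
  rw [Complex.norm_real, Real.norm_eq_abs, add_sub_cancel_right]
  exact ht n (Nat.pos_of_ne_zero hn)

lemma t_abscissa {t : ℕ → ℝ} {C b : ℝ} (ht : ∀ n : ℕ, 1 ≤ n → |t n| ≤ C * (n : ℝ) ^ b) :
    LSeries.abscissaOfAbsConv (fun n => (t n : ℂ)) ≤ ((b + 1 : ℝ) : EReal) := by
  refine LSeries.abscissaOfAbsConv_le_of_le_const_mul_rpow (x := b) ?_ |>.trans (le_of_eq ?_)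
  · exact ⟨C, fun n hn => by
      rw [Complex.norm_real, Real.norm_eq_abs]
      exact ht n (Nat.pos_of_ne_zero hn)⟩
  · push_cast
    rfl

/-- the identity `L(lc) L(t) = -L(t)'` -/
theorem lc_ld {t : ℕ → ℝ} {w : ℕ} (h : HeckeRel t w) {C b : ℝ} (hC : 0 ≤ C) (hb : 0 < b)
    (hwb : (w : ℝ) ≤ 2 * b) (ht : ∀ n : ℕ, 1 ≤ n → |t n| ≤ C * (n : ℝ) ^ b) {s : ℂ}
    (hs : b + 1 < s.re) :
    LSeries (fun n => (lc t w n : ℂ)) s * LSeries (fun n => (t n : ℂ)) s =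
      -deriv (LSeries (fun n => (t n : ℂ))) s := by
  have hab : LSeries.abscissaOfAbsConv (fun n => (t n : ℂ)) < s.re :=
    lt_of_le_of_lt (t_abscissa ht) (by exact_mod_cast hs)
  rw [← LSeries_convolution' (lc_summable h hC hb hwb ht hs) (t_summable ht hs), LSeries_deriv hab,
    neg_neg]
  refine LSeries_congr (fun {n} hn => ?_) s
  rw [LSeries.convolution_def]
  simp only
  have h1 := lc_conv h n hn
  have h2 : ∑ p ∈ n.divisorsAntidiagonal, (lc t w p.1 : ℂ) * (t p.2 : ℂ) =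
      ((∑ p ∈ n.divisorsAntidiagonal, lc t w p.1 * t p.2 : ℝ) : ℂ) := by push_cast; rfl
  rw [h2, h1, Complex.ofReal_mul, Complex.ofReal_log (Nat.cast_nonneg n), mul_comm]
  rfl

end Pool.Agent.N881.GW
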