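import Pool.Agent.N881.GW.X2
import Pool.Agent.N881.GW.P1

/-!
# Zero-free half-planes and the continuation of the logarithmic derivative
-/

set_option autoImplicit false

namespace Pool.Agent.N881.GW

open Finset ArithmeticFunction Filter Topology

lemma hp_eq {c d : ℝ} {f g : ℂ → ℂ} (hf : ∀ s : ℂ, c < s.re → DifferentiableAt ℂ f s)
    (hg : ∀ s : ℂ, c < s.re → DifferentiableAt ℂ g s) (h : ∀ s : ℂ, d < s.re → f s = g s) :
    ∀ s : ℂ, c < s.re → f s = g s := by
  have hop : IsOpen {s : ℂ | c < s.re} := isOpen_lt continuous_const Complex.continuous_re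
  have hcx : Convex ℝ {s : ℂ | c < s.re} := convex_halfSpace_re_gt c
  have hfa : AnalyticOnNhd ℂ f {s : ℂ | c < s.re} :=
    DifferentiableOn.analyticOnNhd (fun s hs => (hf s hs).differentiableWithinAt) hop
  have hga : AnalyticOnNhd ℂ g {s : ℂ | c < s.re} :=
    DifferentiableOn.analyticOnNhd (fun s hs => (hg s hs).differentiableWithinAt) hop
  set z0 : ℂ := ((max c d + 1 : ℝ) : ℂ) with hz0
  have hz0re : z0.re = max c d + 1 := by rw [hz0, Complex.ofReal_re]
  have hm : z0 ∈ {s : ℂ | c < s.re} := by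
    show c < z0.re
    rw [hz0re]
    have := le_max_left c d
    linarith
  have hev : f =ᶠ[𝓝 z0] g := by
    have hop2 : IsOpen {s : ℂ | d < s.re} := isOpen_lt continuous_const Complex.continuous_re
    refine eventually_of_mem (hop2.mem_nhds ?_) fun s hs => h s hs
    show d < z0.re
    rw [hz0re]
    have := le_max_right c d
    linarith
  intro s hs
  exact hfa.eqOn_of_preconnected_of_eventuallyEq hga hcx.isPreconnected hm hev hs

/-- **Zero-free half-plane and continuation of the logarithmic derivative.** -/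
theorem zf_iff {t : ℕ → ℝ} {w : ℕ} (h : HeckeRel t w) {C b : ℝ} (hC : 0 ≤ C) (hb : 0 < b)
    (hwb : (w : ℝ) ≤ 2 * b) (ht : ∀ n : ℕ, 1 ≤ n → |t n| ≤ C * (n : ℝ) ^ b) {F : ℂ → ℂ}
    (hF : Differentiable ℂ F) (hFL : ∀ s : ℂ, b + 1 < s.re → F s = LSeries (fun n => (t n : ℂ)) s)
    {x0 : ℝ} (hx0 : ∀ x : ℝ, x0 < x → F x ≠ 0) {e : ℝ}
    (he : ∀ s : ℂ, e < s.re → LSeriesSummable (fun n => (lc t w n : ℂ)) s) {δ : ℝ} (hδ : 0 < δ) :
    (∃ G : ℂ → ℂ, (∀ s : ℂ, e - δ < s.re → DifferentiableAt ℂ G s) ∧
        ∀ s : ℂ, e < s.re → G s = LSeries (fun n => (lc t w n : ℂ)) s) ↔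
      ∀ s : ℂ, e - δ < s.re → F s ≠ 0 := by
  have hdF : Differentiable ℂ (deriv F) := by
    intro s
    exact (hF.analyticAt s).deriv.differentiableAt
  have hder : ∀ s : ℂ, b + 1 < s.re → deriv F s = deriv (LSeries (fun n => (t n : ℂ))) s := by
    intro s hs
    have hop : IsOpen {s : ℂ | b + 1 < s.re} := isOpen_lt continuous_const Complex.continuous_re
    exact Filter.EventuallyEq.deriv_eq (eventually_of_mem (hop.mem_nhds hs) fun z hz => hFL z hz)
  have hld : ∀ s : ℂ, b + 1 < s.re → LSeries (fun n => (lc t w n : ℂ)) s * F s = -deriv F s := by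
    intro s hs
    rw [hFL s hs, hder s hs]
    exact lc_ld h hC hb hwb ht hs
  constructor
  · rintro ⟨G, hG, hGD⟩ s0 hs0 h0
    have hGF : ∀ s : ℂ, e - δ < s.re → G s * F s = -deriv F s := by
      refine hp_eq (d := max e (b + 1)) (fun s hs => (hG s hs).mul (hF s)) (fun s _ => (hdF s).neg)
        fun s hs => ?_
      rw [hGD s (lt_of_le_of_lt (le_max_left _ _) hs)]
      exact hld s (lt_of_le_of_lt (le_max_right _ _) hs)
    have hop : IsOpen {s : ℂ | e - δ < s.re} := isOpen_lt continuous_const Complex.continuous_re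
    have hGa : AnalyticAt ℂ G s0 :=
      (DifferentiableOn.analyticOnNhd (fun s hs => (hG s hs).differentiableWithinAt) hop) s0 hs0
    have hFa : AnalyticAt ℂ F s0 := hF.analyticAt s0
    have h1 := hFa.analyticOrderAt_deriv_add_one
    have h2 : analyticOrderAt (fun z => F z - F s0) s0 = analyticOrderAt F s0 := by
      rw [h0]
      simp
    rw [h2] at h1
    have h3 : analyticOrderAt (deriv F) s0 = analyticOrderAt G s0 + analyticOrderAt F s0 := by
      have h4 : deriv F =ᶠ[𝓝 s0] -(G * F) := by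
        refine eventually_of_mem (hop.mem_nhds hs0) fun z hz => ?_
        have := hGF z hz
        show deriv F z = -(G z * F z)
        rw [this, neg_neg]
      rw [analyticOrderAt_congr h4, analyticOrderAt_neg, analyticOrderAt_mul hGa hFa]
    have h5 : analyticOrderAt F s0 = ⊤ := by
      by_contra hne
      obtain ⟨n, hn⟩ := ENat.ne_top_iff_exists.1 hne
      rw [h3, ← hn] at h1
      have h6 : (n : ℕ∞) + 1 ≤ analyticOrderAt G s0 + n + 1 := by
        have : (n : ℕ∞) ≤ analyticOrderAt G s0 + n := le_add_self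
        exact add_le_add_left this 1
      rw [h1] at h6
      have h7 : ((n + 1 : ℕ) : ℕ∞) ≤ (n : ℕ∞) := by exact_mod_cast h6
      have h8 : n + 1 ≤ n := by exact_mod_cast h7
      omega
    have h9 : ∀ᶠ z in 𝓝 s0, F z = 0 := analyticOrderAt_eq_top.1 h5
    have h10 : ∀ s : ℂ, F s = 0 := by
      have hA : AnalyticOnNhd ℂ F Set.univ := fun z _ => hF.analyticAt z
      intro s
      exact hA.eqOn_zero_of_preconnected_of_eventuallyEq_zero isPreconnected_univ (Set.mem_univ s0)
        h9 (Set.mem_univ s)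
    exact hx0 (x0 + 1) (by linarith) (h10 _)
  · intro hne
    refine ⟨fun s => -deriv F s / F s, fun s hs => ((hdF s).neg).div (hF s) (hne s hs), ?_⟩
    have hDd : ∀ s : ℂ, e < s.re → DifferentiableAt ℂ (LSeries (fun n => (lc t w n : ℂ))) s := by
      intro s hs
      have hab : LSeries.abscissaOfAbsConv (fun n => (lc t w n : ℂ)) < s.re := by
        refine lt_of_le_of_lt (b := (e : EReal)) ?_ (by exact_mod_cast hs)
        exact LSeries.abscissaOfAbsConv_le_of_forall_lt_LSeriesSummable fun y hy =>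
          he y (by rw [Complex.ofReal_re]; exact hy)
      exact (LSeries_hasDerivAt hab).differentiableAt
    refine hp_eq (d := max e (b + 1)) (fun s hs => ((hdF s).neg).div (hF s)
      (hne s (by linarith))) hDd fun s hs => ?_
    have h1 := hld s (lt_of_le_of_lt (le_max_right _ _) hs)
    have h2 := hne s (by
      have := lt_of_le_of_lt (le_max_left _ _) hs
      linarith)
    rw [div_eq_iff h2, h1]

end Pool.Agent.N881.GW
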