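import Pool.Agent.N881.GW.X2
import Pool.Agent.W97.TW.Delta
import Pool.Agent.W97.TW.Hecke
import Pool.Agent.H128R3.JD.DelHk
import Pool.Agent.H471R3.GJ.HDir

/-!
# The L-function of the discriminant

The proof that the coefficients of `Δ` are real and satisfy the Hecke relations follows
`Pool.Agent.Y771.NF.Delta`.
-/

set_option autoImplicit false

namespace Pool.Agent.N881.GW.DL

open UpperHalfPlane hiding I
open MatrixGroups CongruenceSubgroup Filter Topology Complex
open Pool.Agent.W97.TW (deltaForm isNewform_delta)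
open Pool.Agent.H128R3.JD.DelK

/-- a real power series that vanishes for `0 < r < 1` is zero -/
theorem coeff_zero_of {c : ℕ → ℝ} (hs : ∀ r : ℝ, 0 < r → r < 1 → HasSum (fun n => c n * r ^ n) 0)
    (n : ℕ) : c n = 0 := by
  induction n using Nat.strong_induction_on with
  | _ n ih =>
    -- the shifted series
    have h1 : ∀ r : ℝ, 0 < r → r < 1 → HasSum (fun j => c (j + n) * r ^ j) 0 := by
      intro r hr hr1
      have h2 := (hasSum_nat_add_iff' n).2 (hs r hr hr1)
      rw [Finset.sum_eq_zero (fun i hi => by rw [ih i (Finset.mem_range.1 hi), zero_mul]), sub_zero] at h2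
      have h3 := h2.mul_right ((r ^ n)⁻¹)
      rw [zero_mul] at h3
      refine h3.congr_fun fun j => ?_
      have : r ^ n ≠ 0 := (pow_pos hr n).ne'
      rw [pow_add]
      field_simp
    have h4 := (h1 (1 / 2) (by norm_num) (by norm_num)).summable.abs
    obtain ⟨M, hM⟩ : ∃ M : ℝ, M = ∑' j, |c (j + n) * (1 / 2) ^ j| := ⟨_, rfl⟩
    have hM0 : 0 ≤ M := by rw [hM]; exact tsum_nonneg fun _ => abs_nonneg _
    have h5 : ∀ r : ℝ, 0 < r → r ≤ 1 / 2 → |c n| ≤ 2 * r * M := by
      intro r hr hr2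
      have h6 := h1 r hr (by linarith)
      have h7 := h6.summable.hasSum.unique h6
      have h8 := h6.summable.tsum_eq_zero_add
      rw [h7, pow_zero, mul_one, zero_add] at h8
      have h9 : c n = -∑' j, c (j + 1 + n) * r ^ (j + 1) := by linarith
      rw [h9, abs_neg]
      have h10 : Summable (fun j => |c (j + 1 + n) * (1 / 2) ^ (j + 1)|) :=
        (summable_nat_add_iff (f := fun j => |c (j + n) * (1 / 2) ^ j|) 1).2 h4
      have h11 : ∀ j : ℕ, |c (j + 1 + n) * r ^ (j + 1)| ≤ 2 * r * |c (j + 1 + n) * (1 / 2) ^ (j + 1)| := by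
        intro j
        rw [abs_mul, abs_mul, abs_pow, abs_pow, abs_of_pos hr, abs_of_pos (by norm_num : (0 : ℝ) < 1 / 2)]
        have h12 : r ^ (j + 1) ≤ 2 * r * (1 / 2) ^ (j + 1) := by
          have h13 : r ^ j ≤ (1 / 2) ^ j := pow_le_pow_left₀ hr.le hr2 j
          calc r ^ (j + 1) = r * r ^ j := by ring
            _ ≤ r * (1 / 2) ^ j := mul_le_mul_of_nonneg_left h13 hr.le
            _ = _ := by ring
        calc _ ≤ |c (j + 1 + n)| * (2 * r * (1 / 2) ^ (j + 1)) := mul_le_mul_of_nonneg_left h12 (abs_nonneg _)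
          _ = _ := by ring
      have h14 : Summable (fun j => 2 * r * |c (j + 1 + n) * (1 / 2) ^ (j + 1)|) := h10.mul_left _
      have h15 : ‖∑' j, c (j + 1 + n) * r ^ (j + 1)‖ ≤ ∑' j, 2 * r * |c (j + 1 + n) * (1 / 2) ^ (j + 1)| :=
        tsum_of_norm_bounded h14.hasSum fun j => by
          rw [Real.norm_eq_abs]
          exact h11 j
      rw [Real.norm_eq_abs] at h15
      refine h15.trans ?_
      rw [tsum_mul_left, hM]
      apply mul_le_mul_of_nonneg_left _ (by linarith)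
      rw [h4.tsum_eq_zero_add]
      have := abs_nonneg (c (0 + n) * (1 / 2) ^ 0)
      linarith
    by_contra hne
    have hpos : 0 < |c n| := abs_pos.2 hne
    have h16 := h5 (min (1 / 2) (|c n| / (4 * (M + 1)))) (by positivity) (min_le_left _ _)
    have h17 : min (1 / 2) (|c n| / (4 * (M + 1))) ≤ |c n| / (4 * (M + 1)) := min_le_right _ _
    have h18 : 2 * min (1 / 2) (|c n| / (4 * (M + 1))) * M ≤ 2 * (|c n| / (4 * (M + 1))) * M := by gcongr
    have h19 : 2 * (|c n| / (4 * (M + 1))) * M ≤ |c n| / 2 := by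
      have h20 : 2 * (|c n| / (4 * (M + 1))) * M = |c n| / 2 * (M / (M + 1)) := by
        field_simp
        ring
      have h21 : M / (M + 1) ≤ 1 := by rw [div_le_one (by linarith)]; linarith
      rw [h20]
      nlinarith
    linarith

theorem delta_real (n : ℕ) : ((qExpansion 1 deltaForm).coeff n).im = 0 := by
  refine coeff_zero_of (c := fun n => ((qExpansion 1 deltaForm).coeff n).im) (fun r hr hr1 => ?_) n
  obtain ⟨y, hy⟩ : ∃ y : ℝ, y = -Real.log r / (2 * Real.pi) := ⟨_, rfl⟩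
  have hpi := Real.pi_pos
  have hlog : Real.log r < 0 := Real.log_neg hr hr1
  have hy0 : 0 < y := by
    rw [hy]
    have : 0 < -Real.log r := by linarith
    positivity
  have hyi : 0 < (Complex.I * (y : ℂ)).im := by simpa using hy0
  have h1 := Pool.Agent.W97.TW.hasSum_f deltaForm hyi
  have h2 := Complex.hasSum_im h1
  have h3 : (deltaForm (ofComplex (Complex.I * y))).im = 0 := by
    have h4 := Pool.Agent.H128R3.JD.DelK.Dl_eq hy0
    have h5 : deltaForm (ofComplex (Complex.I * y)) = ModularForm.discriminant (ofComplex (Complex.I * y)) := rfl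
    rw [h5, ← h4, Complex.ofReal_im]
  rw [h3] at h2
  refine h2.congr_fun fun m => ?_
  have h6 : cexp (2 * Real.pi * Complex.I * m * (Complex.I * y)) = ((r ^ m : ℝ) : ℂ) := by
    have h7 : (2 * Real.pi * Complex.I * m * (Complex.I * y) : ℂ) = ((m * Real.log r : ℝ) : ℂ) := by
      rw [hy]
      push_cast
      have : (Real.pi : ℂ) ≠ 0 := by exact_mod_cast hpi.ne'
      field_simp
      rw [Complex.I_sq]
      ring
    rw [h7, ← Complex.ofReal_exp, mul_comm, Real.exp_mul, Real.exp_log hr, Real.rpow_natCast]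
  rw [h6, Complex.im_mul_ofReal]
  rfl

/-- the recursion -/
theorem delta_rec (p : Nat.Primes) (m : ℕ) (_ : 0 < m) :
    (qExpansion 1 deltaForm).coeff (p * m) = (qExpansion 1 deltaForm).coeff p * (qExpansion 1 deltaForm).coeff m -
      ((p : ℕ) : ℂ) ^ (11 : ℤ) * (if (p : ℕ) ∣ m then (qExpansion 1 deltaForm).coeff (m / p) else 0) := by
  obtain ⟨a, ha⟩ := isNewform_delta.hecke p
  have h1 := Pool.Agent.W97.TW.hecke_rec deltaForm p.2.pos ha
  have hp1 : ¬ (p : ℕ) ∣ 1 := fun hd => p.2.one_lt.ne' (Nat.dvd_one.1 hd)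
  have e : ((12 : ℤ) - 1) = 11 := by norm_num
  have h2 := h1 1
  have h3 := h1 m
  unfold Pool.Agent.W97.TW.B Pool.Agent.W97.TW.A at h2 h3
  rw [if_neg hp1, if_neg hp1, mul_zero, zero_add, mul_one, isNewform_delta.coeff_one, mul_one] at h2
  rw [if_neg hp1, e] at h3
  rw [h2]
  linear_combination h3

/-- Ramanujan's function -/
noncomputable def tau (n : ℕ) : ℝ := ((qExpansion 1 deltaForm).coeff n).re

lemma coeff_tau (n : ℕ) : (qExpansion 1 deltaForm).coeff n = (tau n : ℂ) := by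
  apply Complex.ext
  · rfl
  · rw [Complex.ofReal_im]
    exact delta_real n

lemma tau_zero : tau 0 = 0 := by
  have h : (qExpansion 1 deltaForm).coeff 0 = 0 := Pool.Agent.W97.TW.A_zero deltaForm
  unfold tau
  rw [h, Complex.zero_re]

theorem hecke : HeckeRel tau 11 where
  zero := tau_zero
  one := by
    unfold tau
    rw [isNewform_delta.coeff_one, Complex.one_re]
  mul m n h := by
    have h1 := Pool.Agent.W97.TW.l_mul_coprime
      (fun p => (qExpansion 1 deltaForm).coeff p) (fun p => ((p : ℕ) : ℂ) ^ (11 : ℤ))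
      (fun n => (qExpansion 1 deltaForm).coeff n) (Pool.Agent.W97.TW.A_zero deltaForm)
      isNewform_delta.coeff_one (fun p m hm => delta_rec p m hm) m n h
    simp only [coeff_tau] at h1
    exact_mod_cast h1
  pow p j hp := by
    have h1 := delta_rec ⟨p, hp⟩ (p ^ (j + 1)) (pow_pos hp.pos _)
    have e1 : p * p ^ (j + 1) = p ^ (j + 2) := by ring
    have e2 : p ^ (j + 1) / p = p ^ j := by
      rw [pow_succ, Nat.mul_div_cancel _ hp.pos]
    have e3 : p ∣ p ^ (j + 1) := dvd_pow_self p (by omega)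
    simp only at h1
    rw [e1, if_pos e3, e2] at h1
    simp only [coeff_tau] at h1
    have e4 : ((p : ℂ) ^ (11 : ℤ)) = ((p : ℂ) ^ (11 : ℕ)) := by
      rw [← zpow_natCast]
      rfl
    rw [e4] at h1
    exact_mod_cast h1

theorem tau_sum {y : ℝ} (hy : 0 < y) :
    HasSum (fun n : ℕ => tau n * Real.exp (-(2 * Real.pi * n * y))) (Dl y) := by
  have hyi : 0 < (Complex.I * (y : ℂ)).im := by simpa using hy
  have h1 := Complex.hasSum_re (Pool.Agent.W97.TW.hasSum_f deltaForm hyi)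
  have h4 := Pool.Agent.H128R3.JD.DelK.Dl_eq hy
  have h5 : deltaForm (ofComplex (Complex.I * y)) = ModularForm.discriminant (ofComplex (Complex.I * y)) := rfl
  rw [h5, ← h4, Complex.ofReal_re] at h1
  refine h1.congr_fun fun m => ?_
  have h6 : cexp (2 * Real.pi * Complex.I * m * (Complex.I * y)) =
      ((Real.exp (-(2 * Real.pi * m * y)) : ℝ) : ℂ) := by
    rw [Complex.ofReal_exp]
    congr 1
    push_cast
    ring_nf
    rw [Complex.I_sq]
    ring
  rw [h6, Complex.re_mul_ofReal]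
  rfl

theorem tau_bound : ∃ C : ℝ, 0 ≤ C ∧ ∀ n : ℕ, 1 ≤ n → |tau n| ≤ C * (n : ℝ) ^ (6 : ℝ) := by
  obtain ⟨C, hC⟩ := Pool.Agent.W97.TW.A_bound deltaForm
  refine ⟨|C|, abs_nonneg C, fun n hn => ?_⟩
  have h1 := hC n hn
  have h2 : Pool.Agent.W97.TW.A deltaForm n = (tau n : ℂ) := coeff_tau n
  rw [h2, Complex.norm_real, Real.norm_eq_abs] at h1
  have h3 : (((12 : ℤ) : ℝ) / 2) = 6 := by norm_num
  rw [h3] at h1
  exact h1.trans (mul_le_mul_of_nonneg_right (le_abs_self C) (by positivity))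

/-- the completed L-function -/
noncomputable def Lam (s : ℂ) : ℂ := mellin (fun y : ℝ => ((Dl y : ℝ) : ℂ)) s

lemma feq (x : ℝ) (hx : 0 < x) : ((Dl (1 / x) : ℝ) : ℂ) = (1 * ((x ^ (12 : ℝ) : ℝ) : ℂ)) • ((Dl x : ℝ) : ℂ) := by
  rw [one_div, Dl_inv hx, one_mul, smul_eq_mul, ← Complex.ofReal_mul]
  congr 2
  rw [← Real.rpow_natCast]
  norm_num

lemma top (r : ℝ) : (fun y : ℝ => ((Dl y : ℝ) : ℂ) - 0) =O[atTop] (fun y : ℝ => y ^ r) := by
  have h1 : (fun y : ℝ => ((Dl y : ℝ) : ℂ) - 0) =O[atTop] (fun y : ℝ => Real.exp (-(1 : ℝ) * y)) := by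
    refine Asymptotics.IsBigO.of_bound 1 ?_
    filter_upwards [eventually_gt_atTop (0 : ℝ)] with y hy
    rw [sub_zero, Complex.norm_real, Real.norm_eq_abs, abs_of_pos (Dl_pos hy), one_mul,
      Real.norm_eq_abs, abs_of_pos (Real.exp_pos _)]
    refine (Dl_le hy).trans (Real.exp_le_exp.2 ?_)
    have := Real.pi_gt_three
    nlinarith
  exact h1.trans (isLittleO_exp_neg_mul_rpow_atTop one_pos r).isBigO

lemma locint : MeasureTheory.LocallyIntegrableOn (fun y : ℝ => ((Dl y : ℝ) : ℂ)) (Set.Ioi 0) := by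
  apply ContinuousOn.locallyIntegrableOn _ measurableSet_Ioi
  exact Complex.continuous_ofReal.comp_continuousOn Dl_cont

/-- the pair -/
noncomputable def P : WeakFEPair ℂ where
  f := fun y : ℝ => ((Dl y : ℝ) : ℂ)
  g := fun y : ℝ => ((Dl y : ℝ) : ℂ)
  k := 12
  ε := 1
  f₀ := 0
  g₀ := 0
  hf_int := locint
  hg_int := locint
  hk := by norm_num
  hε := one_ne_zero
  h_feq := fun x hx => feq x hx
  hf_top := top
  hg_top := top

lemma hP : IsStrongFEPair P := ⟨rfl, rfl⟩

theorem Lam_diff : Differentiable ℂ Lam := by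
  have h := hP.differentiable_Λ
  rw [hP.Λ_eq] at h
  exact h

theorem Lam_fe (s : ℂ) : Lam (12 - s) = Lam s := by
  have h := P.functional_equation s
  rw [hP.Λ_eq, hP.symm_Λ_eq] at h
  have e : ((P.k : ℝ) : ℂ) = 12 := by
    show (((12 : ℝ)) : ℂ) = 12
    norm_num
  rw [e] at h
  have h2 : P.ε = 1 := rfl
  rw [h2, one_smul] at h
  exact h

theorem Lam_conv (s : ℂ) : MellinConvergent (fun y : ℝ => ((Dl y : ℝ) : ℂ)) s := (hP.hasMellin s).1

theorem Lam_pos (x : ℝ) : Lam x ≠ 0 := by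
  have h1 : Lam x = ((∫ y in Set.Ioi (0 : ℝ), y ^ (x - 1) * Dl y : ℝ) : ℂ) := by
    unfold Lam mellin
    rw [← integral_complex_ofReal]
    refine MeasureTheory.setIntegral_congr_fun measurableSet_Ioi fun y (hy : 0 < y) => ?_
    simp only
    rw [smul_eq_mul, Complex.ofReal_mul, Complex.ofReal_cpow hy.le]
    push_cast
    rfl
  have h2 : MeasureTheory.IntegrableOn (fun y : ℝ => y ^ (x - 1) * Dl y) (Set.Ioi 0) := by
    have h3 := (Lam_conv x).re
    refine MeasureTheory.IntegrableOn.congr_fun h3 (fun y (hy : 0 < y) => ?_) measurableSet_Ioi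
    show (((y : ℂ) ^ ((x : ℂ) - 1) • ((Dl y : ℝ) : ℂ))).re = _
    rw [smul_eq_mul, Complex.re_mul_ofReal]
    congr 1
    have : ((y : ℂ) ^ ((x : ℂ) - 1)) = ((y ^ (x - 1) : ℝ) : ℂ) := by
      rw [Complex.ofReal_cpow hy.le]
      push_cast
      rfl
    rw [this, Complex.ofReal_re]
  rw [h1]
  have h4 : 0 < ∫ y in Set.Ioi (0 : ℝ), y ^ (x - 1) * Dl y := by
    rw [MeasureTheory.setIntegral_pos_iff_support_of_nonneg_ae _ h2]
    · have h5 : (Function.support fun y : ℝ => y ^ (x - 1) * Dl y) ∩ Set.Ioi 0 = Set.Ioi 0 := by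
        apply Set.inter_eq_right.2
        intro y (hy : 0 < y)
        exact (mul_pos (Real.rpow_pos_of_pos hy _) (Dl_pos hy)).ne'
      rw [h5]
      simp
    · refine (MeasureTheory.ae_restrict_iff' measurableSet_Ioi).2 (Eventually.of_forall fun y hy => ?_)
      exact (mul_pos (Real.rpow_pos_of_pos hy _) (Dl_pos hy)).le
  exact_mod_cast h4.ne'

/-- The Dirichlet series. -/
theorem Lam_ser {s : ℂ} (hs : 7 < s.re) :
    Lam s = ((1 / (2 * Real.pi) : ℝ) : ℂ) ^ s * Complex.Gamma s *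
      LSeries (fun n => (tau n : ℂ)) s := by
  obtain ⟨B, hB⟩ := Pool.Agent.H128R3.JD.DelHk.isHk
  have h1 := Pool.Agent.H471R3.GJ.dir _ hB s (by linarith) (by
    show (6 : ℝ) + 1 < ((1 : ℕ) : ℝ) * s.re
    rw [Nat.cast_one, one_mul]
    linarith)
  have h2 : Lam s = mellin (fun y : ℝ => (((Pool.Agent.H128R3.JD.DelHk.hk B).φ y : ℝ) : ℂ)) s := rfl
  rw [h2, h1]
  show ((1 / (2 * Real.pi) : ℝ) : ℂ) ^ s * Complex.Gamma s *
    ∑' m : ℕ, ((((qExpansion 1 (CuspForm.discriminant : ℍ → ℂ)).coeff (m + 1)).re : ℝ) : ℂ) *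
      ((m + 1 : ℕ) : ℂ) ^ (-((1 : ℕ) : ℂ) * s) = _
  congr 1
  obtain ⟨C, hC, hCt⟩ := tau_bound
  have hsum := (t_summable hCt (s := s) (by linarith))
  unfold LSeries
  rw [hsum.tsum_eq_zero_add, LSeries.term_zero, zero_add]
  refine tsum_congr fun m => ?_
  rw [LSeries.term_of_ne_zero (by omega)]
  have e1 : ((qExpansion 1 (CuspForm.discriminant : ℍ → ℂ)).coeff (m + 1)).re = tau (m + 1) := rfl
  rw [e1, Nat.cast_one, neg_mul, one_mul, Complex.cpow_neg, div_eq_mul_inv]

end Pool.Agent.N881.GW.DL
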