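import Pool.Agent.N881.GW.X3
import Pool.Agent.N881.GW.X4

/-!
# The L-function of the discriminant: zero-free half-planes and Gaussian averages
-/

set_option autoImplicit false

namespace Pool.Agent.N881.GW.DL

open Filter Topology Complex

/-- `L(s, Δ)` as an entire function -/
noncomputable def F (s : ℂ) : ℂ := (2 * Real.pi : ℂ) ^ s * Lam s * (Complex.Gamma s)⁻¹

lemma two_pi_ne : (2 * Real.pi : ℂ) ≠ 0 := by
  have := Real.pi_ne_zero
  exact mul_ne_zero two_ne_zero (by exact_mod_cast this)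

lemma F_diff : Differentiable ℂ F := by
  unfold F
  have h1 : Differentiable ℂ fun s : ℂ => (2 * Real.pi : ℂ) ^ s := fun s =>
    (hasDerivAt_id s).const_cpow (Or.inl two_pi_ne) |>.differentiableAt
  exact (h1.mul Lam_diff).mul Complex.differentiable_one_div_Gamma

lemma F_ser (s : ℂ) (hs : (6 : ℝ) + 1 < s.re) : F s = LSeries (fun n => (tau n : ℂ)) s := by
  have h7 : 7 < s.re := by linarith
  unfold F
  rw [Lam_ser h7]
  have hG : Complex.Gamma s ≠ 0 := Complex.Gamma_ne_zero_of_re_pos (by linarith)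
  have h1 : (2 * Real.pi : ℂ) ^ s * ((1 / (2 * Real.pi) : ℝ) : ℂ) ^ s = 1 := by
    have h2 : ((1 / (2 * Real.pi) : ℝ) : ℂ) = (((2 * Real.pi : ℝ)⁻¹ : ℝ) : ℂ) := by rw [one_div]
    rw [h2, show (2 * Real.pi : ℂ) = ((2 * Real.pi : ℝ) : ℂ) by push_cast; rfl,
      ← Complex.mul_cpow_ofReal_nonneg (by positivity) (by positivity), ← Complex.ofReal_mul,
      mul_inv_cancel₀ (by positivity), Complex.ofReal_one, Complex.one_cpow]
  calc (2 * Real.pi : ℂ) ^ s * (((1 / (2 * Real.pi) : ℝ) : ℂ) ^ s * Complex.Gamma s *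
        LSeries (fun n => (tau n : ℂ)) s) * (Complex.Gamma s)⁻¹
      = ((2 * Real.pi : ℂ) ^ s * ((1 / (2 * Real.pi) : ℝ) : ℂ) ^ s) *
          (Complex.Gamma s * (Complex.Gamma s)⁻¹) * LSeries (fun n => (tau n : ℂ)) s := by ring
    _ = _ := by rw [h1, mul_inv_cancel₀ hG, one_mul, one_mul]

lemma F_ne_iff {s : ℂ} (hs : 0 < s.re) : F s ≠ 0 ↔ Lam s ≠ 0 := by
  unfold F
  have hG : (Complex.Gamma s)⁻¹ ≠ 0 := inv_ne_zero (Complex.Gamma_ne_zero_of_re_pos hs)
  have hc : (2 * Real.pi : ℂ) ^ s ≠ 0 := by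
    rw [Ne, Complex.cpow_eq_zero_iff]
    exact fun h => two_pi_ne h.1
  constructor
  · intro h h0
    exact h (by rw [h0, mul_zero, zero_mul])
  · intro h
    exact mul_ne_zero (mul_ne_zero hc h) hG

/-- the coefficients of `-L'/L` -/
noncomputable def cc (n : ℕ) : ℝ := lc tau 11 n

theorem cc_seven (s : ℂ) (hs : 7 < s.re) : LSeriesSummable (fun n => (cc n : ℂ)) s := by
  obtain ⟨C, hC, ht⟩ := tau_bound
  exact lc_summable hecke hC (b := 6) (by norm_num) (by norm_num) ht (by linarith)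

/-- zero-free half-planes and the continuation of `-L'/L` -/
theorem cont_iff {e : ℝ} (he : ∀ s : ℂ, e < s.re → LSeriesSummable (fun n => (cc n : ℂ)) s)
    {δ : ℝ} (hδ : 0 < δ) (hδe : δ < e) :
    (∃ G : ℂ → ℂ, (∀ s : ℂ, e - δ < s.re → DifferentiableAt ℂ G s) ∧
        ∀ s : ℂ, e < s.re → G s = LSeries (fun n => (cc n : ℂ)) s) ↔
      ∀ s : ℂ, e - δ < s.re → Lam s ≠ 0 := by
  obtain ⟨C, hC, ht⟩ := tau_bound
  refine Iff.trans (zf_iff hecke hC (b := 6) (by norm_num) (by norm_num) ht F_diff F_ser (x0 := 0)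
    (fun x hx => (F_ne_iff (by simpa using hx)).2 (Lam_pos x)) he hδ) ?_
  exact forall_congr' fun s => forall_congr' fun hs => F_ne_iff (by linarith)

/-- `-L'/L` has no singularity on the positive real axis -/
theorem real_axis {e : ℝ} (he : ∀ s : ℂ, e < s.re → LSeriesSummable (fun n => (cc n : ℂ)) s)
    (he0 : 0 < e) :
    ∃ G : ℂ → ℂ, (∀ x : ℝ, 0 < x → AnalyticAt ℂ G x) ∧
      ∀ x : ℝ, e < x → G x = LSeries (fun n => (cc n : ℂ)) x := by
  obtain ⟨C, hC, ht⟩ := tau_bound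
  have hx : ∀ x : ℝ, 0 < x → F x ≠ 0 := fun x hx =>
    (F_ne_iff (by simpa using hx)).2 (Lam_pos x)
  refine ⟨fun s => -deriv F s / F s, fun x hx0 => ?_, fun x hxe => ?_⟩
  · exact ((F_diff.analyticAt _).deriv.neg).div (F_diff.analyticAt _) (hx x hx0)
  · -- on `Re s > e` the function `F` has no zeros: apply the criterion with a small `δ`
    set L := LSeries (fun n => (cc n : ℂ)) with hL
    have hDd : ∀ s : ℂ, e < s.re → DifferentiableAt ℂ L s := by
      intro s hs
      have hab : LSeries.abscissaOfAbsConv (fun n => (cc n : ℂ)) < s.re := by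
        refine lt_of_le_of_lt (b := (e : EReal)) ?_ (by exact_mod_cast hs)
        exact LSeries.abscissaOfAbsConv_le_of_forall_lt_LSeriesSummable fun y hy =>
          he y (by rw [Complex.ofReal_re]; exact hy)
      exact (LSeries_hasDerivAt hab).differentiableAt
    have hder : ∀ s : ℂ, (6 : ℝ) + 1 < s.re →
        deriv F s = deriv (LSeries (fun n => (tau n : ℂ))) s := by
      intro s hs
      have hop : IsOpen {s : ℂ | (6 : ℝ) + 1 < s.re} :=
        isOpen_lt continuous_const Complex.continuous_re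
      exact Filter.EventuallyEq.deriv_eq
        (eventually_of_mem (hop.mem_nhds hs) fun z hz => F_ser z hz)
    have hmul : ∀ s : ℂ, e < s.re → L s * F s = -deriv F s := by
      refine hp_eq (d := max e 7) (fun s hs => (hDd s hs).mul (F_diff s))
        (fun s _ => ((F_diff.analyticAt s).deriv.differentiableAt).neg) fun s hs => ?_
      have h7 : (6 : ℝ) + 1 < s.re := by
        have := lt_of_le_of_lt (le_max_right _ _) hs
        linarith
      rw [hder s h7, F_ser s h7]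
      exact lc_ld hecke hC (b := 6) (by norm_num) (by norm_num) ht h7
    have h1 := hmul x (by simpa using hxe)
    show -deriv F x / F x = L x
    rw [div_eq_iff (hx x (by linarith)), h1]

/-- zeros to the right of `6 + β` -/
theorem strip_iff {β : ℝ} : (∀ z : ℂ, Lam (6 + I * z) = 0 → |z.im| ≤ β) ↔
    ∀ s : ℂ, 6 + β < s.re → Lam s ≠ 0 := by
  constructor
  · intro h s hs h0
    have h1 := h (-I * (s - 6)) (by
      have : 6 + I * (-I * (s - 6)) = s := by
        linear_combination -(s - 6) * Complex.I_sq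
      rw [this, h0])
    have h2 : (-I * (s - 6)).im = -(s.re - 6) := by simp
    rw [h2, abs_neg] at h1
    have := le_abs_self (s.re - 6)
    linarith
  · intro h z hz
    by_contra hcon
    push Not at hcon
    rcases lt_abs.1 hcon with h1 | h1
    · have h2 : 12 - (6 + I * z) = 6 - I * z := by ring
      have h3 := Lam_fe (6 + I * z)
      rw [h2, hz] at h3
      exact h (6 - I * z) (by simp; linarith) h3
    · exact h (6 + I * z) (by simp; linarith) hz

/-- **The criterion.** -/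
theorem crit {e : ℝ} (he6 : 6 < e)
    (he : ∀ s : ℂ, e < s.re → LSeriesSummable (fun n => (cc n : ℂ)) s) {δ : ℝ} (hδ : 0 < δ)
    (hδe : δ < e) :
    List.TFAE [
      ∀ s : ℂ, e - δ < s.re → Lam s ≠ 0,
      ∀ κ : ℝ, 0 < κ → κ < δ → ∀ A : ℝ, κ ≤ 2 * A → ∃ C : ℝ, ∀ x : ℝ, 2 ≤ x →
        |rwin cc e A x| ≤ C * x ^ (-(κ - κ ^ 2 / (4 * A))),
      ∀ κ : ℝ, 0 < κ → κ < δ → ∃ A0 : ℝ, ∀ A : ℝ, A0 ≤ A → ∃ C : ℝ, ∀ x : ℝ,
        2 ≤ x → |rwin cc e A x| ≤ C * x ^ (-κ),
      ∀ κ : ℝ, 0 < κ → κ < δ → ∀ A0 : ℝ, ∃ A : ℝ, A0 ≤ A ∧ ∃ C X : ℝ, ∀ x : ℝ,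
        X ≤ x → -(C * x ^ (-κ)) ≤ rwin cc e A x,
      ∀ κ : ℝ, 0 < κ → κ < δ → ∀ A0 : ℝ, ∃ A : ℝ, A0 ≤ A ∧ ∃ C X : ℝ, ∀ x : ℝ,
        X ≤ x → rwin cc e A x ≤ C * x ^ (-κ)] := by
  have he0 : e ≠ 0 := by linarith
  have hsum : ∀ s : ℂ, e < s.re → LSeriesHasSum (fun n => (cc n : ℂ)) s
      (LSeries (fun n => (cc n : ℂ)) s) := fun s hs => (he s hs).LSeriesHasSum
  have hS : ∀ b ∈ ({δ} : Set ℝ), 0 < b := by
    intro b hb
    rw [Set.mem_singleton_iff] at hb
    rw [hb]
    exact hδ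
  have hsing : ∀ {κ : ℝ}, (∃ b ∈ ({δ} : Set ℝ), κ < b) ↔ κ < δ := fun {κ} => by simp
  have hsing2 : ∀ {y : ℝ}, (∃ b ∈ ({δ} : Set ℝ), e - b < y) ↔ e - δ < y := fun {κ} => by simp
  have hC := cont_iff he hδ hδe
  obtain ⟨G, hG1, hG2⟩ := real_axis he (by linarith)
  have k1 := ds_one he0 hsum hS
  have k2 := ds_one_sided he0 hsum hS (F0 := G) (fun x hx => by
    rw [hsing2] at hx
    exact hG1 x (by linarith)) hG2
  -- the other sign
  have hsumn : ∀ s : ℂ, e < s.re → LSeriesHasSum (fun n => ((-cc n : ℝ) : ℂ)) s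
      (-LSeries (fun n => (cc n : ℂ)) s) := by
    intro s hs
    have h1 := (hsum s hs).neg
    refine (LSeriesHasSum_congr s _ ?_).1 h1
    intro n _
    simp
  have k3 := ds_one_sided (a := fun n => -cc n) (L := fun s => -LSeries (fun n => (cc n : ℂ)) s)
    he0 hsumn hS (F0 := fun z => -G z) (fun x hx => by
      rw [hsing2] at hx
      exact (hG1 x (by linarith)).neg) (fun x hx => by simp only [hG2 x hx])
  have hneg : ∀ A x, rwin (fun n => -cc n) e A x = -rwin cc e A x := by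
    intro A x
    unfold rwin
    have h1 : ∀ n : ℕ, -cc n * (n : ℝ) ^ (-e) *
        Real.exp (-(A * (Real.log n - Real.log x) ^ 2 / Real.log x)) =
        -(cc n * (n : ℝ) ^ (-e) *
          Real.exp (-(A * (Real.log n - Real.log x) ^ 2 / Real.log x))) := fun n => by ring
    rw [tsum_congr h1, tsum_neg]
    ring
  simp only [hsing, hsing2] at k1 k2 k3
  rw [hC] at k1 k2
  have hC3 : (∃ G : ℂ → ℂ, (∀ s : ℂ, e - δ < s.re → DifferentiableAt ℂ G s) ∧
        ∀ s : ℂ, e < s.re → G s = -LSeries (fun n => (cc n : ℂ)) s) ↔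
      ∀ s : ℂ, e - δ < s.re → Lam s ≠ 0 := by
    rw [← hC]
    constructor
    · rintro ⟨H, h1, h2⟩
      exact ⟨fun s => -H s, fun s hs => (h1 s hs).neg, fun s hs => by
        simp only [h2 s hs, neg_neg]⟩
    · rintro ⟨H, h1, h2⟩
      exact ⟨fun s => -H s, fun s hs => (h1 s hs).neg, fun s hs => by simp only [h2 s hs]⟩
  rw [hC3] at k3
  simp only [hneg] at k3
  have h12 := k1.out 0 1
  have h13 := k1.out 0 2
  tfae_have 1 ↔ 2 := h12
  tfae_have 1 ↔ 3 := h13
  tfae_have 1 ↔ 4 := k2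
  tfae_have 1 ↔ 5 := by
    rw [k3]
    refine forall_congr' fun κ => forall_congr' fun _ => forall_congr' fun _ =>
      forall_congr' fun A0 => exists_congr fun A => and_congr_right fun _ => exists_congr fun C =>
      exists_congr fun X => forall_congr' fun x => forall_congr' fun _ => ?_
    constructor <;> intro h <;> linarith
  tfae_finish

end Pool.Agent.N881.GW.DL
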