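import Pool.Agent.N881.GW.X5

/-!
# The completed L-function of the discriminant has a zero; oscillation
-/

set_option autoImplicit false

namespace Pool.Agent.N881.GW.DL

open Filter Topology Complex Metric
open Pool.Agent.H128R3.JD.DelK

/-- an even zero-free entire function of order less than two is constant -/
theorem even_const {g : ℂ → ℂ} (hg : Differentiable ℂ g) (hne : ∀ z, g z ≠ 0)
    (hev : ∀ z, g (-z) = g z) {M : ℕ → ℝ} (hM : ∀ n : ℕ, ∀ z : ℂ, ‖z‖ ≤ n → ‖g z‖ ≤ Real.exp (M n))
    (hlim : Tendsto (fun n : ℕ => M n / (n : ℝ) ^ 2) atTop (𝓝 0)) (z : ℂ) : g z = g 0 := by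
  have hdg : Differentiable ℂ (deriv g) := fun z => (hg.analyticAt z).deriv.differentiableAt
  set G : ℂ → ℂ := fun z => deriv g z / g z with hG
  have hGd : Differentiable ℂ G := fun z => (hdg z).div (hg z) (hne z)
  have key : ∀ (n : ℕ) (z1 : ℂ), 0 < n → ‖z1‖ ≤ n / 4 →
      ‖deriv G z1‖ ≤ 64 * (|M n| + |Real.log ‖g 0‖| + 1) / (n : ℝ) ^ 2 := by
    intro n z1 hn hz1
    have hn0 : (0 : ℝ) < n := by exact_mod_cast hn
    set M' : ℝ := |M n| + |Real.log ‖g 0‖| + 1 with hM'
    have hM'0 : 0 < M' := by positivity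
    obtain ⟨P, hP⟩ := (hGd.differentiableOn (s := ball (0 : ℂ) n)).isExactOn_ball
    set h : ℂ → ℂ := fun z => P z - P 0 with hh
    have hhd : ∀ z ∈ ball (0 : ℂ) n, HasDerivAt h (G z) z := fun z hz => (hP z hz).sub_const _
    have hexp : ∀ z ∈ ball (0 : ℂ) n, g z = g 0 * cexp (h z) := by
      intro z hz
      have hφ : ∀ w ∈ ball (0 : ℂ) n, HasDerivWithinAt (fun w => g w * cexp (-h w)) 0
          (ball (0 : ℂ) n) w := by
        intro w hw
        have h1 := ((hg w).hasDerivAt).mul ((hhd w hw).neg.cexp)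
        have e1 : deriv g w * cexp (-h w) + g w * (cexp (-h w) * -G w) = 0 := by
          rw [hG]
          have := hne w
          field_simp
          ring
        have e2 : HasDerivAt (fun w => g w * cexp (-h w)) 0 w := by
          rw [← e1]
          exact h1
        exact e2.hasDerivWithinAt
      have h2 := (convex_ball (0 : ℂ) n).norm_image_sub_le_of_norm_hasDerivWithin_le
        (f := fun w => g w * cexp (-h w)) (f' := fun _ => 0) (C := 0) hφ (fun _ _ => by simp)
        (mem_ball_self hn0) hz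
      rw [zero_mul] at h2
      have h3 := sub_eq_zero.1 (norm_le_zero_iff.1 h2)
      have h4 : h 0 = 0 := by rw [hh]; simp
      rw [h4, neg_zero, Complex.exp_zero, mul_one] at h3
      rw [← h3, mul_assoc, ← Complex.exp_add, neg_add_cancel, Complex.exp_zero, mul_one]
    have hre : Set.MapsTo h (ball (0 : ℂ) n) {z | z.re ≤ M'} := by
      intro z hz
      have h1 := hexp z hz
      have h2 : ‖g z‖ = ‖g 0‖ * Real.exp (h z).re := by rw [h1, norm_mul, Complex.norm_exp]
      have h3 := hM n z (le_of_lt (by simpa using hz))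
      have h0 : 0 < ‖g 0‖ := norm_pos_iff.2 (hne 0)
      rw [h2] at h3
      have h4 : Real.log (‖g 0‖ * Real.exp (h z).re) ≤ M n := by
        have := Real.log_le_log (by positivity) h3
        rwa [Real.log_exp] at this
      rw [Real.log_mul h0.ne' (Real.exp_pos _).ne', Real.log_exp] at h4
      show (h z).re ≤ M'
      have := le_abs_self (M n)
      have := neg_abs_le (Real.log ‖g 0‖)
      linarith
    have hbc : ∀ z : ℂ, ‖z‖ ≤ n / 2 → ‖h z‖ ≤ 2 * M' := by
      intro z hz
      have hzb : z ∈ ball (0 : ℂ) n := by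
        rw [mem_ball_zero_iff]
        linarith
      have h1 := Complex.borelCaratheodory_zero hM'0
        (fun w hw => (hhd w hw).differentiableAt.differentiableWithinAt) hre hn0 hzb
        (by rw [hh]; simp)
      refine h1.trans ?_
      rw [div_le_iff₀ (by linarith [norm_nonneg z])]
      nlinarith [norm_nonneg z]
    have hsub : ∀ w : ℂ, w ∈ closedBall z1 ((n : ℝ) / 4) → ‖w‖ ≤ n / 2 := by
      intro w hw
      rw [mem_closedBall, dist_eq_norm] at hw
      have : ‖w‖ ≤ ‖w - z1‖ + ‖z1‖ := norm_le_norm_sub_add w z1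
      linarith
    have hdiff : DifferentiableOn ℂ h (closedBall z1 ((n : ℝ) / 4)) := by
      intro w hw
      have hwb : w ∈ ball (0 : ℂ) n := by
        rw [mem_ball_zero_iff]
        have := hsub w hw
        linarith
      exact (hhd w hwb).differentiableAt.differentiableWithinAt
    have hca := Complex.norm_iteratedDeriv_le_of_forall_mem_sphere_norm_le 2
      (show (0 : ℝ) < n / 4 by positivity) (hdiff.diffContOnCl_ball subset_rfl)
      (fun w hw => hbc w (hsub w (sphere_subset_closedBall hw)))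
    have e1 : iteratedDeriv 2 h z1 = deriv G z1 := by
      rw [iteratedDeriv_succ, iteratedDeriv_one]
      have hz1b : z1 ∈ ball (0 : ℂ) n := by
        rw [mem_ball_zero_iff]
        linarith
      refine Filter.EventuallyEq.deriv_eq ?_
      exact eventually_of_mem (isOpen_ball.mem_nhds hz1b) fun w hw => (hhd w hw).deriv
    rw [e1] at hca
    refine hca.trans (le_of_eq ?_)
    have : (Nat.factorial 2 : ℝ) = 2 := by norm_num [Nat.factorial]
    rw [this]
    field_simp
    ring
  have hG' : ∀ z1 : ℂ, deriv G z1 = 0 := by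
    intro z1
    have hlim2 : Tendsto (fun n : ℕ => 64 * (|M n| + |Real.log ‖g 0‖| + 1) / (n : ℝ) ^ 2) atTop
        (𝓝 0) := by
      have h1 : Tendsto (fun n : ℕ => |M n / (n : ℝ) ^ 2|) atTop (𝓝 0) := by
        simpa using hlim.abs
      have h2 : Tendsto (fun n : ℕ => (|Real.log ‖g 0‖| + 1) / (n : ℝ) ^ 2) atTop (𝓝 0) := by
        refine Tendsto.div_atTop tendsto_const_nhds ?_
        exact (tendsto_pow_atTop (two_ne_zero)).comp tendsto_natCast_atTop_atTop
      have h3 := (h1.add h2).const_mul 64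
      rw [add_zero, mul_zero] at h3
      refine h3.congr' ?_
      filter_upwards [eventually_gt_atTop 0] with n hn
      have hn0 : (0 : ℝ) < n := by exact_mod_cast hn
      rw [abs_div, abs_of_pos (show (0 : ℝ) < (n : ℝ) ^ 2 by positivity)]
      ring
    have h4 : ‖deriv G z1‖ ≤ 0 := by
      refine ge_of_tendsto hlim2 ?_
      have h5 := (tendsto_natCast_atTop_atTop (R := ℝ)).eventually_ge_atTop (4 * ‖z1‖)
      filter_upwards [eventually_gt_atTop 0, h5] with n hn h6
      exact key n z1 hn (by linarith)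
    exact norm_le_zero_iff.1 h4
  have hconst : ∀ w, G w = G 0 := fun w => is_const_of_deriv_eq_zero hGd hG' w 0
  have hG0 : G 0 = 0 := by
    have h1 : deriv g 0 = 0 := by
      have h2 : HasDerivAt (fun z => g (-z)) (-(deriv g 0)) 0 := by
        have h3 : HasDerivAt g (deriv g 0) (-(0 : ℂ)) := by
          rw [neg_zero]
          exact (hg 0).hasDerivAt
        have h4 := h3.scomp (0 : ℂ) (hasDerivAt_neg (0 : ℂ))
        simpa [Function.comp_def] using h4
      have h5 : (fun z => g (-z)) = g := funext hev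
      rw [h5] at h2
      have h6 := h2.unique (hg 0).hasDerivAt
      have h7 : (2 : ℂ) * deriv g 0 = 0 := by linear_combination -h6
      rcases mul_eq_zero.1 h7 with h8 | h8
      · norm_num at h8
      · exact h8
    rw [hG]
    simp only
    rw [h1, zero_div]
  have hdg0 : ∀ w, deriv g w = 0 := by
    intro w
    have h1 := hconst w
    rw [hG0, hG] at h1
    simp only at h1
    rcases div_eq_zero_iff.1 h1 with h2 | h2
    · exact h2
    · exact absurd h2 (hne w)
  exact is_const_of_deriv_eq_zero hg hdg0 z 0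

/-- growth of the completed L-function -/
lemma Lam_le {s : ℂ} {n : ℕ} (h6 : 6 ≤ s.re) (hn : s.re ≤ 6 + n) :
    ‖Lam s‖ ≤ Real.exp ((n + 5) * Real.log (n + 5)) := by
  have hs0 : 0 < s.re := by linarith
  have h1 : ‖Lam s‖ ≤ Real.Gamma s.re := by
    unfold Lam mellin
    rw [Real.Gamma_eq_integral hs0]
    refine (MeasureTheory.norm_integral_le_integral_norm _).trans ?_
    refine MeasureTheory.setIntegral_mono_on ?_ (Real.GammaIntegral_convergent hs0) measurableSet_Ioi
      fun y (hy : 0 < y) => ?_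
    · exact (Lam_conv s).norm
    · rw [norm_smul, Complex.norm_cpow_eq_rpow_re_of_pos hy, Complex.norm_real, Real.norm_eq_abs,
        abs_of_pos (Dl_pos hy), mul_comm, Complex.sub_re, Complex.one_re]
      refine mul_le_mul_of_nonneg_right ((Dl_le hy).trans (Real.exp_le_exp.2 ?_))
        (Real.rpow_nonneg hy.le _)
      have := Real.pi_gt_three
      nlinarith
  have h2 : Real.Gamma s.re ≤ Real.Gamma (((n + 5 : ℕ) : ℝ) + 1) := by
    apply Real.Gamma_strictMonoOn_Ici.monotoneOn
    · show (2 : ℝ) ≤ s.re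
      linarith
    · show (2 : ℝ) ≤ _
      push_cast
      have : (0 : ℝ) ≤ n := Nat.cast_nonneg n
      linarith
    · push_cast
      linarith
  rw [Real.Gamma_nat_eq_factorial] at h2
  have h3 : (((n + 5).factorial : ℕ) : ℝ) ≤ ((n + 5 : ℕ) : ℝ) ^ (n + 5) := by
    exact_mod_cast Nat.factorial_le_pow (n + 5)
  have h5 : (0 : ℝ) < ((n + 5 : ℕ) : ℝ) := by positivity
  have h4 : ((n + 5 : ℕ) : ℝ) ^ (n + 5) = Real.exp ((n + 5) * Real.log (n + 5)) := by
    rw [← Real.rpow_natCast, Real.rpow_def_of_pos h5]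
    push_cast
    rw [mul_comm]
  rw [h4] at h3
  exact h1.trans (h2.trans h3)

theorem exists_zero : ∃ s : ℂ, Lam s = 0 := by
  by_contra hcon
  push Not at hcon
  set g : ℂ → ℂ := fun z => Lam (6 + z) with hg
  have hgd : Differentiable ℂ g := fun z => (Lam_diff _).comp z ((differentiableAt_id).const_add 6)
  have hev : ∀ z, g (-z) = g z := by
    intro z
    rw [hg]
    simp only
    have := Lam_fe (6 + z)
    rw [← this]
    congr 1
    ring
  have hM : ∀ n : ℕ, ∀ z : ℂ, ‖z‖ ≤ n → ‖g z‖ ≤ Real.exp ((fun n : ℕ => ((n : ℝ) + 5) * Real.log (n + 5)) n) := by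
    intro n z hz
    have hre := (Complex.abs_re_le_norm z).trans hz
    rcases le_total 0 z.re with h | h
    · exact Lam_le (s := 6 + z) (by simp; linarith) (by
        simp
        exact (le_abs_self _).trans hre)
    · rw [← hev z]
      exact Lam_le (s := 6 + -z) (by simp; linarith) (by
        simp
        have := neg_abs_le z.re
        linarith)
  have hlim : Tendsto (fun n : ℕ => (fun n : ℕ => ((n : ℝ) + 5) * Real.log (n + 5)) n / (n : ℝ) ^ 2)
      atTop (𝓝 0) := by
    have h1 : Tendsto (fun x : ℝ => Real.log x / x) atTop (𝓝 0) :=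
      Real.isLittleO_log_id_atTop.tendsto_div_nhds_zero
    have h2 : Tendsto (fun n : ℕ => (n : ℝ) + 5) atTop atTop :=
      tendsto_atTop_add_const_right _ _ tendsto_natCast_atTop_atTop
    have h3 := h1.comp h2
    have h4 : Tendsto (fun n : ℕ => (5 : ℝ) / n) atTop (𝓝 0) :=
      tendsto_const_nhds.div_atTop tendsto_natCast_atTop_atTop
    have h5 := ((tendsto_const_nhds (x := (1 : ℝ))).add h4).pow 2
    rw [add_zero, one_pow] at h5
    have h6 := h3.mul h5
    rw [zero_mul] at h6
    refine h6.congr' ?_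
    filter_upwards [eventually_gt_atTop 0] with n hn
    have hn0 : (0 : ℝ) < n := by exact_mod_cast hn
    simp only [Function.comp]
    field_simp
  have hc := even_const hgd (fun z => hcon _) hev hM hlim
  have hL : ∀ s : ℂ, Lam s = Lam 6 := by
    intro s
    have := hc (s - 6)
    rw [hg] at this
    simp only at this
    rwa [add_zero, add_sub_cancel] at this
  obtain ⟨C, hC, ht⟩ := tau_bound
  have hlim1 : Tendsto (fun x : ℝ => LSeries (fun n => (tau n : ℂ)) x) atTop (𝓝 1) := by
    have h1 := LSeries.tendsto_atTop (f := fun n => (tau n : ℂ))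
      (lt_of_le_of_lt (t_abscissa ht) (EReal.coe_lt_top _))
    have h2 : ((tau 1 : ℝ) : ℂ) = 1 := by rw [hecke.one, Complex.ofReal_one]
    rw [h2] at h1
    exact h1
  have hlim2 : Tendsto (fun n : ℕ => LSeries (fun n => (tau n : ℂ)) (((n : ℝ) + 1 : ℝ) : ℂ)) atTop
      (𝓝 1) :=
    hlim1.comp (tendsto_atTop_add_const_right _ _ tendsto_natCast_atTop_atTop)
  have hlim3 : Tendsto (fun n : ℕ => LSeries (fun n => (tau n : ℂ)) (((n : ℝ) + 1 : ℝ) : ℂ)) atTop
      (𝓝 0) := by
    have h1 : Tendsto (fun n : ℕ => (2 * Real.pi) ^ n / (n.factorial : ℝ)) atTop (𝓝 0) :=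
      FloorSemiring.tendsto_pow_div_factorial_atTop _
    have h2 : Tendsto (fun n : ℕ => (((2 * Real.pi) ^ n / (n.factorial : ℝ) : ℝ) : ℂ) *
        ((2 * Real.pi : ℂ) * Lam 6)) atTop (𝓝 0) := by
      have h3 := ((Complex.continuous_ofReal.tendsto 0).comp h1).mul_const
        ((2 * Real.pi : ℂ) * Lam 6)
      rw [Complex.ofReal_zero, zero_mul] at h3
      exact h3
    refine h2.congr' ?_
    filter_upwards [eventually_gt_atTop 7] with n hn
    have hn7 : (7 : ℝ) < n := by exact_mod_cast hn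
    have h4 := F_ser (((n : ℝ) + 1 : ℝ) : ℂ) (by rw [Complex.ofReal_re]; linarith)
    rw [← h4]
    unfold F
    rw [hL (((n : ℝ) + 1 : ℝ) : ℂ)]
    have e1 : (((n : ℝ) + 1 : ℝ) : ℂ) = (n : ℂ) + 1 := by push_cast; rfl
    rw [e1, Complex.Gamma_nat_eq_factorial, Complex.cpow_add _ _ two_pi_ne, Complex.cpow_natCast,
      Complex.cpow_one]
    push_cast
    field_simp
  exact one_ne_zero (tendsto_nhds_unique hlim2 hlim3)

/-- **Oscillation**: for `κ > e - 6` the averages are `Ω_±(x^{-κ})`, for all large `A`. -/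
theorem osc {e : ℝ} (he6 : 6 < e)
    (he : ∀ s : ℂ, e < s.re → LSeriesSummable (fun n => (cc n : ℂ)) s) {κ : ℝ} (hκ : e - 6 < κ) :
    (∃ A0 : ℝ, ∀ A : ℝ, A0 ≤ A → ∀ C X : ℝ, ∃ x : ℝ, X ≤ x ∧ rwin cc e A x < -(C * x ^ (-κ))) ∧
    (∃ A0 : ℝ, ∀ A : ℝ, A0 ≤ A → ∀ C X : ℝ, ∃ x : ℝ, X ≤ x ∧ C * x ^ (-κ) < rwin cc e A x) := by
  obtain ⟨s1, hs1⟩ := exists_zero
  set δ : ℝ := min κ (e - 5) with hδ
  have hδ6 : e - 6 < δ := lt_min hκ (by linarith)
  have hδκ : δ ≤ κ := min_le_left _ _
  have hδ5 : δ ≤ e - 5 := min_le_right _ _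
  have hT := crit he6 he (δ := δ) (by linarith) (by linarith)
  have hno : ¬ ∀ s : ℂ, e - δ < s.re → Lam s ≠ 0 := by
    intro h
    rcases lt_or_ge (e - δ) s1.re with h1 | h1
    · exact h s1 h1 hs1
    · refine h (12 - s1) ?_ (by rw [Lam_fe, hs1])
      simp
      linarith
  have h14 := hT.out 0 3
  have h15 := hT.out 0 4
  have hmono : ∀ {κ' : ℝ}, κ' < δ → ∀ C X x : ℝ, max X 1 ≤ x → C * x ^ (-κ) ≤ |C| * x ^ (-κ') := by
    intro κ' hκ' C X x hx
    have hx1 : 1 ≤ x := (le_max_right _ _).trans hx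
    exact mul_le_mul (le_abs_self C)
      (Real.rpow_le_rpow_of_exponent_le hx1 (by linarith)) (Real.rpow_nonneg (by linarith) _)
      (abs_nonneg C)
  constructor
  · by_contra hcon
    push Not at hcon
    apply hno
    rw [h14]
    intro κ' _ hκ' A0
    obtain ⟨A, hA, C, X, hX⟩ := hcon A0
    refine ⟨A, hA, |C|, max X 1, fun x hx => ?_⟩
    have h1 := hX x ((le_max_left _ _).trans hx)
    have h2 := hmono hκ' C X x hx
    linarith
  · by_contra hcon
    push Not at hcon
    apply hno
    rw [h15]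
    intro κ' _ hκ' A0
    obtain ⟨A, hA, C, X, hX⟩ := hcon A0
    refine ⟨A, hA, |C|, max X 1, fun x hx => ?_⟩
    have h1 := hX x ((le_max_left _ _).trans hx)
    have h2 := hmono hκ' C X x hx
    linarith

end Pool.Agent.N881.GW.DL
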